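import Mathlib

-- part Pool.Agent.P.MP_db4732_co.Hash
section

namespace Pool.Agent.P.MP_db4732_co

open Finset

variable {ι : Type*} [Fintype ι] [DecidableEq ι]

/-- squared euclidean norm of an integer vector -/
def nsq (a : ι → ℤ) : ℤ := ∑ i, a i ^ 2

/-- reduction of an integer vector -/
def red (m : ℕ) (a : ι → ℤ) : ι → ZMod m := fun i => (a i : ZMod m)

/-- linear hash -/
def hsh {p : ℕ} (θ : ι → ZMod p) (a : ι → ℤ) : ZMod p := ∑ i, θ i * (a i : ZMod p)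

/-- corner-freeness -/
def CF {G : Type*} [AddCommGroup G] (A : Finset (G × G)) : Prop :=
  ∀ x y z : G, z ≠ 0 → ¬ ((x, y) ∈ A ∧ (x, y + z) ∈ A ∧ (x + z, y) ∈ A)

omit [Fintype ι] [DecidableEq ι] in
theorem red_add (m : ℕ) (a b : ι → ℤ) : red m (a + b) = red m a + red m b := by
  ext i; simp [red]

omit [Fintype ι] [DecidableEq ι] in
theorem red_neg (m : ℕ) (a : ι → ℤ) : red m (-a) = -red m a := by
  ext i; simp [red]

omit [DecidableEq ι] in
theorem hsh_add {p : ℕ} (θ : ι → ZMod p) (a b : ι → ℤ) : hsh θ (a + b) = hsh θ a + hsh θ b := by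
  simp [hsh, mul_add, sum_add_distrib]

omit [DecidableEq ι] in
theorem hsh_neg {p : ℕ} (θ : ι → ZMod p) (a : ι → ℤ) : hsh θ (-a) = -hsh θ a := by
  simp [hsh]

omit [DecidableEq ι] in
theorem nsq_neg (a : ι → ℤ) : nsq (-a) = nsq a := by
  simp [nsq]

omit [DecidableEq ι] in
theorem nsq_identity (a b z : ι → ℤ) :
    nsq (a + b + z) + nsq a + nsq b + nsq z = nsq (a + b) + nsq (a + z) + nsq (b + z) := by
  simp only [nsq, ← sum_add_distrib, Pi.add_apply]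
  exact sum_congr rfl fun i _ => by ring

omit [DecidableEq ι] in
theorem nsq_eq_zero {z : ι → ℤ} (h : nsq z = 0) : z = 0 := by
  ext i
  have := (sum_eq_zero_iff_of_nonneg (fun i _ => sq_nonneg (z i))).1 h i (mem_univ i)
  simpa using this

theorem card_zero_fiber {p : ℕ} [Fact p.Prime] (v : ι → ZMod p) (hv : v ≠ 0) :
    #{θ : ι → ZMod p | ∑ i, θ i * v i = 0} * p = p ^ Fintype.card ι := by
  obtain ⟨j, hj⟩ : ∃ j, v j ≠ 0 := by
    by_contra h
    push Not at h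
    exact hv (funext h)
  let f : (ι → ZMod p) →+ ZMod p :=
    { toFun := fun θ => ∑ i, θ i * v i
      map_zero' := by simp
      map_add' := by intro x y; simp [add_mul, sum_add_distrib] }
  have hsurj : ∀ y, y ∈ Set.range f := by
    intro y
    refine ⟨Pi.single j (y / v j), ?_⟩
    show ∑ i, (Pi.single j (y / v j) : ι → ZMod p) i * v i = y
    rw [sum_eq_single j]
    · simp [hj]
    · intro b _ hb; simp [hb]
    · simp
  have h1 : (univ : Finset (ι → ZMod p)).card = ∑ y : ZMod p, #{θ : ι → ZMod p | f θ = y} :=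
    card_eq_sum_card_fiberwise (fun _ _ => mem_univ _)
  have h2 : ∀ y : ZMod p, #{θ : ι → ZMod p | f θ = y} = #{θ : ι → ZMod p | f θ = 0} :=
    fun y => AddMonoidHom.card_fiber_eq_of_mem_range f (hsurj y) (hsurj 0)
  simp only [h2, sum_const, card_univ, ZMod.card, Fintype.card_fun, smul_eq_mul] at h1
  rw [h1, mul_comm]
  rfl

/-- `a` is isolated in its residue class among the points of `D` with the same hash -/
def Iso {p : ℕ} (m : ℕ) (D : Finset (ι → ℤ)) (θ : ι → ZMod p) (a : ι → ℤ) : Prop :=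
  ∀ a' ∈ D, red m a' = red m a → hsh θ a' = hsh θ a → a' = a

open Classical in
theorem card_not_iso {p : ℕ} [Fact p.Prime] (m N : ℕ) (D : Finset (ι → ℤ))
    (hN : ∀ a ∈ D, #{a' ∈ D | red m a' = red m a} ≤ N)
    (hp : ∀ a ∈ D, ∀ a' ∈ D, red p a = red p a' → a = a') (a : ι → ℤ) (ha : a ∈ D) :
    #{θ : ι → ZMod p | ¬ Iso m D θ a} * p ≤ N * p ^ Fintype.card ι := by
  have hsub : ({θ : ι → ZMod p | ¬ Iso m D θ a} : Finset _) ⊆
      (({a' ∈ D | red m a' = red m a} : Finset _).erase a).biUnion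
        (fun a' => ({θ : ι → ZMod p | ∑ i, θ i * (red p a' - red p a) i = 0} : Finset _)) := by
    intro θ hθ
    replace hθ := (mem_filter.1 hθ).2
    unfold Iso at hθ
    push Not at hθ
    obtain ⟨a', h1, h2, h3, h4⟩ := hθ
    simp only [mem_biUnion, mem_erase, mem_filter, mem_univ, true_and]
    refine ⟨a', ⟨h4, h1, h2⟩, ?_⟩
    simp only [Pi.sub_apply, red, mul_sub, sum_sub_distrib]
    exact sub_eq_zero.2 h3
  calc _ ≤ (∑ a' ∈ ({a' ∈ D | red m a' = red m a} : Finset _).erase a,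
          #{θ : ι → ZMod p | ∑ i, θ i * (red p a' - red p a) i = 0}) * p :=
        Nat.mul_le_mul_right _ ((card_le_card hsub).trans card_biUnion_le)
    _ = ∑ a' ∈ ({a' ∈ D | red m a' = red m a} : Finset _).erase a, p ^ Fintype.card ι := by
        rw [sum_mul]
        refine sum_congr rfl fun a' ha' => card_zero_fiber _ ?_
        simp only [mem_erase, mem_filter] at ha'
        exact fun h => ha'.1 (hp _ ha'.2.1 _ ha (sub_eq_zero.1 h))
    _ ≤ N * p ^ Fintype.card ι := by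
        rw [sum_const, smul_eq_mul]
        exact Nat.mul_le_mul_right _ ((card_erase_le).trans (hN a ha))

theorem exists_big_fiber {α β : Type*} [Fintype β] [Nonempty β] [DecidableEq β] (s : Finset α)
    (f : α → β) : ∃ b, #s ≤ Fintype.card β * #{x ∈ s | f x = b} := by
  obtain ⟨b, -, hb⟩ := exists_max_image univ (fun b => #{x ∈ s | f x = b}) univ_nonempty
  refine ⟨b, ?_⟩
  rw [card_eq_sum_card_fiberwise (f := f) (t := univ) (fun _ _ => mem_univ _)]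
  calc _ ≤ ∑ _y : β, #{x ∈ s | f x = b} := sum_le_sum fun y _ => hb y (mem_univ y)
    _ = _ := by simp

open Classical in
theorem hash_main {p : ℕ} [Fact p.Prime] (m N : ℕ) (ρ : ℤ) (D : Finset (ι → ℤ))
    (hN : ∀ a ∈ D, #{a' ∈ D | red m a' = red m a} ≤ N)
    (hp : ∀ a ∈ D, ∀ a' ∈ D, red p a = red p a' → a = a') (hρ : ∀ a ∈ D, nsq a = ρ)
    (hNp : 6 * N ≤ p) (T : Finset ((ι → ℤ) × (ι → ℤ)))
    (hT : ∀ t ∈ T, t.1 ∈ D ∧ t.2 ∈ D ∧ -(t.1 + t.2) ∈ D) :
    ∃ A : Finset ((ι → ZMod m) × (ι → ZMod m)), CF A ∧ #T ≤ 2 * p ^ 2 * #A := by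
  have hp0 : 0 < p := (Fact.out : p.Prime).pos
  let good : (ι → ZMod p) → (ι → ℤ) × (ι → ℤ) → Prop := fun θ t =>
    Iso m D θ t.1 ∧ Iso m D θ t.2 ∧ Iso m D θ (-(t.1 + t.2))
  have hbad : ∀ t ∈ T, 2 * #{θ : ι → ZMod p | ¬ good θ t} ≤ p ^ Fintype.card ι := by
    intro t ht
    obtain ⟨h1, h2, h3⟩ := hT t ht
    have e1 := card_not_iso m N D hN hp _ h1
    have e2 := card_not_iso m N D hN hp _ h2
    have e3 := card_not_iso m N D hN hp _ h3
    have hsub : ({θ : ι → ZMod p | ¬ good θ t} : Finset _) ⊆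
        ({θ : ι → ZMod p | ¬ Iso m D θ t.1} : Finset _) ∪
        ({θ : ι → ZMod p | ¬ Iso m D θ t.2} : Finset _) ∪
        ({θ : ι → ZMod p | ¬ Iso m D θ (-(t.1 + t.2))} : Finset _) := by
      intro θ hθ
      simp only [mem_filter, mem_univ, true_and, mem_union, good] at hθ ⊢
      tauto
    have hc := (card_le_card hsub).trans ((card_union_le _ _).trans
      (Nat.add_le_add_right (card_union_le _ _) _))
    refine Nat.le_of_mul_le_mul_right ?_ hp0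
    calc 2 * #{θ : ι → ZMod p | ¬ good θ t} * p
        ≤ 2 * (N * p ^ Fintype.card ι + N * p ^ Fintype.card ι + N * p ^ Fintype.card ι) := by
          rw [mul_assoc]
          refine Nat.mul_le_mul_left _ ((Nat.mul_le_mul_right p hc).trans ?_)
          rw [add_mul, add_mul]
          exact Nat.add_le_add (Nat.add_le_add e1 e2) e3
      _ = p ^ Fintype.card ι * (6 * N) := by ring
      _ ≤ p ^ Fintype.card ι * p := Nat.mul_le_mul_left _ hNp
  obtain ⟨θ, -, hθ⟩ : ∃ θ ∈ (univ : Finset (ι → ZMod p)), 2 * #{t ∈ T | ¬ good θ t} ≤ #T := by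
    refine exists_le_of_sum_le univ_nonempty ?_
    have : ∑ θ : ι → ZMod p, #{t ∈ T | ¬ good θ t} = ∑ t ∈ T, #{θ : ι → ZMod p | ¬ good θ t} := by
      simp only [card_filter]
      exact sum_comm
    rw [← mul_sum, this, mul_sum]
    calc _ ≤ ∑ _t ∈ T, p ^ Fintype.card ι := sum_le_sum hbad
      _ = _ := by simp [mul_comm]
  have hgood : #T ≤ 2 * #{t ∈ T | good θ t} := by
    have := card_filter_add_card_filter_not (s := T) (fun t => good θ t)
    omega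
  obtain ⟨uv, huv⟩ := exists_big_fiber ({t ∈ T | good θ t} : Finset _)
    (fun t => (hsh θ t.1, hsh θ t.2))
  set T' : Finset ((ι → ℤ) × (ι → ℤ)) :=
    {x ∈ ({t ∈ T | good θ t} : Finset _) | (hsh θ x.1, hsh θ x.2) = uv} with hT'
  have hmem : ∀ t ∈ T', t ∈ T ∧ good θ t ∧ hsh θ t.1 = uv.1 ∧ hsh θ t.2 = uv.2 := by
    intro t ht
    simp only [hT', mem_filter] at ht
    exact ⟨ht.1.1, ht.1.2, by rw [← ht.2], by rw [← ht.2]⟩
  have k1 : ∀ t ∈ T', ∀ s ∈ T', red m t.1 = red m s.1 → t.1 = s.1 := by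
    intro t ht s hs h
    obtain ⟨a1, -, a3, -⟩ := hmem t ht
    obtain ⟨-, b2, b3, -⟩ := hmem s hs
    exact b2.1 _ (hT t a1).1 h (by rw [a3, b3])
  have k2 : ∀ t ∈ T', ∀ s ∈ T', red m t.2 = red m s.2 → t.2 = s.2 := by
    intro t ht s hs h
    obtain ⟨a1, -, -, a4⟩ := hmem t ht
    obtain ⟨-, b2, -, b4⟩ := hmem s hs
    exact b2.2.1 _ (hT t a1).2.1 h (by rw [a4, b4])
  have k3 : ∀ t ∈ T', ∀ s ∈ T', red m t.1 + red m t.2 = red m s.1 + red m s.2 →
      t.1 + t.2 = s.1 + s.2 := by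
    intro t ht s hs h
    obtain ⟨a1, -, a3, a4⟩ := hmem t ht
    obtain ⟨-, b2, b3, b4⟩ := hmem s hs
    have := b2.2.2 _ (hT t a1).2.2 (by rw [red_neg, red_neg, red_add, red_add, h])
      (by rw [hsh_neg, hsh_neg, hsh_add, hsh_add, a3, a4, b3, b4])
    exact neg_injective this
  refine ⟨T'.image (fun t => (red m t.1, red m t.2)), ?_, ?_⟩
  · rintro x y z hz ⟨h1, h2, h3⟩
    obtain ⟨t1, ht1, e1⟩ := mem_image.1 h1
    obtain ⟨t3, ht3, e3⟩ := mem_image.1 h2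
    obtain ⟨t2, ht2, e2⟩ := mem_image.1 h3
    simp only [Prod.mk.injEq] at e1 e2 e3
    have a13 : t3.1 = t1.1 := k1 _ ht3 _ ht1 (by rw [e1.1, e3.1])
    have b12 : t2.2 = t1.2 := k2 _ ht2 _ ht1 (by rw [e1.2, e2.2])
    have c23 : t2.1 + t2.2 = t3.1 + t3.2 :=
      k3 _ ht2 _ ht3 (by rw [e2.1, e2.2, e3.1, e3.2]; abel)
    have n1 := hT t1 (hmem t1 ht1).1
    have n2 := hT t2 (hmem t2 ht2).1
    have n3 := hT t3 (hmem t3 ht3).1
    set ζ := t2.1 - t1.1 with hζ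
    have q1 : t2.1 = t1.1 + ζ := by rw [hζ]; abel
    have q2 : t3.2 = t1.2 + ζ := by
      rw [hζ, ← b12, ← a13]; linear_combination -c23
    have q3 : t2.1 + t2.2 = t1.1 + t1.2 + ζ := by rw [q1, b12]; abel
    have id := nsq_identity t1.1 t1.2 ζ
    rw [← q3, ← q1, ← q2, ← nsq_neg (t2.1 + t2.2), ← nsq_neg (t1.1 + t1.2), hρ _ n1.1, hρ _ n1.2.1,
      hρ _ n1.2.2, hρ _ n2.1, hρ _ n2.2.2, hρ _ n3.2.1] at id
    have hζ0 : ζ = 0 := nsq_eq_zero (by linarith)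
    rw [hζ0, add_zero] at q1
    apply hz
    have : x + z = x := by rw [← e2.1, q1, e1.1]
    simpa using this
  · rw [card_image_of_injOn]
    · calc #T ≤ 2 * #{t ∈ T | good θ t} := hgood
        _ ≤ 2 * (Fintype.card (ZMod p × ZMod p) * #T') := Nat.mul_le_mul_left _ huv
        _ = _ := by simp [ZMod.card]; ring
    · intro t ht s hs h
      simp only [Prod.mk.injEq] at h
      exact Prod.ext (k1 _ ht _ hs h.1) (k2 _ ht _ hs h.2)

end Pool.Agent.P.MP_db4732_co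
end

-- part Pool.Agent.P.MP_db4732_co.Sym
section

namespace Pool.Agent.P.MP_db4732_co

open Finset

/-- number of points of a given norm in a residue class -/
theorem card_fiber_le {ι : Type*} [Fintype ι] [DecidableEq ι] (m B : ℕ) (l K : ℝ) (ρ : ℤ)
    (hK : ∀ e : ZMod m, ∑ x ∈ (Icc (-(B : ℤ)) B).filter (fun x : ℤ => (x : ZMod m) = e),
      Real.exp (-l * (x : ℝ) ^ 2) ≤ K)
    (e : ι → ZMod m) :
    (#{a' ∈ ({a ∈ Fintype.piFinset (fun _ : ι => Icc (-(B : ℤ)) B) | nsq a = ρ} : Finset _) |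
      red m a' = e} : ℝ) ≤ K ^ Fintype.card ι * Real.exp (l * ρ) := by
  set S := ({a' ∈ ({a ∈ Fintype.piFinset (fun _ : ι => Icc (-(B : ℤ)) B) | nsq a = ρ} : Finset _) |
      red m a' = e} : Finset _) with hS
  have h1 : (#S : ℝ) * Real.exp (-l * ρ) = ∑ a ∈ S, ∏ i, Real.exp (-l * (a i : ℝ) ^ 2) := by
    rw [← nsmul_eq_mul, ← sum_const]
    refine sum_congr rfl fun a ha => ?_
    simp only [hS, mem_filter] at ha
    rw [← Real.exp_sum, ← mul_sum, ← ha.1.2, nsq]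
    push_cast; rfl
  have h2 : S ⊆ Fintype.piFinset
      (fun i : ι => ({x ∈ Icc (-(B : ℤ)) B | (x : ZMod m) = e i} : Finset ℤ)) := by
    intro a ha
    simp only [hS, mem_filter, Fintype.mem_piFinset] at ha ⊢
    exact fun i => ⟨ha.1.1 i, congrFun ha.2 i⟩
  have h3 : ∑ a ∈ S, ∏ i, Real.exp (-l * (a i : ℝ) ^ 2) ≤ K ^ Fintype.card ι := by
    refine (sum_le_sum_of_subset_of_nonneg h2 fun a _ _ => by positivity).trans ?_
    rw [← prod_univ_sum (fun i : ι => ({x ∈ Icc (-(B : ℤ)) B | (x : ZMod m) = e i} : Finset ℤ))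
      (fun _ x => Real.exp (-l * (x : ℝ) ^ 2))]
    calc _ ≤ ∏ _i : ι, K := prod_le_prod (fun i _ => by positivity) (fun i _ => hK (e i))
      _ = K ^ Fintype.card ι := by simp
  have h4 : (#S : ℝ) = (#S : ℝ) * Real.exp (-l * ρ) * Real.exp (l * ρ) := by
    rw [mul_assoc, ← Real.exp_add]; simp
  rw [h4, h1]
  exact mul_le_mul_of_nonneg_right h3 (Real.exp_pos _).le

theorem abs_le_of_sq_le {x : ℤ} {B : ℕ} (h : x ^ 2 ≤ B) : x ∈ Icc (-(B : ℤ)) B := by
  rw [mem_Icc]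
  constructor <;> nlinarith [sq_nonneg (x - 1), sq_nonneg (x + 1), sq_nonneg x]

theorem final_ineq (Y K l ρ T p A : ℝ) (B k : ℕ) (hY0 : 0 ≤ Y) (hK1 : 1 ≤ K) (_hT : 0 ≤ T)
    (hp : 0 ≤ p) (hA : 0 ≤ A) (hX1 : 1 ≤ K ^ (3 * k) * Real.exp (l * ρ))
    (hT0c : Y ^ k / (k * B + 1) ^ 3 ≤ T * Real.exp (-(2 * l / 3) * ρ))
    (hA3 : T ^ 3 ≤ 2 * p ^ 2 * A)
    (h1 : p ≤ 2 * (6 * (⌊K ^ (3 * k) * Real.exp (l * ρ)⌋₊ : ℝ) + 2 * B + 1)) :
    (Y / K ^ 2) ^ (3 * k) ≤ 8 * (2 * B + 7) ^ 2 * (k * B + 1) ^ 9 * A := by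
  have hM : (0 : ℝ) < (k * B + 1) ^ 3 := by positivity
  have hK0 : 0 < K := by linarith
  have e3 : (K ^ (3 * k) * Real.exp (l * ρ)) ^ 2 * Real.exp (-(2 * l) * ρ)
      = (K ^ 2) ^ (3 * k) := by
    rw [mul_pow, mul_assoc, ← Real.exp_nat_mul, ← Real.exp_add]
    have : ((2 : ℕ) : ℝ) * (l * ρ) + -(2 * l) * ρ = 0 := by push_cast; ring
    rw [this, Real.exp_zero, mul_one, ← pow_mul, ← pow_mul, mul_comm]
  generalize K ^ (3 * k) * Real.exp (l * ρ) = X at hX1 h1 e3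
  have hpX : p ≤ 2 * (2 * B + 7) * X := by
    have h2 : (⌊X⌋₊ : ℝ) ≤ X := Nat.floor_le (by linarith)
    have h3 : (0 : ℝ) ≤ B := Nat.cast_nonneg B
    nlinarith
  have e1 : Y ^ k ≤ (k * B + 1) ^ 3 * (T * Real.exp (-(2 * l / 3) * ρ)) := by
    rwa [div_le_iff₀' hM] at hT0c
  have e0 : Real.exp (-(2 * l / 3) * ρ) ^ 3 = Real.exp (-(2 * l) * ρ) := by
    rw [← Real.exp_nat_mul]
    congr 1
    push_cast; ring
  have hE : 0 < Real.exp (-(2 * l / 3) * ρ) := Real.exp_pos _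
  have hE' : 0 < Real.exp (-(2 * l) * ρ) := Real.exp_pos _
  generalize Real.exp (-(2 * l / 3) * ρ) = E at e1 e0 hE
  generalize Real.exp (-(2 * l) * ρ) = E' at e3 e0 hE'
  have hQ : (0 : ℝ) < k * B + 1 := by positivity
  generalize (k * B + 1 : ℝ) = Q at e1 hQ ⊢
  have e2 : Y ^ (3 * k) ≤ Q ^ 9 * T ^ 3 * E' := by
    calc Y ^ (3 * k) = (Y ^ k) ^ 3 := by rw [← pow_mul, mul_comm]
      _ ≤ (Q ^ 3 * (T * E)) ^ 3 := pow_le_pow_left₀ (by positivity) e1 3
      _ = Q ^ 9 * T ^ 3 * E' := by rw [← e0]; ring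
  rw [div_pow, div_le_iff₀ (by positivity), ← e3]
  have e4 : T ^ 3 ≤ 2 * (2 * (2 * B + 7) * X) ^ 2 * A := by
    refine hA3.trans ?_
    gcongr
  calc Y ^ (3 * k) ≤ Q ^ 9 * T ^ 3 * E' := e2
    _ ≤ Q ^ 9 * (2 * (2 * (2 * B + 7) * X) ^ 2 * A) * E' := by gcongr
    _ = _ := by ring

theorem sym_main {σ : Type*} [Fintype σ] [DecidableEq σ] (α β : σ → ℤ)
    (hinj : ∀ x y, α x = α y → β x = β y → x = y) (m B : ℕ)
    (hα : ∀ x, α x ^ 2 ≤ B) (hβ : ∀ x, β x ^ 2 ≤ B) (hγ : ∀ x, (α x + β x) ^ 2 ≤ B)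
    (l K : ℝ) (hl : 0 ≤ l) (hK1 : 1 ≤ K)
    (hK : ∀ e : ZMod m, ∑ x ∈ (Icc (-(B : ℤ)) B).filter (fun x : ℤ => (x : ZMod m) = e),
      Real.exp (-l * (x : ℝ) ^ 2) ≤ K)
    (k : ℕ) :
    ∃ A : Finset ((Fin 3 × Fin k → ZMod m) × (Fin 3 × Fin k → ZMod m)), CF A ∧
      ((∑ x, Real.exp (-(2 * l / 3) * ((α x : ℝ) ^ 2 + (β x : ℝ) ^ 2 + (α x + β x : ℝ) ^ 2)))
        / K ^ 2) ^ (3 * k) ≤ 8 * (2 * B + 7) ^ 2 * (k * B + 1) ^ 9 * #A := by
  set Y := ∑ x, Real.exp (-(2 * l / 3) * ((α x : ℝ) ^ 2 + (β x : ℝ) ^ 2 + (α x + β x : ℝ) ^ 2))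
    with hY
  let w : σ → ℝ := fun x =>
    Real.exp (-(2 * l / 3) * ((α x : ℝ) ^ 2 + (β x : ℝ) ^ 2 + (α x + β x : ℝ) ^ 2))
  let cls : (Fin k → σ) → ℤ × ℤ × ℤ := fun t =>
    (∑ i, α (t i) ^ 2, ∑ i, β (t i) ^ 2, ∑ i, (α (t i) + β (t i)) ^ 2)
  let I : Finset ℤ := Icc 0 (k * B)
  have hI : ∀ f : σ → ℤ, (∀ x, f x ^ 2 ≤ B) → ∀ t : Fin k → σ, ∑ i, f (t i) ^ 2 ∈ I := by
    intro f hf t
    simp only [I, mem_Icc]
    refine ⟨sum_nonneg fun i _ => sq_nonneg _, ?_⟩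
    calc _ ≤ ∑ _i : Fin k, (B : ℤ) := sum_le_sum fun i _ => hf _
      _ = _ := by simp
  have hcardI : #I = k * B + 1 := by
    simp only [I, Int.card_Icc]
    have : (k : ℤ) * B + 1 - 0 = ((k * B + 1 : ℕ) : ℤ) := by push_cast; ring
    rw [this, Int.toNat_natCast]
  have hM : (0 : ℝ) < (k * B + 1) ^ 3 := by positivity
  obtain ⟨r, hr, hr2⟩ := exists_le_sum_fiber_of_maps_to_of_nsmul_le_sum
    (s := (univ : Finset (Fin k → σ))) (t := I ×ˢ I ×ˢ I) (f := cls)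
    (w := fun t => ∏ i, w (t i)) (b := Y ^ k / (k * B + 1) ^ 3)
    (fun t _ => by
      simp only [cls, mem_product]
      exact ⟨hI α hα t, hI β hβ t, hI (fun x => α x + β x) hγ t⟩)
    (by
      have : I.Nonempty := card_pos.1 (by omega)
      exact this.product (this.product this))
    (by
      rw [← Fintype.sum_pow, card_product, card_product, hcardI, nsmul_eq_mul]
      push_cast
      apply le_of_eq
      field_simp
      rfl)
  set T0 : Finset (Fin k → σ) := {t | cls t = r} with hT0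
  set ρ : ℤ := r.1 + r.2.1 + r.2.2 with hρ
  have hr0 : 0 ≤ ρ := by
    simp only [mem_product, I, mem_Icc] at hr
    omega
  have hT0m : ∀ t ∈ T0, ∑ i, α (t i) ^ 2 = r.1 ∧ ∑ i, β (t i) ^ 2 = r.2.1 ∧
      ∑ i, (α (t i) + β (t i)) ^ 2 = r.2.2 := by
    intro t ht
    have := (mem_filter.1 ht).2
    simp only [cls] at this
    rw [← this]
    exact ⟨rfl, rfl, rfl⟩
  have hT0c : Y ^ k / (k * B + 1) ^ 3 ≤ #T0 * Real.exp (-(2 * l / 3) * ρ) := by
    refine hr2.trans (le_of_eq ?_)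
    rw [← nsmul_eq_mul, ← sum_const]
    refine sum_congr rfl fun t ht => ?_
    obtain ⟨h1, h2, h3⟩ := hT0m t ht
    simp only [w]
    rw [← Real.exp_sum, ← mul_sum, hρ, ← h1, ← h2, ← h3, sum_add_distrib, sum_add_distrib]
    push_cast; rfl
  let Φ : (Fin k → σ) × (Fin k → σ) × (Fin k → σ) → (Fin 3 × Fin k → ℤ) × (Fin 3 × Fin k → ℤ) :=
    fun t => (fun j => ![α (t.1 j.2), β (t.2.1 j.2), -(α (t.2.2 j.2) + β (t.2.2 j.2))] j.1,
      fun j => ![β (t.1 j.2), -(α (t.2.1 j.2) + β (t.2.1 j.2)), α (t.2.2 j.2)] j.1)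
  have hΦ : Function.Injective Φ := by
    intro s t h
    have h1 := congrArg Prod.fst h
    have h2 := congrArg Prod.snd h
    refine Prod.ext (funext fun i => ?_) (Prod.ext (funext fun i => ?_) (funext fun i => ?_))
    · have a := congrFun h1 (0, i)
      have b := congrFun h2 (0, i)
      simp [Φ] at a b
      exact hinj _ _ a b
    · have a := congrFun h1 (1, i)
      have b := congrFun h2 (1, i)
      simp [Φ] at a b
      exact hinj _ _ (by omega) a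
    · have a := congrFun h1 (2, i)
      have b := congrFun h2 (2, i)
      simp [Φ] at a b
      exact hinj _ _ b (by omega)
  set D : Finset (Fin 3 × Fin k → ℤ) :=
    {a ∈ Fintype.piFinset (fun _ : Fin 3 × Fin k => Icc (-(B : ℤ)) B) | nsq a = ρ} with hD
  set X : ℝ := K ^ (3 * k) * Real.exp (l * ρ) with hX
  have hX1 : 1 ≤ X := by
    have h1 : 1 ≤ K ^ (3 * k) := one_le_pow₀ hK1
    have h2 : 1 ≤ Real.exp (l * ρ) := Real.one_le_exp (by positivity)
    nlinarith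
  obtain ⟨p, hp, hp1, hp2⟩ := Nat.exists_prime_lt_and_le_two_mul (6 * ⌊X⌋₊ + 2 * B + 1) (by omega)
  have : Fact p.Prime := ⟨hp⟩
  have hnα : ∀ x, (-(α x + β x)) ^ 2 ≤ (B : ℤ) := fun x => by rw [neg_sq]; exact hγ x
  obtain ⟨A, hA, hA2⟩ := hash_main (p := p) m ⌊X⌋₊ ρ D
    (by
      intro a _
      apply Nat.le_floor
      have := card_fiber_le (ι := Fin 3 × Fin k) m B l K ρ hK (red m a)
      rw [Fintype.card_prod, Fintype.card_fin, Fintype.card_fin] at this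
      convert this)
    (by
      intro a ha a' ha' h
      simp only [hD, mem_filter, Fintype.mem_piFinset, mem_Icc] at ha ha'
      ext i
      have h1 : ((a i : ℤ) : ZMod p) = (a' i : ℤ) := congrFun h i
      rw [ZMod.intCast_eq_intCast_iff_dvd_sub] at h1
      have h2 := ha.1 i
      have h3 := ha'.1 i
      have := Int.eq_zero_of_abs_lt_dvd h1 (by rw [abs_lt]; constructor <;> omega)
      omega)
    (fun a ha => (mem_filter.1 ha).2) (by omega) ((T0 ×ˢ T0 ×ˢ T0).image Φ)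
    (by
      intro t ht
      obtain ⟨s, hs, rfl⟩ := mem_image.1 ht
      simp only [mem_product] at hs
      obtain ⟨a1, a2, a3⟩ := hT0m _ hs.1
      obtain ⟨b1, b2, b3⟩ := hT0m _ hs.2.1
      obtain ⟨c1, c2, c3⟩ := hT0m _ hs.2.2
      simp only [hD, mem_filter, Fintype.mem_piFinset]
      refine ⟨⟨?_, ?_⟩, ⟨?_, ?_⟩, ⟨?_, ?_⟩⟩
      · rintro ⟨j, i⟩
        apply abs_le_of_sq_le
        fin_cases j
        · exact hα _
        · exact hβ _
        · exact hnα _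
      · rw [nsq, Fintype.sum_prod_type, Fin.sum_univ_three, hρ, ← a1, ← b2, ← c3]
        simp [Φ, -neg_add_rev]
      · rintro ⟨j, i⟩
        apply abs_le_of_sq_le
        fin_cases j
        · exact hβ _
        · exact hnα _
        · exact hα _
      · rw [nsq, Fintype.sum_prod_type, Fin.sum_univ_three, hρ, ← c1, ← a2, ← b3]
        simp [Φ, -neg_add_rev]
        ring
      · rintro ⟨j, i⟩
        apply abs_le_of_sq_le
        fin_cases j
        · exact hnα _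
        · simpa [Φ] using hα _
        · simpa [Φ] using hβ _
      · rw [nsq, Fintype.sum_prod_type, Fin.sum_univ_three, hρ, ← b1, ← c2, ← a3]
        simp [Φ, -neg_add_rev]
        ring_nf)
  refine ⟨A, hA, ?_⟩
  rw [card_image_of_injective _ hΦ, card_product, card_product] at hA2
  have hA3 : (#T0 : ℝ) ^ 3 ≤ 2 * (p : ℝ) ^ 2 * #A := by
    have : ((#T0 * (#T0 * #T0) : ℕ) : ℝ) ≤ ((2 * p ^ 2 * #A : ℕ) : ℝ) := Nat.cast_le.2 hA2
    push_cast at this
    nlinarith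
  have hpX : (p : ℝ) ≤ 2 * (6 * (⌊X⌋₊ : ℝ) + 2 * B + 1) := by exact_mod_cast hp2
  have hY0 : 0 ≤ Y := sum_nonneg fun x _ => (Real.exp_pos _).le
  exact final_ineq Y K l ρ (#T0) p (#A) B k hY0 hK1 (Nat.cast_nonneg _) (Nat.cast_nonneg _)
    (Nat.cast_nonneg _) hX1 hT0c hA3 hpX

end Pool.Agent.P.MP_db4732_co
end

-- part Pool.Agent.P.MP_db4732_co.Gauss
section

namespace Pool.Agent.P.MP_db4732_co

open Finset Real Filter Topology

theorem gauss_antitoneOn (t : ℝ) (ht : 0 < t) (R : ℕ) :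
    AntitoneOn (fun x : ℝ => exp (-t * x ^ 2)) (Set.Icc (0 : ℝ) (0 + R)) := by
  intro x hx y _ hxy
  apply exp_le_exp.2
  have : x ^ 2 ≤ y ^ 2 := pow_le_pow_left₀ hx.1 hxy 2
  nlinarith

theorem gauss_upper (t : ℝ) (ht : 0 < t) (R : ℕ) :
    ∑ j ∈ range R, exp (-t * ((j : ℝ) + 1) ^ 2) ≤ √(π / t) / 2 := by
  have h := (gauss_antitoneOn t ht R).sum_le_integral
  simp only [zero_add, Nat.cast_add, Nat.cast_one] at h
  refine h.trans ?_
  rw [← integral_gaussian_Ioi, intervalIntegral.integral_of_le (Nat.cast_nonneg R)]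
  refine MeasureTheory.setIntegral_mono_set (integrable_exp_neg_mul_sq ht).integrableOn
    (Eventually.of_forall fun x => (exp_pos _).le) ?_
  exact Set.Ioc_subset_Ioi_self.eventuallyLE

theorem gauss_upper' (t : ℝ) (ht : 0 < t) (R : ℕ) :
    ∑ j ∈ range (R + 1), exp (-t * (j : ℝ) ^ 2) ≤ 1 + √(π / t) / 2 := by
  rw [sum_range_succ']
  have := gauss_upper t ht R
  simp only [Nat.cast_add, Nat.cast_one, Nat.cast_zero] at this ⊢
  simp only [ne_eq, OfNat.ofNat_ne_zero, not_false_eq_true, zero_pow, mul_zero, exp_zero]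
  linarith

theorem gauss_lower (t : ℝ) (ht : 0 < t) :
    ∀ᶠ R : ℕ in atTop, √(π / t) / 2 - 2 ≤ ∑ j ∈ range R, exp (-t * ((j : ℝ) + 1) ^ 2) := by
  have h := MeasureTheory.intervalIntegral_tendsto_integral_Ioi (μ := MeasureTheory.volume)
    (f := fun x : ℝ => exp (-t * x ^ 2)) (b := fun R : ℕ => (R : ℝ)) (l := atTop) 0
    (integrable_exp_neg_mul_sq ht).integrableOn tendsto_natCast_atTop_atTop
  rw [integral_gaussian_Ioi] at h
  have h2 := h.eventually (lt_mem_nhds (show √(π / t) / 2 - 1 < √(π / t) / 2 by linarith))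
  filter_upwards [h2] with R hR
  have h3 := (gauss_antitoneOn t ht R).integral_le_sum
  simp only [zero_add] at h3
  have h4 : ∑ j ∈ range (R + 1), exp (-t * (j : ℝ) ^ 2)
      = ∑ j ∈ range R, exp (-t * ((j : ℝ) + 1) ^ 2) + 1 := by
    rw [sum_range_succ']; simp
  have h5 : ∑ j ∈ range R, exp (-t * (j : ℝ) ^ 2) ≤ ∑ j ∈ range (R + 1), exp (-t * (j : ℝ) ^ 2) := by
    rw [sum_range_succ]; linarith [exp_pos (-t * (R : ℝ) ^ 2)]
  linarith

theorem half_sum (l : ℝ) (hl : 0 < l) (m B : ℕ) (hm : 0 < m) (S : Finset ℤ)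
    (h1 : ∀ x ∈ S, ∀ y ∈ S, x.natAbs / m = y.natAbs / m → x = y) (h2 : ∀ x ∈ S, x.natAbs ≤ B) :
    ∑ x ∈ S, exp (-l * (x : ℝ) ^ 2) ≤ 1 + √(π / (l * m ^ 2)) / 2 := by
  refine le_trans ?_ (gauss_upper' (l * m ^ 2) (by positivity) B)
  calc ∑ x ∈ S, exp (-l * (x : ℝ) ^ 2)
      ≤ ∑ x ∈ S, exp (-(l * m ^ 2) * ((x.natAbs / m : ℕ) : ℝ) ^ 2) := by
        refine sum_le_sum fun x _ => exp_le_exp.2 ?_
        have e1 : m * (x.natAbs / m) ≤ x.natAbs := Nat.mul_div_le _ _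
        have e2 : (m : ℝ) * ((x.natAbs / m : ℕ) : ℝ) ≤ (x.natAbs : ℝ) := by exact_mod_cast e1
        have e3 : ((x.natAbs : ℕ) : ℝ) ^ 2 = (x : ℝ) ^ 2 := by
          rw [Nat.cast_natAbs, Int.cast_abs, sq_abs]
        have e4 := pow_le_pow_left₀ (by positivity) e2 2
        rw [e3] at e4
        nlinarith
    _ = ∑ j ∈ S.image (fun x => x.natAbs / m), exp (-(l * m ^ 2) * (j : ℝ) ^ 2) := by
        rw [sum_image h1]
    _ ≤ _ := by
        refine sum_le_sum_of_subset_of_nonneg ?_ fun _ _ _ => (exp_pos _).le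
        intro j hj
        obtain ⟨x, hx, rfl⟩ := mem_image.1 hj
        have := h2 x hx
        have := Nat.div_le_self x.natAbs m
        rw [mem_range]; omega

theorem class_sum (l : ℝ) (hl : 0 < l) (m B : ℕ) (hm : 0 < m) (e : ZMod m) :
    ∑ x ∈ (Icc (-(B : ℤ)) B).filter (fun x : ℤ => (x : ZMod m) = e), exp (-l * (x : ℝ) ^ 2)
      ≤ 2 + √(π / (l * m ^ 2)) := by
  set S := (Icc (-(B : ℤ)) B).filter (fun x : ℤ => (x : ZMod m) = e) with hS
  have key : ∀ x ∈ S, ∀ y ∈ S, (0 ≤ x ↔ 0 ≤ y) → x.natAbs / m = y.natAbs / m → x = y := by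
    intro x hx y hy hs h
    have hd : (m : ℤ) ∣ y - x := by
      rw [← ZMod.intCast_eq_intCast_iff_dvd_sub, (mem_filter.1 hx).2, (mem_filter.1 hy).2]
    have a1 := Nat.div_add_mod x.natAbs m
    have a2 := Nat.div_add_mod y.natAbs m
    have a3 := Nat.mod_lt x.natAbs hm
    have a4 := Nat.mod_lt y.natAbs hm
    rw [h] at a1
    have := Int.eq_zero_of_abs_lt_dvd hd (by rw [abs_lt]; constructor <;> omega)
    omega
  have hB : ∀ x ∈ S, x.natAbs ≤ B := by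
    intro x hx
    have := mem_Icc.1 (mem_filter.1 hx).1
    omega
  rw [← sum_filter_add_sum_filter_not S (fun x => 0 ≤ x)]
  have b1 := half_sum l hl m B hm (S.filter (fun x => 0 ≤ x))
    (fun x hx y hy => key x (mem_filter.1 hx).1 y (mem_filter.1 hy).1
      (iff_of_true (mem_filter.1 hx).2 (mem_filter.1 hy).2))
    (fun x hx => hB x (mem_filter.1 hx).1)
  have b2 := half_sum l hl m B hm (S.filter (fun x => ¬ 0 ≤ x))
    (fun x hx y hy => key x (mem_filter.1 hx).1 y (mem_filter.1 hy).1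
      (iff_of_false (mem_filter.1 hx).2 (mem_filter.1 hy).2))
    (fun x hx => hB x (mem_filter.1 hx).1)
  linarith

/-- signed index -/
def sg {R : ℕ} (x : Bool × Fin R) : ℤ := if x.1 then (x.2 : ℕ) else -((x.2 : ℕ) + 1)

theorem sg_inj {R : ℕ} {x y : Bool × Fin R} (h : sg x = sg y) : x = y := by
  obtain ⟨a, i⟩ := x
  obtain ⟨b, j⟩ := y
  cases a <;> cases b <;> simp [sg] at h ⊢ <;> omega

theorem sg_sq {R : ℕ} (x : Bool × Fin R) (e : Bool) :
    (2 * sg x + (if e then 1 else 0)) ^ 2 ≤ 4 * (((x.2 : ℕ) : ℤ) + 1) ^ 2 := by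
  obtain ⟨a, i⟩ := x
  have : (0 : ℤ) ≤ (i : ℕ) := Int.natCast_nonneg _
  cases a <;> cases e <;> simp [sg] <;> nlinarith

/-- first coordinate -/
def al {R : ℕ} (x : Bool × (Bool × Fin R) × (Bool × Fin R)) : ℤ := sg x.2.1 - sg x.2.2

/-- second coordinate -/
def be {R : ℕ} (x : Bool × (Bool × Fin R) × (Bool × Fin R)) : ℤ :=
  2 * sg x.2.2 + (if x.1 then 1 else 0)

theorem albe_inj {R : ℕ} (x y : Bool × (Bool × Fin R) × (Bool × Fin R)) (h1 : al x = al y)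
    (h2 : be x = be y) : x = y := by
  obtain ⟨e, u, v⟩ := x
  obtain ⟨e', u', v'⟩ := y
  simp only [al, be] at h1 h2
  have : e = e' ∧ sg v = sg v' := by
    cases e <;> cases e' <;> simp at h2 ⊢ <;> omega
  have h3 : sg u = sg u' := by omega
  rw [this.1, sg_inj this.2, sg_inj h3]

theorem albe_sq {R : ℕ} (x : Bool × (Bool × Fin R) × (Bool × Fin R)) :
    al x ^ 2 + be x ^ 2 + (al x + be x) ^ 2 ≤
      2 * (((x.2.1.2 : ℕ) : ℤ) + 1) ^ 2 + 6 * (((x.2.2.2 : ℕ) : ℤ) + 1) ^ 2 := by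
  have a := sg_sq x.2.1 x.1
  have b := sg_sq x.2.2 x.1
  simp only [al, be]
  nlinarith

theorem albe_bound {R : ℕ} (x : Bool × (Bool × Fin R) × (Bool × Fin R)) :
    al x ^ 2 + be x ^ 2 + (al x + be x) ^ 2 ≤ ((8 * R ^ 2 : ℕ) : ℤ) := by
  refine (albe_sq x).trans ?_
  have a : ((x.2.1.2 : ℕ) : ℤ) + 1 ≤ R := by have := x.2.1.2.2; omega
  have b : ((x.2.2.2 : ℕ) : ℤ) + 1 ≤ R := by have := x.2.2.2.2; omega
  have a2 := pow_le_pow_left₀ (by positivity) a 2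
  have b2 := pow_le_pow_left₀ (by positivity) b 2
  push_cast
  linarith

theorem Y_lower (l : ℝ) (hl : 0 < l) (R : ℕ) :
    8 * ((∑ j ∈ range R, exp (-(4 * l / 3) * ((j : ℝ) + 1) ^ 2)) *
      ∑ j ∈ range R, exp (-(4 * l) * ((j : ℝ) + 1) ^ 2)) ≤
    ∑ x : Bool × (Bool × Fin R) × (Bool × Fin R),
      exp (-(2 * l / 3) * ((al x : ℝ) ^ 2 + (be x : ℝ) ^ 2 + (al x + be x : ℝ) ^ 2)) := by
  calc _ = ∑ x : Bool × (Bool × Fin R) × (Bool × Fin R),
        exp (-(4 * l / 3) * (((x.2.1.2 : ℕ) : ℝ) + 1) ^ 2) *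
          exp (-(4 * l) * (((x.2.2.2 : ℕ) : ℝ) + 1) ^ 2) := by
        rw [← Fin.sum_univ_eq_sum_range (fun j => exp (-(4 * l / 3) * ((j : ℝ) + 1) ^ 2)),
          ← Fin.sum_univ_eq_sum_range (fun j => exp (-(4 * l) * ((j : ℝ) + 1) ^ 2))]
        simp only [Fintype.sum_prod_type, Fintype.sum_bool, ← mul_sum, ← sum_mul]
        ring
    _ ≤ _ := by
        refine sum_le_sum fun x _ => ?_
        rw [← exp_add]
        apply exp_le_exp.2
        have h : ((al x ^ 2 + be x ^ 2 + (al x + be x) ^ 2 : ℤ) : ℝ) ≤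
          ((2 * (((x.2.1.2 : ℕ) : ℤ) + 1) ^ 2 + 6 * (((x.2.2.2 : ℕ) : ℤ) + 1) ^ 2 : ℤ) : ℝ) :=
          Int.cast_le.2 (albe_sq x)
        push_cast at h
        nlinarith

theorem exists_u (m : ℕ) (hm : 0 < m) (c : ℝ) (hc : c < √3 / 2 * m ^ 2) :
    ∃ u : ℝ, 16 ≤ u ∧ c * (2 + u / m) ^ 2 < 8 * ((u * √3 / 4 - 2) * (u / 4 - 2)) := by
  have hm1 : (1 : ℝ) ≤ m := by exact_mod_cast hm
  have hm0 : (0 : ℝ) < m := by linarith
  set δ : ℝ := √3 / 2 - c / m ^ 2 with hδ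
  have hδ0 : 0 < δ := by
    rw [hδ, sub_pos, div_lt_iff₀ (by positivity)]; exact hc
  have h3 : √3 < 2 := by
    rw [sqrt_lt' (by norm_num)]; norm_num
  have hca : 0 ≤ |c| := abs_nonneg c
  refine ⟨16 + (8 * |c| + 12) / δ, by have : 0 ≤ (8 * |c| + 12) / δ := by positivity
                                      linarith, ?_⟩
  set u : ℝ := 16 + (8 * |c| + 12) / δ with hu
  have hu16 : 16 ≤ u := by
    have : 0 ≤ (8 * |c| + 12) / δ := by positivity
    linarith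
  have hδu : 8 * |c| + 12 ≤ δ * u := by
    rw [hu, mul_add, mul_div_cancel₀ _ hδ0.ne']; linarith
  have e1 : c * (2 + u / m) ^ 2 = 4 * c + 4 * (c / m) * u + (c / m ^ 2) * u ^ 2 := by
    field_simp; ring
  have e2 : c / m ≤ |c| := by
    rw [div_le_iff₀ hm0]; nlinarith [le_abs_self c]
  have e3 : c / m ^ 2 = √3 / 2 - δ := by rw [hδ]; ring
  rw [e1, e3]
  have e4 : (8 * |c| + 12) * u ≤ δ * u * u := mul_le_mul_of_nonneg_right hδu (by linarith)
  have e5 : 4 * (c / m) * u ≤ 4 * |c| * u := by gcongr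
  have e6 : √3 * u ≤ 2 * u := by gcongr
  have e7 : |c| ≤ |c| * u := by nlinarith
  nlinarith [le_abs_self c]

theorem exists_params (m : ℕ) (hm : 0 < m) (c : ℝ) (hc : c < √3 / 2 * m ^ 2) :
    ∃ (l K : ℝ) (R : ℕ), 0 < l ∧ 1 ≤ K ∧
      (∀ (B : ℕ) (e : ZMod m), ∑ x ∈ (Icc (-(B : ℤ)) B).filter (fun x : ℤ => (x : ZMod m) = e),
        exp (-l * (x : ℝ) ^ 2) ≤ K) ∧
      c < (∑ x : Bool × (Bool × Fin R) × (Bool × Fin R),
        exp (-(2 * l / 3) * ((al x : ℝ) ^ 2 + (be x : ℝ) ^ 2 + (al x + be x : ℝ) ^ 2))) / K ^ 2 := by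
  obtain ⟨u, hu, hcu⟩ := exists_u m hm c hc
  have hu0 : 0 < u := by linarith
  have hm0 : (0 : ℝ) < m := by exact_mod_cast hm
  have hl : 0 < π / u ^ 2 := by positivity
  have s1 : √(π / (π / u ^ 2 * m ^ 2)) = u / m := by
    rw [sqrt_eq_iff_mul_self_eq (by positivity) (by positivity)]
    field_simp
  have s2 : √(π / (4 * (π / u ^ 2))) = u / 2 := by
    rw [sqrt_eq_iff_mul_self_eq (by positivity) (by positivity)]
    field_simp; norm_num
  have s3 : √(π / (4 * (π / u ^ 2) / 3)) = u * √3 / 2 := by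
    rw [sqrt_eq_iff_mul_self_eq (by positivity) (by positivity)]
    have : √3 * √3 = 3 := mul_self_sqrt (by norm_num)
    field_simp
    nlinarith
  obtain ⟨R, h1, h2⟩ := ((gauss_lower (4 * (π / u ^ 2) / 3) (by positivity)).and
    (gauss_lower (4 * (π / u ^ 2)) (by positivity))).exists
  rw [s3] at h1
  rw [s2] at h2
  have hK : 1 ≤ 2 + u / m := by
    have : 0 ≤ u / m := by positivity
    linarith
  refine ⟨π / u ^ 2, 2 + u / m, R, hl, hK, fun B e => ?_, ?_⟩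
  · rw [← s1]; exact class_sum _ hl m B hm e
  · rw [lt_div_iff₀ (by positivity)]
    refine hcu.trans_le (le_trans ?_ (Y_lower _ hl R))
    have h3 : 1 < √3 := by
      rw [lt_sqrt (by norm_num)]; norm_num
    have p1 : 0 ≤ u * √3 / 4 - 2 := by nlinarith
    have p2 : 0 ≤ u / 4 - 2 := by linarith
    refine mul_le_mul_of_nonneg_left (mul_le_mul ?_ ?_ p2 ?_) (by norm_num)
    · linarith
    · linarith
    · linarith

end Pool.Agent.P.MP_db4732_co
end

-- part Pool.Agent.P.MP_db4732_co.Main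
section

namespace Pool.Agent.P.MP_db4732_co

open Finset Real Filter Topology

theorem CF.map {G H : Type*} [AddCommGroup G] [AddCommGroup H] [DecidableEq H] (f : G →+ H)
    (hf : Function.Injective f) {A : Finset (G × G)} (hA : CF A) :
    ∃ A' : Finset (H × H), CF A' ∧ #A' = #A := by
  refine ⟨A.image (fun t => (f t.1, f t.2)), ?_, card_image_of_injective _ ?_⟩
  · rintro x y z hz ⟨h1, h2, h3⟩
    obtain ⟨⟨a1, b1⟩, ht1, e1⟩ := mem_image.1 h1
    obtain ⟨⟨a2, b2⟩, ht2, e2⟩ := mem_image.1 h2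
    obtain ⟨⟨a3, b3⟩, ht3, e3⟩ := mem_image.1 h3
    simp only [Prod.mk.injEq] at e1 e2 e3
    have q1 : a2 = a1 := hf (by rw [e1.1, e2.1])
    have q2 : b3 = b1 := hf (by rw [e1.2, e3.2])
    have q3 : f (b2 - b1) = z := by rw [map_sub, e2.2, e1.2]; abel
    have q4 : a3 = a1 + (b2 - b1) := hf (by rw [map_add, q3, e3.1, e1.1])
    refine hA a1 b1 (b2 - b1) (fun h => hz (by rw [← q3, h, map_zero])) ⟨ht1, ?_, ?_⟩
    · rw [add_sub_cancel, ← q1]; exact ht2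
    · rw [← q4, ← q2]; exact ht3
  · intro s t h
    simp only [Prod.mk.injEq] at h
    exact Prod.ext (hf h.1) (hf h.2)

theorem CF.pad {m : ℕ} {ι : Type*} [Fintype ι] {n : ℕ} (h : Fintype.card ι ≤ n)
    {A : Finset ((ι → ZMod m) × (ι → ZMod m))} (hA : CF A) :
    ∃ A' : Finset ((Fin n → ZMod m) × (Fin n → ZMod m)), CF A' ∧ #A' = #A := by
  obtain ⟨e⟩ : Nonempty (ι ↪ Fin n) := Function.Embedding.nonempty_of_card_le (by simpa using h)
  refine CF.map (Function.ExtendByZero.hom (ZMod m) e) ?_ hA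
  intro x y hxy
  exact Function.extend_injective e.injective _ hxy

theorem main (m : ℕ) (hm : 0 < m) (c : ℝ) (hc0 : 0 ≤ c) (hc : c < √3 / 2 * m ^ 2) :
    ∃ n₀ : ℕ, ∀ n ≥ n₀, ∃ A : Finset ((Fin n → ZMod m) × (Fin n → ZMod m)),
      (∀ x y z : Fin n → ZMod m, z ≠ 0 → ¬ ((x, y) ∈ A ∧ (x, y + z) ∈ A ∧ (x + z, y) ∈ A)) ∧
      c ^ n ≤ (A.card : ℝ) := by
  obtain ⟨l, K, R, hl, hK1, hK, hy⟩ := exists_params m hm c hc
  set y := (∑ x : Bool × (Bool × Fin R) × (Bool × Fin R),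
    exp (-(2 * l / 3) * ((al x : ℝ) ^ 2 + (be x : ℝ) ^ 2 + (al x + be x : ℝ) ^ 2))) / K ^ 2 with hyd
  set B : ℕ := 8 * R ^ 2 with hB
  have hy0 : 0 < y := hc0.trans_lt hy
  have key : ∀ k : ℕ, ∃ A : Finset ((Fin 3 × Fin k → ZMod m) × (Fin 3 × Fin k → ZMod m)), CF A ∧
      y ^ (3 * k) ≤ 8 * (2 * B + 7) ^ 2 * (k * B + 1) ^ 9 * #A := fun k =>
    sym_main al be albe_inj m B
      (fun x => by nlinarith [albe_bound x, sq_nonneg (be x), sq_nonneg (al x + be x)])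
      (fun x => by nlinarith [albe_bound x, sq_nonneg (al x), sq_nonneg (al x + be x)])
      (fun x => by nlinarith [albe_bound x, sq_nonneg (al x), sq_nonneg (be x)])
      l K hl.le hK1 (hK B) k
  have hr : |(c / y) ^ 3| < 1 := by
    rw [abs_of_nonneg (by positivity)]
    exact pow_lt_one₀ (by positivity) ((div_lt_one hy0).2 hy) (by norm_num)
  set M : ℝ := (1 + c) ^ 2 * (8 * (2 * B + 7) ^ 2 * (B + 1) ^ 9) with hM
  have hM0 : 0 < M := by positivity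
  have ht := (tendsto_pow_const_mul_const_pow_of_abs_lt_one 9 hr).eventually
    (gt_mem_nhds (show (0 : ℝ) < 1 / M by positivity))
  obtain ⟨k₀, hk₀⟩ := eventually_atTop.1 ht
  refine ⟨3 * (k₀ + 1), fun n hn => ?_⟩
  obtain ⟨A, hA, hA2⟩ := key (n / 3)
  obtain ⟨A', hA', hc'⟩ := CF.pad (n := n) (by simp; omega) hA
  refine ⟨A', hA', ?_⟩
  rw [hc']
  set k := n / 3 with hk
  have hk1 : (1 : ℝ) ≤ k := by exact_mod_cast (show 1 ≤ k by omega)
  have h1 := hk₀ k (by omega)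
  rw [lt_div_iff₀ hM0, ← pow_mul, div_pow] at h1
  have h2 : c ^ n ≤ c ^ (3 * k) * (1 + c) ^ 2 := by
    have : n = 3 * k + n % 3 := by omega
    rw [this, pow_add]
    refine mul_le_mul_of_nonneg_left ?_ (by positivity)
    calc c ^ (n % 3) ≤ (1 + c) ^ (n % 3) := pow_le_pow_left₀ hc0 (by linarith) _
      _ ≤ (1 + c) ^ 2 := pow_le_pow_right₀ (by linarith) (by omega)
  have h3 : ((k : ℝ) * B + 1) ^ 9 ≤ k ^ 9 * (B + 1) ^ 9 := by
    rw [← mul_pow]
    refine pow_le_pow_left₀ (by positivity) ?_ 9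
    nlinarith
  have hQ : (0 : ℝ) < 8 * (2 * B + 7) ^ 2 * (k * B + 1) ^ 9 := by positivity
  have hyk : 0 < y ^ (3 * k) := by positivity
  have h4 : (k : ℝ) ^ 9 * c ^ (3 * k) * M < y ^ (3 * k) := by
    have := mul_lt_mul_of_pos_right h1 hyk
    rw [one_mul] at this
    refine lt_of_eq_of_lt ?_ this
    field_simp
  refine le_of_mul_le_mul_left (le_trans ?_ hA2) hQ
  refine le_trans ?_ h4.le
  calc 8 * (2 * B + 7) ^ 2 * ((k : ℝ) * B + 1) ^ 9 * c ^ n
      ≤ 8 * (2 * B + 7) ^ 2 * (k ^ 9 * (B + 1) ^ 9) * (c ^ (3 * k) * (1 + c) ^ 2) := by gcongr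
    _ = _ := by rw [hM]; ring

end Pool.Agent.P.MP_db4732_co
end
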