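import Mathlib

-- part Pool.Agent.P.MP_db4732_co.Q.Defs
section

/-! Corners in vector spaces over the field with two elements: definitions. -/

set_option autoImplicit false

namespace Pool.Agent.P.MP_db4732_co.Q

open Finset

variable {W : Type} [AddCommGroup W] [Fintype W] [DecidableEq W]

/-- No nontrivial corner. -/
def CF (A : Finset (W × W)) : Prop :=
  ∀ x y z : W, (x, y) ∈ A → (x, y + z) ∈ A → (x + z, y) ∈ A → z = 0

/-- Number of `b ∈ B` with `x + b ∈ Y`. -/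
def cv (Y B : Finset W) (x : W) : ℕ := #{b ∈ B | x + b ∈ Y}

/-- Number of pairs `(b, x) ∈ B × C` with `x + b ∈ Y`. -/
def tri (Y B C : Finset W) : ℕ := ∑ x ∈ C, cv Y B x

/-- Normalised convolution of the uniform densities of `Y` and `B`. -/
noncomputable def nc (Y B : Finset W) (x : W) : ℝ :=
  (cv Y B x : ℝ) * Fintype.card W / ((#Y : ℝ) * #B)

/-- Mean square of the normalised convolution. -/
noncomputable def nsq (Y B : Finset W) : ℝ := (∑ x, nc Y B x ^ 2) / Fintype.card W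

/-- Average over translations by `T`. -/
noncomputable def avg (T : Finset W) (g : W → ℝ) (x : W) : ℝ := (∑ t ∈ T, g (x + t)) / #T

/-- Upper bound for the density of the Cayley graph of `Y` on large rectangles. -/
def Up (Y : Finset W) (a : ℕ) (l : ℝ) (p : ℕ) : Prop :=
  ∀ lam : ℝ, l ≤ lam → ∀ B C : Finset W, Fintype.card W ≤ 2 ^ a * #B →
    (Fintype.card W : ℝ) ≤ lam ^ p * #C →
    (tri Y B C : ℝ) * Fintype.card W < lam * #Y * #B * #C

open Classical in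
/-- A coset. -/
noncomputable def cs (V : AddSubgroup W) (z : W) : Finset W := univ.filter fun x => x + z ∈ V

/-- No density increment on cosets of subgroups of `V`, at rate `θ`. -/
def Spread (κ θ : ℝ) (V : AddSubgroup W) (Y : Finset W) : Prop :=
  ∀ V' ≤ V, ∀ z : W, (#(Y ∩ cs V' z) : ℝ) * (Nat.card V : ℝ) ^ (1 - θ) ≤
    κ * #Y * (Nat.card V' : ℝ) ^ (1 - θ)

/-- Mean inner product. -/
noncomputable def ip {δ : Type} (D : Finset δ) (u v : δ → ℝ) : ℝ := (∑ d ∈ D, u d * v d) / #D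

/-- The row of `x`, indexed by the diagonal. -/
def nb (A : Finset (W × W)) (D : Finset W) (x : W) : Finset W := {d ∈ D | (x, x + d) ∈ A}

/-- `A` lies in the container of `X`, `Y`, `D`. -/
def In (A : Finset (W × W)) (X Y D : Finset W) : Prop :=
  ∀ q ∈ A, q.1 ∈ X ∧ q.2 ∈ Y ∧ q.1 + q.2 ∈ D

/-- The part of `A` in a smaller container. -/
def res (A : Finset (W × W)) (X Y D : Finset W) : Finset (W × W) :=
  {q ∈ A | q.1 ∈ X ∧ q.2 ∈ Y ∧ q.1 + q.2 ∈ D}

/-- A density increment of the bipartite graph of rows on a rectangle. -/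
def Inc (A : Finset (W × W)) (X D : Finset W) (g₀ : ℝ) (K M b : ℕ) : Prop :=
  ∃ X' ⊆ X, ∃ D' ⊆ D, ∃ g : ℝ, g₀ ≤ g ∧ (#X : ℝ) ≤ g ^ K * #X' ∧ #X ≤ 2 ^ b * #X' ∧
    (#D : ℝ) ≤ g ^ M * #D' ∧
    g ^ 4 * #A * #X' * #D' ≤ (∑ x ∈ X', (#(nb A D x ∩ D') : ℝ)) * #X * #D

/-- A density increment inside a smaller container. -/
def Better (A : Finset (W × W)) (X Y D : Finset W) (g₀ : ℝ) (K M : ℕ) : Prop :=
  ∃ X' ⊆ X, ∃ Y' ⊆ Y, ∃ D' ⊆ D, ∃ g : ℝ, g₀ ≤ g ∧ (res A X' Y' D').Nonempty ∧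
    g ^ 2 * #A * tri D' X' Y' ≤ #(res A X' Y' D') * (tri D X Y : ℝ) ∧
    (#A : ℝ) * #X' * #Y' ≤ g ^ M * #(res A X' Y' D') * #X * #Y ∧
    (#X : ℝ) * #Y ≤ g ^ K * #X' * #Y'

/-- The trace of `Y` on a coset of `V`, moved to `V`. -/
noncomputable def pull (V : AddSubgroup W) [Fintype V] (z : W) (Y : Finset W) : Finset V :=
  univ.filter fun v => (v : W) + z ∈ Y

omit [DecidableEq W] in
theorem mem_cs {V : AddSubgroup W} {z x : W} : x ∈ cs V z ↔ x + z ∈ V := by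
  simp [cs]

omit [DecidableEq W] in
theorem card_cs (V : AddSubgroup W) (z : W) : #(cs V z) = Nat.card V := by
  classical
  rw [Nat.card_eq_fintype_card, ← card_univ]
  refine card_bij (fun x hx => ⟨x + z, mem_cs.1 hx⟩) (fun _ _ => mem_univ _)
    (fun x _ y _ h => add_right_cancel (congrArg Subtype.val h)) fun v _ =>
      ⟨v - z, mem_cs.2 (by simp), by simp⟩

omit [DecidableEq W] in
theorem cs_top (z : W) : cs (⊤ : AddSubgroup W) z = univ := by
  ext x; simp [mem_cs]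

omit [DecidableEq W] in
theorem card_top : Nat.card (⊤ : AddSubgroup W) = Fintype.card W := by
  rw [← card_cs ⊤ (0 : W), cs_top, card_univ]

omit [Fintype W] in
theorem mem_pull {V : AddSubgroup W} [Fintype V] {z : W} {Y : Finset W} {v : V} :
    v ∈ pull V z Y ↔ (v : W) + z ∈ Y := by
  simp [pull]

omit [Fintype W] in
theorem tri_eq (Y B C : Finset W) : tri Y B C = #{q ∈ B ×ˢ C | q.1 + q.2 ∈ Y} := by
  unfold tri cv
  rw [card_filter, sum_product_right]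
  refine sum_congr rfl fun x _ => ?_
  rw [card_filter]
  exact sum_congr rfl fun b _ => by rw [add_comm]

omit [Fintype W] in
theorem tri_comm (Y B C : Finset W) : tri Y B C = tri Y C B := by
  unfold tri cv
  simp only [card_filter]
  rw [sum_comm]
  exact sum_congr rfl fun x _ => sum_congr rfl fun b _ => by rw [add_comm]

omit [Fintype W] in
theorem tri_le (Y B C : Finset W) : tri Y B C ≤ #B * #C := by
  rw [tri_eq, ← card_product]; exact card_filter_le _ _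

omit [Fintype W] in
/-- In characteristic two the three sets play the same role. -/
theorem tri_rot (h2 : ∀ x : W, x + x = 0) (Y B C : Finset W) : tri Y B C = tri B Y C := by
  unfold tri cv
  refine sum_congr rfl fun x _ => ?_
  refine card_bij (fun b _ => x + b) (fun b hb => ?_) (fun _ _ _ _ h => add_left_cancel h)
    fun y hy => ⟨x + y, ?_, by rw [← add_assoc, h2, zero_add]⟩
  · rw [mem_filter] at hb ⊢
    exact ⟨hb.2, by rw [← add_assoc, h2, zero_add]; exact hb.1⟩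
  · rw [mem_filter] at hy ⊢
    exact ⟨hy.2, by rw [← add_assoc, h2, zero_add]; exact hy.1⟩

theorem Up.mono {Y : Finset W} {a a' p p' : ℕ} {l l' : ℝ} (h : Up Y a l p) (ha : a' ≤ a)
    (hl : l ≤ l') (h1 : 1 ≤ l') (hp : p' ≤ p) : Up Y a' l' p' := fun lam hlam B C hB hC =>
  h lam (hl.trans hlam) B C
    (hB.trans (Nat.mul_le_mul_right _ (Nat.pow_le_pow_right two_pos ha)))
    (hC.trans (mul_le_mul_of_nonneg_right (pow_le_pow_right₀ (h1.trans hlam) hp)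
      (Nat.cast_nonneg _)))

end Pool.Agent.P.MP_db4732_co.Q
end

-- part Pool.Agent.P.MP_db4732_co.Q.Level
section

/-! Level sets and regular rows. -/

set_option autoImplicit false

namespace Pool.Agent.P.MP_db4732_co.Q

open Finset

theorem lev_aux {ι : Type} (G g : ι → ℝ) (S : ℝ) (hS : 0 ≤ S) (n : ℕ) :
    ∀ Z : Finset ι, #Z = n → (∀ i ∈ Z, G i ^ 2 * #{j ∈ Z | g i ≤ g j} ≤ S) →
      ∑ i ∈ Z, G i ≤ 2 * √S * √n := by
  classical
  induction n with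
  | zero => intro Z hZ _; simp [card_eq_zero.1 hZ]
  | succ n ih =>
    intro Z hZ h
    obtain ⟨i, hi, hm⟩ := exists_min_image Z g (card_pos.1 (by omega))
    have h1 := h i hi
    rw [filter_true_of_mem hm, hZ] at h1
    have h2 := ih (Z.erase i) (by rw [card_erase_of_mem hi, hZ]; rfl) fun j hj =>
      le_trans (mul_le_mul_of_nonneg_left (by
        exact_mod_cast card_le_card (filter_subset_filter _ (erase_subset _ _))) (sq_nonneg _))
        (h j (mem_of_mem_erase hj))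
    rw [← add_sum_erase Z G hi]
    have a0 : 0 < √((n + 1 : ℕ) : ℝ) := Real.sqrt_pos.2 (by positivity)
    have a1 : √((n + 1 : ℕ) : ℝ) ^ 2 = n + 1 := by rw [Real.sq_sqrt (by positivity)]; push_cast; rfl
    have a2 : √(n : ℝ) ^ 2 = n := Real.sq_sqrt (by positivity)
    have h3 : G i * √((n + 1 : ℕ) : ℝ) ≤ √S := by
      refine Real.le_sqrt_of_sq_le ?_
      rw [mul_pow, Real.sq_sqrt (by positivity)]
      exact h1
    refine le_of_mul_le_mul_right ?_ a0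
    have h4 := mul_le_mul_of_nonneg_right h2 a0.le
    have h5 : 1 + 2 * √(n : ℝ) * √((n + 1 : ℕ) : ℝ) ≤ 2 * √((n + 1 : ℕ) : ℝ) * √((n + 1 : ℕ) : ℝ) := by
      nlinarith [sq_nonneg (√((n + 1 : ℕ) : ℝ) - √(n : ℝ))]
    linarith [mul_le_mul_of_nonneg_left h5 (Real.sqrt_nonneg S)]

/-- A large moment gives a level set whose size is proportional to the gain. -/
theorem level {ι : Type} (s : Finset ι) (g : ι → ℝ) (hg : ∀ i ∈ s, 0 ≤ g i) {l₀ : ℝ} (hl : 0 < l₀)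
    (k : ℕ) (h : (l₀ ^ k + 2) * #s < ∑ i ∈ s, g i ^ k) :
    ∃ lam : ℝ, l₀ ≤ lam ∧ (#s : ℝ) ≤ lam ^ (2 * k) * #{i ∈ s | lam ≤ g i} := by
  by_contra hc
  push Not at hc
  have h1 := lev_aux (fun i => g i ^ k) g #s (by positivity) _ {i ∈ s | l₀ ≤ g i} rfl fun i hi => by
    refine le_trans ?_ (hc (g i) (mem_filter.1 hi).2).le
    rw [← pow_mul, mul_comm k 2]
    refine mul_le_mul_of_nonneg_left ?_ (pow_nonneg (hg i (mem_filter.1 hi).1) _)
    exact_mod_cast card_le_card (filter_subset_filter _ (filter_subset _ _))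
  have h2 : √(#{i ∈ s | l₀ ≤ g i} : ℝ) ≤ √(#s : ℝ) :=
    Real.sqrt_le_sqrt (by exact_mod_cast card_filter_le _ _)
  have h3 : ∑ i ∈ s with ¬ l₀ ≤ g i, g i ^ k ≤ l₀ ^ k * #s := by
    refine (sum_le_card_nsmul _ _ (l₀ ^ k) fun i hi => pow_le_pow_left₀ (hg i (mem_filter.1 hi).1)
      (not_le.1 (mem_filter.1 hi).2).le k).trans ?_
    rw [nsmul_eq_mul, mul_comm]
    exact mul_le_mul_of_nonneg_left (by exact_mod_cast card_filter_le _ _) (by positivity)
  rw [← sum_filter_add_sum_filter_not s (fun i => l₀ ≤ g i)] at h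
  nlinarith [Real.mul_self_sqrt (Nat.cast_nonneg (α := ℝ) #s),
    mul_le_mul_of_nonneg_left h2 (Real.sqrt_nonneg (#s : ℝ))]

/-- Either most of the mass lies on rows that are not too light, or these rows are heavy. -/
theorem rows {ι : Type} (s : Finset ι) (r : ι → ℝ) (hr : ∀ i ∈ s, 0 ≤ r i) {ε : ℝ} (h0 : 0 < ε)
    (h1 : ε ≤ 1 / 2) (hR : 0 < ∑ i ∈ s, r i) (s₀ : Finset ι)
    (hs : s₀ = {x ∈ s | (1 - ε) * ∑ i ∈ s, r i ≤ r x * #s}) :
    (3 / 4 * ∑ i ∈ s, r i ≤ ∑ i ∈ s₀, r i ∧ #s ≤ 2 * #s₀) ∨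
      ∃ g : ℝ, 1 + ε / 4 ≤ g ∧ g * (∑ i ∈ s, r i) * #s₀ ≤ (∑ i ∈ s₀, r i) * #s ∧
        ε * #s ≤ g * #s₀ := by
  set R := ∑ i ∈ s, r i with hRd
  have e1 := sum_filter_add_sum_filter_not s (fun x => (1 - ε) * R ≤ r x * #s) r
  have e2 : ((#s₀ : ℝ) + #{x ∈ s | ¬ (1 - ε) * R ≤ r x * #s}) = #s := by
    rw [hs]
    exact_mod_cast card_filter_add_card_filter_not _
  have e3 : (∑ x ∈ s with ¬ (1 - ε) * R ≤ r x * #s, r x) * #s ≤
      #{x ∈ s | ¬ (1 - ε) * R ≤ r x * #s} * ((1 - ε) * R) := by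
    rw [sum_mul, ← nsmul_eq_mul]
    exact sum_le_card_nsmul _ _ _ fun x hx => (not_le.1 (mem_filter.1 hx).2).le
  have e4 : (#s₀ : ℝ) = 0 → ∑ i ∈ s₀, r i = 0 := fun h => by
    rw [card_eq_zero.1 (by exact_mod_cast h : #s₀ = 0), sum_empty]
  rw [← hs, ← hRd] at e1
  generalize (∑ x ∈ s with ¬ (1 - ε) * R ≤ r x * #s, r x) = m at *
  generalize (#{x ∈ s | ¬ (1 - ε) * R ≤ r x * #s} : ℝ) = f at *
  generalize ∑ i ∈ s₀, r i = R₀ at *
  have hn : (0 : ℝ) < #s := by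
    rcases s.eq_empty_or_nonempty with rfl | h
    · simp at hRd
      linarith
    · exact_mod_cast h.card_pos
  have hn0 : (0 : ℝ) ≤ #s₀ := by positivity
  have hεR := mul_pos h0 hR
  have k1 : ε * R ≤ R₀ := by
    refine le_of_mul_le_mul_right ?_ hn
    nlinarith [mul_nonneg hn0 (mul_nonneg (by linarith : 0 ≤ 1 - ε) hR.le)]
  have hp : (0 : ℝ) < #s₀ := hn0.lt_of_ne fun h => by linarith [e4 h.symm]
  by_cases hA : 3 / 4 * R ≤ R₀ ∧ #s ≤ 2 * #s₀
  · exact Or.inl hA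
  refine Or.inr ⟨R₀ * #s / (R * #s₀), ?_, le_of_eq (by field_simp), ?_⟩
  · rw [le_div_iff₀ (by positivity)]
    by_cases hB : 3 / 4 * R ≤ R₀
    · have : (2 * #s₀ : ℝ) ≤ #s := by exact_mod_cast (not_le.1 fun h => hA ⟨hB, h⟩).le
      nlinarith [mul_le_mul hB this (by positivity) (by linarith), mul_pos hR hp,
        mul_le_mul_of_nonneg_right h1 (mul_pos hR hp).le]
    · have h4 : (#s : ℝ) ≤ 4 * f := by
        refine le_of_mul_le_mul_right ?_ hR
        have hf : 0 ≤ f := by nlinarith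
        nlinarith [mul_nonneg hf hεR.le]
      nlinarith [mul_le_mul_of_nonneg_left h4 hεR.le, mul_nonneg hεR.le hn0]
  · rw [div_mul_eq_mul_div, le_div_iff₀ (by positivity)]
    nlinarith [mul_le_mul_of_nonneg_right k1 (mul_pos hn hp).le]

end Pool.Agent.P.MP_db4732_co.Q
end

-- part Pool.Agent.P.MP_db4732_co.Q.RSift
section

/-! Sifting relative to a sparse majorant. -/

set_option autoImplicit false

namespace Pool.Agent.P.MP_db4732_co.Q

open Finset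

theorem rs_exp {ι : Type} [DecidableEq ι] {s X : Finset ι} (hX : X ⊆ s) (f : ι → ℝ) (m : ℕ) :
    (∑ x ∈ X, f x) ^ m = ∑ w ∈ Fintype.piFinset fun _ : Fin m => s,
      if ∀ i, w i ∈ X then ∏ i, f (w i) else 0 := by
  have : ∑ x ∈ X, f x = ∑ x ∈ s, if x ∈ X then f x else 0 := by
    rw [← sum_filter, filter_mem_eq_inter, inter_eq_right.2 hX]
  rw [this, sum_pow']
  refine sum_congr rfl fun w _ => ?_
  rw [prod_ite_zero]
  simp

theorem rs_swap {ι δ : Type} [DecidableEq ι] [DecidableEq δ] {s : Finset ι} (X : Finset ι)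
    (D : Finset δ) (N : ι → Finset δ) (a : ι → ℝ) (G : ι → Finset ι) (hG : ∀ x ∈ X, G x ⊆ s) (m : ℕ)
    (φ : ι → δ → ℝ) :
    ∑ x ∈ X, ∑ d ∈ D, φ x d * (∑ y ∈ G x, if d ∈ N y then a y else 0) ^ m =
      ∑ w ∈ Fintype.piFinset fun _ : Fin m => s, (∏ i, a (w i)) *
        ∑ x ∈ X with ∀ i, w i ∈ G x, ∑ d ∈ D with ∀ i, d ∈ N (w i), φ x d := by
  simp only [sum_filter, mul_sum]
  rw [sum_comm (s := Fintype.piFinset fun _ : Fin m => s)]
  refine sum_congr rfl fun x hx => ?_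
  simp only [rs_exp (hG x hx), mul_sum]
  rw [sum_comm]
  refine sum_congr rfl fun w _ => ?_
  split_ifs with h
  · rw [mul_sum]
    refine sum_congr rfl fun d _ => ?_
    rw [prod_ite_zero]
    simp only [mem_univ, true_imp_iff]
    split_ifs <;> ring
  · simp

theorem rsift {ι δ : Type} [DecidableEq ι] [DecidableEq δ] (s : Finset ι) (D : Finset δ)
    (N T : ι → Finset δ) (Γ : Finset (ι × ι)) {μ lam p τ Λ β₁ β₂ l₁ : ℝ} {m : ℕ}
    (hs : s.Nonempty) (hD : D.Nonempty) (hNT : ∀ x ∈ s, N x ⊆ T x) (hND : ∀ x ∈ s, N x ⊆ D)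
    (hμ : 0 < μ) (hrow : ∀ x ∈ s, μ * #D ≤ #(N x)) (hΓ : Γ ⊆ s ×ˢ s) (hp : 0 < p)
    (hpΓ : p * (#s : ℝ) ^ 2 ≤ #Γ) (hlam : 0 ≤ lam)
    (hco : ∀ q ∈ Γ, lam * #(N q.1) * #(N q.2) ≤ #(N q.1 ∩ N q.2) * (#D : ℝ)) (hm : 1 ≤ m)
    (hτ : 0 ≤ τ) (hΛ : 0 ≤ Λ)
    (hsp : ∀ B ⊆ s, ∀ C ⊆ D,
      ∑ x ∈ B, (#(T x ∩ C) : ℝ) ≤ τ * (Λ * #B * #C + β₁ * #C + β₂ * #B))
    (h1 : β₁ ≤ (p / 2) ^ (m + 1) * #s) (h2 : β₂ ≤ μ ^ m * #D) (hl₁ : 0 < l₁)
    (hbig : τ * ((Λ + 1) * (l₁ ^ m + 2) + 1) < μ * lam ^ m) :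
    ∃ X₁ ⊆ s, ∃ D' ⊆ D, ∃ g : ℝ, l₁ ≤ g ∧ p * #s ≤ 2 * #X₁ ∧ (#D : ℝ) ≤ g ^ (2 * m) * #D' ∧
      g * μ * #X₁ * #D' ≤ ∑ x ∈ X₁, (#(N x ∩ D') : ℝ) := by
  by_contra hc
  have hn : (0 : ℝ) < #s := by exact_mod_cast hs.card_pos
  have hd : (0 : ℝ) < #D := by exact_mod_cast hD.card_pos
  have hN : ∀ x ∈ s, (0 : ℝ) < #(N x) := fun x hx => (mul_pos hμ hd).trans_le (hrow x hx)
  set a : ι → ℝ := fun x => #D / #(N x) with ha
  have a0 : ∀ x, 0 ≤ a x := fun x => by positivity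
  have a1 : ∀ x ∈ s, μ * a x ≤ 1 := fun x hx => by
    rw [← mul_div_assoc, div_le_one (hN x hx)]
    exact hrow x hx
  set H : Finset ι → δ → ℝ := fun X d => ∑ y ∈ X, if d ∈ N y then a y else 0 with hH
  have H0 : ∀ X d, 0 ≤ H X d := fun X d => sum_nonneg fun y _ => by
    split_ifs
    exacts [a0 y, le_rfl]
  have HS : ∀ (X : Finset ι) (E : Finset δ), ∑ d ∈ E, H X d = ∑ y ∈ X, a y * #(N y ∩ E) := by
    intro X E
    rw [sum_comm]
    refine sum_congr rfl fun y _ => ?_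
    rw [← sum_filter, filter_mem_eq_inter, sum_const, nsmul_eq_mul, mul_comm, inter_comm]
  have hA : ∀ X ⊆ s, p * #s ≤ 2 * #X → ∑ d ∈ D, H X d ^ m ≤ (l₁ ^ m + 2) * #D * #X ^ m := by
    intro X hX hpX
    have hX0 : (0 : ℝ) < #X := by nlinarith [mul_pos hp hn]
    by_contra h
    obtain ⟨g, g1, g2⟩ := level D (fun d => H X d / #X) (fun d _ => div_nonneg (H0 X d) hX0.le)
      hl₁ m (by
        simp only [div_pow]
        rw [← sum_div, lt_div_iff₀ (by positivity)]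
        exact not_le.1 h)
    refine hc ⟨X, hX, _, filter_subset _ _, g, g1, hpX, g2, ?_⟩
    have k1 := card_nsmul_le_sum {d ∈ D | g ≤ H X d / #X} (H X) (g * #X) fun d hd =>
      (le_div_iff₀ hX0).1 (mem_filter.1 hd).2
    rw [HS, nsmul_eq_mul] at k1
    have k2 := mul_le_mul_of_nonneg_left k1 hμ.le
    rw [mul_sum] at k2
    refine (le_of_eq (by ring)).trans (k2.trans (sum_le_sum fun y hy => ?_))
    rw [← mul_assoc]
    exact mul_le_of_le_one_left (by positivity) (a1 y (hX hy))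
  set Gam : ι → Finset ι := fun x' => {x ∈ s | (x, x') ∈ Γ} with hGam
  set X₂ := {x' ∈ s | p * #s / 2 ≤ #(Gam x')} with hX₂
  have hsum : (#Γ : ℝ) = ∑ x' ∈ s, (#(Gam x') : ℝ) := by
    have : Γ = {q ∈ s ×ˢ s | q ∈ Γ} := by rw [filter_mem_eq_inter, inter_eq_right.2 hΓ]
    conv_lhs => rw [this, card_filter, sum_product_right]
    simp only [hGam, card_filter, Nat.cast_sum]
  have hX2 : p * #s / 2 ≤ #X₂ := by
    rw [← sum_filter_add_sum_filter_not s fun x' => p * #s / 2 ≤ #(Gam x')] at hsum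
    have k1 := sum_le_card_nsmul X₂ (fun x' => (#(Gam x') : ℝ)) #s fun x _ => by
      exact_mod_cast card_filter_le _ _
    have k2 := sum_le_card_nsmul {x' ∈ s | ¬ p * #s / 2 ≤ #(Gam x')} (fun x' => (#(Gam x') : ℝ))
      (p * #s / 2) fun x hx => (not_le.1 (mem_filter.1 hx).2).le
    have k3 : (#{x' ∈ s | ¬ p * #s / 2 ≤ #(Gam x')} : ℝ) ≤ #s := by
      exact_mod_cast card_filter_le _ _
    rw [nsmul_eq_mul] at k1 k2
    refine le_of_mul_le_mul_right ?_ hn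
    nlinarith [mul_le_mul_of_nonneg_right k3 (by positivity : 0 ≤ p * #s / 2)]
  have hX20 : (0 : ℝ) < #X₂ := lt_of_lt_of_le (by positivity) hX2
  have hp1 : p * #s ≤ 2 * #s := by
    have : (#X₂ : ℝ) ≤ #s := by exact_mod_cast card_filter_le _ _
    linarith
  set n₀ := ⌈p * #s / 2⌉₊ with hn₀
  have n1 : p * #s / 2 ≤ n₀ := Nat.le_ceil _
  have n2 : (0 : ℝ) < n₀ := lt_of_lt_of_le (by positivity) n1
  have hG : ∀ x', ∃ G : Finset ι, x' ∈ X₂ → G ⊆ Gam x' ∧ #G = n₀ := fun x' => by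
    by_cases h : x' ∈ X₂
    · obtain ⟨G, h1, h2⟩ := exists_subset_card_eq (Nat.ceil_le.2 (mem_filter.1 h).2)
      exact ⟨G, fun _ => ⟨h1, h2⟩⟩
    · exact ⟨∅, fun h' => absurd h' h⟩
  choose G hG using hG
  have hGs : ∀ x ∈ X₂, G x ⊆ s := fun x hx => (hG x hx).1.trans (filter_subset _ _)
  have hC : ∀ x ∈ X₂, μ * lam ^ m * (#D * n₀ ^ m) ≤
      ∑ d ∈ D, (if d ∈ T x then 1 else 0) * H (G x) d ^ m := by
    intro x hx
    have hxs : x ∈ s := (mem_filter.1 hx).1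
    have hNx := hN x hxs
    have k1 : lam * n₀ * #(N x) ≤ ∑ d ∈ N x, H (G x) d := by
      rw [HS, ← (hG x hx).2, mul_right_comm, mul_comm, ← nsmul_eq_mul]
      refine card_nsmul_le_sum _ _ _ fun y hy => ?_
      have := hco (y, x) (mem_filter.1 ((hG x hx).1 hy)).2
      rw [ha, div_mul_eq_mul_div, le_div_iff₀ (hN y (hGs x hx hy))]
      linarith
    obtain ⟨k, rfl⟩ : ∃ k, m = k + 1 := ⟨m - 1, by omega⟩
    have k2 := pow_sum_div_card_le_sum_pow (s := N x) (f := H (G x)) (fun d _ => H0 _ d) k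
    rw [div_le_iff₀ (by positivity)] at k2
    have k3 : (lam * n₀) ^ (k + 1) * #(N x) ≤ ∑ d ∈ N x, H (G x) d ^ (k + 1) := by
      refine le_of_mul_le_mul_right ?_ (pow_pos hNx k)
      exact (le_of_eq (by ring)).trans ((pow_le_pow_left₀ (by positivity) k1 (k + 1)).trans k2)
    calc _ = (lam * n₀) ^ (k + 1) * (μ * #D) := by ring
      _ ≤ (lam * n₀) ^ (k + 1) * #(N x) := mul_le_mul_of_nonneg_left (hrow x hxs) (by positivity)
      _ ≤ ∑ d ∈ N x, (if d ∈ T x then 1 else 0) * H (G x) d ^ (k + 1) :=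
          k3.trans (le_of_eq (sum_congr rfl fun d hd => by rw [if_pos (hNT x hxs hd), one_mul]))
      _ ≤ _ := sum_le_sum_of_subset_of_nonneg (hND x hxs) fun d _ _ =>
          mul_nonneg (by split_ifs <;> norm_num) (pow_nonneg (H0 _ _) _)
  have e0 := card_nsmul_le_sum X₂ _ _ hC
  rw [nsmul_eq_mul, rs_swap X₂ D N a G hGs m] at e0
  have e1 := rs_swap X₂ D N a G hGs m fun _ _ => 1
  have e2 := rs_swap {hs.choose} D N a (fun _ => s) (fun _ _ => Subset.rfl) m fun _ _ => 1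
  have e3 : ∑ w ∈ Fintype.piFinset fun _ : Fin m => s, (#{x ∈ X₂ | ∀ i, w i ∈ G x} : ℝ) =
      #X₂ * n₀ ^ m := by
    simp only [card_filter, Nat.cast_sum]
    rw [sum_comm, ← nsmul_eq_mul, ← sum_const]
    refine sum_congr rfl fun x hx => ?_
    have := rs_exp (hGs x hx) (fun _ => 1) m
    simp only [sum_const, nsmul_eq_mul, mul_one, (hG x hx).2, prod_const_one] at this
    rw [this]
    exact sum_congr rfl fun w _ => by split_ifs <;> simp
  simp only [one_mul, sum_const, nsmul_eq_mul, mul_one, card_singleton, Nat.cast_one] at e1 e2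
  have b1 : ∑ x ∈ X₂, ∑ d ∈ D, H (G x) d ^ m ≤ #X₂ * ((l₁ ^ m + 2) * #D * n₀ ^ m) := by
    rw [← nsmul_eq_mul]
    refine sum_le_card_nsmul _ _ _ fun x hx => ?_
    have := hA (G x) (hGs x hx) (by rw [(hG x hx).2]; linarith)
    rwa [(hG x hx).2] at this
  have b2 : (p / 2) ^ (m + 1) * #s * ∑ d ∈ D, H s d ^ m ≤ #X₂ * ((l₁ ^ m + 2) * #D * n₀ ^ m) := by
    refine (mul_le_mul_of_nonneg_left (hA s Subset.rfl hp1) (by positivity)).trans ?_
    calc _ = p * #s / 2 * ((l₁ ^ m + 2) * #D * (p * #s / 2) ^ m) := by ring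
      _ ≤ _ := by gcongr
  have b3 : ∀ w ∈ Fintype.piFinset fun _ : Fin m => s, (∏ i, a (w i)) *
      ∑ x ∈ X₂ with ∀ i, w i ∈ G x, ∑ d ∈ D with ∀ i, d ∈ N (w i), (if d ∈ T x then (1 : ℝ) else 0) ≤
      τ * (Λ * ((∏ i, a (w i)) * (#{x ∈ X₂ | ∀ i, w i ∈ G x} * #{d ∈ D | ∀ i, d ∈ N (w i)})) +
        (p / 2) ^ (m + 1) * #s * ((∏ i, a (w i)) * (#{x ∈ ({hs.choose} : Finset ι) | ∀ i, w i ∈ s} *
          #{d ∈ D | ∀ i, d ∈ N (w i)})) + #D * #{x ∈ X₂ | ∀ i, w i ∈ G x}) := by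
    intro w hw
    rw [Fintype.mem_piFinset] at hw
    have c0 : 0 ≤ ∏ i, a (w i) := prod_nonneg fun i _ => a0 _
    have c1 : μ ^ m * ∏ i, a (w i) ≤ 1 := by
      have : μ ^ m = ∏ _i : Fin m, μ := by simp
      rw [this, ← prod_mul_distrib]
      exact prod_le_one (fun i _ => mul_nonneg hμ.le (a0 _)) fun i _ => a1 _ (hw i)
    have c2 := hsp {x ∈ X₂ | ∀ i, w i ∈ G x} ((filter_subset _ _).trans (filter_subset _ _))
      {d ∈ D | ∀ i, d ∈ N (w i)} (filter_subset _ _)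
    rw [filter_true_of_mem (s := {hs.choose}) fun _ _ => hw, card_singleton, Nat.cast_one, one_mul]
    simp only [sum_boole, filter_mem_eq_inter, inter_comm _ (T _)]
    refine (mul_le_mul_of_nonneg_left c2 c0).trans ?_
    rw [mul_left_comm]
    refine mul_le_mul_of_nonneg_left ?_ hτ
    have c3 := mul_le_mul_of_nonneg_right h1 (mul_nonneg c0
      (Nat.cast_nonneg #{d ∈ D | ∀ i, d ∈ N (w i)}))
    have c4 := mul_le_mul_of_nonneg_right h2 (mul_nonneg c0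
      (Nat.cast_nonneg #{x ∈ X₂ | ∀ i, w i ∈ G x}))
    have c5 := mul_le_mul_of_nonneg_right c1 (mul_nonneg hd.le
      (Nat.cast_nonneg #{x ∈ X₂ | ∀ i, w i ∈ G x}))
    linarith
  have b4 := e0.trans (sum_le_sum b3)
  rw [← mul_sum, sum_add_distrib, sum_add_distrib, ← mul_sum, ← mul_sum, ← mul_sum, ← e1, ← e2,
    e3] at b4
  have b5 := b4.trans (mul_le_mul_of_nonneg_left (add_le_add (add_le_add
    (mul_le_mul_of_nonneg_left b1 hΛ) b2) le_rfl) hτ)
  nlinarith [mul_lt_mul_of_pos_left hbig (by positivity : (0 : ℝ) < #X₂ * (#D * n₀ ^ m))]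

end Pool.Agent.P.MP_db4732_co.Q
end

-- part Pool.Agent.P.MP_db4732_co.Q.IncA
section

/-! An increment from a dense set of correlated pairs of rows. -/

set_option autoImplicit false

namespace Pool.Agent.P.MP_db4732_co.Q

open Finset

/-- A dense fibre. -/
theorem inca_fib {ι : Type} [DecidableEq ι] {s : Finset ι} {Γ : Finset (ι × ι)} {P : ℝ}
    (hs : s.Nonempty) (hΓ : Γ ⊆ s ×ˢ s) (hP : 0 ≤ P) (h : (#s : ℝ) ^ 2 ≤ P * #Γ) :
    ∃ x' ∈ s, (#s : ℝ) ≤ P * #{x ∈ s | (x, x') ∈ Γ} := by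
  refine exists_le_of_sum_le hs ?_
  rw [sum_const, nsmul_eq_mul, ← sq, ← mul_sum]
  refine h.trans (mul_le_mul_of_nonneg_left ?_ hP)
  rw [card_eq_sum_card_fiberwise (s := Γ) (t := s) (f := Prod.snd)
    fun q hq => mem_coe.2 (mem_product.1 (hΓ (mem_coe.1 hq))).2]
  push_cast
  refine sum_le_sum fun x' _ => Nat.cast_le.2 (card_le_card_of_injOn Prod.fst ?_ ?_)
  · intro q hq
    obtain ⟨h1, rfl⟩ := mem_filter.1 (mem_coe.1 hq)
    exact mem_coe.2 (mem_filter.2 ⟨(mem_product.1 (hΓ h1)).1, h1⟩)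
  · intro q hq q' hq' e
    exact Prod.ext e ((mem_filter.1 (mem_coe.1 hq)).2.trans (mem_filter.1 (mem_coe.1 hq')).2.symm)

theorem inca_two {i j : ℕ} (h : i ≤ j) : (2 : ℝ) ^ i ≤ 2 ^ j := pow_le_pow_right₀ one_le_two h

theorem inca_big {Λ w : ℝ} (h1 : 1 ≤ Λ) (h2 : 4 * Λ ≤ w) :
    4 * Λ * ((Λ + 1) * (w + 2) + 1) < w ^ 4 := by
  have hw : 0 ≤ w := by linarith
  have a : (Λ + 1) * (w + 2) ≤ w / 2 * (2 * w) :=
    mul_le_mul (by linarith) (by linarith) (by linarith) (by linarith)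
  have b : 4 * Λ * ((Λ + 1) * (w + 2) + 1) ≤ w * (w / 2 * (2 * w) + 1) :=
    mul_le_mul h2 (by linarith) (by positivity) (by linarith)
  have c : 16 ≤ w ^ 2 := by nlinarith
  have e : w * (w ^ 2 + 1) < w * (w * w ^ 2) :=
    mul_lt_mul_of_pos_left (by nlinarith) (by linarith)
  nlinarith

theorem inca_m {lam : ℝ} {L : ℕ} (hL : 1 ≤ L) (h1 : 33 / 32 ≤ lam) (h2 : lam ≤ 2 ^ (2 * L + 4)) :
    ∃ m : ℕ, 1 ≤ m ∧ m ≤ 276 * L ∧ 2 ^ (4 * L + 8) ≤ lam ^ m ∧ lam ^ (m + 1) ≤ 2 ^ (24 * L) := by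
  have h0 : (2 : ℝ) ^ (4 * L + 8) ≤ lam ^ (276 * L) := by
    have a : (2 : ℝ) ≤ lam ^ 23 := le_trans (by norm_num) (pow_le_pow_left₀ (by norm_num) h1 23)
    calc (2 : ℝ) ^ (4 * L + 8) ≤ 2 ^ (12 * L) := inca_two (by omega)
      _ ≤ (lam ^ 23) ^ (12 * L) := pow_le_pow_left₀ (by norm_num) a _
      _ = _ := by rw [← pow_mul]; congr 1; ring
  have hex : ∃ m, (2 : ℝ) ^ (4 * L + 8) ≤ lam ^ m := ⟨_, h0⟩
  have h3 := Nat.find_spec hex
  have h4 : Nat.find hex ≤ 276 * L := Nat.find_min' hex h0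
  rcases e : Nat.find hex with _ | m
  · rw [e, pow_zero] at h3
    exact absurd h3 (not_le.2 (one_lt_pow₀ one_lt_two (by omega)))
  · have h5 := Nat.find_min hex (m := m) (by omega)
    rw [e] at h3 h4
    refine ⟨m + 1, by omega, h4, h3, ?_⟩
    calc lam ^ (m + 1 + 1) = lam ^ m * lam * lam := by ring
      _ ≤ 2 ^ (4 * L + 8) * 2 ^ (2 * L + 4) * 2 ^ (2 * L + 4) := by
          have := (not_le.1 h5).le
          gcongr
      _ = 2 ^ (4 * L + 8 + (2 * L + 4) + (2 * L + 4)) := by rw [← pow_add, ← pow_add]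
      _ ≤ _ := inca_two (by omega)

theorem inca_root (k : ℕ) {x : ℝ} (hx : 0 ≤ x) : ∃ y : ℝ, 0 ≤ y ∧ y ^ (k + 1) = x :=
  ⟨x ^ (((k + 1 : ℕ) : ℝ)⁻¹), Real.rpow_nonneg hx _, Real.rpow_inv_natCast_pow hx (by omega)⟩

variable {W : Type} [AddCommGroup W] [Fintype W] [DecidableEq W]

/-- The majorant is spread on all rectangles, up to two error terms. -/
theorem inca_sp {Y : Finset W} {b q : ℕ} {Λ : ℝ} (hΛ : 0 < Λ) (hU : Up Y b Λ q) (B C : Finset W) :
    (tri Y B C : ℝ) ≤ #Y / Fintype.card W * (Λ * #B * #C) + Fintype.card W / 2 ^ b * #C +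
      Fintype.card W / Λ ^ q * #B := by
  have hN : (0 : ℝ) < Fintype.card W := Nat.cast_pos.2 Fintype.card_pos
  have ht : (tri Y B C : ℝ) ≤ #B * #C := by exact_mod_cast tri_le Y B C
  have p1 : (0 : ℝ) ≤ #Y / Fintype.card W * (Λ * #B * #C) := by positivity
  have p2 : (0 : ℝ) ≤ Fintype.card W / 2 ^ b * #C := by positivity
  have p3 : (0 : ℝ) ≤ Fintype.card W / Λ ^ q * #B := by positivity
  by_cases h1 : Fintype.card W ≤ 2 ^ b * #B
  · by_cases h2 : (Fintype.card W : ℝ) ≤ Λ ^ q * #C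
    · have a := hU Λ le_rfl B C h1 h2
      have : (tri Y B C : ℝ) ≤ #Y / Fintype.card W * (Λ * #B * #C) := by
        rw [div_mul_eq_mul_div, le_div_iff₀ hN]
        linarith
      linarith
    · have a : (#C : ℝ) ≤ Fintype.card W / Λ ^ q := by
        rw [le_div_iff₀ (by positivity)]
        linarith [not_le.1 h2]
      have := mul_le_mul_of_nonneg_left a (Nat.cast_nonneg (α := ℝ) #B)
      linarith
  · have a : (#B : ℝ) ≤ Fintype.card W / 2 ^ b := by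
      rw [le_div_iff₀ (by positivity), mul_comm]
      exact_mod_cast (not_le.1 h1).le
    have := mul_le_mul_of_nonneg_right a (Nat.cast_nonneg (α := ℝ) #C)
    linarith

omit [Fintype W] in
theorem inca_nb {A : Finset (W × W)} {X Y D : Finset W} (h : In A X Y D) {x d : W}
    (hd : d ∈ nb A D x) : x + d ∈ Y := (h _ (mem_filter.1 hd).2).2.1

/-- A huge correlation contradicts the upper bound. -/
theorem inca_huge {A : Finset (W × W)} {X Y D X₀ : Finset W} {Γ : Finset (W × W)} {L c a : ℕ}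
    {lam μ : ℝ} (hI : In A X Y D) (hL : 1 ≤ L) (hLa : L ≤ a) (hca : c ≤ a) (hX : X₀.Nonempty)
    (hμ : 0 < μ) (hrow : ∀ x ∈ X₀, μ * #D ≤ #(nb A D x)) (hΓ : Γ ⊆ X₀ ×ˢ X₀)
    (hd : (#X₀ : ℝ) ^ 2 ≤ lam ^ (32 * (c + 1)) * #Γ)
    (hco : ∀ q ∈ Γ, lam * #(nb A D q.1) * #(nb A D q.2) ≤ #(nb A D q.1 ∩ nb A D q.2) * (#D : ℝ))
    (h0 : (Fintype.card W : ℝ) ≤ 2 ^ (a + 1) * #X₀) (hD : (Fintype.card W : ℝ) ≤ 2 ^ (c + 1) * #D)
    (h1 : (#Y : ℝ) ≤ 2 ^ (L + 2) * μ * Fintype.card W) (h2 : 1 ≤ 2 ^ (4 * a) * μ)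
    (hU : Up Y (10000 * a) (2 ^ L) (10000 * a)) (hl : 2 ^ (2 * L + 4) ≤ lam) : False := by
  have hN : (0 : ℝ) < Fintype.card W := Nat.cast_pos.2 Fintype.card_pos
  have hl0 : 0 ≤ lam := le_trans (by positivity) hl
  obtain ⟨r, hr0, hr⟩ := inca_root 1 hl0
  have hr1 : 2 ^ (L + 2) ≤ r := by
    refine le_of_pow_le_pow_left₀ (n := 1 + 1) (by norm_num) hr0 ?_
    rw [hr, ← pow_mul]
    exact le_trans (inca_two (by omega)) hl
  have hr2 : 2 ≤ r := le_trans (le_self_pow₀ one_le_two (by omega)) hr1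
  obtain ⟨x', hx', hC⟩ := inca_fib hX hΓ (by positivity) hd
  obtain ⟨C, hCe⟩ : ∃ C, C = {x ∈ X₀ | (x, x') ∈ Γ} := ⟨_, rfl⟩
  rw [← hCe] at hC
  have hD0 : (0 : ℝ) < #D := by
    by_contra h
    have : (#D : ℝ) = 0 := le_antisymm (not_lt.1 h) (Nat.cast_nonneg _)
    rw [this] at hD
    linarith
  have hB := hrow x' hx'
  have a1 : Fintype.card W ≤ 2 ^ (10000 * a) * #(nb A D x') := by
    have : (Fintype.card W : ℝ) ≤ 2 ^ (10000 * a) * #(nb A D x') := by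
      calc (Fintype.card W : ℝ) ≤ 2 ^ (c + 1) * (1 * #D) := by rwa [one_mul]
        _ ≤ 2 ^ (c + 1) * (2 ^ (4 * a) * μ * #D) := by gcongr
        _ = 2 ^ (c + 1 + 4 * a) * (μ * #D) := by rw [pow_add 2 (c + 1)]; ring
        _ ≤ _ := mul_le_mul (inca_two (by omega)) hB (by positivity) (by positivity)
    exact_mod_cast this
  have a2 : (Fintype.card W : ℝ) ≤ r ^ (10000 * a) * #C := by
    calc (Fintype.card W : ℝ) ≤ r ^ (a + 1) * (lam ^ (32 * (c + 1)) * #C) :=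
          h0.trans (mul_le_mul (pow_le_pow_left₀ zero_le_two hr2 _) hC (by positivity)
            (by positivity))
      _ = r ^ (a + 1 + (1 + 1) * (32 * (c + 1))) * #C := by rw [pow_add r (a + 1), pow_mul r, hr]; ring
      _ ≤ _ := mul_le_mul_of_nonneg_right (pow_le_pow_right₀ (by linarith) (by omega))
          (Nat.cast_nonneg _)
  have a3 := hU r (le_trans (inca_two (by omega)) hr1) _ C a1 a2
  have a4 : lam * μ * #(nb A D x') * #C ≤ tri Y (nb A D x') C := by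
    unfold tri
    push_cast
    rw [mul_comm, ← nsmul_eq_mul]
    refine card_nsmul_le_sum _ _ _ fun x hx => ?_
    rw [hCe] at hx
    obtain ⟨hx1, hx2⟩ := mem_filter.1 hx
    have b1 := hco _ hx2
    have b2 : (#(nb A D x ∩ nb A D x') : ℝ) ≤ cv Y (nb A D x') x :=
      Nat.cast_le.2 (card_le_card fun d hd =>
        mem_filter.2 ⟨(mem_inter.1 hd).2, inca_nb hI (mem_inter.1 hd).1⟩)
    refine le_trans (le_of_mul_le_mul_right (le_trans ?_ b1) hD0) b2
    calc lam * μ * #(nb A D x') * #D = lam * (μ * #D) * #(nb A D x') := by ring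
      _ ≤ _ := by have := hrow x hx1; gcongr
  have a5 : r * #Y ≤ lam * μ * Fintype.card W := by
    calc r * #Y ≤ r * (r * μ * Fintype.card W) := by
          refine mul_le_mul_of_nonneg_left (h1.trans ?_) hr0
          gcongr
      _ = _ := by rw [← hr]; ring
  have a6 := mul_le_mul_of_nonneg_right a4 hN.le
  have a7 := mul_le_mul_of_nonneg_right a5
    (mul_nonneg (Nat.cast_nonneg (α := ℝ) #(nb A D x')) (Nat.cast_nonneg (α := ℝ) #C))
  nlinarith

theorem inc_gamma : ∃ K : ℕ, ∀ (W : Type) [AddCommGroup W] [Fintype W] [DecidableEq W],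
    (∀ x : W, x + x = 0) → ∀ (A : Finset (W × W)) (X Y D X₀ : Finset W) (Γ : Finset (W × W))
    (L c a : ℕ) (lam : ℝ), In A X Y D → 1 ≤ L → L ≤ c → c * L ≤ a → X₀ ⊆ X → #X ≤ 2 * #X₀ →
    (∀ x ∈ X₀, (299 / 300 : ℝ) * #A ≤ #(nb A D x) * #X) → 33 / 32 ≤ lam → Γ ⊆ X₀ ×ˢ X₀ →
    (#X₀ : ℝ) ^ 2 ≤ lam ^ (32 * (c + 1)) * #Γ →
    (∀ q ∈ Γ, lam * #(nb A D q.1) * #(nb A D q.2) ≤ #(nb A D q.1 ∩ nb A D q.2) * (#D : ℝ)) →
    #X * #Y * #D ≤ 2 ^ (L + 1) * #A * Fintype.card W → Fintype.card W ≤ 2 ^ a * #X →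
    Fintype.card W ≤ 2 ^ a * #Y → Fintype.card W ≤ 2 ^ (c + 1) * #D →
    Up Y (K * a) (2 ^ L) (K * a) → Inc A X D (1 + 1 / 5000) (K * c) (K * L) (K * a) := by
  refine ⟨10000, fun W _ _ _ _ A X Y D X₀ Γ L c a lam hI hL hLc hcL hX₀ hXX hrow hlam hΓ hd hco
    hA hNX hNY hND hU => ?_⟩
  have hN' : 0 < Fintype.card W := Fintype.card_pos
  have hca : c ≤ a := le_trans (Nat.le_mul_of_pos_right c hL) hcL
  have hX0 : 0 < #X := Nat.pos_of_mul_pos_left (hN'.trans_le hNX)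
  have hY0 : 0 < #Y := Nat.pos_of_mul_pos_left (hN'.trans_le hNY)
  have hD0 : 0 < #D := Nat.pos_of_mul_pos_left (hN'.trans_le hND)
  have hX1 : 0 < #X₀ := by omega
  have hA0 : 0 < #A := Nat.pos_of_mul_pos_left (Nat.pos_of_mul_pos_right
    ((Nat.mul_pos (Nat.mul_pos hX0 hY0) hD0).trans_le hA))
  have hN : (0 : ℝ) < Fintype.card W := Nat.cast_pos.2 hN'
  have hx : (0 : ℝ) < #X := Nat.cast_pos.2 hX0
  have hy : (0 : ℝ) < #Y := Nat.cast_pos.2 hY0
  have hdd : (0 : ℝ) < #D := Nat.cast_pos.2 hD0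
  have haa : (0 : ℝ) < #A := Nat.cast_pos.2 hA0
  have rXX : (#X : ℝ) ≤ 2 * #X₀ := by exact_mod_cast hXX
  have rA : (#X : ℝ) * #Y * #D ≤ 2 ^ (L + 1) * #A * Fintype.card W := by exact_mod_cast hA
  have rX : (Fintype.card W : ℝ) ≤ 2 ^ a * #X := by exact_mod_cast hNX
  have rY : (Fintype.card W : ℝ) ≤ 2 ^ a * #Y := by exact_mod_cast hNY
  have rD : (Fintype.card W : ℝ) ≤ 2 ^ (c + 1) * #D := by exact_mod_cast hND
  have rX0 : (Fintype.card W : ℝ) ≤ 2 ^ (a + 1) * #X₀ :=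
    rX.trans (by rw [pow_succ, mul_assoc]; gcongr)
  obtain ⟨μ, hμ0, hμ⟩ : ∃ μ : ℝ, 0 < μ ∧ μ * (#X * #D) = 299 / 300 * #A :=
    ⟨299 / 300 * #A / (#X * #D), by positivity, div_mul_cancel₀ _ (by positivity)⟩
  have hrow' : ∀ x ∈ X₀, μ * #D ≤ #(nb A D x) := fun x hx' =>
    le_of_mul_le_mul_right (by have := hrow x hx'; nlinarith) hx
  have k1 : (#Y : ℝ) ≤ 2 ^ (L + 2) * μ * Fintype.card W := by
    refine le_of_mul_le_mul_right ?_ (mul_pos hx hdd)
    calc (#Y : ℝ) * (#X * #D) = #X * #Y * #D := by ring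
      _ ≤ 2 ^ (L + 1) * (#A * Fintype.card W) := by rw [← mul_assoc]; exact rA
      _ ≤ 2 ^ (L + 1) * ((2 * (299 / 300 * #A)) * Fintype.card W) := by gcongr; linarith
      _ = _ := by rw [← hμ, pow_succ 2 (L + 1)]; ring
  have k2 : 1 ≤ 2 ^ (4 * a) * μ := by
    refine le_of_mul_le_mul_right ?_ hN
    calc (1 : ℝ) * Fintype.card W ≤ 2 ^ a * (2 ^ (L + 2) * μ * Fintype.card W) := by
          rw [one_mul]; exact rY.trans (by gcongr)
      _ = 2 ^ (a + (L + 2)) * μ * Fintype.card W := by rw [pow_add 2 a]; ring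
      _ ≤ _ := by have := inca_two (i := a + (L + 2)) (j := 4 * a) (by omega); gcongr
  rcases le_total (2 ^ (2 * L + 4)) lam with hl | hl
  · exact (inca_huge hI hL (hLc.trans hca) hca (card_pos.1 hX1) hμ0 hrow' hΓ hd hco rX0 rD k1 k2
      hU hl).elim
  have hl1 : 1 ≤ lam := by linarith
  have hl0 : 0 < lam := by linarith
  obtain ⟨m, hm1, hm2, hm3, hm4⟩ := inca_m hL hlam hl
  obtain ⟨l₁, hl₁0, hl₁⟩ := inca_root 3 hl0.le
  have hl₁p : 0 < l₁ := lt_of_le_of_ne hl₁0 fun e => by rw [← e] at hl₁; norm_num at hl₁; linarith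
  obtain ⟨P, hP⟩ : ∃ P : ℝ, P = lam ^ (32 * (c + 1)) := ⟨_, rfl⟩
  have hP0 : 0 < P := by rw [hP]; positivity
  rw [← hP] at hd
  obtain ⟨τ, hτ⟩ : ∃ τ : ℝ, τ = #Y / Fintype.card W := ⟨_, rfl⟩
  have hτ0 : 0 < τ := by rw [hτ]; positivity
  have hτ1 : 1 ≤ 2 ^ a * τ := by rw [hτ, ← mul_div_assoc, one_le_div hN]; exact rY
  have hτ2 : τ ≤ 2 ^ (L + 2) * μ := by rw [hτ, div_le_iff₀ hN]; exact k1
  obtain ⟨X₁, hX₁, D', hD', g', hg1, hg2, hg3, hg4⟩ := rsift X₀ D (nb A D)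
    (fun x => {d ∈ D | x + d ∈ Y}) Γ (μ := μ) (lam := lam) (p := P⁻¹) (τ := τ) (Λ := 2 ^ L)
    (β₁ := Fintype.card W / 2 ^ (10000 * a) / τ)
    (β₂ := Fintype.card W / (2 ^ L) ^ (10000 * a) / τ) (l₁ := l₁) (m := m) (card_pos.1 hX1)
    (card_pos.1 hD0) (fun x _ d hd => mem_filter.2 ⟨(mem_filter.1 hd).1, inca_nb hI hd⟩)
    (fun x _ => filter_subset _ _) hμ0 hrow' hΓ (inv_pos.2 hP0)
    (by rw [inv_mul_le_iff₀ hP0]; exact hd) hl0.le hco hm1 hτ0.le (by positivity)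
    (fun B _ C _ => by
      have a1 : ∑ x ∈ B, (#({d ∈ D | x + d ∈ Y} ∩ C) : ℝ) ≤ tri Y B C := by
        rw [tri_comm, tri]
        push_cast
        exact sum_le_sum fun x _ => Nat.cast_le.2 (card_le_card fun d hd =>
          mem_filter.2 ⟨(mem_inter.1 hd).2, (mem_filter.1 (mem_inter.1 hd).1).2⟩)
      refine a1.trans ((inca_sp (by positivity) hU B C).trans (le_of_eq ?_))
      rw [← hτ]
      field_simp)
    (by
      have a1 : (2 * P) ^ (m + 1) ≤ 2 ^ (m + 1 + 24 * L * (32 * (c + 1))) := by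
        rw [mul_pow, hP, ← pow_mul, mul_comm (32 * (c + 1)), pow_mul lam, pow_add 2 (m + 1),
          pow_mul 2 (24 * L)]
        gcongr
      have a2 : m + 1 + 24 * L * (32 * (c + 1)) + (a + 1) + a ≤ 10000 * a := by nlinarith
      rw [div_div, div_le_iff₀ (by positivity), inv_eq_one_div, div_div, mul_comm P, one_div,
        inv_pow, mul_assoc, le_inv_mul_iff₀ (by positivity)]
      calc (2 * P) ^ (m + 1) * Fintype.card W
          ≤ 2 ^ (m + 1 + 24 * L * (32 * (c + 1))) * (2 ^ (a + 1) * #X₀) * (2 ^ a * τ) := by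
            rw [← mul_one (_ * (Fintype.card W : ℝ))]
            gcongr
        _ = #X₀ * (2 ^ (m + 1 + 24 * L * (32 * (c + 1)) + (a + 1) + a) * τ) := by
            rw [pow_add 2 _ a, pow_add 2 _ (a + 1)]; ring
        _ ≤ _ := by have := inca_two a2; gcongr)
    (by
      have a1 : 1 ≤ 2 ^ (4 * a * m) * μ ^ m := by
        rw [pow_mul, ← mul_pow]; exact one_le_pow₀ k2
      have a2 : 4 * a * m + (c + 1) + a ≤ L * (10000 * a) := by nlinarith
      rw [div_div, div_le_iff₀ (by positivity), ← pow_mul]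
      calc (Fintype.card W : ℝ) = 1 * Fintype.card W * 1 := by ring
        _ ≤ 2 ^ (4 * a * m) * μ ^ m * (2 ^ (c + 1) * #D) * (2 ^ a * τ) := by gcongr
        _ = μ ^ m * #D * (2 ^ (4 * a * m + (c + 1) + a) * τ) := by
            rw [pow_add 2 _ a, pow_add 2 _ (c + 1)]; ring
        _ ≤ _ := by have := inca_two a2; gcongr)
    hl₁p
    (by
      have a1 : (l₁ ^ m) ^ 4 = lam ^ m := by rw [← pow_mul, mul_comm, pow_mul, ← hl₁]
      have a2 : 4 * 2 ^ L ≤ l₁ ^ m := by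
        refine le_of_pow_le_pow_left₀ (n := 4) (by norm_num) (by positivity) ?_
        rw [a1]
        refine le_trans (le_of_eq ?_) hm3
        rw [pow_add, mul_pow, ← pow_mul, mul_comm L]
        norm_num [mul_comm]
      have a3 := inca_big (one_le_pow₀ one_le_two) a2
      rw [a1] at a3
      calc τ * ((2 ^ L + 1) * (l₁ ^ m + 2) + 1)
          ≤ 2 ^ (L + 2) * μ * ((2 ^ L + 1) * (l₁ ^ m + 2) + 1) := by gcongr
        _ = μ * (4 * 2 ^ L * ((2 ^ L + 1) * (l₁ ^ m + 2) + 1)) := by rw [pow_add]; ring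
        _ < _ := mul_lt_mul_of_pos_left a3 hμ0)
  obtain ⟨g, hg0, hg⟩ := inca_root 7 (hl₁0.trans hg1)
  have b1 : lam ≤ g ^ 32 := by
    calc lam = l₁ ^ 4 := hl₁.symm
      _ ≤ g' ^ 4 := pow_le_pow_left₀ hl₁0 hg1 4
      _ = g ^ 32 := by rw [← hg, ← pow_mul]
  have b2 : 1 + 1 / 5000 ≤ g :=
    le_of_pow_le_pow_left₀ (n := 32) (by norm_num) hg0 (le_trans (by norm_num) (hlam.trans b1))
  have b3 : 300 / 299 ≤ g ^ 4 :=
    le_of_pow_le_pow_left₀ (n := 8) (by norm_num) (by positivity)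
      (le_trans (by norm_num) ((hlam.trans b1).trans (by rw [← pow_mul])))
  have b4 : 1 ≤ g := by linarith
  have b5 : (#X : ℝ) ≤ 4 * P * #X₁ := by
    rw [inv_mul_le_iff₀ hP0] at hg2
    linarith
  refine ⟨X₁, hX₁.trans hX₀, D', hD', g, b2, b5.trans ?_, ?_, hg3.trans ?_, ?_⟩
  · refine mul_le_mul_of_nonneg_right ?_ (Nat.cast_nonneg _)
    have a1 : 4 ≤ lam ^ 46 := le_trans (by norm_num) (pow_le_pow_left₀ (by norm_num) hlam 46)
    calc 4 * P ≤ lam ^ 46 * lam ^ (32 * (c + 1)) := by rw [hP]; gcongr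
      _ = lam ^ (46 + 32 * (c + 1)) := (pow_add _ _ _).symm
      _ ≤ (g ^ 32) ^ (46 + 32 * (c + 1)) := pow_le_pow_left₀ hl0.le b1 _
      _ ≤ _ := by rw [← pow_mul]; exact pow_le_pow_right₀ b4 (by omega)
  · have : (#X : ℝ) ≤ 2 ^ (10000 * a) * #X₁ := by
      refine b5.trans (mul_le_mul_of_nonneg_right ?_ (Nat.cast_nonneg _))
      calc 4 * P ≤ 2 ^ 2 * (2 ^ (2 * L + 4)) ^ (32 * (c + 1)) := by
            rw [hP]; gcongr; norm_num
        _ = 2 ^ (2 + (2 * L + 4) * (32 * (c + 1))) := by rw [← pow_mul, ← pow_add]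
        _ ≤ _ := inca_two (by nlinarith)
    exact_mod_cast this
  · rw [← hg, ← pow_mul]
    exact mul_le_mul_of_nonneg_right (pow_le_pow_right₀ b4 (by omega)) (Nat.cast_nonneg _)
  · have a1 : g ^ 4 * #A ≤ g' * μ * (#X * #D) := by
      rw [mul_assoc, hμ, ← hg]
      calc g ^ 4 * #A = g ^ 4 * (300 / 299) * (299 / 300 * #A) := by ring
        _ ≤ g ^ 4 * g ^ 4 * (299 / 300 * #A) := by gcongr
        _ = _ := by ring
    calc g ^ 4 * #A * #X₁ * #D' ≤ g' * μ * (#X * #D) * #X₁ * #D' := by gcongr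
      _ = g' * μ * #X₁ * #D' * #X * #D := by ring
      _ ≤ _ := by gcongr

end Pool.Agent.P.MP_db4732_co.Q
end

-- part Pool.Agent.P.MP_db4732_co.Q.IncB
section

/-! From an increment of the graph of rows to an increment inside the container. -/

set_option autoImplicit false

namespace Pool.Agent.P.MP_db4732_co.Q

open Finset

theorem card_res_eq {W : Type} [AddCommGroup W] [DecidableEq W] (h2 : ∀ x : W, x + x = 0)
    {A : Finset (W × W)} {X Y D X' D' : Finset W} (hIn : In A X Y D) :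
    #(res A X' Y D') = ∑ x ∈ X', #(nb A D x ∩ D') := by
  rw [← card_sigma]
  symm
  refine card_bij (fun q _ => (q.1, q.1 + q.2)) (fun q hq => ?_) (fun q _ q' _ h => ?_)
    (fun q hq => ?_)
  · simp only [mem_sigma, mem_inter, nb, mem_filter] at hq
    simp only [res, mem_filter]
    refine ⟨hq.2.1.2, hq.1, (hIn _ hq.2.1.2).2.1, ?_⟩
    rw [← add_assoc, h2, zero_add]
    exact hq.2.2
  · obtain ⟨x, d⟩ := q
    obtain ⟨x', d'⟩ := q'
    simp only [Prod.mk.injEq] at h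
    obtain ⟨rfl, h⟩ := h
    rw [add_left_cancel h]
  · simp only [res, mem_filter] at hq
    have e : q.1 + (q.1 + q.2) = q.2 := by rw [← add_assoc, h2, zero_add]
    refine ⟨⟨q.1, q.1 + q.2⟩, ?_, ?_⟩
    · simp only [mem_sigma, mem_inter, nb, mem_filter]
      refine ⟨hq.2.1, ⟨(hIn _ hq.1).2.2, ?_⟩, hq.2.2.2⟩
      rw [e]
      exact hq.1
    · simp only [e]

theorem better_of_inc {g₀ : ℝ} (hg : 1 < g₀) (K₀ : ℕ) : ∃ K : ℕ, ∀ (W : Type) [AddCommGroup W]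
    [Fintype W] [DecidableEq W], (∀ x : W, x + x = 0) → ∀ (A : Finset (W × W)) (X Y D : Finset W)
    (L c a : ℕ), In A X Y D → A.Nonempty → 1 ≤ L → L ≤ c → 1 ≤ a → Fintype.card W ≤ 2 ^ a * #X →
    Fintype.card W ≤ 2 ^ (c + 1) * #D →
    (#X : ℝ) * #Y * #D ≤ g₀ * tri D X Y * Fintype.card W → Up Y (K * a) g₀ (K * c) →
    Inc A X D g₀ (K₀ * c) (K₀ * L) (K₀ * a) → Better A X Y D g₀ (K₀ * c) (K₀ * L) := by
  obtain ⟨k, hk⟩ := pow_unbounded_of_one_lt (2 : ℝ) hg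
  refine ⟨K₀ + 1 + 2 * k, ?_⟩
  intro W _ _ _ h2 A X Y D L c a hIn hA hL hLc ha hX hD hT hUp hInc
  obtain ⟨X', hX', D', hD', g, hg0, h1, h2', h3, h4⟩ := hInc
  have hg1 : 1 ≤ g := hg.le.trans hg0
  have hgp : 0 < g := by linarith
  have hS : (#(res A X' Y D') : ℝ) = ∑ x ∈ X', (#(nb A D x ∩ D') : ℝ) := by
    rw [card_res_eq h2 hIn]; push_cast; rfl
  rw [← hS] at h4
  set S : ℝ := (#(res A X' Y D') : ℝ) with hSdef
  obtain ⟨q, hq⟩ := hA
  have hAp : (0 : ℝ) < #A := by exact_mod_cast card_pos.2 ⟨q, hq⟩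
  have hXp : (0 : ℝ) < #X := by exact_mod_cast card_pos.2 ⟨_, (hIn q hq).1⟩
  have hDp : (0 : ℝ) < #D := by exact_mod_cast card_pos.2 ⟨_, (hIn q hq).2.2⟩
  have hX'p : (0 : ℝ) < #X' := (mul_pos_iff_of_pos_left (by positivity)).1 (hXp.trans_le h1)
  have hD'p : (0 : ℝ) < #D' := (mul_pos_iff_of_pos_left (by positivity)).1 (hDp.trans_le h3)
  have hN : (0 : ℝ) < Fintype.card W := by exact_mod_cast Fintype.card_pos
  have hSp : 0 < S := by
    have : 0 < S * #X * #D := lt_of_lt_of_le (by positivity) h4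
    by_contra hc
    have hS0 : S ≤ 0 := not_lt.1 hc
    have : S * #X * #D ≤ 0 :=
      mul_nonpos_of_nonpos_of_nonneg (mul_nonpos_of_nonpos_of_nonneg hS0 hXp.le) hDp.le
    linarith
  have hB : Fintype.card W ≤ 2 ^ ((K₀ + 1 + 2 * k) * a) * #X' := by
    calc Fintype.card W ≤ 2 ^ a * #X := hX
      _ ≤ 2 ^ a * (2 ^ (K₀ * a) * #X') := Nat.mul_le_mul_left _ h2'
      _ = 2 ^ (a + K₀ * a) * #X' := by rw [pow_add, mul_assoc]
      _ ≤ _ := Nat.mul_le_mul_right _ (Nat.pow_le_pow_right two_pos (by nlinarith))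
  have hC : (Fintype.card W : ℝ) ≤ g ^ ((K₀ + 1 + 2 * k) * c) * #D' := by
    have e1 : (2 : ℝ) ≤ g ^ k := hk.le.trans (pow_le_pow_left₀ (by linarith) hg0 k)
    have hc1 : 1 ≤ c := hL.trans hLc
    have e2 : K₀ * L ≤ K₀ * c := Nat.mul_le_mul_left _ hLc
    have e3 : k ≤ k * c := Nat.le_mul_of_pos_right _ hc1
    calc (Fintype.card W : ℝ) ≤ 2 ^ (c + 1) * #D := by exact_mod_cast hD
      _ ≤ (g ^ k) ^ (c + 1) * (g ^ (K₀ * L) * #D') := by gcongr
      _ = g ^ (k * (c + 1) + K₀ * L) * #D' := by rw [← pow_mul, pow_add, mul_assoc]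
      _ ≤ _ := by
        refine mul_le_mul_of_nonneg_right (pow_le_pow_right₀ hg1 ?_) hD'p.le
        nlinarith
  have hU := hUp g hg0 X' D' hB hC
  have hT' : tri D' X' Y = tri Y X' D' := by
    rw [tri_comm D' X' Y, tri_rot h2 D' Y X', tri_comm]
  have hYn : (0 : ℝ) ≤ #Y := Nat.cast_nonneg _
  have hTn : (0 : ℝ) ≤ tri D X Y := Nat.cast_nonneg _
  refine ⟨X', hX', Y, Subset.rfl, D', hD', g, hg0, ?_, ?_, ?_, ?_⟩
  · rw [← card_pos]
    have : (0 : ℝ) < #(res A X' Y D') := hSp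
    exact_mod_cast this
  · rw [hT', ← hSdef]
    refine le_of_mul_le_mul_right ?_ (mul_pos hgp hN)
    have e1 : (#X : ℝ) * #Y * #D ≤ g * tri D X Y * Fintype.card W :=
      hT.trans (by gcongr)
    calc g ^ 2 * #A * tri Y X' D' * (g * Fintype.card W)
        = g ^ 3 * #A * ((tri Y X' D' : ℝ) * Fintype.card W) := by ring
      _ ≤ g ^ 3 * #A * (g * #Y * #X' * #D') := by gcongr
      _ = g ^ 4 * #A * #X' * #D' * #Y := by ring
      _ ≤ S * #X * #D * #Y := by gcongr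
      _ = S * (#X * #Y * #D) := by ring
      _ ≤ S * (g * tri D X Y * Fintype.card W) := by gcongr
      _ = _ := by ring
  · rw [← hSdef]
    refine mul_le_mul_of_nonneg_right ?_ hYn
    refine le_of_mul_le_mul_right ?_ hD'p
    calc (#A : ℝ) * #X' * #D' ≤ g ^ 4 * (#A * #X' * #D') :=
          le_mul_of_one_le_left (by positivity) (one_le_pow₀ hg1)
      _ = g ^ 4 * #A * #X' * #D' := by ring
      _ ≤ S * #X * #D := h4
      _ ≤ S * #X * (g ^ (K₀ * L) * #D') := by gcongr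
      _ = _ := by ring
  · exact mul_le_mul_of_nonneg_right h1 hYn

end Pool.Agent.P.MP_db4732_co.Q
end

-- part Pool.Agent.P.MP_db4732_co.Q.Gram
section

/-! Spectral positivity and unbalancing. -/

set_option autoImplicit false

namespace Pool.Agent.P.MP_db4732_co.Q

open Finset

/-- Sum of the tensor powers of a family of vectors. -/
noncomputable def gramU {ι δ : Type} (s : Finset ι) (u : ι → δ → ℝ) (j : ℕ) (p : Fin j → δ) : ℝ :=
  ∑ x ∈ s, ∏ i, u x (p i)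

theorem gram_pow {ι κ δ : Type} (s : Finset ι) (t : Finset κ) (D : Finset δ) (u : ι → δ → ℝ)
    (v : κ → δ → ℝ) (j : ℕ) :
    ∑ q ∈ s ×ˢ t, ip D (u q.1) (v q.2) ^ j =
      (∑ p ∈ Fintype.piFinset (fun _ : Fin j => D), gramU s u j p * gramU t v j p) /
        (#D : ℝ) ^ j := by
  simp only [ip, div_pow, gramU]
  rw [← sum_div]
  congr 1
  simp only [Finset.sum_pow', prod_mul_distrib, sum_mul_sum]
  rw [sum_comm]
  exact sum_congr rfl fun p _ => sum_product _ _ _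

theorem gram_nonneg {ι δ : Type} (s : Finset ι) (D : Finset δ) (u : ι → δ → ℝ) (j : ℕ) :
    0 ≤ ∑ q ∈ s ×ˢ s, ip D (u q.1) (u q.2) ^ j := by
  rw [gram_pow]
  exact div_nonneg (sum_nonneg fun p _ => mul_self_nonneg _) (by positivity)

theorem gram_cs {ι κ δ : Type} (s : Finset ι) (t : Finset κ) (D : Finset δ) (u : ι → δ → ℝ)
    (v : κ → δ → ℝ) (j : ℕ) :
    (∑ q ∈ s ×ˢ t, ip D (u q.1) (v q.2) ^ j) ^ 2 ≤
      (∑ q ∈ s ×ˢ s, ip D (u q.1) (u q.2) ^ j) * ∑ q ∈ t ×ˢ t, ip D (v q.1) (v q.2) ^ j := by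
  rw [gram_pow, gram_pow, gram_pow, div_pow, div_mul_div_comm, ← sq]
  refine div_le_div_of_nonneg_right ?_ (by positivity)
  simp only [← sq]
  exact sum_mul_sq_le_sq_mul_sq _ _ _

theorem gram_choose {m : ℕ} (hm : 1 ≤ m) (r : ℕ) : m ^ r ≤ (m * r).choose r := by
  induction r with
  | zero => simp
  | succ r ih =>
    obtain ⟨n, hn⟩ : ∃ n, m * (r + 1) = n + 1 := ⟨m * (r + 1) - 1, by
      have : 1 ≤ m * (r + 1) := Nat.mul_pos hm (Nat.succ_pos r)
      omega⟩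
    have h1 : m * r ≤ n := by
      have : m * (r + 1) = m * r + m := by ring
      omega
    have h2 := Nat.add_one_mul_choose_eq n r
    have h3 : m ^ r ≤ n.choose r := ih.trans (Nat.choose_le_choose r h1)
    rw [hn]
    refine Nat.le_of_mul_le_mul_right ?_ (Nat.succ_pos r)
    calc m ^ (r + 1) * (r + 1) = m * (r + 1) * m ^ r := by ring
      _ ≤ (n + 1) * n.choose r := by rw [hn]; exact Nat.mul_le_mul_left _ h3
      _ = _ := h2

theorem gram_num {e k : ℕ} (he : 1 ≤ e) (hk : 1 ≤ k) :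
    (1 + 1 / (16 * e) : ℝ) ^ (8 * e * k) + 2 < 4 ^ k := by
  have he0 : (0 : ℝ) < e := by exact_mod_cast he
  have h1 : (1 + 1 / (16 * e) : ℝ) ^ (8 * e) ≤ Real.exp (1 / 2) := by
    have h2 : (1 + 1 / (16 * e) : ℝ) ≤ Real.exp (1 / (16 * e)) := by
      have := Real.add_one_le_exp (1 / (16 * e) : ℝ)
      linarith
    calc _ ≤ Real.exp (1 / (16 * e)) ^ (8 * e) := by gcongr
      _ = _ := by
        rw [← Real.exp_nat_mul]
        congr 1
        push_cast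
        field_simp
        norm_num
  have h3 : Real.exp (1 / 2) ≤ 7 / 4 := by
    have h4 : Real.exp (1 / 2) ^ 2 = Real.exp 1 := by
      rw [← Real.exp_nat_mul]; norm_num
    have h5 := Real.exp_one_lt_d9
    have h6 := Real.exp_pos (1 / 2)
    nlinarith
  obtain ⟨n, rfl⟩ : ∃ n, k = n + 1 := ⟨k - 1, by omega⟩
  have h7 : (1 + 1 / (16 * e) : ℝ) ^ (8 * e * (n + 1)) ≤ (7 / 4) ^ (n + 1) := by
    rw [pow_mul]
    gcongr
    exact h1.trans h3
  have h8 : (7 / 4 : ℝ) ^ n ≤ 4 ^ n := by gcongr; norm_num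
  have h9 : (1 : ℝ) ≤ 4 ^ n := one_le_pow₀ (by norm_num)
  rw [pow_succ] at h7
  rw [pow_succ (4 : ℝ)]
  linarith

theorem gram_one {ι δ : Type} (s : Finset ι) (D : Finset δ) (u : ι → δ → ℝ) {e k : ℕ}
    (he : 1 ≤ e) (hk : 1 ≤ k) (hs : s.Nonempty)
    (hu : ∀ x ∈ s, ∀ x' ∈ s, 0 ≤ 1 + ip D (u x) (u x'))
    (h : (#s : ℝ) ^ 2 ≤ (2 * e) ^ (2 * k) * ∑ q ∈ s ×ˢ s, ip D (u q.1) (u q.2) ^ (2 * k)) :
    ∃ lam : ℝ, 1 + 1 / (16 * e) ≤ lam ∧
      (#s : ℝ) ^ 2 ≤ lam ^ (16 * e * k) * #{q ∈ s ×ˢ s | lam ≤ 1 + ip D (u q.1) (u q.2)} := by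
  have he0 : (0 : ℝ) < e := by exact_mod_cast he
  have hs0 : (0 : ℝ) < #s := by exact_mod_cast hs.card_pos
  have hc : (#(s ×ˢ s) : ℝ) = (#s : ℝ) ^ 2 := by rw [card_product]; push_cast; ring
  have h1 : ∑ q ∈ s ×ˢ s, (1 + ip D (u q.1) (u q.2)) ^ (8 * e * k) =
      ∑ j ∈ range (8 * e * k + 1),
        (∑ q ∈ s ×ˢ s, ip D (u q.1) (u q.2) ^ j) * ((8 * e * k).choose j : ℝ) := by
    simp only [sum_mul]
    rw [sum_comm]
    refine sum_congr rfl fun q _ => ?_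
    rw [add_comm, add_pow]
    simp
  have h2 : (∑ q ∈ s ×ˢ s, ip D (u q.1) (u q.2) ^ (2 * k)) * ((8 * e * k).choose (2 * k) : ℝ) ≤
      ∑ j ∈ range (8 * e * k + 1),
        (∑ q ∈ s ×ˢ s, ip D (u q.1) (u q.2) ^ j) * ((8 * e * k).choose j : ℝ) :=
    single_le_sum (f := fun j =>
        (∑ q ∈ s ×ˢ s, ip D (u q.1) (u q.2) ^ j) * ((8 * e * k).choose j : ℝ))
      (fun j _ => mul_nonneg (gram_nonneg s D u j) (Nat.cast_nonneg _))
      (mem_range.2 (by nlinarith))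
  have h3 : (4 : ℝ) ^ k * (2 * e) ^ (2 * k) ≤ ((8 * e * k).choose (2 * k) : ℝ) := by
    have h4 := gram_choose (m := 4 * e) (by omega) (2 * k)
    rw [show 4 * e * (2 * k) = 8 * e * k by ring] at h4
    have h5 : (4 : ℝ) ^ k * (2 * e) ^ (2 * k) = ((4 * e) ^ (2 * k) : ℕ) := by
      push_cast
      rw [show (4 : ℝ) ^ k = 2 ^ (2 * k) by rw [pow_mul]; norm_num, ← mul_pow]
      congr 1
      ring
    rw [h5]
    exact_mod_cast h4
  have h6 := gram_nonneg s D u (2 * k)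
  have h7 := gram_num he hk
  obtain ⟨lam, hl, hl2⟩ := level (s ×ˢ s) (fun q => 1 + ip D (u q.1) (u q.2))
    (fun q hq => hu _ (mem_product.1 hq).1 _ (mem_product.1 hq).2)
    (l₀ := 1 + 1 / (16 * e)) (by positivity) (8 * e * k) (by
      rw [h1, hc]
      refine lt_of_lt_of_le ?_ h2
      calc _ < (4 : ℝ) ^ k * (#s : ℝ) ^ 2 := by gcongr
        _ ≤ 4 ^ k * ((2 * e) ^ (2 * k) * ∑ q ∈ s ×ˢ s, ip D (u q.1) (u q.2) ^ (2 * k)) := by
          gcongr
        _ = (∑ q ∈ s ×ˢ s, ip D (u q.1) (u q.2) ^ (2 * k)) * (4 ^ k * (2 * e) ^ (2 * k)) := by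
          ring
        _ ≤ _ := by gcongr)
  refine ⟨lam, hl, ?_⟩
  rw [hc, show 2 * (8 * e * k) = 16 * e * k by ring] at hl2
  exact hl2

/-- If the inner products of two families of vectors are negative on a dense set, then the Gram
kernel of one family is large on a dense set. -/
theorem cnt {ι κ δ : Type} (s : Finset ι) (t : Finset κ) (D : Finset δ) (u : ι → δ → ℝ)
    (v : κ → δ → ℝ) (E : Finset (ι × κ)) (hE : E ⊆ s ×ˢ t) {e k : ℕ} (he : 1 ≤ e) (hk : 1 ≤ k)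
    (hs : s.Nonempty) (ht : t.Nonempty) (hd : #s * #t ≤ 2 ^ k * #E)
    (hneg : ∀ q ∈ E, ip D (u q.1) (v q.2) ≤ -(1 / e))
    (hu : ∀ x ∈ s, ∀ x' ∈ s, 0 ≤ 1 + ip D (u x) (u x'))
    (hv : ∀ y ∈ t, ∀ y' ∈ t, 0 ≤ 1 + ip D (v y) (v y')) :
    ∃ lam : ℝ, 1 + 1 / (16 * e) ≤ lam ∧
      ((#s : ℝ) ^ 2 ≤ lam ^ (16 * e * k) * #{q ∈ s ×ˢ s | lam ≤ 1 + ip D (u q.1) (u q.2)} ∨
        (#t : ℝ) ^ 2 ≤ lam ^ (16 * e * k) * #{q ∈ t ×ˢ t | lam ≤ 1 + ip D (v q.1) (v q.2)}) := by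
  have he0 : (0 : ℝ) < e := by exact_mod_cast he
  have hs0 : (0 : ℝ) < #s := by exact_mod_cast hs.card_pos
  have ht0 : (0 : ℝ) < #t := by exact_mod_cast ht.card_pos
  have h1 : ∀ q ∈ E, (1 : ℝ) ≤ (e : ℝ) ^ (2 * k) * ip D (u q.1) (v q.2) ^ (2 * k) := by
    intro q hq
    have h2 := hneg q hq
    rw [← mul_pow, pow_mul]
    refine one_le_pow₀ ?_
    have h3 : (e : ℝ) * ip D (u q.1) (v q.2) ≤ -1 := by
      calc _ ≤ (e : ℝ) * -(1 / e) := by gcongr
        _ = -1 := by field_simp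
    nlinarith
  have h2 : (#E : ℝ) ≤ (e : ℝ) ^ (2 * k) * ∑ q ∈ s ×ˢ t, ip D (u q.1) (v q.2) ^ (2 * k) := by
    have h3 := sum_le_sum h1
    rw [sum_const, nsmul_eq_mul, mul_one, ← mul_sum] at h3
    refine h3.trans (mul_le_mul_of_nonneg_left (sum_le_sum_of_subset_of_nonneg hE
      fun q _ _ => ?_) (by positivity))
    rw [pow_mul]
    positivity
  have h4 : (#s : ℝ) * #t ≤
      (2 * e) ^ (2 * k) * ∑ q ∈ s ×ˢ t, ip D (u q.1) (v q.2) ^ (2 * k) := by
    have h5 : (#s : ℝ) * #t ≤ 2 ^ k * #E := by exact_mod_cast hd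
    have h6 : (2 : ℝ) ^ k ≤ 2 ^ (2 * k) := pow_le_pow_right₀ (by norm_num) (by omega)
    have h7 : (0 : ℝ) ≤ #E := Nat.cast_nonneg _
    calc _ ≤ (2 : ℝ) ^ k * #E := h5
      _ ≤ 2 ^ (2 * k) * #E := by gcongr
      _ ≤ 2 ^ (2 * k) *
          ((e : ℝ) ^ (2 * k) * ∑ q ∈ s ×ˢ t, ip D (u q.1) (v q.2) ^ (2 * k)) := by gcongr
      _ = _ := by rw [mul_pow]; ring
  have h8 := gram_cs s t D u v (2 * k)
  have h9 := gram_nonneg s D u (2 * k)
  have h10 := gram_nonneg t D v (2 * k)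
  set a := ∑ q ∈ s ×ˢ s, ip D (u q.1) (u q.2) ^ (2 * k)
  set b := ∑ q ∈ t ×ˢ t, ip D (v q.1) (v q.2) ^ (2 * k)
  set c := ∑ q ∈ s ×ˢ t, ip D (u q.1) (v q.2) ^ (2 * k)
  set M : ℝ := (2 * e) ^ (2 * k) with hM
  have hM0 : 0 < M := by positivity
  by_cases hA : (#s : ℝ) ^ 2 ≤ M * a
  · obtain ⟨lam, hl, hl2⟩ := gram_one s D u he hk hs hu hA
    exact ⟨lam, hl, Or.inl hl2⟩
  by_cases hB : (#t : ℝ) ^ 2 ≤ M * b
  · obtain ⟨lam, hl, hl2⟩ := gram_one t D v he hk ht hv hB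
    exact ⟨lam, hl, Or.inr hl2⟩
  exfalso
  push Not at hA hB
  have h11 : (M * a) * (M * b) < (#s : ℝ) ^ 2 * (#t : ℝ) ^ 2 :=
    mul_lt_mul'' hA hB (by positivity) (by positivity)
  have h12 : ((#s : ℝ) * #t) ^ 2 ≤ (M * c) ^ 2 := by gcongr
  have h13 : M ^ 2 * c ^ 2 ≤ M ^ 2 * (a * b) := by gcongr
  nlinarith

end Pool.Agent.P.MP_db4732_co.Q
end

-- part Pool.Agent.P.MP_db4732_co.Q.Low
section

/-! The container is not too small. -/

set_option autoImplicit false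

namespace Pool.Agent.P.MP_db4732_co.Q

open Finset

section aux

variable {W : Type} [AddCommGroup W] [Fintype W] [DecidableEq W]

theorem low_cv_univ (C : Finset W) (x : W) : cv C univ x = #C := by
  unfold cv
  refine card_bij (fun b _ => x + b) (fun b hb => (mem_filter.1 hb).2)
    (fun _ _ _ _ h => add_left_cancel h) fun y hy => ⟨y - x, ?_, by simp⟩
  rw [mem_filter]
  exact ⟨mem_univ _, by simpa using hy⟩

theorem low_pairs (C : Finset W) :
    #{q ∈ (univ : Finset W) ×ˢ (univ : Finset W) | q.1 + q.2 ∈ C} = Fintype.card W * #C := by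
  rw [← tri_eq]
  unfold tri
  simp [low_cv_univ]

/-- The uniform density of a set. -/
noncomputable def lowMu (X : Finset W) (w : W) : ℝ :=
  if w ∈ X then (Fintype.card W : ℝ) / #X else 0

theorem low_sum_mu {X : Finset W} (hX : X.Nonempty) (x : W) :
    ∑ t, lowMu X (x + t) = Fintype.card W := by
  have hX' : (#X : ℝ) ≠ 0 := by exact_mod_cast hX.card_pos.ne'
  have h := low_cv_univ X x
  unfold cv at h
  unfold lowMu
  rw [← sum_filter, sum_const, h, nsmul_eq_mul]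
  field_simp

theorem low_sum_mul (h2 : ∀ x : W, x + x = 0) (X Y : Finset W) (x y : W) :
    ∑ t, lowMu X (x + t) * lowMu Y (y + t) = nc X Y (x + y) * Fintype.card W := by
  have h : #{t : W | x + t ∈ X ∧ y + t ∈ Y} = cv X Y (x + y) := by
    unfold cv
    refine card_bij (fun t _ => y + t) (fun t ht => ?_) (fun _ _ _ _ h => add_left_cancel h)
      fun b hb => ⟨y + b, ?_, by rw [← add_assoc, h2, zero_add]⟩
    · rw [mem_filter] at ht ⊢
      refine ⟨ht.2.2, ?_⟩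
      rw [add_assoc, ← add_assoc y y, h2, zero_add]
      exact ht.2.1
    · rw [mem_filter] at hb ⊢
      refine ⟨mem_univ _, by rw [← add_assoc]; exact hb.2, ?_⟩
      rw [← add_assoc, h2, zero_add]
      exact hb.1
  have h' : ∀ t, lowMu X (x + t) * lowMu Y (y + t) =
      if x + t ∈ X ∧ y + t ∈ Y then
        (Fintype.card W : ℝ) / #X * ((Fintype.card W : ℝ) / #Y) else 0 := by
    intro t
    unfold lowMu
    by_cases h1 : x + t ∈ X <;> by_cases h3 : y + t ∈ Y <;> simp [h1, h3]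
  simp_rw [h']
  rw [← sum_filter, sum_const, h, nsmul_eq_mul]
  unfold nc
  ring

theorem low_ip (h2 : ∀ x : W, x + x = 0) {X Y : Finset W} (hX : X.Nonempty) (hY : Y.Nonempty)
    (x y : W) :
    ip univ (fun t => lowMu X (x + t) - 1) (fun t => lowMu Y (y + t) - 1) =
      nc X Y (x + y) - 1 := by
  have hN : (Fintype.card W : ℝ) ≠ 0 := by exact_mod_cast Fintype.card_pos.ne'
  unfold ip
  have h : ∀ t, (lowMu X (x + t) - 1) * (lowMu Y (y + t) - 1) =
      lowMu X (x + t) * lowMu Y (y + t) - lowMu X (x + t) - lowMu Y (y + t) + 1 := fun t => by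
    ring
  simp_rw [h]
  rw [sum_add_distrib, sum_sub_distrib, sum_sub_distrib, low_sum_mul h2, low_sum_mu hX,
    low_sum_mu hY, sum_const, card_univ, nsmul_eq_mul]
  field_simp
  ring

theorem low_nc_nonneg (X Y : Finset W) (x : W) : 0 ≤ nc X Y x := by
  unfold nc
  positivity

/-- A large level set of the self-convolution contradicts the upper bound. -/
theorem low_up (h2 : ∀ x : W, x + x = 0) {X : Finset W} {a p p' : ℕ} {l lam : ℝ} (hl : 1 ≤ l)
    (hlam : l ≤ lam) (hp : p' ≤ p) (hX : Fintype.card W ≤ 2 ^ a * #X) (hU : Up X a l p)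
    (h : ((#(univ : Finset W) : ℕ) : ℝ) ^ 2 ≤ lam ^ p' *
      #{q ∈ (univ : Finset W) ×ˢ (univ : Finset W) | lam ≤ 1 +
        ip univ (fun t => lowMu X (q.1 + t) - 1) (fun t => lowMu X (q.2 + t) - 1)}) : False := by
  have hNpos : 0 < Fintype.card W := Fintype.card_pos
  have hN : (0 : ℝ) < Fintype.card W := by exact_mod_cast hNpos
  have hXne : X.Nonempty := by
    rw [← card_pos]
    by_contra h0
    rw [Nat.eq_zero_of_not_pos h0] at hX
    omega
  have hX' : (0 : ℝ) < #X := by exact_mod_cast hXne.card_pos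
  set C : Finset W := {z | lam ≤ nc X X z} with hC
  have hset : {q ∈ (univ : Finset W) ×ˢ (univ : Finset W) | lam ≤ 1 +
        ip univ (fun t => lowMu X (q.1 + t) - 1) (fun t => lowMu X (q.2 + t) - 1)} =
      {q ∈ (univ : Finset W) ×ˢ (univ : Finset W) | q.1 + q.2 ∈ C} := by
    refine filter_congr fun q _ => ?_
    rw [low_ip h2 hXne hXne, hC, mem_filter]
    simp
  rw [hset, low_pairs, card_univ] at h
  push_cast at h
  have h1 : (Fintype.card W : ℝ) ≤ lam ^ p' * #C := by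
    refine le_of_mul_le_mul_left ?_ hN
    nlinarith [h]
  have h3 : (Fintype.card W : ℝ) ≤ lam ^ p * #C :=
    h1.trans (mul_le_mul_of_nonneg_right (pow_le_pow_right₀ (hl.trans hlam) hp)
      (Nat.cast_nonneg _))
  have h4 := hU lam hlam X C hX h3
  have h5 : lam * #X * #X * #C ≤ (tri X X C : ℝ) * Fintype.card W := by
    unfold tri
    push_cast
    rw [sum_mul, mul_comm _ (#C : ℝ), ← nsmul_eq_mul, ← sum_const]
    refine sum_le_sum fun z hz => ?_
    have hz' : lam ≤ nc X X z := (mem_filter.1 hz).2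
    unfold nc at hz'
    rw [le_div_iff₀ (by positivity)] at hz'
    linarith
  linarith

end aux

theorem low {ε : ℝ} (hε : 0 < ε) : ∃ l : ℝ, 1 < l ∧ ∃ K : ℕ, ∀ (W : Type) [AddCommGroup W]
    [Fintype W] [DecidableEq W], (∀ x : W, x + x = 0) → ∀ (X Y D : Finset W) (a c : ℕ), 1 ≤ c →
    Fintype.card W ≤ 2 ^ a * #X → Fintype.card W ≤ 2 ^ a * #Y → Fintype.card W ≤ 2 ^ c * #D →
    Up X a l (K * c) → Up Y a l (K * c) →
    (1 - ε) * #X * #Y * #D ≤ tri D X Y * (Fintype.card W : ℝ) := by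
  obtain ⟨n, hn⟩ := exists_nat_ge (2 / ε)
  obtain ⟨e, he1, he⟩ : ∃ e : ℕ, 1 ≤ e ∧ 1 / (e : ℝ) ≤ ε / 2 := by
    refine ⟨n + 1, by omega, ?_⟩
    rw [div_le_iff₀ hε] at hn
    push_cast
    rw [div_le_iff₀ (by positivity)]
    nlinarith
  have he0 : (0 : ℝ) < e := by exact_mod_cast he1
  have hl : (1 : ℝ) < 1 + 1 / (16 * e) := lt_add_of_pos_right _ (by positivity)
  refine ⟨1 + 1 / (16 * e), hl, 16 * e * (1 + e), ?_⟩
  intro W _ _ _ h2 X Y D a c hc hX hY hD hUX hUY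
  by_contra hcon
  rw [not_le] at hcon
  have hNpos : 0 < Fintype.card W := Fintype.card_pos
  have hne : ∀ (Z : Finset W) (b : ℕ), Fintype.card W ≤ 2 ^ b * #Z → Z.Nonempty := by
    intro Z b hZ
    rw [← card_pos]
    by_contra h0
    rw [Nat.eq_zero_of_not_pos h0] at hZ
    omega
  have hXne := hne X a hX
  have hYne := hne Y a hY
  have hX' : (0 : ℝ) < #X := by exact_mod_cast hXne.card_pos
  have hY' : (0 : ℝ) < #Y := by exact_mod_cast hYne.card_pos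
  have hsum : ∑ d ∈ D, nc X Y d < (1 - ε) * #D := by
    rw [tri_rot h2, tri_comm] at hcon
    unfold nc
    rw [← sum_div, ← sum_mul, div_lt_iff₀ (by positivity)]
    unfold tri at hcon
    push_cast at hcon
    linarith
  set E₀ : Finset W := {d ∈ D | nc X Y d ≤ 1 - ε / 2} with hE₀
  have hE₀card : ε / 2 * #D ≤ #E₀ := by
    have h1 : ∑ d ∈ D, ((1 - ε / 2) - if nc X Y d ≤ 1 - ε / 2 then (1 : ℝ) else 0) ≤
        ∑ d ∈ D, nc X Y d := by
      refine sum_le_sum fun d _ => ?_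
      have := low_nc_nonneg X Y d
      split_ifs with h
      · linarith
      · linarith [not_le.1 h]
    rw [sum_sub_distrib, sum_const, nsmul_eq_mul, sum_boole] at h1
    linarith
  have hDE : #D ≤ 2 ^ e * #E₀ := by
    have h1 : (#D : ℝ) ≤ e * #E₀ := by
      have h3 : 1 / (e : ℝ) * #D ≤ #E₀ :=
        (mul_le_mul_of_nonneg_right he (Nat.cast_nonneg _)).trans hE₀card
      rw [one_div, inv_mul_le_iff₀ he0] at h3
      exact h3
    have h3 : #D ≤ e * #E₀ := by exact_mod_cast h1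
    exact h3.trans (Nat.mul_le_mul_right _ Nat.lt_two_pow_self.le)
  have hd : #(univ : Finset W) * #(univ : Finset W) ≤ 2 ^ (c + e) *
      #{q ∈ (univ : Finset W) ×ˢ (univ : Finset W) | q.1 + q.2 ∈ E₀} := by
    rw [low_pairs, card_univ]
    calc Fintype.card W * Fintype.card W ≤ Fintype.card W * (2 ^ c * (2 ^ e * #E₀)) :=
          Nat.mul_le_mul_left _ (hD.trans (Nat.mul_le_mul_left _ hDE))
      _ = _ := by ring
  obtain ⟨lam, hlam, h⟩ := cnt (univ : Finset W) (univ : Finset W) (univ : Finset W)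
    (fun x t => lowMu X (x + t) - 1) (fun y t => lowMu Y (y + t) - 1)
    {q ∈ (univ : Finset W) ×ˢ (univ : Finset W) | q.1 + q.2 ∈ E₀} (filter_subset _ _)
    (k := c + e) he1 (by omega) univ_nonempty univ_nonempty hd
    (fun q hq => by
      have h1 : nc X Y (q.1 + q.2) ≤ 1 - ε / 2 := (mem_filter.1 (mem_filter.1 hq).2).2
      rw [low_ip h2 hXne hYne]
      linarith)
    (fun x _ x' _ => by
      rw [low_ip h2 hXne hXne]
      linarith [low_nc_nonneg X X (x + x')])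
    (fun y _ y' _ => by
      rw [low_ip h2 hYne hYne]
      linarith [low_nc_nonneg Y Y (y + y')])
  have hp : 16 * e * (c + e) ≤ 16 * e * (1 + e) * c := by
    rw [mul_assoc (16 * e)]
    exact Nat.mul_le_mul_left _ (by nlinarith)
  rcases h with h | h
  · exact low_up h2 hl.le hlam hp hX hUX h
  · exact low_up h2 hl.le hlam hp hY hUY h

end Pool.Agent.P.MP_db4732_co.Q
end

-- part Pool.Agent.P.MP_db4732_co.Q.Incr
section

/-! The combinatorial density increment. -/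

set_option autoImplicit false

namespace Pool.Agent.P.MP_db4732_co.Q

open Finset

section aux

variable {W : Type} [AddCommGroup W] [Fintype W] [DecidableEq W]

omit [AddCommGroup W] [Fintype W] in
theorem incr_card_swap (A : Finset (W × W)) : #(A.image Prod.swap) = #A :=
  card_image_of_injective _ Prod.swap_injective

omit [AddCommGroup W] [Fintype W] in
theorem incr_mem_swap {A : Finset (W × W)} {q : W × W} : q ∈ A.image Prod.swap ↔ q.swap ∈ A := by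
  rw [mem_image]
  constructor
  · rintro ⟨p, hp, rfl⟩
    simpa using hp
  · exact fun h => ⟨q.swap, h, Prod.swap_swap q⟩

omit [Fintype W] in
theorem incr_in_swap {A : Finset (W × W)} {X Y D : Finset W} (h : In A X Y D) :
    In (A.image Prod.swap) Y X D := fun q hq => by
  obtain ⟨h1, h2, h3⟩ := h _ (incr_mem_swap.1 hq)
  exact ⟨h2, h1, by rw [add_comm]; exact h3⟩

omit [Fintype W] in
theorem incr_sum_nb (h2 : ∀ x : W, x + x = 0) {A : Finset (W × W)} {X Y D : Finset W}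
    (h : In A X Y D) (X₁ : Finset W) : ∑ x ∈ X₁, #(nb A D x) = #{q ∈ A | q.1 ∈ X₁} := by
  rw [card_eq_sum_card_fiberwise (f := Prod.fst) (s := {q ∈ A | q.1 ∈ X₁}) (t := X₁)
    fun q hq => mem_coe.2 (mem_filter.1 (mem_coe.1 hq)).2]
  refine sum_congr rfl fun x hx => ?_
  refine card_bij (fun d _ => (x, x + d)) (fun d hd => ?_)
    (fun _ _ _ _ e => add_left_cancel (Prod.mk.inj e).2) fun q hq => ?_
  · exact mem_filter.2 ⟨mem_filter.2 ⟨(mem_filter.1 hd).2, hx⟩, rfl⟩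
  · obtain ⟨h3, h4⟩ := mem_filter.1 hq
    have h5 := (mem_filter.1 h3).1
    have e : (x, x + (q.1 + q.2)) = q := by
      rw [← h4, ← add_assoc, h2, zero_add]
    exact ⟨q.1 + q.2, mem_filter.2 ⟨(h q h5).2.2, by rw [e]; exact h5⟩, e⟩

omit [Fintype W] in
theorem incr_sum_all (h2 : ∀ x : W, x + x = 0) {A : Finset (W × W)} {X Y D : Finset W}
    (h : In A X Y D) : ∑ x ∈ X, (#(nb A D x) : ℝ) = #A := by
  have := incr_sum_nb h2 h X
  rw [filter_true_of_mem fun q hq => (h q hq).1] at this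
  exact_mod_cast this

omit [Fintype W] in
theorem incr_inc_mono {A : Finset (W × W)} {X D : Finset W} {g₀ : ℝ} {K M b K' M' b' : ℕ}
    (h : Inc A X D g₀ K M b) (hg : 1 ≤ g₀) (hK : K ≤ K') (hM : M ≤ M') (hb : b ≤ b') :
    Inc A X D g₀ K' M' b' := by
  obtain ⟨X', h1, D', h2, g, h3, h4, h5, h6, h7⟩ := h
  exact ⟨X', h1, D', h2, g, h3,
    h4.trans (mul_le_mul_of_nonneg_right (pow_le_pow_right₀ (hg.trans h3) hK) (Nat.cast_nonneg _)),
    h5.trans (Nat.mul_le_mul_right _ (Nat.pow_le_pow_right two_pos hb)),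
    h6.trans (mul_le_mul_of_nonneg_right (pow_le_pow_right₀ (hg.trans h3) hM) (Nat.cast_nonneg _)),
    h7⟩

omit [Fintype W] in
theorem incr_better_mono {A : Finset (W × W)} {X Y D : Finset W} {g₀ : ℝ} {K M K' M' : ℕ}
    (h : Better A X Y D g₀ K M) (hg : 1 ≤ g₀) (hK : K ≤ K') (hM : M ≤ M') :
    Better A X Y D g₀ K' M' := by
  obtain ⟨X', h1, Y', h2, D', h3, g, h4, h5, h6, h7, h8⟩ := h
  refine ⟨X', h1, Y', h2, D', h3, g, h4, h5, h6, h7.trans ?_, h8.trans ?_⟩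
  · gcongr
    exact hg.trans h4
  · gcongr
    exact hg.trans h4

omit [Fintype W] in
theorem incr_res_swap (A : Finset (W × W)) (X Y D : Finset W) :
    res (A.image Prod.swap) Y X D = (res A X Y D).image Prod.swap := by
  ext q
  rw [incr_mem_swap, res, res, mem_filter, mem_filter, incr_mem_swap, add_comm q.1]
  simp only [Prod.fst_swap, Prod.snd_swap]
  tauto

omit [Fintype W] in
theorem incr_better_swap {A : Finset (W × W)} {X Y D : Finset W} {g₀ : ℝ} {K M : ℕ}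
    (h : Better (A.image Prod.swap) Y X D g₀ K M) : Better A X Y D g₀ K M := by
  obtain ⟨Y', h1, X', h2, D', h3, g, h4, h5, h6, h7, h8⟩ := h
  rw [incr_res_swap] at h5 h6 h7
  rw [incr_card_swap, incr_card_swap] at h6 h7
  rw [tri_comm D' Y', tri_comm D Y] at h6
  exact ⟨X', h2, Y', h1, D', h3, g, h4, image_nonempty.1 h5, h6, by linarith, by linarith⟩

/-- The normalised indicator. -/
noncomputable def incrU (D n : Finset W) (d : W) : ℝ := (if d ∈ n then (#D : ℝ) / #n else 0) - 1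

omit [AddCommGroup W] [Fintype W] in
theorem incr_ip {D n n' : Finset W} (h : n ⊆ D) (h' : n' ⊆ D) (hn : n.Nonempty)
    (hn' : n'.Nonempty) :
    1 + ip D (incrU D n) (incrU D n') = #(n ∩ n') * (#D : ℝ) / (#n * #n') := by
  have a1 : (0 : ℝ) < #n := by exact_mod_cast hn.card_pos
  have a2 : (0 : ℝ) < #n' := by exact_mod_cast hn'.card_pos
  have a3 : (0 : ℝ) < #D := by exact_mod_cast (hn.mono h).card_pos
  have key : ∀ (m : Finset W) (t : ℝ), m ⊆ D → ∑ d ∈ D, (if d ∈ m then t else 0) = #m * t := by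
    intro m t hm
    rw [sum_ite_mem, inter_eq_right.2 hm, sum_const, nsmul_eq_mul]
  have e : ∀ d, incrU D n d * incrU D n' d =
      (if d ∈ n ∩ n' then (#D : ℝ) / #n * (#D / #n') else 0) - (if d ∈ n then (#D : ℝ) / #n else 0) -
        (if d ∈ n' then (#D : ℝ) / #n' else 0) + 1 := by
    intro d
    by_cases h1 : d ∈ n <;> by_cases h2 : d ∈ n' <;> simp [incrU, h1, h2] <;> ring
  unfold ip
  simp only [e]
  rw [sum_add_distrib, sum_sub_distrib, sum_sub_distrib, key _ _ (inter_subset_left.trans h),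
    key _ _ h, key _ _ h', sum_const, nsmul_eq_mul]
  field_simp
  ring

theorem incr_num {A X Y D N n n' p : ℝ} (hA : 0 < A) (hp : 2 ≤ p) (hn : 0 ≤ n) (hn' : 0 ≤ n')
    (hX : 0 ≤ X) (hN : 0 ≤ N) (h1 : 299 / 300 * A ≤ n * X) (h2 : 299 / 300 * A ≤ n' * Y)
    (h3 : X * Y ≤ p * A) (h4 : N ≤ p * X) (h5 : N ≤ p * Y) (h6 : p ^ 6 ≤ N) (h7 : D ≤ N) :
    2 * D ≤ n * n' := by
  have p0 : 0 < p := by linarith
  have t0 : 0 ≤ n * n' := mul_nonneg hn hn'
  have e1 : 299 / 300 * A * (299 / 300 * A) ≤ n * X * (n' * Y) :=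
    mul_le_mul h1 h2 (by positivity) (mul_nonneg hn hX)
  have e2 : n * n' * (X * Y) ≤ n * n' * (p * A) := mul_le_mul_of_nonneg_left h3 t0
  have e3 : A / 2 ≤ n * n' * p := by
    refine le_of_mul_le_mul_right ?_ hA
    nlinarith [mul_pos hA hA]
  have e4 : N * N ≤ p * X * (p * Y) := mul_le_mul h4 h5 hN (mul_nonneg p0.le hX)
  have e5 : p * p * (X * Y) ≤ p * p * (p * A) := mul_le_mul_of_nonneg_left h3 (by positivity)
  have e6 : p ^ 6 * N ≤ N * N := mul_le_mul_of_nonneg_right h6 hN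
  have e7 : p ^ 3 * (A / 2) ≤ p ^ 3 * (n * n' * p) := mul_le_mul_of_nonneg_left e3 (by positivity)
  have e8 : p ^ 2 * N / 2 ≤ n * n' := by
    refine le_of_mul_le_mul_left ?_ (show 0 < p ^ 4 by positivity)
    nlinarith
  have e9 : 4 * N ≤ p ^ 2 * N := mul_le_mul_of_nonneg_right (by nlinarith) hN
  linarith

end aux

/-- Heavy rows give an increment at once. -/
theorem incr_row : ∃ K : ℕ, ∀ (W : Type) [AddCommGroup W] [Fintype W] [DecidableEq W],
    (∀ x : W, x + x = 0) → ∀ (A : Finset (W × W)) (X Y D : Finset W) (L c a : ℕ),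
    In A X Y D → A.Nonempty → 1 ≤ c → c ≤ a → #X * #Y ≤ 2 ^ c * #A →
    Fintype.card W ≤ 2 ^ a * #Y →
    Inc A X D (1 + 1 / 5000) (K * c) (K * L) (K * a) ∨ ∃ X₀ ⊆ X, #X ≤ 2 * #X₀ ∧
      (∀ x ∈ X₀, (299 / 300 : ℝ) * #A ≤ #(nb A D x) * #X) ∧
      3 * #A ≤ 4 * #{q ∈ A | q.1 ∈ X₀} := by
  obtain ⟨K, hK⟩ := pow_unbounded_of_one_lt (300 : ℝ) (show (1 : ℝ) < 1 + 1 / 5000 by norm_num)
  refine ⟨K + 11, fun W _ _ _ h2 A X Y D L c a hin hA c1 ca hXY hY => ?_⟩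
  have A0 : (0 : ℝ) < #A := by exact_mod_cast hA.card_pos
  have hsum := incr_sum_all h2 hin
  obtain ⟨X₀, hX₀⟩ : ∃ X₀ : Finset W, X₀ = {x ∈ X | (1 - 1 / 300 : ℝ) *
    ∑ i ∈ X, (#(nb A D i) : ℝ) ≤ (#(nb A D x) : ℝ) * #X} := ⟨_, rfl⟩
  have hsub : X₀ ⊆ X := by rw [hX₀]; exact filter_subset _ _
  rcases rows X (fun x => (#(nb A D x) : ℝ)) (fun _ _ => Nat.cast_nonneg _) (ε := 1 / 300)
    (by norm_num) (by norm_num) (by rw [hsum]; exact A0) X₀ hX₀ with ⟨h3, h4⟩ | ⟨g, h3, h4, h5⟩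
  · refine Or.inr ⟨X₀, hsub, h4, fun x hx => ?_, ?_⟩
    · rw [hX₀, mem_filter, hsum] at hx
      linarith [hx.2]
    · rw [hsum, ← Nat.cast_sum, incr_sum_nb h2 hin] at h3
      have : (3 * #A : ℝ) ≤ 4 * #{q ∈ A | q.1 ∈ X₀} := by linarith
      exact_mod_cast this
  · left
    rw [hsum] at h4
    have g0 : 0 < g := by linarith
    have X0 : (0 : ℝ) < #X := by
      obtain ⟨q, hq⟩ := hA
      exact_mod_cast card_pos.2 ⟨_, (hin q hq).1⟩
    have X1 : (0 : ℝ) < #X₀ := by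
      by_contra hc
      have : (#X₀ : ℝ) = 0 := le_antisymm (not_lt.1 hc) (Nat.cast_nonneg _)
      rw [this] at h5
      linarith
    obtain ⟨t, t0, ht⟩ : ∃ t : ℝ, 0 ≤ t ∧ t ^ 4 = g :=
      ⟨g ^ ((4 : ℕ) : ℝ)⁻¹, by positivity, Real.rpow_inv_natCast_pow g0.le (by norm_num)⟩
    have t1 : 1 + 1 / 5000 ≤ t := by
      refine le_of_pow_le_pow_left₀ (n := 4) (by norm_num) t0 ?_
      rw [ht]
      refine le_trans (by norm_num) h3
    have t2 : 1 ≤ t := le_trans (by norm_num) t1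
    refine ⟨X₀, hsub, D, Subset.rfl, t, t1, ?_, ?_, le_mul_of_one_le_left (Nat.cast_nonneg _)
      (one_le_pow₀ t2), ?_⟩
    · have e1 : 300 ≤ t ^ K := hK.le.trans (pow_le_pow_left₀ (by norm_num) t1 K)
      have e2 : t ^ (K + 4) ≤ t ^ ((K + 11) * c) := pow_le_pow_right₀ t2 (by nlinarith)
      rw [pow_add, ht] at e2
      have e3 : 300 * g ≤ t ^ K * g := mul_le_mul_of_nonneg_right e1 g0.le
      nlinarith [mul_le_mul_of_nonneg_right (e3.trans e2) X1.le]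
    · have e1 : ∑ i ∈ X₀, (#(nb A D i) : ℝ) ≤ #X₀ * Fintype.card W := by
        refine (sum_le_card_nsmul _ _ (Fintype.card W : ℝ) fun i _ => ?_).trans (by rw [nsmul_eq_mul])
        exact_mod_cast card_le_univ _
      have e2 : (Fintype.card W : ℝ) ≤ 2 ^ a * #Y := by exact_mod_cast hY
      have e3 : (#X : ℝ) * #Y ≤ 2 ^ a * #A := by
        have : #X * #Y ≤ 2 ^ a * #A :=
          hXY.trans (Nat.mul_le_mul_right _ (Nat.pow_le_pow_right two_pos ca))
        exact_mod_cast this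
      have e4 : g ≤ 2 ^ a * 2 ^ a := by
        refine le_of_mul_le_mul_right ?_ (mul_pos A0 X1)
        calc g * (#A * #X₀) = g * #A * #X₀ := by ring
          _ ≤ #X₀ * (2 ^ a * #Y) * #X := h4.trans (mul_le_mul_of_nonneg_right
              (e1.trans (mul_le_mul_of_nonneg_left e2 X1.le)) X0.le)
          _ = 2 ^ a * #X₀ * (#X * #Y) := by ring
          _ ≤ 2 ^ a * #X₀ * (2 ^ a * #A) := mul_le_mul_of_nonneg_left e3 (by positivity)
          _ = _ := by ring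
      have e5 : (2 : ℝ) ^ (9 + a + a) ≤ 2 ^ ((K + 11) * a) :=
        pow_le_pow_right₀ (by norm_num) (by nlinarith)
      rw [pow_add, pow_add] at e5
      have e6 : (#X : ℝ) ≤ 2 ^ ((K + 11) * a) * #X₀ := by
        have : 300 * g ≤ 2 ^ ((K + 11) * a) := by
          have : (0 : ℝ) ≤ 2 ^ a * 2 ^ a := by positivity
          nlinarith
        nlinarith [mul_le_mul_of_nonneg_right this X1.le]
      exact_mod_cast e6
    · rw [ht, sum_congr rfl fun x _ => by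
        rw [inter_eq_left.2 (show nb A D x ⊆ D from filter_subset _ _)]]
      exact mul_le_mul_of_nonneg_right h4 (Nat.cast_nonneg _)

/-- A corner-free set has an increment of the graph of rows or of the graph of columns. -/
theorem inc_or : ∃ K : ℕ, ∀ (W : Type) [AddCommGroup W] [Fintype W] [DecidableEq W],
    (∀ x : W, x + x = 0) → ∀ (A : Finset (W × W)) (X Y D : Finset W) (L c a : ℕ), CF A →
    In A X Y D → 1 ≤ L → L ≤ c → c * L ≤ a → #X * #Y ≤ 2 ^ c * #A →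
    #X * #Y * #D ≤ 2 ^ (L + 1) * #A * Fintype.card W → Fintype.card W ≤ 2 ^ a * #X →
    Fintype.card W ≤ 2 ^ a * #Y → Fintype.card W ≤ 2 ^ (c + 1) * #D →
    2 ^ (K * a) ≤ Fintype.card W → Up X (K * a) (2 ^ L) (K * a) → Up Y (K * a) (2 ^ L) (K * a) →
    Inc A X D (1 + 1 / 5000) (K * c) (K * L) (K * a) ∨
      Inc (A.image Prod.swap) Y D (1 + 1 / 5000) (K * c) (K * L) (K * a) := by
  obtain ⟨K₁, h₁⟩ := incr_row
  obtain ⟨K₂, h₂⟩ := inc_gamma
  refine ⟨K₁ + K₂ + 6, fun W _ _ _ h2 A X Y D L c a hcf hin L1 Lc ca hXY hXYD hX hY hD hN uX uY => ?_⟩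
  have c1 : 1 ≤ c := L1.trans Lc
  have ca' : c ≤ a := le_trans (Nat.le_mul_of_pos_right c L1) ca
  have N0 : 0 < Fintype.card W := Fintype.card_pos
  have X0 : 0 < #X := Nat.pos_of_mul_pos_left (N0.trans_le hX)
  have Y0 : 0 < #Y := Nat.pos_of_mul_pos_left (N0.trans_le hY)
  have A0 : 0 < #A := Nat.pos_of_mul_pos_left ((Nat.mul_pos X0 Y0).trans_le hXY)
  have hA : A.Nonempty := card_pos.1 A0
  have hin' := incr_in_swap hin
  have g1 : (1 : ℝ) ≤ 1 + 1 / 5000 := by norm_num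
  have m1 : ∀ t, K₁ * t ≤ (K₁ + K₂ + 6) * t := fun t => Nat.mul_le_mul_right _ (by omega)
  have m2 : ∀ t, K₂ * t ≤ (K₁ + K₂ + 6) * t := fun t => Nat.mul_le_mul_right _ (by omega)
  rcases h₁ W h2 A X Y D L c a hin hA c1 ca' hXY hY with h | ⟨X₀, sX, cX, rX, eX⟩
  · exact Or.inl (incr_inc_mono h g1 (m1 _) (m1 _) (m1 _))
  rcases h₁ W h2 (A.image Prod.swap) Y X D L c a hin' (hA.image _) c1 ca'
    (by rw [incr_card_swap, mul_comm]; exact hXY) hX with h | ⟨Y₀, sY, cY, rY, eY⟩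
  · exact Or.inr (incr_inc_mono h g1 (m1 _) (m1 _) (m1 _))
  have A1 : (0 : ℝ) < #A := by exact_mod_cast A0
  have nX : ∀ x ∈ X₀, (nb A D x).Nonempty := fun x hx => by
    have := rX x hx
    rw [nonempty_iff_ne_empty]
    intro e
    rw [e, card_empty, Nat.cast_zero, zero_mul] at this
    linarith
  have nY : ∀ y ∈ Y₀, (nb (A.image Prod.swap) D y).Nonempty := fun y hy => by
    have := rY y hy
    rw [nonempty_iff_ne_empty]
    intro e
    rw [e, card_empty, Nat.cast_zero, zero_mul, incr_card_swap] at this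
    linarith
  have sD : ∀ (B : Finset (W × W)) (x : W), nb B D x ⊆ D := fun _ _ => filter_subset _ _
  obtain ⟨E, hE⟩ : ∃ E : Finset (W × W), E = {q ∈ A | q.1 ∈ X₀ ∧ q.2 ∈ Y₀} := ⟨_, rfl⟩
  have mE : ∀ q ∈ E, q ∈ A ∧ q.1 ∈ X₀ ∧ q.2 ∈ Y₀ := fun q hq => by
    rw [hE] at hq; exact mem_filter.1 hq
  have cE : #A ≤ 2 * #E := by
    have e1 : #{q ∈ A.image Prod.swap | q.1 ∈ Y₀} ≤ #{q ∈ A | q.2 ∈ Y₀} :=
      card_le_card_of_injOn Prod.swap (fun q hq => mem_coe.2 (mem_filter.2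
        ⟨incr_mem_swap.1 (mem_filter.1 (mem_coe.1 hq)).1, (mem_filter.1 (mem_coe.1 hq)).2⟩))
        Prod.swap_injective.injOn
    have e2 := card_union_add_card_inter {q ∈ A | q.1 ∈ X₀} {q ∈ A | q.2 ∈ Y₀}
    have e3 : #({q ∈ A | q.1 ∈ X₀} ∪ {q ∈ A | q.2 ∈ Y₀}) ≤ #A :=
      card_le_card (union_subset (filter_subset _ _) (filter_subset _ _))
    have e4 : #({q ∈ A | q.1 ∈ X₀} ∩ {q ∈ A | q.2 ∈ Y₀}) ≤ #E := by
      rw [hE]
      refine card_le_card fun q hq => ?_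
      obtain ⟨k1, k2⟩ := mem_inter.1 hq
      exact mem_filter.2 ⟨(mem_filter.1 k1).1, (mem_filter.1 k1).2, (mem_filter.1 k2).2⟩
    rw [incr_card_swap] at eY
    omega
  have hneg : ∀ q ∈ E, ip D (incrU D (nb A D q.1)) (incrU D (nb (A.image Prod.swap) D q.2)) ≤
      -(1 / (2 : ℕ)) := by
    intro q hq
    obtain ⟨k1, k2, k3⟩ := mE q hq
    have e1 := incr_ip (sD _ _) (sD _ _) (nX _ k2) (nY _ k3)
    have e2 : #(nb A D q.1 ∩ nb (A.image Prod.swap) D q.2) ≤ 1 := by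
      refine card_le_one_iff_subset_singleton.2 ⟨q.1 + q.2, fun d hd => mem_singleton.2 ?_⟩
      obtain ⟨d1, d2⟩ := mem_inter.1 hd
      have d3 : (q.2 + d, q.2) ∈ A := incr_mem_swap.1 (mem_filter.1 d2).2
      have d4 : q.1 + q.2 + d = 0 := by
        refine hcf q.1 q.2 _ k1 ?_ ?_
        · rw [show q.2 + (q.1 + q.2 + d) = q.2 + q.2 + (q.1 + d) by abel, h2, zero_add]
          exact (mem_filter.1 d1).2
        · rw [show q.1 + (q.1 + q.2 + d) = q.1 + q.1 + (q.2 + d) by abel, h2, zero_add]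
          exact d3
      exact add_left_cancel (d4.trans (h2 _).symm)
    have e3 : 2 * (#D : ℝ) ≤ #(nb A D q.1) * #(nb (A.image Prod.swap) D q.2) := by
      refine incr_num (N := Fintype.card W) (p := 2 ^ a) A1 ?_ (Nat.cast_nonneg _)
        (Nat.cast_nonneg _) (Nat.cast_nonneg _) (Nat.cast_nonneg _) (rX _ k2)
        (by simpa only [incr_card_swap] using rY _ k3) ?_ (by exact_mod_cast hX)
        (by exact_mod_cast hY) ?_ (by exact_mod_cast card_le_univ D)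
      · exact le_self_pow₀ (by norm_num) (by omega)
      · have : #X * #Y ≤ 2 ^ a * #A :=
          hXY.trans (Nat.mul_le_mul_right _ (Nat.pow_le_pow_right two_pos ca'))
        exact_mod_cast this
      · have : (2 ^ a) ^ 6 ≤ Fintype.card W := by
          rw [← pow_mul]
          exact (Nat.pow_le_pow_right two_pos (by nlinarith)).trans hN
        exact_mod_cast this
    have e4 : (0 : ℝ) < #(nb A D q.1) * #(nb (A.image Prod.swap) D q.2) :=
      mul_pos (by exact_mod_cast (nX _ k2).card_pos) (by exact_mod_cast (nY _ k3).card_pos)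
    have e5 : (#(nb A D q.1 ∩ nb (A.image Prod.swap) D q.2) : ℝ) * #D /
        (#(nb A D q.1) * #(nb (A.image Prod.swap) D q.2)) ≤ 1 / 2 := by
      rw [div_le_iff₀ e4]
      have e6 : (#(nb A D q.1 ∩ nb (A.image Prod.swap) D q.2) : ℝ) ≤ 1 := by exact_mod_cast e2
      have e7 := mul_le_mul_of_nonneg_right e6 (Nat.cast_nonneg (α := ℝ) #D)
      linarith
    push_cast
    linarith
  have gam : ∀ (B : Finset (W × W)) (S : Finset W) (lam : ℝ), (∀ x ∈ S, (nb B D x).Nonempty) →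
      ∀ q ∈ {q ∈ S ×ˢ S | lam ≤ 1 + ip D (incrU D (nb B D q.1)) (incrU D (nb B D q.2))},
        lam * #(nb B D q.1) * #(nb B D q.2) ≤ #(nb B D q.1 ∩ nb B D q.2) * (#D : ℝ) := by
    intro B S lam hS q hq
    obtain ⟨k1, k2⟩ := mem_filter.1 hq
    obtain ⟨k3, k4⟩ := mem_product.1 k1
    rw [incr_ip (sD _ _) (sD _ _) (hS _ k3) (hS _ k4), le_div_iff₀ (mul_pos
      (by exact_mod_cast (hS _ k3).card_pos) (by exact_mod_cast (hS _ k4).card_pos))] at k2
    linarith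
  have L2 : (1 : ℝ) ≤ 2 ^ L := one_le_pow₀ (by norm_num)
  obtain ⟨lam, hl, h | h⟩ := cnt X₀ Y₀ D (fun x => incrU D (nb A D x))
    (fun y => incrU D (nb (A.image Prod.swap) D y)) E
    (fun q hq => mem_product.2 (mE q hq).2) (e := 2) (k := c + 1) (by norm_num) (by omega)
    (card_pos.1 (by omega)) (card_pos.1 (by omega))
    ((Nat.mul_le_mul (card_le_card sX) (card_le_card sY)).trans (hXY.trans (by
      rw [pow_succ, mul_assoc]; exact Nat.mul_le_mul_left _ cE))) hneg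
    (fun x hx x' hx' => by rw [incr_ip (sD _ _) (sD _ _) (nX _ hx) (nX _ hx')]; positivity)
    (fun y hy y' hy' => by rw [incr_ip (sD _ _) (sD _ _) (nY _ hy) (nY _ hy')]; positivity)
  · exact Or.inl (incr_inc_mono (h₂ W h2 A X Y D X₀ _ L c a lam hin L1 Lc ca sX cX rX
      (le_trans (by norm_num) hl) (filter_subset _ _) h (gam A X₀ lam nX) hXYD hX hY hD
      (uY.mono (m2 _) le_rfl L2 (m2 _))) g1 (m2 _) (m2 _) (m2 _))
  · exact Or.inr (incr_inc_mono (h₂ W h2 (A.image Prod.swap) Y X D Y₀ _ L c a lam hin' L1 Lc ca sY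
      cY rY (le_trans (by norm_num) hl) (filter_subset _ _) h (gam _ Y₀ lam nY)
      (by rw [incr_card_swap, mul_comm #Y]; exact hXYD) hY hX hD
      (uX.mono (m2 _) le_rfl L2 (m2 _))) g1 (m2 _) (m2 _) (m2 _))

theorem incr : ∃ l₀ : ℝ, 1 < l₀ ∧ l₀ ≤ 2 ∧ ∃ K : ℕ, ∀ (W : Type) [AddCommGroup W] [Fintype W]
    [DecidableEq W], (∀ x : W, x + x = 0) → ∀ (A : Finset (W × W)) (X Y D : Finset W) (L c a : ℕ),
    CF A → In A X Y D → 1 ≤ L → L ≤ c → c * L ≤ a → tri D X Y ≤ 2 ^ L * #A →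
    #X * #Y ≤ 2 ^ c * #A → Fintype.card W ≤ 2 ^ a * #X → Fintype.card W ≤ 2 ^ a * #Y →
    2 ^ (K * a) ≤ Fintype.card W → Up X (K * a) l₀ (K * c) → Up Y (K * a) l₀ (K * c) →
    Up X (K * a) (2 ^ L) (K * a) → Up Y (K * a) (2 ^ L) (K * a) →
    Better A X Y D (1 + 1 / 5000) (K * c) (K * L) := by
  obtain ⟨l, l1, K₁, h₁⟩ := low (show (0 : ℝ) < 1 / 10000 by norm_num)
  obtain ⟨K₂, h₂⟩ := inc_or
  have g1 : (1 : ℝ) < 1 + 1 / 5000 := by norm_num
  obtain ⟨K₃, h₃⟩ := better_of_inc g1 K₂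
  refine ⟨min l (1 + 1 / 5000), lt_min l1 g1, (min_le_right _ _).trans (by norm_num),
    2 * K₁ + K₂ + K₃ + 2,
    fun W _ _ _ h2 A X Y D L c a hcf hin L1 Lc ca hS hXY hX hY hN uX uY vX vY => ?_⟩
  have c1 : 1 ≤ c := L1.trans Lc
  have a1 : 1 ≤ a := c1.trans (le_trans (Nat.le_mul_of_pos_right c L1) ca)
  have N0 : 0 < Fintype.card W := Fintype.card_pos
  have X0 : 0 < #X := Nat.pos_of_mul_pos_left (N0.trans_le hX)
  have Y0 : 0 < #Y := Nat.pos_of_mul_pos_left (N0.trans_le hY)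
  have A0 : 0 < #A := Nat.pos_of_mul_pos_left ((Nat.mul_pos X0 Y0).trans_le hXY)
  have hA : A.Nonempty := card_pos.1 A0
  have D0 : 0 < #D := by
    obtain ⟨q, hq⟩ := hA
    exact card_pos.2 ⟨_, (hin q hq).2.2⟩
  have m0 : ∀ t, t ≤ (2 * K₁ + K₂ + K₃ + 2) * t := fun t => Nat.le_mul_of_pos_left _ (by omega)
  have m2 : ∀ t, K₂ * t ≤ (2 * K₁ + K₂ + K₃ + 2) * t := fun t => Nat.mul_le_mul_right _ (by omega)
  have m3 : ∀ t, K₃ * t ≤ (2 * K₁ + K₂ + K₃ + 2) * t := fun t => Nat.mul_le_mul_right _ (by omega)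
  have m1 : K₁ * (c + 1) ≤ (2 * K₁ + K₂ + K₃ + 2) * c := by nlinarith
  have hAS : #A ≤ tri D X Y := by
    rw [tri_eq]
    exact card_le_card fun q hq => mem_filter.2
      ⟨mem_product.2 ⟨(hin q hq).1, (hin q hq).2.1⟩, (hin q hq).2.2⟩
  have hD : Fintype.card W ≤ 2 ^ (c + 1) * #D := by
    have X1 : (0 : ℝ) < #X := by exact_mod_cast X0
    have Y1 : (0 : ℝ) < #Y := by exact_mod_cast Y0
    have D1 : (0 : ℝ) < #D := by exact_mod_cast D0
    obtain ⟨lam, hlam⟩ : ∃ lam : ℝ, lam * #Y * #X * #D = tri D X Y * (Fintype.card W : ℝ) :=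
      ⟨tri D X Y * (Fintype.card W : ℝ) / (#Y * #X * #D), by field_simp⟩
    have e1 : (#X : ℝ) * #Y ≤ 2 ^ c * tri D X Y := by
      exact_mod_cast hXY.trans (Nat.mul_le_mul_left _ hAS)
    have e2 : (Fintype.card W : ℝ) ≤ 2 ^ c * lam * #D := by
      refine le_of_mul_le_mul_left ?_ (mul_pos X1 Y1)
      calc (#X : ℝ) * #Y * Fintype.card W ≤ 2 ^ c * tri D X Y * Fintype.card W :=
            mul_le_mul_of_nonneg_right e1 (Nat.cast_nonneg _)
        _ = 2 ^ c * (lam * #Y * #X * #D) := by rw [hlam]; ring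
        _ = _ := by ring
    rcases le_or_gt 2 lam with hl | hl
    · exfalso
      have e3 := uY lam ((min_le_right _ _).trans (le_trans (by norm_num) hl)) X D
        (hX.trans (Nat.mul_le_mul_right _ (Nat.pow_le_pow_right two_pos (m0 a)))) (e2.trans (by
          refine mul_le_mul_of_nonneg_right ?_ D1.le
          calc 2 ^ c * lam ≤ lam ^ c * lam :=
                mul_le_mul_of_nonneg_right (pow_le_pow_left₀ (by norm_num) hl c) (by linarith)
            _ = lam ^ (c + 1) := by ring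
            _ ≤ _ := pow_le_pow_right₀ (by linarith) (by nlinarith)))
      rw [hlam, tri_comm Y X D, tri_rot h2 Y D X, tri_comm D Y X] at e3
      exact lt_irrefl _ e3
    · have : (Fintype.card W : ℝ) ≤ 2 ^ (c + 1) * #D := by
        refine e2.trans (mul_le_mul_of_nonneg_right ?_ D1.le)
        rw [pow_succ]
        exact mul_le_mul_of_nonneg_left hl.le (by positivity)
      exact_mod_cast this
  have hlow := h₁ W h2 X Y D a (c + 1) (by omega) hX hY hD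
    (uX.mono (m0 a) (min_le_left _ _) l1.le m1) (uY.mono (m0 a) (min_le_left _ _) l1.le m1)
  have P0 : (0 : ℝ) ≤ #X * #Y * #D := by positivity
  have hg : (#X : ℝ) * #Y * #D ≤ (1 + 1 / 5000) * tri D X Y * Fintype.card W := by nlinarith
  have hXYD : #X * #Y * #D ≤ 2 ^ (L + 1) * #A * Fintype.card W := by
    have e1 : (#X : ℝ) * #Y * #D ≤ 2 * tri D X Y * Fintype.card W := by nlinarith
    have e2 : #X * #Y * #D ≤ 2 * tri D X Y * Fintype.card W := by exact_mod_cast e1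
    refine e2.trans (Nat.mul_le_mul_right _ ?_)
    rw [pow_succ', mul_assoc]
    exact Nat.mul_le_mul_left _ hS
  have L2 : (1 : ℝ) ≤ 2 ^ L := one_le_pow₀ (by norm_num)
  rcases h₂ W h2 A X Y D L c a hcf hin L1 Lc ca hXY hXYD hX hY hD
    ((Nat.pow_le_pow_right two_pos (m2 a)).trans hN) (vX.mono (m2 _) le_rfl L2 (m2 _))
    (vY.mono (m2 _) le_rfl L2 (m2 _)) with h | h
  · exact incr_better_mono (h₃ W h2 A X Y D L c a hin hA L1 Lc a1 hX hD hg
      (uY.mono (m3 _) (min_le_right _ _) g1.le (m3 _)) h) g1.le (m2 _) (m2 _)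
  · exact incr_better_mono (incr_better_swap (h₃ W h2 _ Y X D L c a (incr_in_swap hin) (hA.image _)
      L1 Lc a1 hY hD (by rw [tri_comm D Y, mul_comm (#Y : ℝ)]; exact hg)
      (uX.mono (m3 _) (min_le_right _ _) g1.le (m3 _)) h)) g1.le (m2 _) (m2 _)

end Pool.Agent.P.MP_db4732_co.Q
end

-- part Pool.Agent.P.MP_db4732_co.Q.Trans
section

/-! Cosets and transport to a subgroup. -/

set_option autoImplicit false

namespace Pool.Agent.P.MP_db4732_co.Q

open Finset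

variable {W : Type} [AddCommGroup W] [Fintype W] [DecidableEq W]

omit [Fintype W] [DecidableEq W] in
theorem trans_cancel (h2 : ∀ x : W, x + x = 0) (a b : W) : a + b + b = a := by
  rw [add_assoc, h2, add_zero]

omit [Fintype W] [DecidableEq W] in
theorem trans_add (h2 : ∀ x : W, x + x = 0) (a b c : W) : a + b + (b + c) = a + c := by
  rw [← add_assoc, trans_cancel h2]

omit [DecidableEq W] in
theorem cs_subset (h2 : ∀ x : W, x + x = 0) {V V' : AddSubgroup W} (hV : V' ≤ V) {z₀ z : W}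
    (hz : z ∈ cs V z₀) : cs V' z ⊆ cs V z₀ := fun x hx => by
  rw [mem_cs] at hx hz ⊢
  rw [← trans_add h2 x z z₀]
  exact V.add_mem (hV hx) hz

/-- Averaging over cosets. -/
theorem sum_cs (h2 : ∀ x : W, x + x = 0) {V V' : AddSubgroup W} (hV : V' ≤ V) (z₀ : W)
    {X : Finset W} (hX : X ⊆ cs V z₀) (φ : W → ℝ) :
    ∑ z ∈ cs V z₀, ∑ x ∈ X ∩ cs V' z, φ x = Nat.card V' * ∑ x ∈ X, φ x := by
  rw [sum_comm' (t' := X) (s' := fun x => cs V' x), mul_sum]
  · exact sum_congr rfl fun x _ => by rw [sum_const, card_cs, nsmul_eq_mul]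
  · intro z x
    rw [mem_inter, mem_cs (V := V'), mem_cs (V := V'), add_comm z x]
    refine ⟨fun h => ⟨h.2.2, h.2.1⟩, fun h => ⟨cs_subset h2 hV (hX h.2) ?_, h.2, h.1⟩⟩
    rw [mem_cs, add_comm]
    exact h.1

/-- A densest coset at rate `θ` is spread. -/
theorem exists_spread (h2 : ∀ x : W, x + x = 0) (θ : ℝ) (V : AddSubgroup W) (z₀ : W)
    {Y : Finset W} (hY : Y.Nonempty) (hYV : Y ⊆ cs V z₀) :
    ∃ V' ≤ V, ∃ z : W, (Y ∩ cs V' z).Nonempty ∧ Spread 1 θ V' (Y ∩ cs V' z) ∧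
      (#Y : ℝ) * (Nat.card V' : ℝ) ^ (1 - θ) ≤ #(Y ∩ cs V' z) * (Nat.card V : ℝ) ^ (1 - θ) := by
  have _ := h2
  have hpos : ∀ U : AddSubgroup W, (0 : ℝ) < (Nat.card U : ℝ) ^ (1 - θ) := fun U =>
    Real.rpow_pos_of_pos (by exact_mod_cast Nat.card_pos) _
  have : Nonempty ({U : AddSubgroup W // U ≤ V} × W) := ⟨(⟨V, le_rfl⟩, z₀)⟩
  obtain ⟨⟨⟨V', hV'⟩, z⟩, hmax⟩ := Finite.exists_max
    (fun q : {U : AddSubgroup W // U ≤ V} × W =>
      (#(Y ∩ cs q.1.1 q.2) : ℝ) / (Nat.card q.1.1 : ℝ) ^ (1 - θ))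
  have h0 := hmax (⟨V, le_rfl⟩, z₀)
  simp only [inter_eq_left.2 hYV] at h0
  rw [div_le_div_iff₀ (hpos _) (hpos _)] at h0
  refine ⟨V', hV', z, ?_, fun U hU w => ?_, h0⟩
  · rw [← card_pos]
    have h1 : (0 : ℝ) < #Y := by exact_mod_cast hY.card_pos
    have h3 := (mul_pos h1 (hpos V')).trans_le h0
    exact_mod_cast (mul_pos_iff_of_pos_right (hpos V)).1 h3
  · have h1 := hmax (⟨U, hU.trans hV'⟩, w)
    simp only at h1
    rw [div_le_div_iff₀ (hpos _) (hpos _)] at h1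
    rw [one_mul]
    refine le_trans (mul_le_mul_of_nonneg_right ?_ (hpos V').le) h1
    exact_mod_cast card_le_card (inter_subset_inter_right inter_subset_left)

theorem card_pull (h2 : ∀ x : W, x + x = 0) (V : AddSubgroup W) [Fintype V] (z : W)
    (Y : Finset W) : #(pull V z Y) = #(Y ∩ cs V z) := by
  refine card_bij (fun v _ => (v : W) + z) (fun v hv => ?_)
    (fun _ _ _ _ h => Subtype.ext (add_right_cancel h)) fun y hy => ?_
  · rw [mem_inter, mem_cs, trans_cancel h2]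
    exact ⟨mem_pull.1 hv, v.2⟩
  · rw [mem_inter, mem_cs] at hy
    exact ⟨⟨y + z, hy.2⟩, mem_pull.2 (by simpa only [trans_cancel h2] using hy.1),
      trans_cancel h2 y z⟩

theorem tri_pull (h2 : ∀ x : W, x + x = 0) (V : AddSubgroup W) [Fintype V] (b c : W)
    (Y B C : Finset W) :
    tri (pull V (b + c) Y) (pull V b B) (pull V c C) = tri Y (B ∩ cs V b) (C ∩ cs V c) := by
  rw [tri_eq, tri_eq]
  refine card_bij (fun q _ => ((q.1 : W) + b, (q.2 : W) + c)) (fun q hq => ?_)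
    (fun _ _ _ _ h => Prod.ext (Subtype.ext (add_right_cancel (Prod.ext_iff.1 h).1))
      (Subtype.ext (add_right_cancel (Prod.ext_iff.1 h).2))) fun q hq => ?_
  · simp only [mem_filter, mem_product, mem_pull, mem_inter, mem_cs, trans_cancel h2,
      AddSubgroup.coe_add] at hq ⊢
    exact ⟨⟨⟨hq.1.1, q.1.2⟩, hq.1.2, q.2.2⟩, by rw [add_add_add_comm]; exact hq.2⟩
  · simp only [mem_filter, mem_product, mem_inter, mem_cs] at hq
    refine ⟨(⟨q.1 + b, hq.1.1.2⟩, ⟨q.2 + c, hq.1.2.2⟩), ?_,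
      Prod.ext (trans_cancel h2 _ _) (trans_cancel h2 _ _)⟩
    simp only [mem_filter, mem_product, mem_pull, trans_cancel h2, AddSubgroup.coe_add]
    exact ⟨⟨hq.1.1.1, hq.1.2.1⟩, by rw [add_add_add_comm q.1, trans_cancel h2]; exact hq.2⟩

theorem Spread.pull (h2 : ∀ x : W, x + x = 0) {V : AddSubgroup W} [Fintype V] {z : W}
    {Y : Finset W} {ρ θ : ℝ} (h : Spread ρ θ V (Y ∩ cs V z)) : Spread ρ θ ⊤ (pull V z Y) := by
  intro U _ w
  have h1 := h (U.map V.subtype) (AddSubgroup.map_subtype_le U) ((w : W) + z)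
  have e1 : Nat.card (U.map V.subtype) = Nat.card U :=
    AddSubgroup.card_map_of_injective V.subtype_injective
  have e2 : #(Q.pull V z Y ∩ cs U w) = #(Y ∩ cs V z ∩ cs (U.map V.subtype) ((w : W) + z)) := by
    refine card_bij (fun v _ => (v : W) + z) (fun v hv => ?_)
      (fun _ _ _ _ h => Subtype.ext (add_right_cancel h)) fun y hy => ?_
    · simp only [mem_inter, mem_cs, mem_pull, trans_cancel h2] at hv ⊢
      refine ⟨⟨hv.1, v.2⟩, v + w, hv.2, ?_⟩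
      rw [add_comm (w : W), trans_add h2]
      rfl
    · simp only [mem_inter, mem_cs] at hy
      obtain ⟨⟨a1, a2⟩, u, hu, a3⟩ := hy
      refine ⟨⟨y + z, a2⟩, ?_, trans_cancel h2 y z⟩
      simp only [mem_inter, mem_cs, mem_pull, trans_cancel h2]
      refine ⟨a1, ?_⟩
      have : (⟨y + z, a2⟩ + w : V) = u := Subtype.ext (by
        rw [AddSubgroup.coe_add, add_assoc, add_comm z]
        exact a3.symm)
      rw [this]
      exact hu
  rw [card_top, ← Nat.card_eq_fintype_card, card_pull h2, e2, ← e1]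
  exact h1

/-- The trace of a spread set on a coset. -/
theorem Spread.restrict {V : AddSubgroup W} {z : W} {Y : Finset W} {κ ρ θ : ℝ}
    (h : Spread κ θ ⊤ Y) (hρ : κ * #Y * (Nat.card V : ℝ) ^ (1 - θ) ≤
      ρ * #(Y ∩ cs V z) * (Fintype.card W : ℝ) ^ (1 - θ)) : Spread ρ θ V (Y ∩ cs V z) := by
  intro U _ w
  have h1 := h U le_top w
  rw [card_top] at h1
  have hN : (0 : ℝ) < (Fintype.card W : ℝ) ^ (1 - θ) :=
    Real.rpow_pos_of_pos (by exact_mod_cast Fintype.card_pos) _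
  have h3 : (#(Y ∩ cs V z ∩ cs U w) : ℝ) ≤ #(Y ∩ cs U w) := by
    exact_mod_cast card_le_card (inter_subset_inter_right inter_subset_left)
  have hV : (0 : ℝ) ≤ (Nat.card V : ℝ) ^ (1 - θ) := by positivity
  have hU : (0 : ℝ) ≤ (Nat.card U : ℝ) ^ (1 - θ) := by positivity
  refine le_of_mul_le_mul_right ?_ hN
  calc (#(Y ∩ cs V z ∩ cs U w) : ℝ) * (Nat.card V : ℝ) ^ (1 - θ) * (Fintype.card W : ℝ) ^ (1 - θ)
      ≤ #(Y ∩ cs U w) * (Nat.card V : ℝ) ^ (1 - θ) * (Fintype.card W : ℝ) ^ (1 - θ) := by gcongr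
    _ = #(Y ∩ cs U w) * (Fintype.card W : ℝ) ^ (1 - θ) * (Nat.card V : ℝ) ^ (1 - θ) := by ring
    _ ≤ κ * #Y * (Nat.card U : ℝ) ^ (1 - θ) * (Nat.card V : ℝ) ^ (1 - θ) := by gcongr
    _ = κ * #Y * (Nat.card V : ℝ) ^ (1 - θ) * (Nat.card U : ℝ) ^ (1 - θ) := by ring
    _ ≤ ρ * #(Y ∩ cs V z) * (Fintype.card W : ℝ) ^ (1 - θ) * (Nat.card U : ℝ) ^ (1 - θ) := by
        gcongr
    _ = _ := by ring

/-- Transport of a corner-free set. -/
theorem exists_pull (h2 : ∀ x : W, x + x = 0) (V : AddSubgroup W) [Fintype V] (x₀ y₀ : W)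
    {A : Finset (W × W)} (hA : CF A) {X Y : Finset W} (D : Finset W) (hX : X ⊆ cs V x₀)
    (hY : Y ⊆ cs V y₀) : ∃ A' : Finset (V × V), CF A' ∧
      In A' (pull V x₀ X) (pull V y₀ Y) (pull V (x₀ + y₀) D) ∧ #A' = #(res A X Y D) := by
  refine ⟨univ.filter fun q => ((q.1 : W) + x₀, (q.2 : W) + y₀) ∈ res A X Y D,
    fun x y z a b c => ?_, fun q hq => ?_, ?_⟩
  · simp only [mem_filter, mem_univ, true_and, res, AddSubgroup.coe_add] at a b c
    refine Subtype.ext (hA (x + x₀) (y + y₀) z a.1 ?_ ?_)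
    · rw [add_right_comm]
      exact b.1
    · rw [add_right_comm]
      exact c.1
  · simp only [mem_filter, mem_univ, true_and, res] at hq
    simp only [mem_pull, AddSubgroup.coe_add]
    exact ⟨hq.2.1, hq.2.2.1, by rw [add_add_add_comm]; exact hq.2.2.2⟩
  · refine card_bij (fun q _ => ((q.1 : W) + x₀, (q.2 : W) + y₀)) (fun q hq => (mem_filter.1 hq).2)
      (fun _ _ _ _ h => Prod.ext (Subtype.ext (add_right_cancel (Prod.ext_iff.1 h).1))
        (Subtype.ext (add_right_cancel (Prod.ext_iff.1 h).2))) fun q hq => ?_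
    have hq' := (mem_filter.1 hq).2
    refine ⟨(⟨q.1 + x₀, mem_cs.1 (hX hq'.1)⟩, ⟨q.2 + y₀, mem_cs.1 (hY hq'.2.1)⟩), ?_,
      Prod.ext (trans_cancel h2 _ _) (trans_cancel h2 _ _)⟩
    simpa only [mem_filter, mem_univ, true_and, trans_cancel h2] using hq

end Pool.Agent.P.MP_db4732_co.Q
end

-- part Pool.Agent.P.MP_db4732_co.Q.Part
section

/-! Passing to a cell in which both sides are spread. -/

set_option autoImplicit false

namespace Pool.Agent.P.MP_db4732_co.Q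

open Finset

variable {W : Type} [AddCommGroup W] [Fintype W] [DecidableEq W]

omit [DecidableEq W] in
theorem part_pos (V : AddSubgroup W) : (0 : ℝ) < Nat.card V := by
  exact_mod_cast Nat.card_pos

omit [DecidableEq W] in
theorem part_le {V V' : AddSubgroup W} (h : V' ≤ V) : (Nat.card V' : ℝ) ≤ Nat.card V := by
  exact_mod_cast AddSubgroup.card_le_of_le h

theorem part_sq {v : ℝ} (hv : 0 ≤ v) (t : ℝ) : (v ^ (t / 2)) ^ 2 = v ^ t := by
  rw [← Real.rpow_natCast, ← Real.rpow_mul hv]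
  norm_num

theorem part_num {n m a b : ℝ} (hm : 0 < m) (hmn : m ≤ n) (hb : 0 ≤ b)
    (h : n * a ^ 2 ≤ m * b ^ 2) : 2 * √(n - m) * b + √m * a ≤ 2 * √n * b := by
  have hn : 0 < n := hm.trans_le hmn
  have hs : 0 < √n := Real.sqrt_pos.2 hn
  have e1 : √n ^ 2 = n := Real.sq_sqrt hn.le
  have e2 : √m ^ 2 = m := Real.sq_sqrt hm.le
  have e3 : √(n - m) ^ 2 = n - m := Real.sq_sqrt (sub_nonneg.2 hmn)
  have h1 : √m * a * √n ≤ m * b := by
    refine le_of_sq_le_sq ?_ (by positivity)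
    rw [mul_pow, mul_pow, e1, e2, mul_pow]
    nlinarith [mul_le_mul_of_nonneg_left h hm.le]
  have h2 : 2 * √(n - m) * √n + m ≤ 2 * n := by nlinarith [sq_nonneg (√(n - m) - √n)]
  refine le_of_mul_le_mul_right ?_ hs
  have h3 := mul_le_mul_of_nonneg_right h2 hb
  calc (2 * √(n - m) * b + √m * a) * √n = 2 * √(n - m) * √n * b + √m * a * √n := by ring
    _ ≤ 2 * n * b := by linarith
    _ = 2 * √n ^ 2 * b := by rw [e1]
    _ = 2 * √n * b * √n := by ring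

/-- Greedy partition into spread pieces, in dual form. -/
theorem part_one (h2 : ∀ x : W, x + x = 0) (θ : ℝ) (V : AddSubgroup W) (z₀ : W) (φ : W → ℝ)
    {M : ℝ} (hM : 0 ≤ M) (Y : Finset W) (hYV : Y ⊆ cs V z₀)
    (h : ∀ V' ≤ V, ∀ z : W, ∀ Y' ⊆ Y ∩ cs V' z, Y'.Nonempty → Spread 1 θ V' Y' →
      ∑ y ∈ Y', φ y ≤ M * √(#Y') * (Nat.card V' : ℝ) ^ ((1 - θ) / 2)) :
    ∑ y ∈ Y, φ y ≤ 2 * M * √(#Y) * (Nat.card V : ℝ) ^ ((1 - θ) / 2) := by
  induction' hn : #Y using Nat.strong_induction_on with n ih generalizing Y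
  subst hn
  rcases Y.eq_empty_or_nonempty with rfl | hY
  · simp
  obtain ⟨V', hV', z, hne, hsp, hle⟩ := exists_spread h2 θ V z₀ hY hYV
  set Y1 := Y ∩ cs V' z with hY1
  have hsub : Y1 ⊆ Y := inter_subset_left
  have h1 := h V' hV' z Y1 subset_rfl hne hsp
  have hc : #(Y \ Y1) + #Y1 = #Y := card_sdiff_add_card_eq_card hsub
  have hp := hne.card_pos
  have h3 := ih #(Y \ Y1) (by omega) (Y \ Y1) (sdiff_subset.trans hYV)
    (fun V'' hV'' z' Y' hY' => h V'' hV'' z' Y'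
      (hY'.trans (inter_subset_inter_right sdiff_subset))) rfl
  rw [← sum_sdiff hsub]
  have hcr : (#(Y \ Y1) : ℝ) = #Y - #Y1 := by rw [← hc]; push_cast; ring
  rw [hcr] at h3
  have h4 := part_num (n := #Y) (m := #Y1) (a := (Nat.card V' : ℝ) ^ ((1 - θ) / 2))
    (b := (Nat.card V : ℝ) ^ ((1 - θ) / 2)) (by exact_mod_cast hp)
    (by exact_mod_cast card_le_card hsub) (by positivity)
    (by rw [part_sq (part_pos V').le, part_sq (part_pos V).le]; exact hle)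
  nlinarith [mul_le_mul_of_nonneg_left h4 hM]

theorem part_card (h2 : ∀ x : W, x + x = 0) {V V' : AddSubgroup W} (hV : V' ≤ V) (z₀ : W)
    {X : Finset W} (hX : X ⊆ cs V z₀) :
    ∑ z ∈ cs V z₀, (#(X ∩ cs V' z) : ℝ) = Nat.card V' * #X := by
  simpa using sum_cs h2 hV z₀ hX fun _ => 1

theorem part_cs (h2 : ∀ x : W, x + x = 0) {V V' : AddSubgroup W} (hV : V' ≤ V) (z₀ : W)
    {X : Finset W} (hX : X ⊆ cs V z₀) {S : Finset W} (hS : S ⊆ cs V z₀) :
    ∑ z ∈ S, √(#(X ∩ cs V' z)) ≤ √(Nat.card V) * √(Nat.card V') * √(#X) := by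
  rw [← Real.sqrt_mul (part_pos V).le, ← Real.sqrt_mul (by positivity)]
  refine Real.le_sqrt_of_sq_le (sq_sum_le_card_mul_sum_sq.trans ?_)
  rw [mul_assoc, ← part_card h2 hV z₀ hX, ← card_cs V z₀]
  refine mul_le_mul (by exact_mod_cast card_le_card hS) ?_ (by positivity) (by positivity)
  rw [sum_congr rfl fun z _ => Real.sq_sqrt (Nat.cast_nonneg _)]
  exact sum_le_sum_of_subset_of_nonneg hS fun _ _ _ => Nat.cast_nonneg _

theorem part_mono {ρ θ θ' : ℝ} {V : AddSubgroup W} {Y : Finset W} (h : Spread ρ θ V Y)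
    (hρ : 0 ≤ ρ) (hθ : θ ≤ θ') : Spread ρ θ' V Y := fun V' hV' z => by
  have h1 := h V' hV' z
  have e : ∀ U : AddSubgroup W, (Nat.card U : ℝ) ^ (1 - θ) =
      (Nat.card U : ℝ) ^ (1 - θ') * (Nat.card U : ℝ) ^ (θ' - θ) := fun U => by
    rw [← Real.rpow_add (part_pos U)]; congr 1; ring
  rw [e V, e V'] at h1
  have h3 : (Nat.card V' : ℝ) ^ (θ' - θ) ≤ (Nat.card V : ℝ) ^ (θ' - θ) :=
    Real.rpow_le_rpow (part_pos V').le (part_le hV') (sub_nonneg.2 hθ)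
  have h4 : 0 < (Nat.card V : ℝ) ^ (θ' - θ) := Real.rpow_pos_of_pos (part_pos V) _
  refine le_of_mul_le_mul_right ?_ h4
  have h5 : 0 ≤ ρ * #Y * (Nat.card V' : ℝ) ^ (1 - θ') := by positivity
  nlinarith [mul_le_mul_of_nonneg_left h3 h5]

/-- The shallow case: most cosets carry a spread trace. -/
theorem part_shallow (h2 : ∀ x : W, x + x = 0) {κ e θ η M MF c : ℝ} (hM : 0 ≤ M) (hMF : 0 ≤ MF)
    (hc : 0 ≤ c) (he0 : 0 < e) (he1 : e < 1) (hκ : 1 + e ≤ κ * (1 - e)) (hη : η ≤ θ)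
    {V1 V2 : AddSubgroup W} (hV : V2 ≤ V1) (z1 : W) {Y1 : Finset W} (hY1 : Y1 ⊆ cs V1 z1)
    (hne : Y1.Nonempty) (hsY : Spread 1 η V1 Y1)
    (hr : ((Nat.card V1 : ℝ) / Nat.card V2) ^ η ≤ 1 + e / 8) (f : W → ℝ)
    (hall : ∀ w, f w ≤ M * (c * √(#(Y1 ∩ cs V2 w))))
    (hfin : ∀ w, (Y1 ∩ cs V2 w).Nonempty → Spread κ θ V2 (Y1 ∩ cs V2 w) →
      f w ≤ MF * (c * √(#(Y1 ∩ cs V2 w)))) :
    ∑ w ∈ cs V1 z1, f w ≤ (MF + M / 8) * (c * (√(Nat.card V1) * √(Nat.card V2) * √(#Y1))) := by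
  have p1 := part_pos V1
  have p2 := part_pos V2
  set v1 := (Nat.card V1 : ℝ) with hv1
  set v2 := (Nat.card V2 : ℝ) with hv2
  have pY : (0 : ℝ) < #Y1 := by exact_mod_cast hne.card_pos
  set r := v1 / v2 with hrd
  have pr : 0 < r := div_pos p1 p2
  set a := (#Y1 : ℝ) / r with had
  have pa : 0 < a := div_pos pY pr
  have ea : (#Y1 : ℝ) = a * r := by rw [had]; field_simp
  have e1 : v1 = r * v2 := by rw [hrd]; field_simp
  have hκ0 : 0 ≤ κ := by nlinarith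
  have key : ∀ V3 ≤ V2, ∀ z : W, (#(Y1 ∩ cs V3 z) : ℝ) * v2 ^ (1 - η) ≤
      (1 + e / 8) * a * (Nat.card V3 : ℝ) ^ (1 - η) := fun V3 hV3 z => by
    have h1 := hsY V3 (hV3.trans hV) z
    rw [← hv1, e1, Real.mul_rpow pr.le p2.le, one_mul] at h1
    have e3 : r ^ (1 - η) * r ^ η = r := by rw [← Real.rpow_add pr]; simp
    have q1 : 0 < r ^ η := Real.rpow_pos_of_pos pr _
    have q3 : 0 < (Nat.card V3 : ℝ) ^ (1 - η) := Real.rpow_pos_of_pos (part_pos V3) _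
    have h3 := mul_le_mul_of_nonneg_right h1 q1.le
    have h4 := mul_le_mul_of_nonneg_left hr (mul_pos pY q3).le
    refine le_of_mul_le_mul_right ?_ pr
    calc (#(Y1 ∩ cs V3 z) : ℝ) * v2 ^ (1 - η) * r
        = #(Y1 ∩ cs V3 z) * (r ^ (1 - η) * v2 ^ (1 - η)) * r ^ η := by
          conv_lhs => rw [← e3]
          ring
      _ ≤ #Y1 * (Nat.card V3 : ℝ) ^ (1 - η) * (1 + e / 8) := h3.trans h4
      _ = _ := by rw [ea]; ring
  have up : ∀ w, (#(Y1 ∩ cs V2 w) : ℝ) ≤ (1 + e / 8) * a := fun w =>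
    le_of_mul_le_mul_right (key V2 le_rfl w) (Real.rpow_pos_of_pos p2 _)
  have thick : ∀ w, ¬ (#(Y1 ∩ cs V2 w) : ℝ) < (1 - e) * a →
      f w ≤ MF * (c * √(#(Y1 ∩ cs V2 w))) := fun w hw => by
    push Not at hw
    refine hfin w ?_ (part_mono (fun V3 hV3 z => ?_) hκ0 hη)
    · rw [← card_pos]
      have : (0 : ℝ) < #(Y1 ∩ cs V2 w) := lt_of_lt_of_le (mul_pos (sub_pos.2 he1) pa) hw
      exact_mod_cast this
    · have h1 : (#(Y1 ∩ cs V2 w ∩ cs V3 z) : ℝ) ≤ #(Y1 ∩ cs V3 z) := by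
        exact_mod_cast card_le_card (inter_subset_inter_right inter_subset_left)
      refine (mul_le_mul_of_nonneg_right h1 (Real.rpow_pos_of_pos p2 _).le).trans
        ((key V3 hV3 z).trans (mul_le_mul_of_nonneg_right ?_
          (Real.rpow_pos_of_pos (part_pos V3) _).le))
      nlinarith [mul_le_mul_of_nonneg_left hw hκ0, mul_le_mul_of_nonneg_right hκ pa.le]
  set T := (cs V1 z1).filter fun w => (#(Y1 ∩ cs V2 w) : ℝ) < (1 - e) * a with hT
  have hcard : (#(cs V1 z1) : ℝ) = v1 := by rw [card_cs]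
  have hTc : (#T : ℝ) ≤ v1 / 8 := by
    have s1 : ∑ w ∈ cs V1 z1, ((1 + e / 8) * a - #(Y1 ∩ cs V2 w)) = v1 * (e / 8) * a := by
      rw [sum_sub_distrib, part_card h2 hV z1 hY1, sum_const, nsmul_eq_mul, hcard, ← hv2, ea, e1]
      ring
    have s2 : ∑ w ∈ T, ((1 + e / 8) * a - #(Y1 ∩ cs V2 w)) ≤ v1 * (e / 8) * a := by
      rw [← s1]
      exact sum_le_sum_of_subset_of_nonneg (filter_subset _ _) fun w _ _ => sub_nonneg.2 (up w)
    have s3 : #T • (e * a) ≤ ∑ w ∈ T, ((1 + e / 8) * a - #(Y1 ∩ cs V2 w)) :=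
      card_nsmul_le_sum _ _ _ fun w hw => by
        have := (mem_filter.1 hw).2
        nlinarith [mul_pos he0 pa]
    rw [nsmul_eq_mul] at s3
    refine le_of_mul_le_mul_right ?_ (mul_pos he0 pa)
    linarith
  have eQ : √v1 * √v2 * √(#Y1) = v1 * √a := by
    rw [← Real.sqrt_mul p1.le, ← Real.sqrt_mul (by positivity), ea,
      show v1 * v2 * (a * r) = v1 ^ 2 * a by rw [e1]; ring, Real.sqrt_mul (by positivity),
      Real.sqrt_sq p1.le]
  have t1 : ∑ w ∈ T, f w ≤ #T • (M * (c * √a)) := sum_le_card_nsmul _ _ _ fun w hw => by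
    refine (hall w).trans (mul_le_mul_of_nonneg_left (mul_le_mul_of_nonneg_left
      (Real.sqrt_le_sqrt ?_) hc) hM)
    have := (mem_filter.1 hw).2
    nlinarith [mul_pos he0 pa]
  rw [nsmul_eq_mul] at t1
  have t2 := mul_le_mul_of_nonneg_right hTc (mul_nonneg hM (mul_nonneg hc (Real.sqrt_nonneg a)))
  have t3 : ∑ w ∈ (cs V1 z1).filter fun w => ¬ (#(Y1 ∩ cs V2 w) : ℝ) < (1 - e) * a, f w ≤
      MF * (c * (√v1 * √v2 * √(#Y1))) := by
    refine (sum_le_sum fun w hw => thick w (mem_filter.1 hw).2).trans ?_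
    rw [← mul_sum, ← mul_sum]
    exact mul_le_mul_of_nonneg_left (mul_le_mul_of_nonneg_left
      (part_cs h2 hV z1 hY1 (filter_subset _ _)) hc) hMF
  rw [← sum_filter_add_sum_filter_not (cs V1 z1)
    fun w => (#(Y1 ∩ cs V2 w) : ℝ) < (1 - e) * a]
  rw [eQ] at t3 ⊢
  nlinarith

/-- Both pieces are fixed: split the second one along the cosets of the smaller group. -/
theorem part_three (h2 : ∀ x : W, x + x = 0) {κ e θ ω M MF : ℝ} (hM : 0 ≤ M) (hMF : 0 ≤ MF)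
    (he0 : 0 < e) (he1 : e < 1) (hκ : 1 + e ≤ κ * (1 - e)) (hω : 0 < ω) (hθ : 4 * ω ≤ θ)
    (hJ : ∀ r : ℝ, 1 ≤ r → r ^ (θ / 2 - ω) < 8 → r ^ (2 * ω) ≤ 1 + e / 8) (ν : W → W → ℝ)
    {V1 V2 : AddSubgroup W} (hV : V2 ≤ V1) (z1 : W) (X2 : Finset W) {Y1 : Finset W}
    (hY1 : Y1 ⊆ cs V1 z1) (hne : Y1.Nonempty) (hsY : Spread 1 (2 * ω) V1 Y1)
    (hall : ∀ w, ∑ x ∈ X2, ∑ y ∈ Y1 ∩ cs V2 w, ν x y ≤
      M * (√(#X2 * #(Y1 ∩ cs V2 w)) * (Nat.card V2 : ℝ) ^ (1 - ω)))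
    (hfin : ∀ w, (Y1 ∩ cs V2 w).Nonempty → Spread κ θ V2 (Y1 ∩ cs V2 w) →
      ∑ x ∈ X2, ∑ y ∈ Y1 ∩ cs V2 w, ν x y ≤
        MF * (√(#X2 * #(Y1 ∩ cs V2 w)) * (Nat.card V2 : ℝ) ^ (1 - ω))) :
    ∑ x ∈ X2, ∑ y ∈ Y1, ν x y ≤ (MF + M / 8) * √(#Y1) * (Nat.card V1 : ℝ) ^ (1 / 2 - ω + θ / 2) *
      √(#X2) * (Nat.card V2 : ℝ) ^ ((1 - θ) / 2) := by
  have p1 := part_pos V1
  have p2 := part_pos V2
  have hr : 1 ≤ (Nat.card V1 : ℝ) / Nat.card V2 := (one_le_div p2).2 (part_le hV)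
  set c := √(#X2) * (Nat.card V2 : ℝ) ^ (1 - ω) with hc
  have pc : 0 ≤ c := by positivity
  have ec : ∀ w, √(#X2 * #(Y1 ∩ cs V2 w)) * (Nat.card V2 : ℝ) ^ (1 - ω) =
      c * √(#(Y1 ∩ cs V2 w)) := fun w => by
    rw [Real.sqrt_mul (Nat.cast_nonneg _), hc]; ring
  simp only [ec] at hall hfin
  have es : (Nat.card V2 : ℝ) * ∑ x ∈ X2, ∑ y ∈ Y1, ν x y =
      ∑ w ∈ cs V1 z1, ∑ x ∈ X2, ∑ y ∈ Y1 ∩ cs V2 w, ν x y := by
    rw [sum_comm, ← sum_cs h2 hV z1 hY1]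
    exact sum_congr rfl fun w _ => sum_comm
  set Q := √(Nat.card V1 : ℝ) * √(Nat.card V2 : ℝ) * √(#Y1) with hQ
  have pQ : 0 ≤ Q := by positivity
  set ρ := ((Nat.card V1 : ℝ) / Nat.card V2) ^ (θ / 2 - ω) with hρ
  have hρ1 : 1 ≤ ρ := Real.one_le_rpow hr (by linarith)
  have main : ∑ w ∈ cs V1 z1, ∑ x ∈ X2, ∑ y ∈ Y1 ∩ cs V2 w, ν x y ≤
      (MF + M / 8) * (c * Q) * ρ := by
    have pcQ : 0 ≤ c * Q := mul_nonneg pc pQ
    rcases lt_or_ge ρ 8 with h8 | h8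
    · refine (part_shallow h2 hM hMF pc he0 he1 hκ (by linarith) hV z1 hY1 hne hsY
        (hJ _ hr h8) _ hall hfin).trans ?_
      exact le_mul_of_one_le_right (by positivity) hρ1
    · refine (sum_le_sum fun w _ => hall w).trans ?_
      rw [← mul_sum, ← mul_sum]
      have h3 := mul_le_mul_of_nonneg_left (mul_le_mul_of_nonneg_left
        (part_cs h2 hV z1 hY1 subset_rfl) pc) hM
      have h4 := mul_le_mul_of_nonneg_left h8 (mul_nonneg hM pcQ)
      have h5 : 0 ≤ MF * (c * Q) * ρ := by positivity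
      nlinarith
  refine le_of_mul_le_mul_left (es.le.trans (main.trans (le_of_eq ?_))) p2
  have e1 : (Nat.card V1 : ℝ) ^ (1 / 2 - ω + θ / 2) =
      √(Nat.card V1 : ℝ) * (Nat.card V1 : ℝ) ^ (θ / 2 - ω) := by
    rw [Real.sqrt_eq_rpow, ← Real.rpow_add p1]; congr 1; ring
  have e2 : (Nat.card V2 : ℝ) ^ (1 - ω) * √(Nat.card V2 : ℝ) = (Nat.card V2 : ℝ) ^ (1 : ℝ) *
      (Nat.card V2 : ℝ) ^ ((1 - θ) / 2) * (Nat.card V2 : ℝ) ^ (θ / 2 - ω) := by
    rw [Real.sqrt_eq_rpow, ← Real.rpow_add p2, ← Real.rpow_add p2, ← Real.rpow_add p2]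
    congr 1; ring
  rw [Real.rpow_one] at e2
  have p3 : 0 < (Nat.card V2 : ℝ) ^ (θ / 2 - ω) := Real.rpow_pos_of_pos p2 _
  rw [hρ, Real.div_rpow p1.le p2.le, e1, hc, hQ, ← mul_div_assoc, div_eq_iff p3.ne']
  linear_combination ((MF + M / 8) * √(#X2) * √(Nat.card V1 : ℝ) * √(#Y1) *
    (Nat.card V1 : ℝ) ^ (θ / 2 - ω)) * e2

/-- The second piece is fixed: split the first set along cosets and into spread pieces. -/
theorem part_two (h2 : ∀ x : W, x + x = 0) {θ ω K : ℝ} (hK : 0 ≤ K) (ψ : W → ℝ)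
    {V V1 : AddSubgroup W} (hV : V1 ≤ V) (x₀ : W) {X : Finset W} (hX : X ⊆ cs V x₀)
    (h : ∀ V2 ≤ V1, ∀ z : W, ∀ X2 ⊆ X ∩ cs V2 z, X2.Nonempty → Spread 1 θ V2 X2 →
      ∑ x ∈ X2, ψ x ≤ K * (Nat.card V1 : ℝ) ^ (1 / 2 - ω + θ / 2) * √(#X2) *
        (Nat.card V2 : ℝ) ^ ((1 - θ) / 2)) :
    ∑ x ∈ X, ψ x ≤ 2 * K * (√(Nat.card V) * √(#X)) * (Nat.card V1 : ℝ) ^ ((1 - 2 * ω) / 2) := by
  have p1 := part_pos V1
  set K' := K * (Nat.card V1 : ℝ) ^ (1 / 2 - ω + θ / 2) with hK'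
  have pK : 0 ≤ K' := by positivity
  have h1 : ∀ z, ∑ x ∈ X ∩ cs V1 z, ψ x ≤
      2 * K' * (Nat.card V1 : ℝ) ^ ((1 - θ) / 2) * √(#(X ∩ cs V1 z)) := fun z => by
    refine (part_one h2 θ V1 z ψ pK _ inter_subset_right fun V2 hV2 z' X2 hX2 =>
      h V2 hV2 z' X2 (hX2.trans (inter_subset_inter_right inter_subset_left))).trans
        (le_of_eq ?_)
    ring
  refine le_of_mul_le_mul_left ?_ p1
  rw [← sum_cs h2 hV x₀ hX]
  refine (sum_le_sum fun z _ => h1 z).trans ?_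
  rw [← mul_sum]
  refine (mul_le_mul_of_nonneg_left (part_cs h2 hV x₀ hX subset_rfl) (by positivity)).trans
    (le_of_eq ?_)
  have e : (Nat.card V1 : ℝ) ^ (1 / 2 - ω + θ / 2) * (Nat.card V1 : ℝ) ^ ((1 - θ) / 2) *
      √(Nat.card V1 : ℝ) = (Nat.card V1 : ℝ) ^ (1 : ℝ) * (Nat.card V1 : ℝ) ^ ((1 - 2 * ω) / 2) := by
    rw [Real.sqrt_eq_rpow, ← Real.rpow_add p1, ← Real.rpow_add p1, ← Real.rpow_add p1]
    congr 1; ring
  rw [Real.rpow_one] at e
  rw [hK']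
  linear_combination (2 * K * √(Nat.card V : ℝ) * √(#X)) * e

theorem pseudo {κ : ℝ} (hκ : 1 < κ) : ∃ J : ℕ, 4 ≤ J ∧ ∀ (W : Type) [AddCommGroup W] [Fintype W]
    [DecidableEq W], (∀ x : W, x + x = 0) → ∀ (θ : ℝ), 0 < θ → θ ≤ 1 → ∀ (X Y : Finset W)
    (ν : W → W → ℝ), 0 < ∑ x ∈ X, ∑ y ∈ Y, ν x y →
    ∃ (V : AddSubgroup W) (x₀ y₀ : W), ∃ X' ⊆ X ∩ cs V x₀, ∃ Y' ⊆ Y ∩ cs V y₀,
      X'.Nonempty ∧ Y'.Nonempty ∧ Spread κ θ V X' ∧ Spread κ θ V Y' ∧
      (∑ x ∈ X, ∑ y ∈ Y, ν x y) * √(#X' * #Y') * (Nat.card V : ℝ) ^ (1 - θ / J) ≤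
        16 * (∑ x ∈ X', ∑ y ∈ Y', ν x y) * √(#X * #Y) * (Fintype.card W : ℝ) ^ (1 - θ / J) := by
  set e := (κ - 1) / (κ + 1) with he
  have he0 : 0 < e := div_pos (by linarith) (by linarith)
  have he1 : e < 1 := (div_lt_one (by linarith)).2 (by linarith)
  have hκe : 1 + e ≤ κ * (1 - e) := by
    have : e * (κ + 1) = κ - 1 := by rw [he]; field_simp
    nlinarith
  obtain ⟨J₀, hJ₀⟩ := pow_unbounded_of_one_lt ((8 : ℝ) ^ 8) (show 1 < 1 + e / 8 by linarith)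
  refine ⟨J₀ + 4, by omega, fun W _ _ _ h2 θ hθ0 hθ1 X Y ν hν => ?_⟩
  set J : ℕ := J₀ + 4 with hJd
  have hJ4 : (4 : ℝ) ≤ J := by rw [hJd]; push_cast; linarith [Nat.cast_nonneg (α := ℝ) J₀]
  set ω := θ / J with hω
  have eω : ω * J = θ := by rw [hω]; field_simp
  have pω : 0 < ω := div_pos hθ0 (by linarith)
  have h4ω : 4 * ω ≤ θ := by nlinarith
  have hJ : ∀ r : ℝ, 1 ≤ r → r ^ (θ / 2 - ω) < 8 → r ^ (2 * ω) ≤ 1 + e / 8 := fun r hr h8 => by
    have pr : 0 ≤ r := by linarith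
    refine le_of_pow_le_pow_left₀ (n := J) (by omega) (by linarith) ?_
    have a1 : r ^ (θ / 4) ≤ 8 := (Real.rpow_le_rpow_of_exponent_le hr (by linarith)).trans h8.le
    have a2 : (r ^ (2 * ω)) ^ J = (r ^ (θ / 4)) ^ 8 := by
      rw [← Real.rpow_natCast, ← Real.rpow_natCast, ← Real.rpow_mul pr, ← Real.rpow_mul pr]
      congr 1; push_cast; linarith
    rw [a2]
    exact (pow_le_pow_left₀ (by positivity) a1 8).trans
      (hJ₀.le.trans (pow_le_pow_right₀ (by linarith) (by omega)))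
  have hX : X.Nonempty := by
    rcases X.eq_empty_or_nonempty with rfl | h
    · simp at hν
    · exact h
  have hY : Y.Nonempty := by
    rcases Y.eq_empty_or_nonempty with rfl | h
    · simp at hν
    · exact h
  have pP : ∀ (V : AddSubgroup W) (X' Y' : Finset W), X'.Nonempty → Y'.Nonempty →
      0 < √(#X' * #Y') * (Nat.card V : ℝ) ^ (1 - ω) := fun V X' Y' h1 h3 =>
    mul_pos (Real.sqrt_pos.2 (mul_pos (by exact_mod_cast h1.card_pos)
      (by exact_mod_cast h3.card_pos))) (Real.rpow_pos_of_pos (part_pos V) _)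
  by_contra hcon
  push Not at hcon
  rw [← card_top] at hcon
  set ν₀ := ∑ x ∈ X, ∑ y ∈ Y, ν x y with hν₀
  set P₀ := √(#X * #Y) * (Nat.card (⊤ : AddSubgroup W) : ℝ) ^ (1 - ω) with hP₀
  have pP₀ : 0 < P₀ := pP ⊤ X Y hX hY
  obtain ⟨⟨V, x₀, y₀, X', Y'⟩, ⟨hX', hY', nX, nY⟩, hmax⟩ := Set.exists_max_image
    {q : AddSubgroup W × W × W × Finset W × Finset W | q.2.2.2.1 ⊆ X ∩ cs q.1 q.2.1 ∧
      q.2.2.2.2 ⊆ Y ∩ cs q.1 q.2.2.1 ∧ q.2.2.2.1.Nonempty ∧ q.2.2.2.2.Nonempty}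
    (fun q => (∑ x ∈ q.2.2.2.1, ∑ y ∈ q.2.2.2.2, ν x y) /
      (√(#q.2.2.2.1 * #q.2.2.2.2) * (Nat.card q.1 : ℝ) ^ (1 - ω))) (Set.toFinite _)
    ⟨(⊤, 0, 0, X, Y), by simp [cs_top], by simp [cs_top], hX, hY⟩
  dsimp only at hX' hY' nX nY hmax
  set M := (∑ x ∈ X', ∑ y ∈ Y', ν x y) / (√(#X' * #Y') * (Nat.card V : ℝ) ^ (1 - ω)) with hM
  have hM₀ : ν₀ / P₀ ≤ M := hmax (⊤, 0, 0, X, Y) ⟨by simp [cs_top], by simp [cs_top], hX, hY⟩
  have pM₀ : 0 < ν₀ / P₀ := div_pos hν pP₀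
  have pM : 0 ≤ M := pM₀.le.trans hM₀
  set MF := ν₀ / P₀ / 16 with hMF
  have pMF : 0 ≤ MF := by positivity
  have hall : ∀ (U : AddSubgroup W) (z w : W) (A B : Finset W), A ⊆ X ∩ cs U z →
      B ⊆ Y ∩ cs U w → A.Nonempty → ∑ x ∈ A, ∑ y ∈ B, ν x y ≤
        M * (√(#A * #B) * (Nat.card U : ℝ) ^ (1 - ω)) := fun U z w A B hA hB nA => by
    rcases B.eq_empty_or_nonempty with rfl | nB
    · simp
    · exact (div_le_iff₀ (pP U A B nA nB)).1 (hmax (U, z, w, A, B) ⟨hA, hB, nA, nB⟩)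
  have hfin : ∀ (U : AddSubgroup W) (z w : W) (A B : Finset W), A ⊆ X ∩ cs U z →
      B ⊆ Y ∩ cs U w → A.Nonempty → B.Nonempty → Spread 1 θ U A → Spread κ θ U B →
      ∑ x ∈ A, ∑ y ∈ B, ν x y ≤ MF * (√(#A * #B) * (Nat.card U : ℝ) ^ (1 - ω)) := by
    intro U z w A B hA hB nA nB sA sB
    have sA' : Spread κ θ U A := fun U' hU' z' => (sA U' hU' z').trans
      (mul_le_mul_of_nonneg_right (mul_le_mul_of_nonneg_right hκ.le (Nat.cast_nonneg _))
        (Real.rpow_pos_of_pos (part_pos U') _).le)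
    have h1 := hcon U z w A hA B hB nA nB sA' sB
    rw [hMF, div_div, div_mul_eq_mul_div, le_div_iff₀ (by positivity), hP₀]
    linarith
  have pK : 0 ≤ MF + M / 8 := by positivity
  have h1 := part_one h2 (2 * ω) V y₀ (fun y => ∑ x ∈ X', ν x y)
    (M := 2 * (MF + M / 8) * (√(Nat.card V) * √(#X'))) (by positivity) Y'
    (hY'.trans inter_subset_right) fun V1 hV1 z1 Y1 hY1 nY1 sY1 => by
      have hYY : Y1 ⊆ Y := (hY1.trans inter_subset_left).trans (hY'.trans inter_subset_left)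
      rw [sum_comm]
      refine (part_two h2 (θ := θ) (ω := ω) (K := (MF + M / 8) * √(#Y1)) (by positivity)
        (fun x => ∑ y ∈ Y1, ν x y) hV1 x₀ (hX'.trans inter_subset_right)
        fun V2 hV2 z X2 hX2 nX2 sX2 => ?_).trans (le_of_eq (by ring))
      have hXX : X2 ⊆ X ∩ cs V2 z :=
        hX2.trans (inter_subset_inter_right (hX'.trans inter_subset_left))
      exact part_three h2 pM pMF he0 he1 hκe pω h4ω hJ ν hV2 z1 X2 (hY1.trans inter_subset_right)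
        nY1 sY1 (fun w => hall V2 z w X2 _ hXX (inter_subset_inter_right hYY) nX2)
        fun w nw sw => hfin V2 z w X2 _ hXX (inter_subset_inter_right hYY) nX2 nw sX2 sw
  rw [sum_comm] at h1
  have e1 : √(Nat.card V : ℝ) * (Nat.card V : ℝ) ^ ((1 - 2 * ω) / 2) =
      (Nat.card V : ℝ) ^ (1 - ω) := by
    rw [Real.sqrt_eq_rpow, ← Real.rpow_add (part_pos V)]; congr 1; ring
  have h3 : M ≤ 4 * (MF + M / 8) := by
    conv_lhs => rw [hM]
    rw [div_le_iff₀ (pP V X' Y' nX nY), Real.sqrt_mul (Nat.cast_nonneg _), ← e1]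
    linarith
  linarith

end Pool.Agent.P.MP_db4732_co.Q
end

-- part Pool.Agent.P.MP_db4732_co.Q.Step
section

/-! One step of the iteration. -/

set_option autoImplicit false

namespace Pool.Agent.P.MP_db4732_co.Q

open Finset

section

variable {W : Type} [AddCommGroup W] [DecidableEq W]

theorem step_res_le (A : Finset (W × W)) (X Y D : Finset W) : #(res A X Y D) ≤ tri D X Y := by
  rw [tri_eq]
  refine card_le_card fun q hq => ?_
  simp only [res, mem_filter, mem_product] at hq ⊢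
  exact ⟨⟨hq.2.1, hq.2.2.1⟩, hq.2.2.2⟩

theorem step_sum (A : Finset (W × W)) (X Y D : Finset W) (ρ ρ' : ℝ) :
    ∑ x ∈ X, ∑ y ∈ Y, ((if (x, y) ∈ A ∧ x + y ∈ D then (1 : ℝ) else 0) -
      ρ * (if x + y ∈ D then 1 else 0) - ρ') =
      #(res A X Y D) - ρ * tri D X Y - ρ' * (#X * #Y) := by
  have e1 : (#(res A X Y D) : ℝ) =
      ∑ x ∈ X, ∑ y ∈ Y, if (x, y) ∈ A ∧ x + y ∈ D then (1 : ℝ) else 0 := by
    have : res A X Y D = {q ∈ X ×ˢ Y | q ∈ A ∧ q.1 + q.2 ∈ D} := by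
      ext q
      simp only [res, mem_filter, mem_product]
      tauto
    rw [this, card_filter, sum_product]
    push_cast
    rfl
  have e2 : (tri D X Y : ℝ) = ∑ x ∈ X, ∑ y ∈ Y, if x + y ∈ D then (1 : ℝ) else 0 := by
    rw [tri_eq, card_filter, sum_product]
    push_cast
    rfl
  rw [e1, e2]
  simp only [sum_sub_distrib, ← mul_sum, sum_const, nsmul_eq_mul]
  ring

end

theorem step_first {g e a a1 a' t t1 t' : ℝ} (hg : 1 ≤ (1 - 2 * e) * g) (hg0 : 0 ≤ g)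
    (he : 0 ≤ 1 - 2 * e) (ha : 0 ≤ a) (ht : 0 ≤ t) (ht1 : 0 < t1) (ht' : 0 ≤ t')
    (h1 : g ^ 2 * a * t1 ≤ a1 * t) (h2 : (1 - 2 * e) * a1 / t1 * t' ≤ a') :
    g * a * t' ≤ a' * t := by
  have h3 : g ^ 2 * a ≤ a1 / t1 * t := by
    rw [div_mul_eq_mul_div, le_div_iff₀ ht1]
    exact h1
  calc g * a * t' ≤ ((1 - 2 * e) * g) * (g * a * t') :=
        le_mul_of_one_le_left (by positivity) hg
    _ = (1 - 2 * e) * t' * (g ^ 2 * a) := by ring
    _ ≤ (1 - 2 * e) * t' * (a1 / t1 * t) := mul_le_mul_of_nonneg_left h3 (by positivity)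
    _ = ((1 - 2 * e) * a1 / t1 * t') * t := by ring
    _ ≤ a' * t := mul_le_mul_of_nonneg_right h2 ht

theorem step_second {G H e a a1 a' p p1 p' : ℝ} (hG : 0 ≤ G) (hH : 1 ≤ e * H) (he : 0 < e)
    (ha : 0 ≤ a) (hp : 0 ≤ p) (hp1 : 0 < p1) (hp' : 0 ≤ p')
    (h1 : a * p1 ≤ G * a1 * p) (h2 : e * a1 / p1 * p' ≤ a') : a * p' ≤ G * H * a' * p := by
  have hH0 : 0 ≤ H := by
    by_contra h
    nlinarith
  have h3 : a ≤ G * (a1 / p1) * p := by
    rw [← mul_div_assoc, div_mul_eq_mul_div, le_div_iff₀ hp1]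
    exact h1
  calc a * p' ≤ (e * H) * (a * p') := le_mul_of_one_le_left (by positivity) hH
    _ ≤ (e * H) * ((G * (a1 / p1) * p) * p') := by gcongr
    _ = G * H * (e * a1 / p1 * p') * p := by ring
    _ ≤ _ := by gcongr

theorem step_third {G G' H T e a a1 n p p1 p' u w : ℝ} (hG : 1 ≤ G) (hGG : G' ≤ G)
    (hT : 0 ≤ T) (hH : 16 * T ≤ e * H) (he : 0 < e) (ha : 0 < a) (ha1 : 0 < a1) (hp1 : 0 < p1)
    (hp' : 0 < p') (hp : 0 ≤ p) (hu : 0 ≤ u) (hw : 0 ≤ w)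
    (h0 : p ≤ T * a) (h1 : a * p1 ≤ G' * a1 * p) (h2 : p ≤ G * p1) (h3 : n ≤ p')
    (h4 : e * a1 * √p' * u ≤ 16 * n * √p1 * w) : √p * u ≤ G * G * H * √p' * w := by
  have s1 : 0 < √p1 := Real.sqrt_pos.2 hp1
  have s' : 0 < √p' := Real.sqrt_pos.2 hp'
  have hH0 : 0 ≤ H := by
    by_contra h
    nlinarith
  have b1 : e * a1 * u ≤ 16 * √p' * √p1 * w := by
    refine le_of_mul_le_mul_right ?_ s'
    calc e * a1 * u * √p' = e * a1 * √p' * u := by ring
      _ ≤ 16 * n * √p1 * w := h4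
      _ ≤ 16 * (√p' * √p') * √p1 * w := by
          rw [Real.mul_self_sqrt hp'.le]
          gcongr
      _ = _ := by ring
  have b2 : p1 ≤ G * T * a1 := by
    refine le_of_mul_le_mul_left ?_ ha
    calc a * p1 ≤ G' * a1 * p := h1
      _ ≤ G * a1 * (T * a) := by gcongr
      _ = _ := by ring
  have b3 : √p ≤ G * √p1 := by
    rw [Real.sqrt_le_left (by positivity), mul_pow, Real.sq_sqrt hp1.le]
    nlinarith [mul_le_mul_of_nonneg_right hG (show 0 ≤ G * p1 by positivity)]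
  refine le_of_mul_le_mul_left ?_ (mul_pos he ha1)
  calc e * a1 * (√p * u) = √p * (e * a1 * u) := by ring
    _ ≤ (G * √p1) * (16 * √p' * √p1 * w) := by gcongr
    _ = 16 * G * (√p1 * √p1) * (√p' * w) := by ring
    _ ≤ 16 * G * (G * T * a1) * (√p' * w) := by
        rw [Real.mul_self_sqrt hp1.le]
        gcongr
    _ = (16 * T) * (G * G * a1 * (√p' * w)) := by ring
    _ ≤ (e * H) * (G * G * a1 * (√p' * w)) := by gcongr
    _ = _ := by ring

/-- From an increment inside the container to a new state in a subgroup. -/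
theorem step_of_better {g₀ κ : ℝ} (hg : 1 < g₀) (hκ : 1 < κ) (K₀ : ℕ) : ∃ J K : ℕ, 4 ≤ J ∧
    ∀ (W : Type) [AddCommGroup W] [Fintype W] [DecidableEq W], (∀ x : W, x + x = 0) →
    ∀ (A : Finset (W × W)) (X Y D : Finset W) (L c : ℕ) (θ : ℝ), CF A → In A X Y D → A.Nonempty →
    1 ≤ L → L ≤ c → #X * #Y ≤ 2 ^ c * #A → 0 < θ → θ ≤ 1 → Better A X Y D g₀ (K₀ * c) (K₀ * L) →
    ∃ (W' : Type) (_ : AddCommGroup W') (_ : Fintype W') (_ : DecidableEq W'),
      (∀ x : W', x + x = 0) ∧ Fintype.card W' ≤ Fintype.card W ∧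
      ∃ (A' : Finset (W' × W')) (X' Y' D' : Finset W') (g : ℝ), CF A' ∧ In A' X' Y' D' ∧
        A'.Nonempty ∧ Spread κ θ ⊤ X' ∧ Spread κ θ ⊤ Y' ∧ g₀ ≤ g ∧
        g * #A * tri D' X' Y' ≤ #A' * (tri D X Y : ℝ) ∧
        (#A : ℝ) * #X' * #Y' ≤ g ^ (K * L) * #A' * #X * #Y ∧
        √(#X * #Y) * (Fintype.card W' : ℝ) ^ (1 - θ / J) ≤
          g ^ (K * c) * √(#X' * #Y') * (Fintype.card W : ℝ) ^ (1 - θ / J) := by
  obtain ⟨J, hJ, hP⟩ := pseudo hκ
  obtain ⟨e, he0, he1, he2⟩ : ∃ e : ℝ, 0 < e ∧ 0 ≤ 1 - 2 * e ∧ 1 ≤ (1 - 2 * e) * g₀ := by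
    have h0 : 0 < g₀ := by linarith
    have h1 : 1 / g₀ < 1 := by rw [div_lt_one h0]; exact hg
    have h2 : 0 < 1 / g₀ := by positivity
    refine ⟨(1 - 1 / g₀) / 2, by linarith, by linarith, le_of_eq ?_⟩
    field_simp
    ring
  obtain ⟨K₁, hK⟩ := pow_unbounded_of_one_lt (32 / e) hg
  refine ⟨J, 2 * K₀ + K₁, hJ, ?_⟩
  intro W _ _ _ h2 A X Y D L c θ hA hIn hne hL hLc hc hθ hθ1
    ⟨X1, hX1, Y1, hY1, D1, hD1, g, hgg, hne1, b1, b2, b3⟩
  have hg1 : 1 ≤ g := by linarith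
  have ha1 : (0 : ℝ) < #(res A X1 Y1 D1) := by exact_mod_cast hne1.card_pos
  have ht1 : (0 : ℝ) < tri D1 X1 Y1 :=
    ha1.trans_le (by exact_mod_cast step_res_le A X1 Y1 D1)
  have hp1 : (0 : ℝ) < #X1 * #Y1 := ht1.trans_le (by exact_mod_cast tri_le D1 X1 Y1)
  have htot := step_sum A X1 Y1 D1 ((1 - 2 * e) * #(res A X1 Y1 D1) / tri D1 X1 Y1)
    (e * #(res A X1 Y1 D1) / (#X1 * #Y1))
  rw [div_mul_cancel₀ _ ht1.ne', div_mul_cancel₀ _ hp1.ne',
    show (#(res A X1 Y1 D1) : ℝ) - (1 - 2 * e) * #(res A X1 Y1 D1) - e * #(res A X1 Y1 D1) =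
      e * #(res A X1 Y1 D1) by ring] at htot
  obtain ⟨V, x₀, y₀, X', hX', Y', hY', n1, n2, s1, s2, hle⟩ := hP W h2 θ hθ hθ1 X1 Y1 _
    (htot.symm ▸ mul_pos he0 ha1)
  rw [htot, step_sum] at hle
  have hXc : X' ⊆ cs V x₀ := hX'.trans inter_subset_right
  have hYc : Y' ⊆ cs V y₀ := hY'.trans inter_subset_right
  have eX : X' ∩ cs V x₀ = X' := inter_eq_left.2 hXc
  have eY : Y' ∩ cs V y₀ = Y' := inter_eq_left.2 hYc
  let _ : Fintype V := Fintype.ofFinite V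
  obtain ⟨A', c1, c2, c3⟩ := exists_pull h2 V x₀ y₀ hA D1 hXc hYc
  have hp' : (0 : ℝ) < #X' * #Y' :=
    mul_pos (by exact_mod_cast n1.card_pos) (by exact_mod_cast n2.card_pos)
  have hV : (0 : ℝ) < Nat.card V := by exact_mod_cast Nat.card_pos
  have hN : (0 : ℝ) ≤ (Fintype.card W : ℝ) ^ (1 - θ / J) := by positivity
  have q1 : 0 ≤ (1 - 2 * e) * #(res A X1 Y1 D1) / tri D1 X1 Y1 * tri D1 X' Y' := by positivity
  have q2 : 0 < e * #(res A X1 Y1 D1) / (#X1 * #Y1) * (#X' * #Y') := by positivity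
  have q3 : (#(res A X' Y' D1) : ℝ) ≤ #X' * #Y' := by
    exact_mod_cast (step_res_le A X' Y' D1).trans (tri_le D1 X' Y')
  have hν : 0 < (#(res A X' Y' D1) : ℝ) -
      (1 - 2 * e) * #(res A X1 Y1 D1) / tri D1 X1 Y1 * tri D1 X' Y' -
      e * #(res A X1 Y1 D1) / (#X1 * #Y1) * (#X' * #Y') := by
    by_contra hn
    refine absurd hle (not_le.2 (lt_of_le_of_lt ?_ (show 0 < _ by positivity)))
    exact mul_nonpos_of_nonpos_of_nonneg (mul_nonpos_of_nonpos_of_nonneg (by linarith)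
      (Real.sqrt_nonneg _)) hN
  have hK' : 32 / e ≤ g ^ K₁ := hK.le.trans (pow_le_pow_left₀ (by linarith) hgg _)
  have hK1 : 1 ≤ 16 / e := by
    rw [le_div_iff₀ he0]
    linarith
  have hA0 : (0 : ℝ) < #A := by exact_mod_cast hne.card_pos
  refine ⟨V, inferInstance, inferInstance, inferInstance, fun x => Subtype.ext (h2 x),
    Fintype.card_subtype_le _, A', pull V x₀ X', pull V y₀ Y', pull V (x₀ + y₀) D1, g, c1, c2,
    ?_, Spread.pull h2 (eX.symm ▸ s1), Spread.pull h2 (eY.symm ▸ s2), hgg, ?_, ?_, ?_⟩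
  · rw [← card_pos, c3]
    exact_mod_cast (show (0 : ℝ) < #(res A X' Y' D1) by linarith)
  · rw [tri_pull h2, eX, eY, c3]
    exact step_first (he2.trans (mul_le_mul_of_nonneg_left hgg he1)) (by linarith) he1 hA0.le
      (Nat.cast_nonneg _) ht1 (Nat.cast_nonneg _) b1 (by linarith)
  · rw [card_pull h2, card_pull h2, eX, eY, c3, mul_assoc, mul_assoc _ (#X : ℝ),
      show (2 * K₀ + K₁) * L = K₀ * L + (K₀ + K₁) * L by ring, pow_add]
    refine step_second (by positivity) ?_ he0 hA0.le (by positivity) hp1 hp'.le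
      (by rw [← mul_assoc, ← mul_assoc]; exact b2) (by linarith)
    have : g ^ K₁ ≤ g ^ ((K₀ + K₁) * L) := pow_le_pow_right₀ hg1 (by nlinarith)
    have h3 := (div_le_iff₀ he0).1 (hK'.trans this)
    linarith
  · rw [card_pull h2, card_pull h2, eX, eY, ← Nat.card_eq_fintype_card,
      show (2 * K₀ + K₁) * c = K₀ * c + K₀ * c + K₁ * c by ring, pow_add, pow_add]
    refine step_third (T := 2 ^ c) (one_le_pow₀ hg1)
      (pow_le_pow_right₀ hg1 (Nat.mul_le_mul_left K₀ hLc)) (by positivity) ?_ he0 hA0 ha1 hp1 hp'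
      (by positivity) (by positivity) hN (by exact_mod_cast hc)
      (by rw [← mul_assoc, ← mul_assoc]; exact b2) (by rw [← mul_assoc]; exact b3)
      (by linarith) hle
    have d1 : (16 / e * 2) ^ c ≤ g ^ (K₁ * c) := by
      rw [pow_mul]
      exact pow_le_pow_left₀ (by positivity) (by linarith [show 16 / e * 2 = 32 / e by ring]) _
    have d2 : 16 / e ≤ (16 / e) ^ c := le_self_pow₀ hK1 (by omega)
    rw [mul_pow] at d1
    calc 16 * 2 ^ c = e * (16 / e * 2 ^ c) := by field_simp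
      _ ≤ e * ((16 / e) ^ c * 2 ^ c) := by gcongr
      _ ≤ _ := by gcongr

end Pool.Agent.P.MP_db4732_co.Q
end

-- part Pool.Agent.P.MP_db4732_co.Q.CS
section

/-! Almost periodicity by random sampling. -/

set_option autoImplicit false

namespace Pool.Agent.P.MP_db4732_co.Q

open Finset

theorem cs_exp_le {z : ℝ} (τ : ℝ) (hz : |z| ≤ 1) :
    Real.exp (τ * z) ≤ Real.cosh τ + z * Real.sinh τ := by
  obtain ⟨h1, h2⟩ := abs_le.1 hz
  have h := convexOn_exp.2 (Set.mem_univ τ) (Set.mem_univ (-τ))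
    (show (0 : ℝ) ≤ (1 + z) / 2 by linarith) (show (0 : ℝ) ≤ (1 - z) / 2 by linarith) (by ring)
  simp only [smul_eq_mul] at h
  rw [show (1 + z) / 2 * τ + (1 - z) / 2 * -τ = τ * z by ring] at h
  rw [Real.cosh_eq, Real.sinh_eq]
  linarith

theorem cs_mgf1 {α : Type} (A : Finset α) (f : α → ℝ) (τ : ℝ) (hf : ∀ b ∈ A, |f b| ≤ 1)
    (h0 : ∑ b ∈ A, f b = 0) : ∑ b ∈ A, Real.exp (τ * f b) ≤ #A * Real.exp (τ ^ 2 / 2) := by
  calc ∑ b ∈ A, Real.exp (τ * f b) ≤ ∑ b ∈ A, (Real.cosh τ + f b * Real.sinh τ) :=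
        sum_le_sum fun b hb => cs_exp_le τ (hf b hb)
    _ = #A * Real.cosh τ := by
        rw [sum_add_distrib, ← sum_mul, h0, sum_const, nsmul_eq_mul]; ring
    _ ≤ _ := mul_le_mul_of_nonneg_left (Real.cosh_le_exp_half_sq τ) (Nat.cast_nonneg _)

theorem cs_mgf {α : Type} [DecidableEq α] (A : Finset α) (f : α → ℝ) (τ : ℝ) (s : ℕ)
    (hf : ∀ b ∈ A, |f b| ≤ 1) (h0 : ∑ b ∈ A, f b = 0) :
    ∑ w ∈ Fintype.piFinset (fun _ : Fin s => A), Real.exp (τ * ∑ i, f (w i)) ≤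
      (#A : ℝ) ^ s * Real.exp (s * (τ ^ 2 / 2)) := by
  have e : ∀ w : Fin s → α, Real.exp (τ * ∑ i, f (w i)) = ∏ i, Real.exp (τ * f (w i)) := by
    intro w
    rw [mul_sum, Real.exp_sum]
  simp only [e]
  rw [← prod_univ_sum (fun _ : Fin s => A) (fun _ b => Real.exp (τ * f b)), prod_const, card_univ,
    Fintype.card_fin, Real.exp_nat_mul, ← mul_pow]
  exact pow_le_pow_left₀ (sum_nonneg fun _ _ => (Real.exp_pos _).le) (cs_mgf1 A f τ hf h0) s

theorem cs_mgf_abs {α : Type} [DecidableEq α] (A : Finset α) (f : α → ℝ) (τ : ℝ) (s : ℕ)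
    (hf : ∀ b ∈ A, |f b| ≤ 1) (h0 : ∑ b ∈ A, f b = 0) :
    ∑ w ∈ Fintype.piFinset (fun _ : Fin s => A), Real.exp (τ * |∑ i, f (w i)|) ≤
      2 * ((#A : ℝ) ^ s * Real.exp (s * (τ ^ 2 / 2))) := by
  have h1 := cs_mgf A f τ s hf h0
  have h2 := cs_mgf A f (-τ) s hf h0
  rw [neg_sq] at h2
  calc ∑ w ∈ Fintype.piFinset (fun _ : Fin s => A), Real.exp (τ * |∑ i, f (w i)|)
      ≤ ∑ w ∈ Fintype.piFinset (fun _ : Fin s => A),
          (Real.exp (τ * ∑ i, f (w i)) + Real.exp (-τ * ∑ i, f (w i))) := by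
        refine sum_le_sum fun w _ => ?_
        rcases abs_cases (∑ i, f (w i)) with h | h
        · rw [h.1]; linarith [Real.exp_pos (-τ * ∑ i, f (w i))]
        · rw [h.1, mul_neg, neg_mul]; linarith [Real.exp_pos (τ * ∑ i, f (w i))]
    _ ≤ _ := by rw [sum_add_distrib]; linarith

theorem cs_markov {β : Type} (P : Finset β) (G : β → ℝ) (M : ℝ) (hM : 0 < M)
    (hG : ∀ w, 0 ≤ G w) (h : ∑ w ∈ P, G w ≤ #P * M) :
    (#P : ℝ) ≤ 2 * #{w ∈ P | G w ≤ 2 * M} := by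
  classical
  have h1 : (#{w ∈ P | G w ≤ 2 * M} : ℝ) + #{w ∈ P | ¬ G w ≤ 2 * M} = #P := by
    exact_mod_cast card_filter_add_card_filter_not (s := P) (fun w => G w ≤ 2 * M)
  have h2 : (#{w ∈ P | ¬ G w ≤ 2 * M} : ℝ) * (2 * M) ≤ ∑ w ∈ P, G w := by
    calc (#{w ∈ P | ¬ G w ≤ 2 * M} : ℝ) * (2 * M) = ∑ _w ∈ P with ¬ G _w ≤ 2 * M, 2 * M := by
          rw [sum_const, nsmul_eq_mul]
      _ ≤ ∑ w ∈ P with ¬ G w ≤ 2 * M, G w :=
          sum_le_sum fun w hw => (not_le.1 (mem_filter.1 hw).2).le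
      _ ≤ _ := sum_le_sum_of_subset_of_nonneg (filter_subset _ _) fun w _ _ => hG w
  have h3 : (#{w ∈ P | ¬ G w ≤ 2 * M} : ℝ) * 2 ≤ #P :=
    le_of_mul_le_mul_right (by linarith) hM
  linarith

theorem cs_jensen {α : Type} (B : Finset α) (y : α → ℝ) (c : ℝ)
    (h : ∑ x ∈ B, Real.exp (y x) ≤ #B * Real.exp c) : ∑ x ∈ B, y x ≤ #B * c := by
  have h1 : ∑ x ∈ B, (Real.exp c * (1 + y x - c)) ≤ ∑ x ∈ B, Real.exp (y x) := by
    refine sum_le_sum fun x _ => ?_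
    have := Real.add_one_le_exp (y x - c)
    have e : Real.exp (y x) = Real.exp c * Real.exp (y x - c) := by
      rw [← Real.exp_add]; congr 1; ring
    rw [e]
    exact mul_le_mul_of_nonneg_left (by linarith) (Real.exp_pos c).le
  rw [← mul_sum, sum_sub_distrib, sum_add_distrib, sum_const, sum_const, nsmul_eq_mul,
    nsmul_eq_mul] at h1
  have h2 : Real.exp c * (#B * 1 + ∑ x ∈ B, y x - #B * c) ≤ Real.exp c * #B := by linarith
  have := le_of_mul_le_mul_left h2 (Real.exp_pos c)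
  linarith

theorem cs_shift {W : Type} [AddCommGroup W] [Fintype W] [DecidableEq W] {s : ℕ}
    (Gd : Finset (Fin s → W)) : ∃ w : Fin s → W,
      Fintype.card W * #Gd ≤ Fintype.card W ^ s * #{t : W | (fun i => w i + t) ∈ Gd} := by
  have h : ∑ w : Fin s → W, #{t : W | (fun i => w i + t) ∈ Gd} = Fintype.card W * #Gd := by
    simp only [card_filter]
    rw [sum_comm, ← card_univ, card_eq_sum_ones (univ : Finset W), sum_mul, one_mul]
    refine sum_congr rfl fun t _ => ?_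
    rw [← card_filter]
    refine card_bij (fun w _ => fun i => w i + t) (fun w hw => (mem_filter.1 hw).2)
      (fun w _ w' _ e => funext fun i => add_right_cancel (congrFun e i)) fun v hv =>
        ⟨fun i => v i - t, ?_, ?_⟩
    · simpa using hv
    · simp
  obtain ⟨w, -, hw⟩ := exists_max_image (univ : Finset (Fin s → W))
    (fun w => #{t : W | (fun i => w i + t) ∈ Gd}) univ_nonempty
  refine ⟨w, ?_⟩
  rw [← h]
  refine (sum_le_card_nsmul _ _ _ hw).trans ?_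
  rw [smul_eq_mul, card_univ, Fintype.card_fun, Fintype.card_fin]

theorem cs_exp_four {l : ℕ} (hl : 1 ≤ l) : 4 * 2 ^ l * Real.exp l ≤ Real.exp (4 * l) := by
  have h1 : (2 : ℝ) ≤ Real.exp 1 := by linarith [Real.add_one_le_exp (1 : ℝ)]
  have h2 : (2 : ℝ) ^ l ≤ Real.exp l := by
    rw [← mul_one (l : ℝ), Real.exp_nat_mul]
    exact pow_le_pow_left₀ (by norm_num) h1 l
  have h3 : (2 : ℝ) ≤ 2 ^ l := le_self_pow₀ (by norm_num) (by omega)
  have h4 : Real.exp (4 * l) = Real.exp l * Real.exp l * Real.exp l * Real.exp l := by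
    simp only [← Real.exp_add]; congr 1; ring
  rw [h4]
  have h5 : (2 : ℝ) ≤ Real.exp l := h3.trans h2
  have h6 : (4 : ℝ) ≤ Real.exp l * Real.exp l := by nlinarith
  gcongr

theorem almost_periods : ∃ K : ℕ, ∀ (W : Type) [AddCommGroup W] [Fintype W] [DecidableEq W],
    (∀ x : W, x + x = 0) → ∀ (A₁ A₂ S : Finset W) (l k : ℕ), 1 ≤ l → 1 ≤ k →
    Fintype.card W ≤ 2 ^ l * #A₁ → Fintype.card W ≤ 2 ^ l * #A₂ →
    ∃ T : Finset W, Fintype.card W ≤ 2 ^ (K * k ^ 2 * l ^ 2) * #T ∧ ∀ t ∈ T, ∀ z : W,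
      ∑ x ∈ A₂, |(cv S A₁ (x + z + t) : ℝ) / #A₁ - (cv S A₁ (x + z) : ℝ) / #A₁| ≤ #A₂ / k := by
  refine ⟨33, ?_⟩
  intro W _ _ _ h2 A₁ A₂ S l k hl hk hA₁ hA₂
  have hNn : 0 < Fintype.card W := Fintype.card_pos
  have hN : (0 : ℝ) < Fintype.card W := by exact_mod_cast hNn
  have hAn : 0 < #A₁ := Nat.pos_of_mul_pos_left (hNn.trans_le hA₁)
  have hAp : (0 : ℝ) < #A₁ := by exact_mod_cast hAn
  have hkp : (0 : ℝ) < k := by exact_mod_cast hk
  have hlp : (0 : ℝ) < l := by exact_mod_cast hl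
  obtain ⟨s, hs⟩ : ∃ s : ℕ, s = 32 * k ^ 2 * l := ⟨_, rfl⟩
  have hsr : (s : ℝ) = 32 * k ^ 2 * l := by rw [hs]; push_cast; ring
  obtain ⟨u, hu⟩ : ∃ u : W → ℝ, ∀ x, u x = (cv S A₁ x : ℝ) / #A₁ := ⟨_, fun _ => rfl⟩
  obtain ⟨ind, hind⟩ : ∃ ind : W → ℝ, ∀ y, ind y = if y ∈ S then 1 else 0 := ⟨_, fun _ => rfl⟩
  have hcv : ∀ x, ∑ b ∈ A₁, ind (x + b) = cv S A₁ x := by
    intro x
    simp only [hind, cv]
    rw [sum_boole]
  have hu01 : ∀ x, 0 ≤ u x ∧ u x ≤ 1 := by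
    intro x
    rw [hu]
    refine ⟨by positivity, (div_le_one hAp).2 ?_⟩
    exact_mod_cast card_filter_le _ _
  obtain ⟨G, hG⟩ : ∃ G : (Fin s → W) → ℝ, ∀ w,
      G w = ∑ x, Real.exp (1 / (4 * k) * |∑ i, (ind (x + w i) - u x)|) := ⟨_, fun _ => rfl⟩
  have hsum : ∑ w ∈ Fintype.piFinset (fun _ : Fin s => A₁), G w ≤
      #(Fintype.piFinset (fun _ : Fin s => A₁)) * (2 * Fintype.card W * Real.exp l) := by
    simp only [hG]
    rw [sum_comm]
    have e : ∀ x : W, ∑ w ∈ Fintype.piFinset (fun _ : Fin s => A₁),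
        Real.exp (1 / (4 * k) * |∑ i, (ind (x + w i) - u x)|) ≤
          2 * ((#A₁ : ℝ) ^ s * Real.exp l) := by
      intro x
      have := cs_mgf_abs A₁ (fun b => ind (x + b) - u x) (1 / (4 * k)) s
        (fun b _ => by
          obtain ⟨p, q⟩ := hu01 x
          rw [hind, abs_le]
          split_ifs <;> constructor <;> linarith)
        (by
          rw [sum_sub_distrib, hcv, sum_const, nsmul_eq_mul, hu]
          field_simp
          ring)
      rwa [show (s : ℝ) * ((1 / (4 * k)) ^ 2 / 2) = l by rw [hsr]; field_simp; ring] at this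
    refine (sum_le_card_nsmul _ _ _ fun x _ => e x).trans (le_of_eq ?_)
    rw [Fintype.card_piFinset, prod_const, card_univ, card_univ, Fintype.card_fin, nsmul_eq_mul]
    push_cast
    ring
  have hmk := cs_markov _ G _ (by positivity)
    (fun w => by rw [hG]; exact sum_nonneg fun _ _ => (Real.exp_pos _).le) hsum
  set Gd := {w ∈ Fintype.piFinset (fun _ : Fin s => A₁) |
    G w ≤ 2 * (2 * Fintype.card W * Real.exp l)} with hGd
  have hgood : ∀ w ∈ Gd, ∀ z : W,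
      ∑ x ∈ A₂, |∑ i, (ind (x + z + w i) - u (x + z))| ≤ 16 * k * l * #A₂ := by
    intro w hw z
    have e1 := (mem_filter.1 hw).2
    have e2 : ∑ x ∈ A₂, Real.exp (1 / (4 * k) * |∑ i, (ind (x + z + w i) - u (x + z))|) ≤ G w := by
      rw [hG, ← Equiv.sum_comp (Equiv.addRight z)]
      exact sum_le_sum_of_subset_of_nonneg (subset_univ _) fun _ _ _ => (Real.exp_pos _).le
    have e3 : (Fintype.card W : ℝ) ≤ 2 ^ l * #A₂ := by exact_mod_cast hA₂
    have e4 := cs_jensen A₂ (fun x => 1 / (4 * k) * |∑ i, (ind (x + z + w i) - u (x + z))|)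
      (4 * l) (by
        calc _ ≤ 2 * (2 * Fintype.card W * Real.exp l) := e2.trans e1
          _ ≤ 2 * (2 * (2 ^ l * #A₂) * Real.exp l) := by gcongr
          _ = #A₂ * (4 * 2 ^ l * Real.exp l) := by ring
          _ ≤ _ := mul_le_mul_of_nonneg_left (cs_exp_four hl) (Nat.cast_nonneg _))
    rw [← mul_sum, one_div, inv_mul_le_iff₀ (by positivity)] at e4
    linarith
  obtain ⟨w, hw⟩ := cs_shift Gd
  set T₀ : Finset W := {t : W | (fun i => w i + t) ∈ Gd} with hT₀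
  have hT : Fintype.card W ≤ 2 ^ (l * s + 1) * #T₀ := by
    have e1 : #A₁ ^ s ≤ 2 * #Gd := by
      rw [Fintype.card_piFinset, prod_const, card_univ, Fintype.card_fin] at hmk
      exact_mod_cast hmk
    have e2 : Fintype.card W ^ s ≤ 2 ^ (l * s) * #A₁ ^ s := by
      rw [pow_mul, ← mul_pow]
      exact Nat.pow_le_pow_left hA₁ s
    refine Nat.le_of_mul_le_mul_left ?_ (pow_pos hNn s)
    calc Fintype.card W ^ s * Fintype.card W ≤ 2 ^ (l * s) * (2 * #Gd) * Fintype.card W :=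
          Nat.mul_le_mul_right _ (e2.trans (Nat.mul_le_mul_left _ e1))
      _ = 2 ^ (l * s + 1) * (Fintype.card W * #Gd) := by ring
      _ ≤ 2 ^ (l * s + 1) * (Fintype.card W ^ s * #T₀) := Nat.mul_le_mul_left _ hw
      _ = _ := by ring
  obtain ⟨t₀, ht₀⟩ : T₀.Nonempty := card_pos.1 (Nat.pos_of_mul_pos_left (hNn.trans_le hT))
  refine ⟨T₀.image (· + t₀), ?_, ?_⟩
  · rw [card_image_of_injective _ (add_left_injective t₀)]
    refine hT.trans (Nat.mul_le_mul_right _ (Nat.pow_le_pow_right two_pos ?_))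
    have : 1 ≤ k ^ 2 * l ^ 2 := Nat.one_le_iff_ne_zero.2 (by positivity)
    rw [hs]
    nlinarith
  · intro t ht z
    obtain ⟨t₁, ht₁, rfl⟩ := mem_image.1 ht
    have g0 := hgood _ (mem_filter.1 ht₀).2 (z + (t₁ + t₀))
    have g1 := hgood _ (mem_filter.1 ht₁).2 z
    have hsp : (0 : ℝ) < s := by rw [hsr]; positivity
    have e : ∀ x ∈ A₂, s * |u (x + z + (t₁ + t₀)) - u (x + z)| ≤
        |∑ i, (ind (x + (z + (t₁ + t₀)) + (w i + t₀)) - u (x + (z + (t₁ + t₀))))| +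
          |∑ i, (ind (x + z + (w i + t₁)) - u (x + z))| := by
      intro x _
      have f1 : ∀ i, x + (z + (t₁ + t₀)) + (w i + t₀) = x + z + (w i + t₁) := by
        intro i
        calc x + (z + (t₁ + t₀)) + (w i + t₀) = x + z + (w i + t₁) + (t₀ + t₀) := by abel
          _ = _ := by rw [h2, add_zero]
      simp only [f1]
      simp only [sum_sub_distrib, sum_const, card_univ, Fintype.card_fin, nsmul_eq_mul]
      rw [← add_assoc x z]
      generalize ∑ i, ind (x + z + (w i + t₁)) = P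
      generalize u (x + z + (t₁ + t₀)) = p
      generalize u (x + z) = q
      have f2 : (s : ℝ) * |p - q| = |(P - s * q) - (P - s * p)| := by
        rw [show P - s * q - (P - s * p) = s * (p - q) by ring, abs_mul, abs_of_pos hsp]
      rw [f2, add_comm]
      exact abs_sub _ _
    have e' := sum_le_sum e
    rw [← mul_sum, sum_add_distrib] at e'
    simp only [← hu]
    rw [le_div_iff₀ hkp]
    refine le_of_mul_le_mul_left ?_ (show (0 : ℝ) < 32 * k * l by positivity)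
    rw [hsr] at e'
    linarith

end Pool.Agent.P.MP_db4732_co.Q
end

-- part Pool.Agent.P.MP_db4732_co.Q.Chang
section

/-! The large spectrum of a dense set has low dimension. -/

set_option autoImplicit false

namespace Pool.Agent.P.MP_db4732_co.Q

open Finset

section

variable {W : Type} [AddCommGroup W]

/-- The real part of a character. -/
noncomputable def changChi (ψ : AddChar W ℂ) (x : W) : ℝ := (ψ x).re

theorem chang_val (h2 : ∀ x : W, x + x = 0) (ψ : AddChar W ℂ) (x : W) : ψ x = 1 ∨ ψ x = -1 := by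
  rw [← mul_self_eq_one_iff, ← ψ.map_add_eq_mul, h2, ψ.map_zero_eq_one]

theorem chang_pm (h2 : ∀ x : W, x + x = 0) (ψ : AddChar W ℂ) (x : W) :
    changChi ψ x = 1 ∨ changChi ψ x = -1 := by
  rcases chang_val h2 ψ x with h | h <;> simp [changChi, h]

theorem chang_add (h2 : ∀ x : W, x + x = 0) (ψ : AddChar W ℂ) (x y : W) :
    changChi ψ (x + y) = changChi ψ x * changChi ψ y := by
  unfold changChi
  rw [ψ.map_add_eq_mul]
  rcases chang_val h2 ψ x with h | h <;> simp [h]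

theorem chang_zero (ψ : AddChar W ℂ) : changChi ψ 0 = 1 := by simp [changChi]

/-- The kernel of a character inside a subgroup. -/
def changKer (h2 : ∀ x : W, x + x = 0) (ψ : AddChar W ℂ) (V : AddSubgroup W) : AddSubgroup W where
  carrier := {x | x ∈ V ∧ changChi ψ x = 1}
  zero_mem' := ⟨V.zero_mem, chang_zero ψ⟩
  add_mem' := fun ha hb => ⟨V.add_mem ha.1 hb.1, by rw [chang_add h2, ha.2, hb.2, mul_one]⟩
  neg_mem' := fun {x} ha => by rwa [neg_eq_of_add_eq_zero_right (h2 x)]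

variable [Fintype W] [DecidableEq W]

theorem chang_sum (x : W) :
    ∑ ψ : AddChar W ℂ, changChi ψ x = if x = 0 then (Fintype.card W : ℝ) else 0 := by
  unfold changChi
  rw [← Complex.re_sum, AddChar.sum_apply_eq_ite]
  split_ifs <;> simp

theorem chang_parseval (h2 : ∀ x : W, x + x = 0) (g : W → ℝ) :
    ∑ ψ : AddChar W ℂ, (∑ x, g x * changChi ψ x) ^ 2 = Fintype.card W * ∑ x, g x ^ 2 := by
  have e : ∀ x y : W, x + y = 0 ↔ x = y := fun x y =>
    ⟨fun h => add_right_cancel (h.trans (h2 y).symm), fun h => h ▸ h2 x⟩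
  calc ∑ ψ : AddChar W ℂ, (∑ x, g x * changChi ψ x) ^ 2
      = ∑ ψ : AddChar W ℂ, ∑ x, ∑ y, g x * g y * changChi ψ (x + y) := by
        refine sum_congr rfl fun ψ _ => ?_
        rw [sq, sum_mul_sum]
        refine sum_congr rfl fun x _ => sum_congr rfl fun y _ => ?_
        rw [chang_add h2]
        ring
    _ = ∑ x, ∑ y, g x * g y * ∑ ψ : AddChar W ℂ, changChi ψ (x + y) := by
        rw [sum_comm]
        refine sum_congr rfl fun x _ => ?_
        rw [sum_comm]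
        simp only [mul_sum]
    _ = _ := by
        simp only [chang_sum, e, mul_ite, mul_zero, sum_ite_eq, mem_univ, if_true, mul_sum]
        exact sum_congr rfl fun x _ => by ring

omit [DecidableEq W] in
theorem chang_avg (h2 : ∀ x : W, x + x = 0) (T : Finset W) (g : W → ℝ) (ψ : AddChar W ℂ) :
    ∑ x, avg T g x * changChi ψ x =
      (∑ t ∈ T, changChi ψ t) / #T * ∑ x, g x * changChi ψ x := by
  simp only [avg, div_mul_eq_mul_div, ← sum_div]
  congr 1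
  simp only [sum_mul]
  rw [sum_comm]
  refine sum_congr rfl fun t _ => ?_
  rw [mul_sum, ← Equiv.sum_comp (Equiv.addRight t)]
  refine sum_congr rfl fun x _ => ?_
  rw [Equiv.coe_addRight, add_assoc, h2, add_zero, chang_add h2]
  ring

omit [DecidableEq W] in
theorem chang_triv (h2 : ∀ x : W, x + x = 0) {V : AddSubgroup W} {g : W → ℝ}
    (hg : ∀ x, ∑ y ∈ cs V x, g y = 0) {ψ : AddChar W ℂ} (hψ : ∀ v ∈ V, changChi ψ v = 1) :
    ∑ x, g x * changChi ψ x = 0 := by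
  have h1 : ∑ x, ∑ y ∈ cs V x, g y * changChi ψ y = 0 := by
    refine sum_eq_zero fun x _ => ?_
    rw [sum_congr rfl (g := fun y => g y * changChi ψ x), ← sum_mul, hg, zero_mul]
    intro y hy
    have := hψ _ (mem_cs.1 hy)
    rw [chang_add h2] at this
    congr 1
    rcases chang_pm h2 ψ x with h | h <;> rw [h] at this ⊢ <;> linarith
  rw [sum_comm' (t' := univ) (s' := fun y => cs V y) (by
    intro x y
    simp only [mem_univ, true_and, and_true, mem_cs, add_comm])] at h1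
  simp only [sum_const, card_cs, nsmul_eq_mul, ← mul_sum] at h1
  exact (mul_eq_zero.1 h1).resolve_left (by exact_mod_cast Nat.card_pos.ne')

/-- The state of the iteration. -/
def changState (T : Finset W) (j : ℕ) : Prop :=
  ∃ (V : AddSubgroup W) (F : W → ℝ), Fintype.card W ≤ 2 ^ j * Nat.card V ∧
    (∀ v ∈ V, ∀ x, F (x + v) = F x) ∧ j / 2 * (#T : ℝ) ≤ ∑ t ∈ T, F t ∧
    ∑ x, Real.exp (F x / 2) ≤ Fintype.card W * Real.exp (j / 8)

/-- The goal of the iteration. -/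
def changFound (T : Finset W) (j : ℕ) : Prop :=
  ∃ V : AddSubgroup W, Fintype.card W ≤ 2 ^ j * Nat.card V ∧
    ∀ ψ : AddChar W ℂ, (#T : ℝ) / 2 < |∑ t ∈ T, changChi ψ t| → ∀ v ∈ V, changChi ψ v = 1

theorem chang_step (h2 : ∀ x : W, x + x = 0) {T : Finset W} {j : ℕ} (h : changState T j) :
    changFound T j ∨ changState T (j + 1) := by
  obtain ⟨V, F, a1, a2, a3, a4⟩ := h
  rw [or_iff_not_imp_left]
  intro hn
  unfold changFound at hn
  push Not at hn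
  obtain ⟨ψ, hψ, v, hv, hv1⟩ := hn V a1
  have hv2 : changChi ψ v = -1 := (chang_pm h2 ψ v).resolve_left hv1
  obtain ⟨σ, hσ, hσ2⟩ : ∃ σ : ℝ, (σ = 1 ∨ σ = -1) ∧ (#T : ℝ) / 2 ≤ σ * ∑ t ∈ T, changChi ψ t := by
    rcases lt_abs.1 hψ with h | h
    · exact ⟨1, Or.inl rfl, by linarith⟩
    · exact ⟨-1, Or.inr rfl, by linarith⟩
  refine ⟨changKer h2 ψ V, fun x => F x + σ * changChi ψ x, ?_, fun w hw x => ?_, ?_, ?_⟩
  · have b1 : cs V 0 ⊆ cs (changKer h2 ψ V) 0 ∪ cs (changKer h2 ψ V) v := fun x hx => by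
      rw [mem_cs, add_zero] at hx
      rw [mem_union, mem_cs, mem_cs, add_zero]
      rcases chang_pm h2 ψ x with h | h
      · exact Or.inl ⟨hx, h⟩
      · exact Or.inr ⟨V.add_mem hx hv, by rw [chang_add h2, h, hv2]; norm_num⟩
    have b2 := (card_le_card b1).trans (card_union_le _ _)
    rw [card_cs, card_cs, card_cs] at b2
    refine a1.trans ?_
    rw [pow_succ, mul_assoc]
    exact Nat.mul_le_mul_left _ (by omega)
  · beta_reduce
    rw [a2 w hw.1, chang_add h2, hw.2, mul_one]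
  · rw [sum_add_distrib, ← mul_sum]
    push_cast
    linarith
  · have b1 : ∑ x, Real.exp (F x / 2) * changChi ψ x = 0 := by
      have := Equiv.sum_comp (Equiv.addRight v) fun x => Real.exp (F x / 2) * changChi ψ x
      simp only [Equiv.coe_addRight, a2 v hv, chang_add h2, hv2, mul_neg, mul_one,
        sum_neg_distrib] at this
      linarith
    have b2 : ∀ x, Real.exp ((F x + σ * changChi ψ x) / 2) = Real.cosh (1 / 2) * Real.exp (F x / 2) +
        σ * Real.sinh (1 / 2) * (Real.exp (F x / 2) * changChi ψ x) := fun x => by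
      have c1 := Real.cosh_add_sinh (1 / 2)
      have c2 := Real.cosh_sub_sinh (1 / 2)
      rw [add_div, Real.exp_add]
      rcases hσ with h | h <;> rcases chang_pm h2 ψ x with h' | h' <;> rw [h, h']
      · rw [show (1 : ℝ) * 1 / 2 = 1 / 2 by ring, ← c1]; ring
      · rw [show (1 : ℝ) * -1 / 2 = -(1 / 2) by ring, ← c2]; ring
      · rw [show (-1 : ℝ) * 1 / 2 = -(1 / 2) by ring, ← c2]; ring
      · rw [show (-1 : ℝ) * -1 / 2 = 1 / 2 by ring, ← c1]; ring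
    simp only [b2, sum_add_distrib, ← mul_sum, b1, mul_zero, add_zero]
    calc Real.cosh (1 / 2) * ∑ x, Real.exp (F x / 2)
        ≤ Real.exp ((1 / 2) ^ 2 / 2) * (Fintype.card W * Real.exp (j / 8)) :=
          mul_le_mul (Real.cosh_le_exp_half_sq _) a4 (by positivity) (by positivity)
      _ = _ := by
          rw [mul_left_comm, ← Real.exp_add]
          push_cast
          ring_nf

theorem chang_iter (h2 : ∀ x : W, x + x = 0) (T : Finset W) (j : ℕ) :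
    changFound T j ∨ changState T (j + 1) := by
  induction j with
  | zero =>
    exact chang_step h2 ⟨⊤, fun _ => 0, by rw [card_top]; simp, fun _ _ _ => rfl, by simp, by simp⟩
  | succ j ih =>
    rcases ih with ⟨V, h1, h⟩ | h
    · exact Or.inl ⟨V, h1.trans (Nat.mul_le_mul_right _ (Nat.pow_le_pow_right two_pos
        (Nat.le_succ j))), h⟩
    · exact chang_step h2 h

omit [DecidableEq W] in
theorem chang_end {T : Finset W} {l : ℕ} (hT : Fintype.card W ≤ 2 ^ l * #T) :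
    ¬ changState T (8 * l + 1) := by
  rintro ⟨V, F, -, -, a3, a4⟩
  generalize hj : ((8 * l + 1 : ℕ) : ℝ) = j at a3 a4
  push_cast at hj
  have hT' : (Fintype.card W : ℝ) ≤ 2 ^ l * #T := by exact_mod_cast hT
  have hN : (0 : ℝ) < Fintype.card W := by exact_mod_cast Fintype.card_pos
  have hT0 : (0 : ℝ) < #T := by
    by_contra h
    nlinarith [show (0 : ℝ) < 2 ^ l by positivity]
  have b1 : Real.exp (j / 4) * #T ≤ ∑ x ∈ T, Real.exp (F x / 2) := by
    calc Real.exp (j / 4) * #T ≤ Real.exp (j / 4) * ∑ x ∈ T, (F x / 2 - j / 4 + 1) := by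
          refine mul_le_mul_of_nonneg_left ?_ (Real.exp_pos _).le
          simp only [sum_add_distrib, sum_sub_distrib, ← sum_div, sum_const, nsmul_eq_mul]
          linarith
      _ ≤ _ := by
          rw [mul_sum]
          refine sum_le_sum fun x _ => ?_
          calc Real.exp (j / 4) * (F x / 2 - j / 4 + 1)
              ≤ Real.exp (j / 4) * Real.exp (F x / 2 - j / 4) :=
                mul_le_mul_of_nonneg_left (Real.add_one_le_exp _) (Real.exp_pos _).le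
            _ = _ := by rw [← Real.exp_add]; ring_nf
  have b2 : ∑ x ∈ T, Real.exp (F x / 2) ≤ ∑ x, Real.exp (F x / 2) :=
    sum_le_sum_of_subset_of_nonneg (subset_univ _) fun x _ _ => (Real.exp_pos _).le
  have b3 : (2 : ℝ) ^ l ≤ Real.exp l := by
    rw [← mul_one (l : ℝ), Real.exp_nat_mul]
    exact pow_le_pow_left₀ two_pos.le (by linarith [Real.add_one_le_exp 1]) l
  have b4 : Real.exp (j / 4) * #T ≤ Real.exp (l + j / 8) * #T := by
    rw [Real.exp_add]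
    calc Real.exp (j / 4) * #T ≤ Fintype.card W * Real.exp (j / 8) := b1.trans (b2.trans a4)
      _ ≤ (Real.exp l * #T) * Real.exp (j / 8) := by
          gcongr
          exact hT'.trans (by gcongr)
      _ = _ := by ring
  have b5 := Real.exp_le_exp.1 (le_of_mul_le_mul_right b4 hT0)
  linarith

end

theorem chang (W : Type) [AddCommGroup W] [Fintype W] [DecidableEq W] (h2 : ∀ x : W, x + x = 0)
    (T : Finset W) (l : ℕ) (hT : Fintype.card W ≤ 2 ^ l * #T) :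
    ∃ V : AddSubgroup W, Fintype.card W ≤ 2 ^ (8 * l) * Nat.card V ∧
      ∀ g : W → ℝ, (∀ x, ∑ y ∈ cs V x, g y = 0) → ∑ x, avg T g x ^ 2 ≤ (∑ x, g x ^ 2) / 4 := by
  obtain ⟨V, h1, h⟩ := (chang_iter h2 T (8 * l)).resolve_right (chang_end hT)
  refine ⟨V, h1, fun g hg => ?_⟩
  have hN : (0 : ℝ) < Fintype.card W := by exact_mod_cast Fintype.card_pos
  refine le_of_mul_le_mul_left ?_ hN
  rw [← mul_div_assoc, ← chang_parseval h2, ← chang_parseval h2, sum_div]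
  refine sum_le_sum fun ψ _ => ?_
  rw [chang_avg h2]
  by_cases hψ : (#T : ℝ) / 2 < |∑ t ∈ T, changChi ψ t|
  · rw [chang_triv h2 hg (h ψ hψ)]
    simp
  · have a1 : |(∑ t ∈ T, changChi ψ t) / #T| ≤ 1 / 2 := by
      rw [abs_div, Nat.abs_cast]
      exact div_le_of_le_mul₀ (Nat.cast_nonneg _) (by norm_num) (by linarith)
    have a2 : ((∑ t ∈ T, changChi ψ t) / #T) ^ 2 ≤ 1 / 4 := by
      rw [← sq_abs]
      nlinarith [abs_nonneg ((∑ t ∈ T, changChi ψ t) / #T)]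
    rw [mul_pow]
    nlinarith [sq_nonneg (∑ x, g x * changChi ψ x)]

end Pool.Agent.P.MP_db4732_co.Q
end

-- part Pool.Agent.P.MP_db4732_co.Q.Core
section

/-! From sifted sets to a density increment on a coset. -/

set_option autoImplicit false

namespace Pool.Agent.P.MP_db4732_co.Q

open Finset

section aux

variable {W : Type} [AddCommGroup W] [Fintype W] [DecidableEq W]

omit [Fintype W] [DecidableEq W] in
theorem core_avg_mono (T : Finset W) {g h : W → ℝ} (H : ∀ x, g x ≤ h x) (x : W) :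
    avg T g x ≤ avg T h x :=
  div_le_div_of_nonneg_right (sum_le_sum fun _ _ => H _) (Nat.cast_nonneg _)

omit [Fintype W] [DecidableEq W] in
theorem core_avg_le {T : Finset W} (hT : T.Nonempty) {g : W → ℝ} {ρ : ℝ} (H : ∀ x, g x ≤ ρ)
    (x : W) : avg T g x ≤ ρ := by
  have T0 : (0 : ℝ) < #T := by exact_mod_cast hT.card_pos
  rw [avg, div_le_iff₀ T0, mul_comm, ← nsmul_eq_mul]
  exact sum_le_card_nsmul _ _ _ fun _ _ => H _

omit [Fintype W] [DecidableEq W] in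
theorem core_avg_lin (T : Finset W) (c : ℝ) (g h : W → ℝ) :
    avg T (fun x => c * g x + h x) = fun x => c * avg T g x + avg T h x := by
  funext x
  simp only [avg, sum_add_distrib, ← mul_sum]
  ring

omit [Fintype W] [DecidableEq W] in
theorem core_iter_lin (T : Finset W) (c : ℝ) (g h : W → ℝ) (i : ℕ) :
    (avg T)^[i] (fun x => c * g x + h x) = fun x => c * (avg T)^[i] g x + (avg T)^[i] h x := by
  induction i with
  | zero => rfl
  | succ i ih => simp only [Function.iterate_succ_apply', ih, core_avg_lin]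

omit [Fintype W] [DecidableEq W] in
theorem core_iter_le {T : Finset W} (hT : T.Nonempty) {g : W → ℝ} {ρ : ℝ} (H : ∀ x, g x ≤ ρ)
    (i : ℕ) : ∀ x, (avg T)^[i] g x ≤ ρ := by
  induction i with
  | zero => exact H
  | succ i ih => rw [Function.iterate_succ_apply']; exact core_avg_le hT ih

omit [Fintype W] [DecidableEq W] in
theorem core_avg_comm (A B : Finset W) (g : W → ℝ) : avg A (avg B g) = avg B (avg A g) := by
  funext x
  simp only [avg, ← sum_div]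
  rw [sum_comm, div_right_comm]
  simp only [add_right_comm]

omit [Fintype W] [DecidableEq W] in
theorem core_iter_comm (T B : Finset W) (g : W → ℝ) (i : ℕ) :
    (avg T)^[i] (avg B g) = avg B ((avg T)^[i] g) := by
  induction i with
  | zero => rfl
  | succ i ih => simp only [Function.iterate_succ_apply', ih, core_avg_comm T B]

theorem core_nc (Y B : Finset W) :
    nc Y B = avg B fun x => if x ∈ Y then (Fintype.card W : ℝ) / #Y else 0 := by
  funext x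
  rw [avg, ← sum_filter, sum_const, nsmul_eq_mul, nc, cv]
  ring

theorem core_pair (h2 : ∀ x : W, x + x = 0) (B A : Finset W) (h : W → ℝ) :
    ∑ y, h y * nc B A y = Fintype.card W / #A * ∑ x ∈ A, avg B h x := by
  have e1 : ∀ y, h y * nc B A y =
      Fintype.card W / (#B * #A) * ∑ a ∈ A, if y + a ∈ B then h y else 0 := by
    intro y
    rw [← sum_filter, sum_const, nsmul_eq_mul, nc, cv]
    ring
  have e2 : ∀ a, ∑ y, (if y + a ∈ B then h y else 0) = ∑ b ∈ B, h (a + b) := by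
    intro a
    rw [← Equiv.sum_comp (Equiv.addLeft a)]
    simp only [Equiv.coe_addLeft]
    have : ∀ b, a + b + a = b := fun b => by rw [add_right_comm, h2, zero_add]
    simp only [this]
    rw [sum_ite_mem, univ_inter]
  simp only [e1, ← mul_sum]
  rw [sum_comm]
  simp only [e2, avg, ← sum_div]
  ring

omit [DecidableEq W] in
theorem core_cs_shift (h2 : ∀ x : W, x + x = 0) (V : AddSubgroup W) (h : W → ℝ) (x t : W) :
    ∑ y ∈ cs V x, h (y + t) = ∑ y ∈ cs V (x + t), h y := by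
  have e : ∀ y : W, y + t + (x + t) = y + x := fun y => by
    rw [show y + t + (x + t) = y + x + (t + t) by abel, h2, add_zero]
  refine sum_bij (fun y _ => y + t) (fun y hy => ?_) (fun _ _ _ _ e => add_right_cancel e)
    (fun y hy => ⟨y + t, ?_, by rw [add_assoc, h2, add_zero]⟩) fun _ _ => rfl
  · rw [mem_cs] at hy ⊢
    rwa [e]
  · rw [mem_cs] at hy ⊢
    rwa [add_assoc, add_comm t]

omit [DecidableEq W] in
theorem core_cs_avg (h2 : ∀ x : W, x + x = 0) (V : AddSubgroup W) (T : Finset W) (h : W → ℝ)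
    (x : W) : ∑ y ∈ cs V x, avg T h y = avg T (fun x => ∑ y ∈ cs V x, h y) x := by
  simp only [avg, ← sum_div]
  rw [sum_comm]
  simp only [core_cs_shift h2]

omit [DecidableEq W] in
theorem core_cs_eq (h2 : ∀ x : W, x + x = 0) {V : AddSubgroup W} {x y : W} (h : y ∈ cs V x) :
    cs V y = cs V x := by
  rw [mem_cs] at h
  ext w
  rw [mem_cs, mem_cs]
  constructor
  · intro hw
    have := V.add_mem hw h
    rwa [show w + y + (y + x) = w + x + (y + y) by abel, h2, add_zero] at this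
  · intro hw
    have := V.add_mem hw h
    rwa [show w + x + (y + x) = w + y + (x + x) by abel, h2, add_zero] at this

omit [DecidableEq W] in
theorem core_orth (V : AddSubgroup W) {r : W → ℝ} (hr : ∀ x, ∑ y ∈ cs V x, r y = 0) (g : W → ℝ) :
    ∑ x, r x * ∑ y ∈ cs V x, g y = 0 := by
  simp only [mul_sum]
  rw [sum_comm' (t' := univ) (s' := fun y => cs V y) (by
    intro x y
    simp only [mem_univ, true_and, and_true, mem_cs, add_comm])]
  simp only [← sum_mul, hr, zero_mul, sum_const_zero]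

omit [DecidableEq W] in
theorem core_decay (h2 : ∀ x : W, x + x = 0) {V : AddSubgroup W} {T : Finset W}
    (hV : ∀ g : W → ℝ, (∀ x, ∑ y ∈ cs V x, g y = 0) → ∑ x, avg T g x ^ 2 ≤ (∑ x, g x ^ 2) / 4)
    {r : W → ℝ} (hr : ∀ x, ∑ y ∈ cs V x, r y = 0) (i : ℕ) :
    (∀ x, ∑ y ∈ cs V x, (avg T)^[i] r y = 0) ∧
      (2 ^ i) ^ 2 * ∑ x, (avg T)^[i] r x ^ 2 ≤ ∑ x, r x ^ 2 := by
  induction i with
  | zero => exact ⟨hr, by simp⟩
  | succ i ih =>
    rw [Function.iterate_succ_apply']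
    refine ⟨fun x => ?_, ?_⟩
    · rw [core_cs_avg h2]
      simp [avg, ih.1]
    · have := mul_le_mul_of_nonneg_left (hV _ ih.1) (show (0 : ℝ) ≤ (2 ^ i) ^ 2 by positivity)
      rw [pow_succ (2 : ℝ) i]
      linarith [ih.2]

omit [Fintype W] [DecidableEq W] in
theorem core_walk {T A : Finset W} (hT : T.Nonempty) {u : W → ℝ} {δ : ℝ}
    (h : ∀ t ∈ T, ∀ z : W, ∑ x ∈ A, |u (x + z + t) - u (x + z)| ≤ δ) (i : ℕ) :
    ∀ z : W, ∑ x ∈ A, u (x + z) - i * δ ≤ ∑ x ∈ A, (avg T)^[i] u (x + z) := by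
  have T0 : (0 : ℝ) < #T := by exact_mod_cast hT.card_pos
  induction i with
  | zero => intro z; simp
  | succ i ih =>
    intro z
    rw [Function.iterate_succ_apply']
    simp only [avg, ← sum_div]
    rw [sum_comm, le_div_iff₀ T0, mul_comm, ← nsmul_eq_mul]
    refine card_nsmul_le_sum _ _ _ fun t ht => ?_
    have e1 := ih (z + t)
    have e2 : ∑ x ∈ A, (u (x + z) - u (x + z + t)) ≤ δ :=
      (sum_le_sum fun x _ => by rw [abs_sub_comm]; exact le_abs_self _).trans (h t ht z)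
    rw [sum_sub_distrib] at e2
    simp only [← add_assoc] at e1
    push_cast
    linarith

end aux

theorem core {ε : ℝ} (hε : 0 < ε) : ∃ K : ℕ, ∀ (W : Type) [AddCommGroup W] [Fintype W]
    [DecidableEq W], (∀ x : W, x + x = 0) → ∀ (Y B A₁ A₂ : Finset W) (l k : ℕ) (l₁ : ℝ),
    1 ≤ l → 1 ≤ k → Y.Nonempty → B.Nonempty → Fintype.card W ≤ 2 ^ l * #A₁ →
    Fintype.card W ≤ 2 ^ l * #A₂ → 0 ≤ l₁ →
    (#{q ∈ A₁ ×ˢ A₂ | nc Y B (q.1 + q.2) < l₁} : ℝ) ≤ ε * #A₁ * #A₂ →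
    nsq Y A₁ * nsq B A₂ ≤ (ε * l₁ * 2 ^ k) ^ 2 →
    ∃ (V : AddSubgroup W) (z : W), Fintype.card W ≤ 2 ^ (K * k ^ 2 * l ^ 2) * Nat.card V ∧
      (1 - 3 * ε) * l₁ * #Y * Nat.card V ≤ #(Y ∩ cs V z) * (Fintype.card W : ℝ) := by
  obtain ⟨K₀, hK⟩ := almost_periods
  obtain ⟨k₀, hk₀⟩ := exists_nat_gt (1 / ε)
  have k0 : (0 : ℝ) < k₀ := lt_trans (by positivity) hk₀
  have k1 : 1 ≤ k₀ := by exact_mod_cast k0
  refine ⟨8 * K₀ * k₀ ^ 2, fun W _ _ _ h2 Y B A₁ A₂ l k l₁ hl hk hY hB hA₁ hA₂ hl₁ hbad hsq => ?_⟩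
  have N0 : 0 < Fintype.card W := Fintype.card_pos
  have N1 : (0 : ℝ) < Fintype.card W := by exact_mod_cast N0
  have a1 : (0 : ℝ) < #A₁ := by exact_mod_cast Nat.pos_of_mul_pos_left (N0.trans_le hA₁)
  have a2 : (0 : ℝ) < #A₂ := by exact_mod_cast Nat.pos_of_mul_pos_left (N0.trans_le hA₂)
  have n1 : A₁.Nonempty := card_pos.1 (by exact_mod_cast a1)
  have Y0 : (0 : ℝ) < #Y := by exact_mod_cast hY.card_pos
  obtain ⟨S, hS⟩ : ∃ S : Finset W, ∀ x, x ∈ S ↔ l₁ ≤ nc Y B x :=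
    ⟨univ.filter fun x => l₁ ≤ nc Y B x, fun x => by simp⟩
  obtain ⟨T, hT, hper⟩ := hK W h2 A₁ A₂ S l (k * k₀) hl (Nat.mul_pos hk k1) hA₁ hA₂
  have nT : T.Nonempty := card_pos.1 (Nat.pos_of_mul_pos_left (N0.trans_le hT))
  obtain ⟨V, hV, hch⟩ := chang W h2 T _ hT
  have v0 : (0 : ℝ) < Nat.card V := by exact_mod_cast Nat.card_pos
  obtain ⟨z, -, hz⟩ := exists_max_image univ (fun z => #(Y ∩ cs V z)) univ_nonempty
  refine ⟨V, z, by
    rwa [show 8 * K₀ * k₀ ^ 2 * k ^ 2 * l ^ 2 = 8 * (K₀ * (k * k₀) ^ 2 * l ^ 2) by ring], ?_⟩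
  obtain ⟨u, hu⟩ : ∃ u : W → ℝ, u = fun x => (cv S A₁ x : ℝ) / #A₁ := ⟨_, rfl⟩
  have e1 : (1 - ε) * #A₂ ≤ ∑ x ∈ A₂, u x := by
    have b1 : tri S A₁ A₂ + #{q ∈ A₁ ×ˢ A₂ | nc Y B (q.1 + q.2) < l₁} = #A₁ * #A₂ := by
      rw [tri_eq, ← card_product, ← card_filter_add_card_filter_not
        (s := A₁ ×ˢ A₂) fun q => q.1 + q.2 ∈ S]
      congr 2
      exact filter_congr fun q _ => by rw [hS, not_le]
    have b2 : (tri S A₁ A₂ : ℝ) + #{q ∈ A₁ ×ˢ A₂ | nc Y B (q.1 + q.2) < l₁} = #A₁ * #A₂ := by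
      exact_mod_cast b1
    simp only [hu, ← sum_div]
    rw [le_div_iff₀ a1, ← Nat.cast_sum]
    change _ ≤ (tri S A₁ A₂ : ℝ)
    linarith
  have e2 : (1 - 2 * ε) * #A₂ ≤ ∑ x ∈ A₂, (avg T)^[k] u x := by
    have b1 := core_walk nT (u := u) (by rw [hu]; exact hper) k 0
    simp only [add_zero] at b1
    have b2 : (k : ℝ) * (#A₂ / ((k * k₀ : ℕ) : ℝ)) ≤ ε * #A₂ := by
      have : (0 : ℝ) < k := by exact_mod_cast hk
      push_cast
      rw [show (k : ℝ) * (#A₂ / (k * k₀)) = #A₂ / k₀ by field_simp, div_le_iff₀ k0]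
      rw [div_lt_iff₀ hε] at hk₀
      nlinarith
    linarith
  have e3 : ∀ x, l₁ * (avg T)^[k] u x ≤ (avg T)^[k] (avg A₁ (nc Y B)) x := by
    intro x
    have b1 : ∀ x, l₁ * u x + -avg A₁ (nc Y B) x ≤ 0 := by
      intro x
      have : l₁ * u x ≤ avg A₁ (nc Y B) x := by
        rw [hu, avg]
        simp only
        rw [← mul_div_assoc, cv, card_filter]
        push_cast
        rw [mul_sum]
        refine div_le_div_of_nonneg_right (sum_le_sum fun a _ => ?_) a1.le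
        split_ifs with h
        · rw [mul_one]; exact (hS _).1 h
        · rw [mul_zero, nc]; positivity
      linarith
    have b2 := core_iter_le nT b1 k x
    have b3 := congrFun (core_iter_lin T (-1) (avg A₁ (nc Y B)) (fun _ => 0) k) x
    have b4 := core_iter_le nT (g := fun _ => (0 : ℝ)) (fun _ => le_rfl) k x
    have b5 := congrFun (core_iter_lin T (-1) (fun _ => 0) (fun _ => 0) k) x
    rw [core_iter_lin] at b2
    simp only [neg_mul, one_mul, add_zero, neg_zero] at b2 b3 b5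
    linarith
  have e4 : (1 - 2 * ε) * l₁ * Fintype.card W ≤ ∑ y, (avg T)^[k] (nc Y A₁) y * nc B A₂ y := by
    rw [core_pair h2, ← core_iter_comm, core_nc Y A₁, core_avg_comm, ← core_nc Y B]
    have b1 : l₁ * ((1 - 2 * ε) * #A₂) ≤ ∑ x ∈ A₂, (avg T)^[k] (avg A₁ (nc Y B)) x := by
      refine (mul_le_mul_of_nonneg_left e2 hl₁).trans ?_
      rw [mul_sum]
      exact sum_le_sum fun x _ => e3 x
    refine le_trans (le_of_eq ?_) (mul_le_mul_of_nonneg_left b1 (by positivity))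
    field_simp
  obtain ⟨P, hP⟩ : ∃ P : W → ℝ, P = fun x => (∑ y ∈ cs V x, nc Y A₁ y) / Nat.card V := ⟨_, rfl⟩
  obtain ⟨r, hr⟩ : ∃ r : W → ℝ, r = fun x => nc Y A₁ x - P x := ⟨_, rfl⟩
  have r0 : ∀ x, ∑ y ∈ cs V x, r y = 0 := by
    intro x
    have : ∑ y ∈ cs V x, P y = ∑ y ∈ cs V x, P x :=
      sum_congr rfl fun y hy => by simp only [hP, core_cs_eq h2 hy]
    simp only [hr, sum_sub_distrib]
    rw [this, sum_const, card_cs, nsmul_eq_mul, hP]
    field_simp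
    ring
  have hg : nc Y A₁ = fun x => 1 * r x + P x := by
    funext x; simp [hr]
  have r1 : ∑ x, r x ^ 2 ≤ ∑ x, nc Y A₁ x ^ 2 := by
    have b1 : ∑ x, r x * P x = 0 := by
      simp only [hP, ← mul_div_assoc, ← sum_div, core_orth V r0, zero_div]
    have b2 : ∑ x, nc Y A₁ x ^ 2 = ∑ x, r x ^ 2 + 2 * ∑ x, r x * P x + ∑ x, P x ^ 2 := by
      rw [mul_sum, ← sum_add_distrib, ← sum_add_distrib]
      exact sum_congr rfl fun x _ => by rw [hr]; ring
    have b3 : 0 ≤ ∑ x, P x ^ 2 := sum_nonneg fun _ _ => sq_nonneg _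
    linarith
  have e5 : ∑ y, (avg T)^[k] r y * nc B A₂ y ≤ ε * l₁ * Fintype.card W := by
    refine le_of_pow_le_pow_left₀ (n := 2) (by norm_num) (by positivity) ?_
    have b1 := sum_mul_sq_le_sq_mul_sq univ ((avg T)^[k] r) (nc B A₂)
    have b2 := (core_decay h2 hch r0 k).2.trans r1
    have b3 : 0 ≤ ∑ x, nc B A₂ x ^ 2 := sum_nonneg fun _ _ => sq_nonneg _
    have b4 : (0 : ℝ) < (2 ^ k) ^ 2 := by positivity
    rw [nsq, nsq, div_mul_div_comm, div_le_iff₀ (by positivity)] at hsq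
    refine le_of_mul_le_mul_left ?_ b4
    nlinarith [mul_le_mul_of_nonneg_left b1 b4.le, mul_le_mul_of_nonneg_right b2 b3]
  clear hr
  obtain ⟨ρ, hρ⟩ : ∃ ρ : ℝ, ρ = #(Y ∩ cs V z) * (Fintype.card W / #Y) / Nat.card V := ⟨_, rfl⟩
  have P1 : ∀ x, P x ≤ ρ := by
    intro x
    rw [hP, hρ]
    refine div_le_div_of_nonneg_right ?_ v0.le
    rw [core_nc, core_cs_avg h2]
    refine core_avg_le n1 (fun w => ?_) x
    rw [sum_ite_mem, sum_const, nsmul_eq_mul, inter_comm]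
    exact mul_le_mul_of_nonneg_right (Nat.cast_le.2 (hz w (mem_univ _))) (div_pos N1 Y0).le
  have e6 : ∑ y, (avg T)^[k] P y * nc B A₂ y ≤ ρ * Fintype.card W := by
    clear hg
    rw [core_pair h2]
    have b1 := sum_le_card_nsmul A₂ _ ρ fun x _ => core_avg_le hB (core_iter_le nT P1 k) x
    rw [nsmul_eq_mul] at b1
    refine (mul_le_mul_of_nonneg_left b1 (div_pos N1 a2).le).trans (le_of_eq ?_)
    rw [← mul_assoc, div_mul_cancel₀ _ a2.ne', mul_comm]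
  have e7 : (1 - 3 * ε) * l₁ ≤ ρ := by
    rw [hg, core_iter_lin] at e4
    simp only [one_mul, add_mul, sum_add_distrib] at e4
    refine le_of_mul_le_mul_right ?_ N1
    linarith
  rw [hρ, le_div_iff₀ v0, ← mul_div_assoc, le_div_iff₀ Y0] at e7
  linarith

end Pool.Agent.P.MP_db4732_co.Q
end

-- part Pool.Agent.P.MP_db4732_co.Q.Sift
section

/-! Sifting for convolutions. -/

set_option autoImplicit false

namespace Pool.Agent.P.MP_db4732_co.Q

open Finset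

section aux

variable {W : Type} [AddCommGroup W] [Fintype W] [DecidableEq W]

theorem sift_one (h2 : ∀ x : W, x + x = 0) (Y B : Finset W) (x y : W) :
    #{s : W | x + s ∈ Y ∧ y + s ∈ B} = cv Y B (x + y) := by
  unfold cv
  refine card_bij (fun s _ => y + s) (fun s hs => ?_) (fun _ _ _ _ h => add_left_cancel h)
    fun b hb => ⟨y + b, ?_, by rw [← add_assoc, h2, zero_add]⟩
  · rw [mem_filter] at hs ⊢
    refine ⟨hs.2.2, ?_⟩
    rw [add_assoc, ← add_assoc y, h2, zero_add]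
    exact hs.2.1
  · rw [mem_filter] at hb ⊢
    refine ⟨mem_univ _, ?_, ?_⟩
    · rw [← add_assoc]; exact hb.2
    · rw [← add_assoc, h2, zero_add]; exact hb.1

theorem sift_pow (h2 : ∀ x : W, x + x = 0) (Y B : Finset W) (q : ℕ) (x y : W) :
    #{t : Fin q → W | (∀ i, x + t i ∈ Y) ∧ ∀ i, y + t i ∈ B} = cv Y B (x + y) ^ q := by
  rw [← sift_one h2, ← Fintype.card_piFinset_const]
  refine congrArg card ?_
  ext t
  simp only [mem_filter, mem_univ, true_and, Fintype.mem_piFinset]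
  exact ⟨fun h i => ⟨h.1 i, h.2 i⟩, fun h => ⟨fun i => (h i).1, fun i => (h i).2⟩⟩

theorem sift_sum (h2 : ∀ x : W, x + x = 0) (Y B : Finset W) (q : ℕ) (w : W → ℝ) :
    ∑ t : Fin q → W, ∑ r ∈ ({x : W | ∀ i, x + t i ∈ Y} : Finset W) ×ˢ
      ({x : W | ∀ i, x + t i ∈ B} : Finset W), w (r.1 + r.2) =
      Fintype.card W * ∑ x, (cv Y B x : ℝ) ^ q * w x := by
  have h1 : ∀ t : Fin q → W, ∑ r ∈ ({x : W | ∀ i, x + t i ∈ Y} : Finset W) ×ˢ
      ({x : W | ∀ i, x + t i ∈ B} : Finset W), w (r.1 + r.2) =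
      ∑ x : W, ∑ y : W, if (∀ i, x + t i ∈ Y) ∧ ∀ i, y + t i ∈ B then w (x + y) else 0 := by
    intro t
    rw [sum_product, sum_filter]
    refine sum_congr rfl fun x _ => ?_
    rw [sum_filter]
    by_cases hx : ∀ i, x + t i ∈ Y
    · rw [if_pos hx]
      refine sum_congr rfl fun y _ => ?_
      by_cases hy : ∀ i, y + t i ∈ B
      · rw [if_pos hy, if_pos ⟨hx, hy⟩]
      · rw [if_neg hy, if_neg fun h => hy h.2]
    · rw [if_neg hx]
      exact (sum_eq_zero fun y _ => if_neg fun h => hx h.1).symm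
  rw [sum_congr rfl fun t _ => h1 t, sum_comm]
  have h3 : ∀ x : W, (∑ t : Fin q → W, ∑ y : W,
      if (∀ i, x + t i ∈ Y) ∧ ∀ i, y + t i ∈ B then w (x + y) else 0) =
      ∑ z, (cv Y B z : ℝ) ^ q * w z := by
    intro x
    rw [sum_comm]
    have h4 : ∀ y : W, (∑ t : Fin q → W,
        if (∀ i, x + t i ∈ Y) ∧ ∀ i, y + t i ∈ B then w (x + y) else 0) =
        (cv Y B (x + y) : ℝ) ^ q * w (x + y) := by
      intro y
      rw [← sum_filter, sum_const, sift_pow h2, nsmul_eq_mul, Nat.cast_pow]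
    rw [sum_congr rfl fun y _ => h4 y]
    exact Fintype.sum_equiv (Equiv.addLeft x) _ _ fun y => rfl
  rw [sum_congr rfl fun x _ => h3 x, sum_const, card_univ, nsmul_eq_mul]

omit [Fintype W] in
theorem sift_pm (Y B C : Finset W) (q : ℕ) {u : ℝ} (hu : 0 ≤ u) (hC : 0 < (#C : ℝ))
    (h : u * #C ≤ tri Y B C) : u ^ (q + 1) * #C ≤ ∑ x ∈ C, (cv Y B x : ℝ) ^ (q + 1) := by
  have h1 := pow_sum_div_card_le_sum_pow (s := C) (f := fun x => (cv Y B x : ℝ))
    (fun _ _ => Nat.cast_nonneg _) q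
  refine le_trans ?_ h1
  rw [le_div_iff₀ (pow_pos hC q)]
  have h2 : (tri Y B C : ℝ) = ∑ x ∈ C, (cv Y B x : ℝ) := by
    unfold tri; rw [Nat.cast_sum]
  rw [← h2]
  calc u ^ (q + 1) * #C * (#C : ℝ) ^ q = (u * #C) ^ (q + 1) := by ring
    _ ≤ _ := pow_le_pow_left₀ (by positivity) h _

theorem sift_sum_cv (Y B : Finset W) : ∑ x, (cv Y B x : ℝ) = #Y * #B := by
  have h : ∑ x, cv Y B x = #Y * #B := by
    unfold cv
    simp only [card_filter]
    rw [sum_comm]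
    have h1 : ∀ b ∈ B, (∑ x : W, if x + b ∈ Y then 1 else 0) = #Y := by
      intro b _
      have h2 : (∑ x : W, if x + b ∈ Y then 1 else 0) = ∑ y : W, if y ∈ Y then 1 else 0 :=
        Fintype.sum_equiv (Equiv.addRight b) _ _ fun y => rfl
      rw [h2, ← card_filter, filter_mem_eq_inter, univ_inter]
    rw [sum_congr rfl h1, sum_const, smul_eq_mul, mul_comm]
  rw [← Nat.cast_sum, h, Nat.cast_mul]

end aux

theorem sift {ε l₀ : ℝ} (hε : 0 < ε) (hl : 1 < l₀) : ∃ K : ℕ, ∀ (W : Type) [AddCommGroup W]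
    [Fintype W] [DecidableEq W], (∀ x : W, x + x = 0) → ∀ (Y B C : Finset W) (a p : ℕ) (σ l : ℝ),
    1 ≤ a → 1 ≤ p → l₀ ≤ σ → 1 ≤ l → Fintype.card W ≤ 2 ^ a * #Y → Fintype.card W ≤ 2 ^ a * #B →
    (Fintype.card W : ℝ) ≤ σ ^ p * #C → σ * l * #Y * #B * #C ≤ tri Y B C * (Fintype.card W : ℝ) →
    ∃ A₁ A₂ : Finset W, Fintype.card W ≤ 2 ^ (K * a * p) * #A₁ ∧
      Fintype.card W ≤ 2 ^ (K * a * p) * #A₂ ∧
      (#{q ∈ A₁ ×ˢ A₂ | nc Y B (q.1 + q.2) < l} : ℝ) ≤ ε * #A₁ * #A₂ := by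
  obtain ⟨q₀, hq₀⟩ := pow_unbounded_of_one_lt (1 + 1 / ε) hl
  refine ⟨2 * (1 + q₀), fun W _ _ _ h2 Y B C a p σ l ha hp hσ hl1 hY hB hC htri => ?_⟩
  obtain ⟨N, hN⟩ : ∃ N : ℕ, N = Fintype.card W := ⟨_, rfl⟩
  have hNpos : 0 < N := hN ▸ Fintype.card_pos
  have hNr : (0 : ℝ) < N := Nat.cast_pos.2 hNpos
  have hσ1 : 1 < σ := hl.trans_le hσ
  have hσ0 : 0 < σ := zero_lt_one.trans hσ1
  rw [← hN] at hY hB hC htri
  have hYr : (N : ℝ) ≤ 2 ^ a * #Y := by exact_mod_cast hY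
  have hBr : (N : ℝ) ≤ 2 ^ a * #B := by exact_mod_cast hB
  have hY0 : (0 : ℝ) < #Y := by
    by_contra h
    have h0 : (#Y : ℝ) = 0 := le_antisymm (not_lt.1 h) (Nat.cast_nonneg _)
    rw [h0] at hYr; linarith
  have hB0 : (0 : ℝ) < #B := by
    by_contra h
    have h0 : (#B : ℝ) = 0 := le_antisymm (not_lt.1 h) (Nat.cast_nonneg _)
    rw [h0] at hBr; linarith
  have hC0 : (0 : ℝ) < #C := by
    by_contra h
    have h0 : (#C : ℝ) = 0 := le_antisymm (not_lt.1 h) (Nat.cast_nonneg _)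
    rw [h0] at hC; linarith
  obtain ⟨p', rfl⟩ : ∃ p', p = p' + 1 := ⟨p - 1, by omega⟩
  obtain ⟨q, hq⟩ : ∃ q, q = q₀ + p' + 1 := ⟨_, rfl⟩
  obtain ⟨β, hβ⟩ : ∃ β : ℝ, β = #Y * #B / N := ⟨_, rfl⟩
  have hβ0 : 0 < β := by rw [hβ]; positivity
  have hl0 : 0 < l := zero_lt_one.trans_le hl1
  -- the power mean bound on `C`
  have hpm : (σ * l * β) ^ q * #C ≤ ∑ x ∈ C, (cv Y B x : ℝ) ^ q := by
    rw [hq]
    refine sift_pm Y B C _ (by positivity) hC0 ?_
    rw [hβ]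
    have : σ * l * (#Y * #B / N) * #C = σ * l * #Y * #B * #C / N := by ring
    rw [this, div_le_iff₀ hNr]
    exact htri
  have hmain : N * (l * β) ^ q * (1 + 1 / ε) ≤ ∑ x, (cv Y B x : ℝ) ^ q := by
    have h1 : ∑ x ∈ C, (cv Y B x : ℝ) ^ q ≤ ∑ x, (cv Y B x : ℝ) ^ q :=
      sum_le_sum_of_subset_of_nonneg (subset_univ _) fun _ _ _ => by positivity
    refine le_trans ?_ (hpm.trans h1)
    have h3 : 1 + 1 / ε ≤ σ ^ q₀ := hq₀.le.trans (pow_le_pow_left₀ (by linarith) hσ _)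
    calc N * (l * β) ^ q * (1 + 1 / ε) ≤ (σ ^ (p' + 1) * #C) * (l * β) ^ q * σ ^ q₀ := by
          gcongr
      _ = (σ * l * β) ^ q * #C := by rw [hq]; ring
  obtain ⟨w, hw⟩ : ∃ w : W → ℝ, w = fun x => 1 - (if nc Y B x < l then 1 / ε else 0) := ⟨_, rfl⟩
  have hlow : N * β ^ q ≤ ∑ x, (cv Y B x : ℝ) ^ q * w x := by
    have h1 : ∀ x : W, (cv Y B x : ℝ) ^ q - (l * β) ^ q * (1 / ε) ≤ (cv Y B x : ℝ) ^ q * w x := by
      intro x
      rw [hw]
      dsimp only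
      by_cases hx : nc Y B x < l
      · rw [if_pos hx]
        have h3 : (cv Y B x : ℝ) ≤ l * β := by
          unfold nc at hx
          rw [← hN, div_lt_iff₀ (by positivity)] at hx
          rw [hβ, ← mul_div_assoc, le_div_iff₀ hNr]
          exact hx.le
        have h4 : (cv Y B x : ℝ) ^ q ≤ (l * β) ^ q := pow_le_pow_left₀ (by positivity) h3 _
        have h5 : (cv Y B x : ℝ) ^ q * (1 / ε) ≤ (l * β) ^ q * (1 / ε) := by gcongr
        linarith
      · rw [if_neg hx]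
        have : 0 ≤ (l * β) ^ q * (1 / ε) := by positivity
        linarith
    have h2 := sum_le_sum fun x (_ : x ∈ (univ : Finset W)) => h1 x
    rw [sum_sub_distrib, sum_const, card_univ, ← hN, nsmul_eq_mul] at h2
    have h3 : β ^ q ≤ (l * β) ^ q :=
      pow_le_pow_left₀ hβ0.le (le_mul_of_one_le_left hβ0.le hl1) _
    have h4 : N * β ^ q ≤ N * (l * β) ^ q := by gcongr
    linarith
  have hsum := sift_sum h2 Y B q w
  rw [← hN] at hsum
  obtain ⟨t, -, ht⟩ : ∃ t ∈ (univ : Finset (Fin q → W)), (N : ℝ) ^ 2 * (β / N) ^ q ≤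
      ∑ r ∈ ({x : W | ∀ i, x + t i ∈ Y} : Finset W) ×ˢ
        ({x : W | ∀ i, x + t i ∈ B} : Finset W), w (r.1 + r.2) := by
    refine exists_le_of_sum_le univ_nonempty ?_
    rw [hsum, sum_const, card_univ, Fintype.card_fun, Fintype.card_fin, ← hN, nsmul_eq_mul,
      Nat.cast_pow, div_pow]
    have : (N : ℝ) ^ q * (N ^ 2 * (β ^ q / N ^ q)) = N * (N * β ^ q) := by
      field_simp
    rw [this]
    gcongr
  obtain ⟨A₁, hA₁⟩ : ∃ A₁ : Finset W, A₁ = ({x : W | ∀ i, x + t i ∈ Y} : Finset W) :=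
    ⟨_, rfl⟩
  obtain ⟨A₂, hA₂⟩ : ∃ A₂ : Finset W, A₂ = ({x : W | ∀ i, x + t i ∈ B} : Finset W) :=
    ⟨_, rfl⟩
  rw [← hA₁, ← hA₂, hw] at ht
  dsimp only at ht
  rw [sum_sub_distrib, sum_const, card_product, ← sum_filter, sum_const, nsmul_eq_mul,
    nsmul_eq_mul, mul_one, Nat.cast_mul] at ht
  have hbad : (0 : ℝ) ≤ #{q ∈ A₁ ×ˢ A₂ | nc Y B (q.1 + q.2) < l} * (1 / ε) := by positivity
  have hpos : 0 < (N : ℝ) ^ 2 * (β / N) ^ q := by positivity
  have hden : (1 : ℝ) ≤ 2 ^ (2 * (1 + q₀) * a * (p' + 1)) * (β / N) ^ q := by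
    have h1 : (1 : ℝ) ≤ 2 ^ (2 * a) * (β / N) := by
      rw [hβ, div_div, ← mul_div_assoc, le_div_iff₀ (by positivity), one_mul]
      calc (N : ℝ) * N ≤ (2 ^ a * #Y) * (2 ^ a * #B) := by gcongr
        _ = _ := by ring
    have h3 : (1 : ℝ) ≤ (2 ^ (2 * a) * (β / N)) ^ q := one_le_pow₀ h1
    rw [mul_pow, ← pow_mul] at h3
    refine h3.trans ?_
    have h4 : 2 * a * q ≤ 2 * (1 + q₀) * a * (p' + 1) := by
      rw [hq]
      have : q₀ + p' + 1 ≤ (1 + q₀) * (p' + 1) := by nlinarith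
      calc 2 * a * (q₀ + p' + 1) ≤ 2 * a * ((1 + q₀) * (p' + 1)) := by gcongr
        _ = _ := by ring
    have h5 : (2 : ℝ) ^ (2 * a * q) ≤ 2 ^ (2 * (1 + q₀) * a * (p' + 1)) :=
      pow_le_pow_right₀ one_le_two h4
    gcongr
  have hle₁ : (#A₁ : ℝ) ≤ N := by rw [hN]; exact_mod_cast card_le_univ A₁
  have hle₂ : (#A₂ : ℝ) ≤ N := by rw [hN]; exact_mod_cast card_le_univ A₂
  obtain ⟨M, hM⟩ : ∃ M : ℝ, M = 2 ^ (2 * (1 + q₀) * a * (p' + 1)) := ⟨_, rfl⟩
  have hM0 : 0 < M := by rw [hM]; positivity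
  rw [← hM] at hden
  have hprod : (N : ℝ) * N ≤ M * (#A₁ * #A₂) := by
    calc (N : ℝ) * N = N ^ 2 * 1 := by ring
      _ ≤ N ^ 2 * (M * (β / N) ^ q) := by gcongr
      _ = M * (N ^ 2 * (β / N) ^ q) := by ring
      _ ≤ M * (#A₁ * #A₂) := mul_le_mul_of_nonneg_left (by linarith) hM0.le
  refine ⟨A₁, A₂, ?_, ?_, ?_⟩
  · rw [← hN]
    have h1 : (N : ℝ) * N ≤ (M * #A₁) * N := by
      calc (N : ℝ) * N ≤ M * (#A₁ * #A₂) := hprod
        _ ≤ M * (#A₁ * N) := by gcongr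
        _ = _ := by ring
    have h3 : (N : ℝ) ≤ M * #A₁ := le_of_mul_le_mul_right h1 hNr
    rw [hM] at h3
    exact_mod_cast h3
  · rw [← hN]
    have h1 : (N : ℝ) * N ≤ (M * #A₂) * N := by
      calc (N : ℝ) * N ≤ M * (#A₁ * #A₂) := hprod
        _ ≤ M * (N * #A₂) := by gcongr
        _ = _ := by ring
    have h3 : (N : ℝ) ≤ M * #A₂ := le_of_mul_le_mul_right h1 hNr
    rw [hM] at h3
    exact_mod_cast h3
  · have h1 : (#{q ∈ A₁ ×ˢ A₂ | nc Y B (q.1 + q.2) < l} : ℝ) * (1 / ε) ≤ #A₁ * #A₂ := by linarith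
    rw [mul_one_div, div_le_iff₀ hε] at h1
    linarith

variable {W : Type} [AddCommGroup W] [Fintype W] [DecidableEq W]

theorem one_le_nsq {Y B : Finset W} (hY : Y.Nonempty) (hB : B.Nonempty) : 1 ≤ nsq Y B := by
  have hN : (0 : ℝ) < Fintype.card W := Nat.cast_pos.2 Fintype.card_pos
  have hY0 : (0 : ℝ) < #Y := Nat.cast_pos.2 hY.card_pos
  have hB0 : (0 : ℝ) < #B := Nat.cast_pos.2 hB.card_pos
  have h1 : ∑ x, nc Y B x = Fintype.card W := by
    unfold nc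
    rw [← sum_div, ← sum_mul, sift_sum_cv]
    field_simp
  have h2 := sq_sum_le_card_mul_sum_sq (s := (univ : Finset W)) (f := fun x => nc Y B x)
  rw [h1, card_univ, sq] at h2
  unfold nsq
  rw [le_div_iff₀ hN, one_mul]
  exact le_of_mul_le_mul_left h2 hN

theorem nsq_le {Y B : Finset W} (hY : Y.Nonempty) : nsq Y B * #Y ≤ Fintype.card W := by
  have hN : (0 : ℝ) < Fintype.card W := Nat.cast_pos.2 Fintype.card_pos
  have hY0 : (0 : ℝ) < #Y := Nat.cast_pos.2 hY.card_pos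
  rcases B.eq_empty_or_nonempty with rfl | hB
  · have : nsq Y (∅ : Finset W) = 0 := by simp [nsq, nc]
    rw [this, zero_mul]; exact hN.le
  have hB0 : (0 : ℝ) < #B := Nat.cast_pos.2 hB.card_pos
  have h1 : ∀ x, nc Y B x ^ 2 ≤
      (cv Y B x : ℝ) * ((Fintype.card W : ℝ) ^ 2 / ((#Y : ℝ) ^ 2 * #B)) := by
    intro x
    have h2 : (cv Y B x : ℝ) ≤ #B := by
      unfold cv; exact_mod_cast card_filter_le _ _
    have h3 : nc Y B x ^ 2 = (cv Y B x : ℝ) * ((cv Y B x : ℝ) *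
        ((Fintype.card W : ℝ) ^ 2 / ((#Y : ℝ) ^ 2 * (#B : ℝ) ^ 2))) := by
      unfold nc; ring
    have h4 : (Fintype.card W : ℝ) ^ 2 / ((#Y : ℝ) ^ 2 * #B) =
        #B * ((Fintype.card W : ℝ) ^ 2 / ((#Y : ℝ) ^ 2 * (#B : ℝ) ^ 2)) := by
      field_simp
    rw [h3, h4]
    gcongr
  have h2 := sum_le_sum fun x (_ : x ∈ (univ : Finset W)) => h1 x
  rw [← sum_mul, sift_sum_cv] at h2
  unfold nsq
  rw [div_mul_eq_mul_div, div_le_iff₀ hN]
  calc (∑ x, nc Y B x ^ 2) * #Y ≤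
        (#Y * #B * ((Fintype.card W : ℝ) ^ 2 / ((#Y : ℝ) ^ 2 * #B))) * #Y := by gcongr
    _ = _ := by field_simp

end Pool.Agent.P.MP_db4732_co.Q
end

-- part Pool.Agent.P.MP_db4732_co.Q.Ext
section

/-! Extremal sifting: a subset on which the self-convolution is almost constant. -/

set_option autoImplicit false

namespace Pool.Agent.P.MP_db4732_co.Q

open Finset

section aux

variable {W : Type} [AddCommGroup W] [Fintype W] [DecidableEq W]

theorem ext_cv (h2 : ∀ x : W, x + x = 0) (Y : Finset W) (x y : W) :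
    cv Y Y (x + y) = #{t : W | t + x ∈ Y ∧ t + y ∈ Y} := by
  unfold cv
  refine card_bij (fun b _ => b + y) (fun b hb => ?_) (fun _ _ _ _ h => add_right_cancel h)
    fun t ht => ⟨t + y, ?_, by rw [add_assoc, h2, add_zero]⟩
  · rw [mem_filter] at hb ⊢
    refine ⟨mem_univ _, ?_, ?_⟩
    · have : b + y + x = x + y + b := by abel
      rw [this]; exact hb.2
    · rw [add_assoc, h2, add_zero]; exact hb.1
  · rw [mem_filter] at ht ⊢
    refine ⟨ht.2.2, ?_⟩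
    have : x + y + (t + y) = t + x + (y + y) := by abel
    rw [this, h2, add_zero]; exact ht.2.1

/-- Dependent random choice as an identity. -/
theorem ext_drc (h2 : ∀ x : W, x + x = 0) (Y A : Finset W) (φ : W → W → ℝ) :
    ∑ x ∈ A, ∑ y ∈ A, (cv Y Y (x + y) : ℝ) * φ x y =
      ∑ t : W, ∑ x ∈ {b ∈ A | t + b ∈ Y}, ∑ y ∈ {b ∈ A | t + b ∈ Y}, φ x y := by
  have h : ∀ x y : W, (cv Y Y (x + y) : ℝ) * φ x y =
      ∑ t : W, if t + x ∈ Y then (if t + y ∈ Y then φ x y else 0) else 0 := by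
    intro x y
    rw [ext_cv h2, ← nsmul_eq_mul, ← sum_const, sum_filter]
    refine sum_congr rfl fun t _ => ?_
    by_cases h1 : t + x ∈ Y <;> by_cases h3 : t + y ∈ Y <;> simp [h1, h3]
  simp_rw [h, sum_filter]
  calc ∑ x ∈ A, ∑ y ∈ A, ∑ t : W, (if t + x ∈ Y then (if t + y ∈ Y then φ x y else 0) else 0)
      = ∑ x ∈ A, ∑ t : W, ∑ y ∈ A,
          (if t + x ∈ Y then (if t + y ∈ Y then φ x y else 0) else 0) :=
        sum_congr rfl fun x _ => sum_comm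
    _ = ∑ t : W, ∑ x ∈ A, ∑ y ∈ A,
          (if t + x ∈ Y then (if t + y ∈ Y then φ x y else 0) else 0) := sum_comm
    _ = _ := by
        refine sum_congr rfl fun t _ => sum_congr rfl fun x _ => ?_
        split_ifs <;> simp

theorem ext_nsq_nonneg (Y A : Finset W) : 0 ≤ nsq Y A := by
  unfold nsq
  positivity

theorem ext_nsq_eq (Y A : Finset W) :
    nsq Y A * (#A : ℝ) ^ 2 =
      (Fintype.card W : ℝ) / (#Y : ℝ) ^ 2 * ∑ t : W, (#{b ∈ A | t + b ∈ Y} : ℝ) ^ 2 := by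
  have hN : (Fintype.card W : ℝ) ≠ 0 := by exact_mod_cast Fintype.card_pos.ne'
  rcases A.eq_empty_or_nonempty with rfl | hA
  · simp
  have hA' : (#A : ℝ) ≠ 0 := by exact_mod_cast hA.card_pos.ne'
  unfold nsq nc cv
  rw [sum_div, sum_mul, mul_sum]
  refine sum_congr rfl fun t _ => ?_
  field_simp

theorem ext_first (h2 : ∀ x : W, x + x = 0) (Y A : Finset W) :
    ∑ x ∈ A, ∑ y ∈ A, nc Y Y (x + y) = nsq Y A * (#A : ℝ) ^ 2 := by
  have h := ext_drc h2 Y A fun _ _ => (Fintype.card W : ℝ) / (#Y : ℝ) ^ 2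
  rw [ext_nsq_eq, mul_sum]
  calc ∑ x ∈ A, ∑ y ∈ A, nc Y Y (x + y)
      = ∑ x ∈ A, ∑ y ∈ A, (cv Y Y (x + y) : ℝ) * ((Fintype.card W : ℝ) / (#Y : ℝ) ^ 2) := by
        refine sum_congr rfl fun x _ => sum_congr rfl fun y _ => ?_
        unfold nc
        ring
    _ = _ := by
        rw [h]
        refine sum_congr rfl fun t _ => ?_
        simp only [sum_const, nsmul_eq_mul]
        ring

theorem ext_second (h2 : ∀ x : W, x + x = 0) (Y A : Finset W) :
    ∑ x ∈ A, ∑ y ∈ A, nc Y Y (x + y) ^ 2 = (Fintype.card W : ℝ) / (#Y : ℝ) ^ 2 *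
      ∑ t : W, nsq Y {b ∈ A | t + b ∈ Y} * (#{b ∈ A | t + b ∈ Y} : ℝ) ^ 2 := by
  have h := ext_drc h2 Y A fun x y => (Fintype.card W : ℝ) / (#Y : ℝ) ^ 2 * nc Y Y (x + y)
  rw [mul_sum]
  calc ∑ x ∈ A, ∑ y ∈ A, nc Y Y (x + y) ^ 2
      = ∑ x ∈ A, ∑ y ∈ A, (cv Y Y (x + y) : ℝ) *
          ((Fintype.card W : ℝ) / (#Y : ℝ) ^ 2 * nc Y Y (x + y)) := by
        refine sum_congr rfl fun x _ => sum_congr rfl fun y _ => ?_
        unfold nc
        ring
    _ = _ := by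
        rw [h]
        refine sum_congr rfl fun t _ => ?_
        rw [← ext_first h2, mul_sum]
        exact sum_congr rfl fun x _ => by rw [mul_sum]

/-- Chebyshev's inequality on pairs. -/
theorem ext_cheb {ι : Type} (A : Finset ι) (f : ι → ι → ℝ) {lam ε η : ℝ} (hlam : 0 < lam)
    (hε : 0 < ε) (hη : η ≤ ε ^ 3) (h1 : ∑ x ∈ A, ∑ y ∈ A, f x y = lam * (#A : ℝ) ^ 2)
    (hsq : ∑ x ∈ A, ∑ y ∈ A, f x y ^ 2 ≤ (1 + η) * lam ^ 2 * (#A : ℝ) ^ 2) :
    (#{q ∈ A ×ˢ A | f q.1 q.2 < (1 - ε) * lam} : ℝ) ≤ ε * #A * #A := by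
  rw [← sum_product'] at h1 hsq
  have hv : ∑ q ∈ A ×ˢ A, (f q.1 q.2 - lam) ^ 2 ≤ η * lam ^ 2 * (#A : ℝ) ^ 2 := by
    have h : ∀ q : ι × ι, (f q.1 q.2 - lam) ^ 2 =
        f q.1 q.2 ^ 2 - 2 * lam * f q.1 q.2 + lam ^ 2 := fun q => by ring
    simp_rw [h]
    rw [sum_add_distrib, sum_sub_distrib, ← mul_sum, h1, sum_const, card_product, nsmul_eq_mul]
    push_cast
    nlinarith
  have hb : (#{q ∈ A ×ˢ A | f q.1 q.2 < (1 - ε) * lam} : ℝ) * (ε * lam) ^ 2 ≤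
      ∑ q ∈ A ×ˢ A, (f q.1 q.2 - lam) ^ 2 := by
    rw [← nsmul_eq_mul, ← sum_const]
    refine le_trans (sum_le_sum fun q hq => ?_)
      (sum_le_sum_of_subset_of_nonneg (filter_subset _ _) fun _ _ _ => sq_nonneg _)
    have h := (mem_filter.1 hq).2
    have h3 : ε * lam ≤ lam - f q.1 q.2 := by linarith
    calc (ε * lam) ^ 2 ≤ (lam - f q.1 q.2) ^ 2 := pow_le_pow_left₀ (by positivity) h3 2
      _ = _ := by ring
  refine le_of_mul_le_mul_right (hb.trans (hv.trans ?_)) (by positivity)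
  calc η * lam ^ 2 * (#A : ℝ) ^ 2 ≤ ε ^ 3 * lam ^ 2 * (#A : ℝ) ^ 2 := by gcongr
    _ = _ := by ring

end aux

theorem ext_sift {ε : ℝ} (hε : 0 < ε) : ∃ K : ℕ, ∀ (W : Type) [AddCommGroup W]
    [Fintype W] [DecidableEq W], (∀ x : W, x + x = 0) → ∀ (Y A₀ : Finset W) (a : ℕ),
    1 ≤ a → Fintype.card W ≤ 2 ^ a * #Y → A₀.Nonempty →
    ∃ A ⊆ A₀, A.Nonempty ∧ nsq Y A₀ ≤ nsq Y A ∧
      #A₀ * nsq Y A₀ ^ (K * a) ≤ #A * nsq Y A ^ (K * a) ∧
      (#{q ∈ A ×ˢ A | nc Y Y (q.1 + q.2) < (1 - ε) * nsq Y A} : ℝ) ≤ ε * #A * #A := by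
  obtain ⟨e, he0, he1, heε⟩ : ∃ e : ℝ, 0 < e ∧ e ≤ 1 ∧ 2 * e ≤ ε ^ 3 :=
    ⟨min 1 (ε ^ 3 / 2), lt_min one_pos (by positivity), min_le_left _ _,
      by linarith [min_le_right 1 (ε ^ 3 / 2)]⟩
  obtain ⟨K, hK1, hK⟩ : ∃ K : ℕ, 1 ≤ K ∧ 4 ≤ e * (1 + e) ^ K := by
    obtain ⟨K, hK⟩ := pow_unbounded_of_one_lt (4 / e) (show (1 : ℝ) < 1 + e by linarith)
    refine ⟨K + 1, by omega, ?_⟩
    rw [div_lt_iff₀ he0] at hK
    have : (1 + e) ^ K ≤ (1 + e) ^ (K + 1) := pow_le_pow_right₀ (by linarith) (by omega)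
    nlinarith
  refine ⟨K, ?_⟩
  intro W _ _ _ h2 Y A₀ a ha hY hA₀
  have hNpos : 0 < Fintype.card W := Fintype.card_pos
  have hN : (0 : ℝ) < Fintype.card W := by exact_mod_cast hNpos
  have hYne : Y.Nonempty := by
    rw [← card_pos]
    by_contra h0
    rw [Nat.eq_zero_of_not_pos h0] at hY
    omega
  have hY0 : (0 : ℝ) < #Y := by exact_mod_cast hYne.card_pos
  have hY' : (Fintype.card W : ℝ) ≤ 2 ^ a * #Y := by exact_mod_cast hY
  have hn : K * a ≠ 0 := Nat.mul_ne_zero (by omega) (by omega)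
  obtain ⟨A, hA, hmax⟩ := exists_max_image {A ∈ A₀.powerset | A.Nonempty}
    (fun A => (#A : ℝ) * nsq Y A ^ (K * a)) ⟨A₀, by simp [hA₀]⟩
  rw [mem_filter, mem_powerset] at hA
  have hmax' : ∀ B ⊆ A₀, B.Nonempty → (#B : ℝ) * nsq Y B ^ (K * a) ≤ #A * nsq Y A ^ (K * a) :=
    fun B hB hB' => hmax B (by rw [mem_filter, mem_powerset]; exact ⟨hB, hB'⟩)
  have hA0 : (0 : ℝ) < #A := by exact_mod_cast hA.2.card_pos
  have hlam : 1 ≤ nsq Y A := one_le_nsq hYne hA.2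
  have hmain := hmax' A₀ Subset.rfl hA₀
  refine ⟨A, hA.1, hA.2, ?_, hmain, ?_⟩
  · refine le_of_pow_le_pow_left₀ hn (by linarith) ?_
    have h1 : (#A : ℝ) ≤ #A₀ := by exact_mod_cast card_le_card hA.1
    refine le_of_mul_le_mul_left (le_trans ?_ hmain) hA0
    exact mul_le_mul_of_nonneg_right h1 (pow_nonneg (ext_nsq_nonneg _ _) _)
  set lam := nsq Y A with hlam_def
  obtain ⟨r, hr⟩ : ∃ r : ℝ, r = 2 ^ a := ⟨_, rfl⟩
  have hr1 : 1 ≤ r := hr ▸ one_le_pow₀ one_le_two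
  have hr0 : 0 < r := by linarith
  rw [← hr] at hY'
  have hrK : r ^ 2 ≤ e * (1 + e) ^ (K * a) := by
    calc r ^ 2 = 4 ^ a := by rw [hr, ← pow_mul, mul_comm, pow_mul]; norm_num
      _ ≤ (e * (1 + e) ^ K) ^ a := pow_le_pow_left₀ (by norm_num) hK a
      _ = e ^ a * (1 + e) ^ (K * a) := by rw [mul_pow, ← pow_mul]
      _ ≤ _ := mul_le_mul_of_nonneg_right (pow_le_of_le_one he0.le he1 (by omega))
          (by positivity)
  have hB : ∀ B ⊆ A, nsq Y B * (#B : ℝ) ^ 2 ≤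
      (1 + e) * lam * (#B : ℝ) ^ 2 + e * (#A : ℝ) ^ 2 / r ^ 2 := by
    intro B hBA
    have hq := ext_nsq_nonneg Y B
    by_cases hc : e * #A ≤ r ^ 2 * #B
    · have hBne : B.Nonempty := by
        rw [← card_pos]
        by_contra h0
        rw [Nat.eq_zero_of_not_pos h0] at hc
        have : 0 < e * (#A : ℝ) := by positivity
        simp at hc
        linarith
      have h1 := hmax' B (hBA.trans hA.1) hBne
      have h3 : nsq Y B ≤ (1 + e) * lam := by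
        refine le_of_pow_le_pow_left₀ hn (by positivity) ?_
        refine le_of_mul_le_mul_left ?_ (mul_pos he0 hA0)
        calc e * #A * nsq Y B ^ (K * a) ≤ r ^ 2 * #B * nsq Y B ^ (K * a) :=
              mul_le_mul_of_nonneg_right hc (pow_nonneg hq _)
          _ = r ^ 2 * (#B * nsq Y B ^ (K * a)) := by ring
          _ ≤ r ^ 2 * (#A * lam ^ (K * a)) := mul_le_mul_of_nonneg_left h1 (by positivity)
          _ ≤ e * (1 + e) ^ (K * a) * (#A * lam ^ (K * a)) :=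
              mul_le_mul_of_nonneg_right hrK (by positivity)
          _ = _ := by rw [mul_pow]; ring
      have h4 : 0 ≤ e * (#A : ℝ) ^ 2 / r ^ 2 := by positivity
      have h5 : nsq Y B * (#B : ℝ) ^ 2 ≤ (1 + e) * lam * (#B : ℝ) ^ 2 :=
        mul_le_mul_of_nonneg_right h3 (by positivity)
      linarith
    · rw [not_le] at hc
      have h1 : nsq Y B ≤ r := le_of_mul_le_mul_right ((nsq_le hYne).trans hY') hY0
      have h3 : (r ^ 2 * #B) ^ 2 ≤ (e * #A) ^ 2 := pow_le_pow_left₀ (by positivity) hc.le 2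
      have h4 : nsq Y B * (#B : ℝ) ^ 2 ≤ e * (#A : ℝ) ^ 2 / r ^ 2 := by
        rw [le_div_iff₀ (by positivity)]
        calc nsq Y B * (#B : ℝ) ^ 2 * r ^ 2 ≤ r ^ 2 * (#B : ℝ) ^ 2 * r ^ 2 := by
              gcongr
              nlinarith
          _ = (r ^ 2 * #B) ^ 2 := by ring
          _ ≤ (e * #A) ^ 2 := h3
          _ = e * (e * (#A : ℝ) ^ 2) := by ring
          _ ≤ 1 * (e * (#A : ℝ) ^ 2) := by gcongr
          _ = _ := one_mul _
      have h5 : 0 ≤ (1 + e) * lam * (#B : ℝ) ^ 2 := by positivity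
      linarith
  refine ext_cheb A (fun x y => nc Y Y (x + y)) (by linarith) hε heε (ext_first h2 Y A) ?_
  rw [ext_second h2]
  have hS := ext_nsq_eq Y A
  rw [← hlam_def] at hS
  have hNY : ((Fintype.card W : ℝ) / #Y) ^ 2 ≤ r ^ 2 :=
    pow_le_pow_left₀ (by positivity) ((div_le_iff₀ hY0).2 hY') 2
  calc (Fintype.card W : ℝ) / (#Y : ℝ) ^ 2 *
        ∑ t : W, nsq Y {b ∈ A | t + b ∈ Y} * (#{b ∈ A | t + b ∈ Y} : ℝ) ^ 2
      ≤ (Fintype.card W : ℝ) / (#Y : ℝ) ^ 2 * ∑ t : W,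
          ((1 + e) * lam * (#{b ∈ A | t + b ∈ Y} : ℝ) ^ 2 + e * (#A : ℝ) ^ 2 / r ^ 2) :=
        mul_le_mul_of_nonneg_left (sum_le_sum fun t _ => hB _ (filter_subset _ _))
          (by positivity)
    _ = (1 + e) * lam * (lam * (#A : ℝ) ^ 2) +
          ((Fintype.card W : ℝ) / #Y) ^ 2 * (e * (#A : ℝ) ^ 2 / r ^ 2) := by
        rw [sum_add_distrib, ← mul_sum, sum_const, card_univ, nsmul_eq_mul, hS]
        ring
    _ ≤ (1 + e) * lam * (lam * (#A : ℝ) ^ 2) + r ^ 2 * (e * (#A : ℝ) ^ 2 / r ^ 2) := by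
        gcongr
    _ = (1 + e) * lam ^ 2 * (#A : ℝ) ^ 2 + e * 1 * (#A : ℝ) ^ 2 := by
        field_simp
    _ ≤ (1 + e) * lam ^ 2 * (#A : ℝ) ^ 2 + e * lam ^ 2 * (#A : ℝ) ^ 2 := by
        gcongr
        exact one_le_pow₀ hlam
    _ = _ := by ring

end Pool.Agent.P.MP_db4732_co.Q
end

-- part Pool.Agent.P.MP_db4732_co.Q.Sym
section

/-! A spread set has a bounded convolution with every dense set. -/

set_option autoImplicit false

namespace Pool.Agent.P.MP_db4732_co.Q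

open Finset

theorem sym_dyadic {x y : ℝ} {a : ℕ} (hx : 1 ≤ x) (hxy : x ≤ y) (hy : y ≤ 2 ^ a) :
    ∃ i : ℕ, i ≤ a ∧ y ≤ 2 ^ i * x ∧ 2 ^ i * x ≤ 2 * y := by
  classical
  have ha : y ≤ 2 ^ a * x := hy.trans (le_mul_of_one_le_right (by positivity) hx)
  have hex : ∃ i : ℕ, y ≤ 2 ^ i * x := ⟨a, ha⟩
  refine ⟨Nat.find hex, Nat.find_min' hex ha, Nat.find_spec hex, ?_⟩
  rcases h : Nat.find hex with _ | i
  · rw [pow_zero]; linarith
  · have := Nat.find_min hex (m := i) (by omega)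
    rw [pow_succ]
    linarith [not_le.1 this]

theorem sym_exp {θ : ℝ} {K₁ K₂ a l i j : ℕ} (hθ : 0 ≤ θ) (hi : i ≤ a)
    (h1 : θ * (((32 * K₂ * (K₁ ^ 2 + 1) : ℕ) : ℝ) * l ^ 2) ≤ j)
    (h2 : θ * (((32 * K₂ * (K₁ ^ 2 + 1) : ℕ) : ℝ) * a ^ 3) ≤ 1) :
    ((K₂ * 4 ^ 2 * (l + K₁ * a * i) ^ 2 : ℕ) : ℝ) * θ ≤ ((j + i : ℕ) : ℝ) := by
  have e1 : K₂ * 4 ^ 2 * (l + K₁ * a * i) ^ 2 ≤
      32 * K₂ * (K₁ ^ 2 + 1) * l ^ 2 + 32 * K₂ * (K₁ ^ 2 + 1) * a ^ 3 * i := by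
    have f1 : (l + K₁ * a * i) ^ 2 ≤ 2 * l ^ 2 + 2 * (K₁ * a * i) ^ 2 := by
      nlinarith [sq_nonneg ((l : ℤ) - K₁ * a * i)]
    have f2 : (K₁ * a * i) ^ 2 ≤ K₁ ^ 2 * a ^ 3 * i := by
      calc (K₁ * a * i) ^ 2 = K₁ ^ 2 * a ^ 2 * i * i := by ring
        _ ≤ K₁ ^ 2 * a ^ 2 * i * a := Nat.mul_le_mul_left _ hi
        _ = _ := by ring
    calc K₂ * 4 ^ 2 * (l + K₁ * a * i) ^ 2
        ≤ K₂ * 4 ^ 2 * (2 * l ^ 2 + 2 * (K₁ ^ 2 * a ^ 3 * i)) := by
          refine Nat.mul_le_mul_left _ (f1.trans ?_)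
          omega
      _ = 32 * K₂ * 1 * l ^ 2 + 32 * K₂ * K₁ ^ 2 * a ^ 3 * i := by ring
      _ ≤ _ := by gcongr <;> omega
  have e2 : ((K₂ * 4 ^ 2 * (l + K₁ * a * i) ^ 2 : ℕ) : ℝ) ≤
      ((32 * K₂ * (K₁ ^ 2 + 1) : ℕ) : ℝ) * l ^ 2 +
        ((32 * K₂ * (K₁ ^ 2 + 1) : ℕ) : ℝ) * a ^ 3 * i := by exact_mod_cast e1
  have e3 := mul_le_mul_of_nonneg_right e2 hθ
  have e4 := mul_le_mul_of_nonneg_right h2 (Nat.cast_nonneg (α := ℝ) i)
  rw [Nat.cast_add j i]
  nlinarith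

theorem nsq_of_spread : ∃ K : ℕ, ∀ (W : Type) [AddCommGroup W] [Fintype W] [DecidableEq W],
    (∀ x : W, x + x = 0) → ∀ (Y A : Finset W) (a l j : ℕ) (ρ θ : ℝ), 1 ≤ a → 1 ≤ l → 0 ≤ θ →
    Fintype.card W ≤ 2 ^ a * #Y → Fintype.card W ≤ 2 ^ l * #A → Spread ρ θ ⊤ Y →
    θ * (K * l ^ 2) ≤ j → θ * (K * a ^ 3) ≤ 1 → nsq Y A ≤ 4 * ρ * 2 ^ j := by
  obtain ⟨K₁, hK₁⟩ := ext_sift (ε := 1 / 10) (by norm_num)
  obtain ⟨K₂, hK₂⟩ := core (ε := 1 / 10) (by norm_num)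
  refine ⟨32 * K₂ * (K₁ ^ 2 + 1), ?_⟩
  intro W _ _ _ h2 Y A a l j ρ θ ha hl hθ hY hA hS hj ha3
  have hNn : 0 < Fintype.card W := Fintype.card_pos
  have hN : (0 : ℝ) < Fintype.card W := by exact_mod_cast hNn
  have hYn : Y.Nonempty := by
    rw [← card_pos]
    exact Nat.pos_of_mul_pos_left (hNn.trans_le hY)
  have hAn : A.Nonempty := by
    rw [← card_pos]
    exact Nat.pos_of_mul_pos_left (hNn.trans_le hA)
  have hYp : (0 : ℝ) < #Y := by exact_mod_cast card_pos.2 hYn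
  have hρ : 1 ≤ ρ := by
    have := hS ⊤ le_rfl 0
    rw [cs_top, inter_univ, card_top] at this
    have hp : (0 : ℝ) < #Y * (Fintype.card W : ℝ) ^ (1 - θ) := by positivity
    nlinarith
  by_contra hc
  rw [not_le] at hc
  obtain ⟨A', -, hA'n, hle, hcard, hbad⟩ := hK₁ W h2 Y A a ha hY hAn
  have h2j : (1 : ℝ) ≤ 2 ^ j := one_le_pow₀ (by norm_num)
  have h0 : 1 ≤ nsq Y A := by nlinarith
  have hup : nsq Y A' ≤ 2 ^ a := by
    have e1 := nsq_le (B := A') hYn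
    have e2 : (Fintype.card W : ℝ) ≤ 2 ^ a * #Y := by exact_mod_cast hY
    exact le_of_mul_le_mul_right (e1.trans e2) hYp
  obtain ⟨i, hia, hi1, hi2⟩ := sym_dyadic h0 hle hup
  have hlam : 0 ≤ nsq Y A' := by linarith
  have hAA : #A ≤ 2 ^ (K₁ * a * i) * #A' := by
    have hp : (0 : ℝ) < nsq Y A ^ (K₁ * a) := by positivity
    have e1 : (#A : ℝ) * nsq Y A ^ (K₁ * a) ≤ 2 ^ (K₁ * a * i) * #A' * nsq Y A ^ (K₁ * a) := by
      calc (#A : ℝ) * nsq Y A ^ (K₁ * a) ≤ #A' * nsq Y A' ^ (K₁ * a) := hcard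
        _ ≤ #A' * (2 ^ i * nsq Y A) ^ (K₁ * a) := by gcongr
        _ = _ := by rw [mul_pow, ← pow_mul, mul_comm i]; ring
    exact_mod_cast le_of_mul_le_mul_right e1 hp
  have hA' : Fintype.card W ≤ 2 ^ (l + K₁ * a * i) * #A' := by
    rw [pow_add, mul_assoc]
    exact hA.trans (Nat.mul_le_mul_left _ hAA)
  obtain ⟨V, z, hV, hz⟩ := hK₂ W h2 Y Y A' A' (l + K₁ * a * i) 4 ((1 - 1 / 10) * nsq Y A')
    (by omega) (by norm_num) hYn hYn hA' hA' (by positivity) hbad (by nlinarith)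
  have hsp := hS V le_top z
  rw [card_top] at hsp
  have hv : (0 : ℝ) < Nat.card V := by exact_mod_cast Nat.card_pos
  set E := K₂ * 4 ^ 2 * (l + K₁ * a * i) ^ 2 with hE
  have hexp : (E : ℝ) * θ ≤ ((j + i : ℕ) : ℝ) := sym_exp hθ hia hj ha3
  set N : ℝ := (Fintype.card W : ℝ) with hNdef
  set v : ℝ := (Nat.card V : ℝ) with hvdef
  have hNv : N ^ θ ≤ 2 ^ (j + i) * v ^ θ := by
    have e1 : N ≤ 2 ^ E * v := by rw [hNdef, hvdef]; exact_mod_cast hV
    calc N ^ θ ≤ (2 ^ E * v) ^ θ := Real.rpow_le_rpow hN.le e1 hθ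
      _ = (2 : ℝ) ^ ((E : ℝ) * θ) * v ^ θ := by
        rw [Real.mul_rpow (by positivity) hv.le, Real.rpow_natCast_mul (by norm_num)]
      _ ≤ (2 : ℝ) ^ (((j + i : ℕ) : ℝ)) * v ^ θ := by
        gcongr
        norm_num
      _ = _ := by rw [Real.rpow_natCast]
  have hNs : N ^ (1 - θ) * N ^ θ = N := by
    rw [← Real.rpow_add hN]; simp
  have hvs : v ^ (1 - θ) * v ^ θ = v := by
    rw [← Real.rpow_add hv]; simp
  have p1 : 0 < N ^ (1 - θ) := by positivity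
  have p2 : 0 < v ^ (1 - θ) := by positivity
  have p3 : 0 < v ^ θ := by positivity
  have key : (63 / 100 * nsq Y A') * (#Y * v) ≤ (ρ * 2 ^ (j + i)) * (#Y * v) := by
    calc (63 / 100 * nsq Y A') * (#Y * v)
        = (1 - 3 * (1 / 10)) * ((1 - 1 / 10) * nsq Y A') * #Y * v := by ring
      _ ≤ #(Y ∩ cs V z) * N := hz
      _ = #(Y ∩ cs V z) * N ^ (1 - θ) * N ^ θ := by rw [mul_assoc, hNs]
      _ ≤ ρ * #Y * v ^ (1 - θ) * (2 ^ (j + i) * v ^ θ) := by gcongr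
      _ = (ρ * 2 ^ (j + i)) * (#Y * (v ^ (1 - θ) * v ^ θ)) := by ring
      _ = _ := by rw [hvs]
  have key2 := le_of_mul_le_mul_right key (by positivity)
  rw [pow_add] at key2
  have h2i : (0 : ℝ) < 2 ^ i := by positivity
  have e5 : 2 ^ i * (4 * ρ * 2 ^ j) < 2 ^ i * nsq Y A := mul_lt_mul_of_pos_left hc h2i
  have e6 : 0 < ρ * (2 ^ j * 2 ^ i) := by positivity
  nlinarith

end Pool.Agent.P.MP_db4732_co.Q
end

-- part Pool.Agent.P.MP_db4732_co.Q.KM
section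

/-! Spread sets have no dense rectangles. -/

set_option autoImplicit false

namespace Pool.Agent.P.MP_db4732_co.Q

open Finset

theorem km_pow {N v M : ℕ} {θ : ℝ} (hθ : 0 ≤ θ) (h : N ≤ 2 ^ M * v) :
    (N : ℝ) ^ θ ≤ Real.exp (θ * M) * (v : ℝ) ^ θ := by
  have h1 : (N : ℝ) ≤ Real.exp M * v := by
    have h2 : (N : ℝ) ≤ 2 ^ M * v := by exact_mod_cast h
    refine h2.trans (mul_le_mul_of_nonneg_right ?_ (Nat.cast_nonneg _))
    rw [← Real.exp_one_pow]
    exact pow_le_pow_left₀ zero_le_two (by linarith [Real.add_one_le_exp 1]) _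
  refine (Real.rpow_le_rpow (Nat.cast_nonneg _) h1 hθ).trans_eq ?_
  rw [Real.mul_rpow (Real.exp_pos _).le (Nat.cast_nonneg _), ← Real.exp_mul, mul_comm θ]

theorem km_split {x : ℝ} (hx : 0 < x) (θ : ℝ) : x ^ θ * x ^ (1 - θ) = x := by
  rw [← Real.rpow_add hx]; simp

theorem km_coset {W : Type} [AddCommGroup W] [Fintype W] [DecidableEq W] {Y : Finset W}
    {ρ θ g : ℝ} {M : ℕ} (h : Spread ρ θ ⊤ Y) (hY : Y.Nonempty) (hρ : 0 ≤ ρ) (hθ : 0 ≤ θ)
    {V : AddSubgroup W} {z : W} (hV : Fintype.card W ≤ 2 ^ M * Nat.card V)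
    (hg : g * #Y * Nat.card V ≤ #(Y ∩ cs V z) * (Fintype.card W : ℝ)) :
    g ≤ ρ * Real.exp (θ * M) := by
  have h1 := h V le_top z
  rw [card_top] at h1
  have hv : (0 : ℝ) < Nat.card V := by exact_mod_cast Nat.card_pos
  have hN : (0 : ℝ) < Fintype.card W := by exact_mod_cast Fintype.card_pos
  have hy : (0 : ℝ) < #Y := by exact_mod_cast card_pos.2 hY
  have h2 := km_pow hθ hV
  refine le_of_mul_le_mul_right ?_ (mul_pos hy hv)
  calc g * (#Y * Nat.card V) = g * #Y * Nat.card V := by ring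
    _ ≤ #(Y ∩ cs V z) * (Fintype.card W : ℝ) := hg
    _ = #(Y ∩ cs V z) * (Fintype.card W : ℝ) ^ (1 - θ) * (Fintype.card W : ℝ) ^ θ := by
      rw [mul_assoc, mul_comm (_ ^ (1 - θ)), km_split hN]
    _ ≤ ρ * #Y * (Nat.card V : ℝ) ^ (1 - θ) * (Real.exp (θ * M) * (Nat.card V : ℝ) ^ θ) :=
      mul_le_mul h1 h2 (Real.rpow_nonneg hN.le _) (by positivity)
    _ = ρ * Real.exp (θ * M) * (#Y * ((Nat.card V : ℝ) ^ θ * (Nat.card V : ℝ) ^ (1 - θ))) := by ring
    _ = _ := by rw [km_split hv]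

theorem km_pick {u₀ : ℝ} (hu : 1 < u₀) : ∃ K : ℕ, ∀ (ι : Type) (s : Finset ι) (c t : ι → ℝ)
    (m u : ℝ), s.Nonempty → 0 < m → u₀ ≤ u → (∀ z, 0 ≤ c z) → (∀ z, 0 ≤ t z) →
    (∀ z, c z = 0 → t z = 0) → ∑ z ∈ s, c z = #s * m → u ^ 6 * (#s * m) ≤ ∑ z ∈ s, t z →
    ∃ z, ∃ σ : ℝ, u ^ 2 ≤ σ ∧ 0 < c z ∧ σ ^ 2 * c z ≤ t z ∧ m ≤ σ ^ K * c z := by
  have hη : 0 < u₀ - 1 := by linarith
  obtain ⟨K, hK⟩ := pow_unbounded_of_one_lt (2 / (u₀ - 1)) hu
  rw [div_lt_iff₀ hη] at hK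
  refine ⟨K + 2, fun ι s c t m u hs hm huu hc ht h0 h1 h2 => ?_⟩
  by_contra hcon
  push Not at hcon
  have hu1 : 1 ≤ u := by linarith
  have h3 : ∀ z ∈ s, t z ≤ u ^ 4 * c z + (u₀ - 1) / 2 * m := by
    intro z _
    have hm' : 0 ≤ (u₀ - 1) / 2 * m := by positivity
    have hc' : 0 ≤ u ^ 4 * c z := mul_nonneg (by positivity) (hc z)
    rcases (hc z).eq_or_lt with h | h
    · rw [h0 z h.symm]; linarith
    have hq : √(t z / c z) ^ 2 * c z = t z := by
      rw [Real.sq_sqrt (div_nonneg (ht z) h.le), div_mul_cancel₀ _ h.ne']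
    generalize hσ : √(t z / c z) = σ at hq
    have hσ0 : 0 ≤ σ := hσ ▸ Real.sqrt_nonneg _
    rcases le_or_gt (u ^ 2) σ with h4 | h4
    · have h5 := hcon z σ h4 h hq.le
      have h6 : u₀ ^ K ≤ σ ^ K := pow_le_pow_left₀ (by linarith) (by nlinarith) _
      have h7 : u₀ ^ K * t z ≤ m := by
        calc u₀ ^ K * t z ≤ σ ^ K * t z := mul_le_mul_of_nonneg_right h6 (ht z)
          _ = σ ^ (K + 2) * c z := by rw [← hq]; ring
          _ ≤ m := h5.le
      nlinarith [mul_le_mul_of_nonneg_right hK.le (ht z), mul_le_mul_of_nonneg_left h7 hη.le]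
    · have h5 : σ ^ 2 ≤ (u ^ 2) ^ 2 := pow_le_pow_left₀ hσ0 h4.le _
      nlinarith [mul_le_mul_of_nonneg_right h5 h.le]
  have h4 := sum_le_sum h3
  rw [sum_add_distrib, ← mul_sum, h1, sum_const, nsmul_eq_mul] at h4
  have hn : (0 : ℝ) < #s * m := mul_pos (by exact_mod_cast card_pos.2 hs) hm
  have h5 : u ^ 4 + (u₀ - 1) / 2 < u ^ 6 := by
    have h6 : 1 ≤ u ^ 4 := one_le_pow₀ hu1
    have h7 : u₀ - 1 ≤ u ^ 2 - 1 := by nlinarith
    nlinarith [mul_le_mul h6 h7 hη.le (by linarith : (0 : ℝ) ≤ u ^ 4)]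
  nlinarith [mul_lt_mul_of_pos_right h5 hn]

theorem km_inner {ε σ₀ : ℝ} (hε : 0 < ε) (hσ₀ : 1 < σ₀) : ∃ K : ℕ, ∀ (W : Type) [AddCommGroup W]
    [Fintype W] [DecidableEq W], (∀ x : W, x + x = 0) → ∀ (Y B C : Finset W) (a p j : ℕ)
    (σ l ρ θ η : ℝ), 1 ≤ a → 1 ≤ p → 1 ≤ j → σ₀ ≤ σ → 1 ≤ l → 0 ≤ ρ → ρ ≤ l → 0 ≤ θ → θ ≤ η →
    Fintype.card W ≤ 2 ^ a * #Y → Fintype.card W ≤ 2 ^ a * #B →
    (Fintype.card W : ℝ) ≤ σ ^ p * #C → σ * l * #Y * #B * #C ≤ tri Y B C * (Fintype.card W : ℝ) →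
    Spread ρ θ ⊤ Y → Spread 1 η ⊤ B → η * (K * a ^ 2 * p ^ 2) ≤ j → η * (K * a ^ 3) ≤ 1 →
    (1 - 3 * ε) * l ≤ ρ * Real.exp (θ * (K * j ^ 2 * a ^ 2 * p ^ 2)) := by
  obtain ⟨K₁, hsift⟩ := sift hε hσ₀
  obtain ⟨K₂, hsym⟩ := nsq_of_spread
  obtain ⟨K₃, hcore⟩ := core hε
  obtain ⟨k₁, hk₁⟩ := pow_unbounded_of_one_lt (4 / ε) (one_lt_two : (1 : ℝ) < 2)
  rw [div_lt_iff₀ hε] at hk₁
  refine ⟨(K₂ + K₃ * (k₁ + 1) ^ 2) * (K₁ + 1) ^ 2, fun W _ _ _ h2 Y B C a p j σ l ρ θ η ha hp hj hσ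
    hl hρ hρl hθ hθη hY hB hC ht sY sB e1 e2 => ?_⟩
  obtain ⟨A₁, A₂, hA₁, hA₂, hbad⟩ := hsift W h2 Y B C a p σ l ha hp hσ hl hY hB hC ht
  have hN : 0 < Fintype.card W := Fintype.card_pos
  have hYne : Y.Nonempty := card_pos.1 (Nat.pos_of_mul_pos_left (hN.trans_le hY))
  have hBne : B.Nonempty := card_pos.1 (Nat.pos_of_mul_pos_left (hN.trans_le hB))
  have hm : 2 ^ (K₁ * a * p) ≤ 2 ^ ((K₁ + 1) * a * p) := Nat.pow_le_pow_right two_pos
    (Nat.mul_le_mul_right _ (Nat.mul_le_mul_right _ (Nat.le_succ _)))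
  have hA₁' := hA₁.trans (Nat.mul_le_mul_right _ hm)
  have hA₂' := hA₂.trans (Nat.mul_le_mul_right _ hm)
  have hl1 : 1 ≤ (K₁ + 1) * a * p := Nat.mul_pos (Nat.mul_pos (Nat.succ_pos _) ha) hp
  have hη : 0 ≤ η := hθ.trans hθη
  have hKK : (K₂ : ℝ) * (K₁ + 1) ^ 2 ≤ (((K₂ + K₃ * (k₁ + 1) ^ 2) * (K₁ + 1) ^ 2 : ℕ) : ℝ) := by
    push_cast
    exact mul_le_mul_of_nonneg_right (le_add_of_nonneg_right (by positivity)) (by positivity)
  have f1 : η * (K₂ * (((K₁ + 1) * a * p : ℕ) : ℝ) ^ 2) ≤ j := by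
    refine le_trans (mul_le_mul_of_nonneg_left ?_ hη) e1
    calc (K₂ : ℝ) * (((K₁ + 1) * a * p : ℕ) : ℝ) ^ 2 = K₂ * (K₁ + 1) ^ 2 * a ^ 2 * p ^ 2 := by
          push_cast; ring
      _ ≤ _ := mul_le_mul_of_nonneg_right (mul_le_mul_of_nonneg_right hKK (by positivity))
          (by positivity)
  have f2 : η * (K₂ * (a : ℝ) ^ 3) ≤ 1 := by
    refine le_trans (mul_le_mul_of_nonneg_left (mul_le_mul_of_nonneg_right (le_trans ?_ hKK)
      (by positivity)) hη) e2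
    exact le_mul_of_one_le_right (Nat.cast_nonneg _)
      (one_le_pow₀ (le_add_of_nonneg_left (Nat.cast_nonneg _)))
  have n1 := hsym W h2 Y A₁ a _ j ρ θ ha hl1 hθ hY hA₁' sY
    ((mul_le_mul_of_nonneg_right hθη (by positivity)).trans f1)
    ((mul_le_mul_of_nonneg_right hθη (by positivity)).trans f2)
  have n2 := hsym W h2 B A₂ a _ j 1 η ha hl1 hη hB hA₂' sB f1 f2
  have n3 : 0 ≤ nsq B A₂ := by unfold nsq; positivity
  have hk : j + k₁ ≤ (k₁ + 1) * j := by nlinarith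
  obtain ⟨V, z, hV, hg⟩ := hcore W h2 Y B A₁ A₂ _ ((k₁ + 1) * j) l hl1
    (Nat.mul_pos (Nat.succ_pos _) hj) hYne hBne hA₁' hA₂' (by linarith) hbad (by
      have h4 : (2 : ℝ) ^ j * 2 ^ k₁ ≤ 2 ^ ((k₁ + 1) * j) := by
        rw [← pow_add]; exact pow_le_pow_right₀ one_le_two hk
      have h5 : (0 : ℝ) < 2 ^ j := by positivity
      have h6 : 4 * l * 2 ^ j ≤ ε * l * 2 ^ ((k₁ + 1) * j) := by
        calc 4 * l * 2 ^ j ≤ 2 ^ k₁ * ε * l * 2 ^ j := mul_le_mul_of_nonneg_right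
              (mul_le_mul_of_nonneg_right hk₁.le (by linarith)) h5.le
          _ = ε * l * (2 ^ j * 2 ^ k₁) := by ring
          _ ≤ _ := mul_le_mul_of_nonneg_left h4 (mul_nonneg hε.le (by linarith))
      calc nsq Y A₁ * nsq B A₂ ≤ 4 * ρ * 2 ^ j * (4 * 1 * 2 ^ j) :=
            mul_le_mul n1 n2 n3 (by positivity)
        _ = ρ * (4 * 2 ^ j) ^ 2 := by ring
        _ ≤ l ^ 2 * (4 * 2 ^ j) ^ 2 := mul_le_mul_of_nonneg_right (by nlinarith) (by positivity)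
        _ = (4 * l * 2 ^ j) ^ 2 := by ring
        _ ≤ _ := pow_le_pow_left₀ (by positivity) h6 2)
  refine (km_coset sY hYne hρ hθ hV hg).trans (mul_le_mul_of_nonneg_left
    (Real.exp_le_exp.2 (mul_le_mul_of_nonneg_left ?_ hθ)) hρ)
  have h7 : K₃ * ((k₁ + 1) * j) ^ 2 * ((K₁ + 1) * a * p) ^ 2 ≤
      (K₂ + K₃ * (k₁ + 1) ^ 2) * (K₁ + 1) ^ 2 * j ^ 2 * a ^ 2 * p ^ 2 :=
    calc _ = K₃ * (k₁ + 1) ^ 2 * ((K₁ + 1) ^ 2 * j ^ 2 * a ^ 2 * p ^ 2) := by ring
      _ ≤ (K₂ + K₃ * (k₁ + 1) ^ 2) * ((K₁ + 1) ^ 2 * j ^ 2 * a ^ 2 * p ^ 2) :=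
        Nat.mul_le_mul_right _ (Nat.le_add_left _ _)
      _ = _ := by ring
  exact_mod_cast h7

theorem km_sub {W : Type} [AddCommGroup W] [Fintype W] [DecidableEq W] (h2 : ∀ x : W, x + x = 0)
    {B : Finset W} {a m : ℕ} (hm : 1 ≤ m) (hB : Fintype.card W ≤ 2 ^ a * #B) :
    ∃ (V : AddSubgroup W) (b : W), Spread 1 (1 / m) V (B ∩ cs V b) ∧
      Nat.card V ≤ 2 ^ a * #(B ∩ cs V b) ∧ Fintype.card W ≤ 2 ^ (a * m) * Nat.card V := by
  have hBne : B.Nonempty := card_pos.1 (Nat.pos_of_mul_pos_left (Fintype.card_pos.trans_le hB))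
  obtain ⟨V, -, b, -, hs, h⟩ := exists_spread h2 (1 / m) ⊤ 0 hBne (by rw [cs_top]; exact subset_univ _)
  rw [card_top] at h
  refine ⟨V, b, hs, ?_⟩
  generalize hη : (1 / m : ℝ) = η at h
  have hη0 : 0 ≤ η := by rw [← hη]; positivity
  have hηm : η * m = 1 := by rw [← hη]; field_simp
  have hv : (0 : ℝ) < Nat.card V := by exact_mod_cast Nat.card_pos
  have hN : (0 : ℝ) < Fintype.card W := by exact_mod_cast Fintype.card_pos
  have hB' : (Fintype.card W : ℝ) ≤ 2 ^ a * #B := by exact_mod_cast hB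
  have hvN : (Nat.card V : ℝ) ≤ Fintype.card W := by
    rw [← card_cs V b]; exact_mod_cast card_le_univ _
  have hbv : (#(B ∩ cs V b) : ℝ) ≤ Nat.card V := by
    rw [← card_cs V b]; exact_mod_cast card_le_card inter_subset_right
  have p1 := Real.rpow_pos_of_pos hv (1 - η)
  have p2 := Real.rpow_pos_of_pos hN (1 - η)
  have key : (Fintype.card W : ℝ) ^ η * (Nat.card V : ℝ) ^ (1 - η) ≤ 2 ^ a * #(B ∩ cs V b) := by
    refine le_of_mul_le_mul_right ?_ p2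
    calc _ = (Fintype.card W : ℝ) ^ η * (Fintype.card W : ℝ) ^ (1 - η) *
          (Nat.card V : ℝ) ^ (1 - η) := by ring
      _ ≤ 2 ^ a * #B * (Nat.card V : ℝ) ^ (1 - η) := by
        rw [km_split hN]; exact mul_le_mul_of_nonneg_right hB' p1.le
      _ = 2 ^ a * (#B * (Nat.card V : ℝ) ^ (1 - η)) := by ring
      _ ≤ 2 ^ a * (#(B ∩ cs V b) * (Fintype.card W : ℝ) ^ (1 - η)) :=
        mul_le_mul_of_nonneg_left h (by positivity)
      _ = _ := by ring
  constructor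
  · have : (Nat.card V : ℝ) ≤ 2 ^ a * #(B ∩ cs V b) := by
      refine le_trans ?_ key
      nth_rewrite 1 [← km_split hv η]
      exact mul_le_mul_of_nonneg_right (Real.rpow_le_rpow hv.le hvN hη0) p1.le
    exact_mod_cast this
  · have h3 : (Fintype.card W : ℝ) ^ η ≤ 2 ^ a * (Nat.card V : ℝ) ^ η := by
      refine le_of_mul_le_mul_right (key.trans ?_) p1
      rw [mul_assoc, km_split hv]
      exact mul_le_mul_of_nonneg_left hbv (by positivity)
    have h4 := pow_le_pow_left₀ (Real.rpow_nonneg hN.le _) h3 m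
    rw [mul_pow, ← Real.rpow_natCast (_ ^ η), ← Real.rpow_natCast (_ ^ η), ← Real.rpow_mul hN.le,
      ← Real.rpow_mul hv.le, hηm, Real.rpow_one, Real.rpow_one, ← pow_mul] at h4
    exact_mod_cast h4

theorem km_pop {W : Type} [AddCommGroup W] [Fintype W] [DecidableEq W] {Y B C : Finset W}
    {a k : ℕ} {w : ℝ} (hw : 0 ≤ w) (hk : 1 ≤ 2 ^ k * (w ^ 2 - w))
    (hY : Fintype.card W ≤ 2 ^ a * #Y) (hC : C.Nonempty)
    (h : w ^ 2 * #Y * #B * #C ≤ tri Y B C * (Fintype.card W : ℝ)) :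
    #B ≤ 2 ^ (a + k) * #{x ∈ B | w * #Y * #C ≤ cv Y C x * (Fintype.card W : ℝ)} := by
  classical
  generalize hB₁ : {x ∈ B | w * #Y * #C ≤ cv Y C x * (Fintype.card W : ℝ)} = B₁
  have hN : (0 : ℝ) < Fintype.card W := by exact_mod_cast Fintype.card_pos
  have hY' : (Fintype.card W : ℝ) ≤ 2 ^ a * #Y := by exact_mod_cast hY
  have hy : (0 : ℝ) < #Y := by
    exact_mod_cast Nat.pos_of_mul_pos_left (Fintype.card_pos.trans_le hY)
  have hc : (0 : ℝ) < #C := by exact_mod_cast card_pos.2 hC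
  have h1 : (tri Y B C : ℝ) * Fintype.card W ≤ #B * (w * #Y * #C) + #B₁ * (#C * Fintype.card W) := by
    rw [tri_comm]
    unfold tri
    push_cast
    rw [sum_mul]
    calc _ ≤ ∑ x ∈ B, (w * #Y * #C + if x ∈ B₁ then (#C : ℝ) * Fintype.card W else 0) := by
          refine sum_le_sum fun x hx => ?_
          split_ifs with h3
          · have : (cv Y C x : ℝ) ≤ #C := by exact_mod_cast card_filter_le _ _
            exact le_add_of_nonneg_of_le (by positivity) (mul_le_mul_of_nonneg_right this hN.le)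
          · rw [← hB₁, mem_filter, not_and, not_le] at h3
            rw [add_zero]; exact (h3 hx).le
      _ = _ := by
          rw [sum_add_distrib, sum_const, nsmul_eq_mul, sum_ite_mem, sum_const, nsmul_eq_mul,
            inter_eq_right.2 (hB₁ ▸ filter_subset _ _)]
  have h3 : (w ^ 2 - w) * #B * (#Y * #C) ≤ 2 ^ a * #B₁ * (#Y * #C) := by
    have := mul_le_mul_of_nonneg_left hY' (show (0 : ℝ) ≤ #B₁ * #C by positivity)
    nlinarith
  have h4 := le_of_mul_le_mul_right h3 (mul_pos hy hc)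
  have : (#B : ℝ) ≤ 2 ^ (a + k) * #B₁ := by
    calc (#B : ℝ) ≤ 2 ^ k * (w ^ 2 - w) * #B := le_mul_of_one_le_left (Nat.cast_nonneg _) hk
      _ = 2 ^ k * ((w ^ 2 - w) * #B) := by ring
      _ ≤ 2 ^ k * (2 ^ a * #B₁) := mul_le_mul_of_nonneg_left h4 (by positivity)
      _ = _ := by ring
  exact_mod_cast this

theorem km_num {K c q a p j : ℕ} (ha : 1 ≤ a) (hc : 1 ≤ c) (hq : 1 ≤ q) (h1 : a ≤ j ^ 3)
    (h2 : a ≤ j * p) :
    K * (c * a) ^ 2 * (q * p) ^ 2 ≤ j * ((K + 1) * c ^ 3 * q ^ 2 * j ^ 2 * a * p ^ 2) ∧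
    K * (c * a) ^ 3 ≤ (K + 1) * c ^ 3 * q ^ 2 * j ^ 2 * a * p ^ 2 ∧
    K * j ^ 2 * (c * a) ^ 2 * (q * p) ^ 2 ≤ c * a * ((K + 1) * c ^ 3 * q ^ 2 * j ^ 2 * a * p ^ 2) := by
  refine ⟨?_, ?_, ?_⟩
  · calc _ = K * (c ^ 2 * 1) * q ^ 2 * a * a * p ^ 2 := by ring
      _ ≤ (K + 1) * (c ^ 2 * c) * q ^ 2 * j ^ 3 * a * p ^ 2 := by gcongr; omega
      _ = _ := by ring
  · calc _ = K * c ^ 3 * 1 ^ 2 * a ^ 2 * a := by ring
      _ ≤ (K + 1) * c ^ 3 * q ^ 2 * (j * p) ^ 2 * a := by gcongr; omega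
      _ = _ := by ring
  · calc _ = K * (c ^ 2 * 1 ^ 2) * q ^ 2 * j ^ 2 * a ^ 2 * p ^ 2 := by ring
      _ ≤ (K + 1) * (c ^ 2 * c ^ 2) * q ^ 2 * j ^ 2 * a ^ 2 * p ^ 2 := by gcongr; omega
      _ = _ := by ring

theorem up_of_spread {l₀ : ℝ} (hl : 1 < l₀) : ∃ κ : ℝ, 1 < κ ∧ ∃ K : ℕ, ∀ (W : Type)
    [AddCommGroup W] [Fintype W] [DecidableEq W], (∀ x : W, x + x = 0) →
    ∀ (Y : Finset W) (a p j : ℕ) (l θ : ℝ), 1 ≤ a → a ≤ j ^ 3 → a ≤ j * p → l₀ ≤ l → 0 ≤ θ →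
    Fintype.card W ≤ 2 ^ a * #Y → Spread κ θ ⊤ Y →
    θ * (K * j ^ 2 * a ^ 2 * p ^ 2) ≤ Real.log l → Up Y a l p := by
  obtain ⟨u₀, hu₀⟩ : ∃ u₀, u₀ = Real.exp (Real.log l₀ / 12) := ⟨_, rfl⟩
  have hu1 : 1 < u₀ := by
    rw [hu₀]; exact Real.one_lt_exp_iff.2 (div_pos (Real.log_pos hl) (by norm_num))
  have hu2 : 0 < u₀ - 1 := by linarith
  obtain ⟨ε, hε⟩ : ∃ ε, ε = (u₀ - 1) / (8 * u₀) := ⟨_, rfl⟩
  have hε0 : 0 < ε := by rw [hε]; positivity
  have hε1 : (1 - 3 * ε) * u₀ = (5 * u₀ + 3) / 8 := by rw [hε]; field_simp; ring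
  have hε2 : 0 < 1 - 3 * ε := by
    by_contra h
    push Not at h
    nlinarith
  obtain ⟨K₁, hin⟩ := km_inner hε0 hu1
  obtain ⟨K₂, hpick⟩ := km_pick hu1
  obtain ⟨k₀, hk₀⟩ := pow_unbounded_of_one_lt (1 / (u₀ - 1)) (one_lt_two : (1 : ℝ) < 2)
  rw [div_lt_iff₀ hu2] at hk₀
  obtain ⟨κ, hκ⟩ : ∃ κ, κ = (1 + u₀) / 2 := ⟨_, rfl⟩
  have hκ1 : 1 < κ := by linarith
  refine ⟨κ, hκ1, 24 * ((k₀ + 3) * ((K₁ + 1) * (k₀ + 3) ^ 3 * (K₂ + 6) ^ 2)),
    fun W _ _ _ h2 Y a p j l θ ha hj3 hjp hll hθ hY sY hθK lam hlam B C hB hC => ?_⟩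
  by_contra hcon
  push Not at hcon
  have hj : 1 ≤ j := Nat.pos_of_mul_pos_right (ha.trans hjp)
  have hp : 1 ≤ p := Nat.pos_of_mul_pos_left (ha.trans hjp)
  obtain ⟨n1, n2, n3⟩ := km_num (K := K₁) (c := k₀ + 3) (q := K₂ + 6) ha (by omega) (by omega)
    hj3 hjp
  obtain ⟨m, hm⟩ : ∃ m, m = (K₁ + 1) * (k₀ + 3) ^ 3 * (K₂ + 6) ^ 2 * j ^ 2 * a * p ^ 2 := ⟨_, rfl⟩
  have hm1 : 1 ≤ m := by rw [hm]; exact Nat.succ_le_of_lt (by positivity)
  obtain ⟨α, hα⟩ : ∃ α, α = (k₀ + 3) * a := ⟨_, rfl⟩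
  obtain ⟨q, hq⟩ : ∃ q, q = (K₂ + 6) * p := ⟨_, rfl⟩
  rw [← hm, ← hα, ← hq] at n1 n3
  rw [← hm, ← hα] at n2
  have hθM : θ * ((α * m : ℕ) : ℝ) * 24 ≤ Real.log l := by
    refine le_of_eq_of_le ?_ hθK
    rw [hα, hm]; push_cast; ring
  clear hθK
  have hm0 : (0 : ℝ) < m := by exact_mod_cast hm1
  have hlam1 : 1 < lam := by linarith
  obtain ⟨u, hu⟩ : ∃ u, u = Real.exp (Real.log lam / 12) := ⟨_, rfl⟩
  have hlog : Real.log l ≤ Real.log lam := Real.log_le_log (by linarith) hlam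
  have huu : u₀ ≤ u := by
    rw [hu, hu₀]
    have := Real.log_le_log (by linarith) hll
    exact Real.exp_le_exp.2 (by linarith)
  have hul : u ^ 12 = lam := by
    rw [hu, ← Real.exp_nat_mul]
    push_cast
    rw [mul_div_cancel₀ _ (by norm_num), Real.exp_log (by linarith)]
  obtain ⟨E, hE⟩ : ∃ E, E = Real.exp (θ * ((α * m : ℕ) : ℝ)) := ⟨_, rfl⟩
  have hE1 : 1 ≤ E := by rw [hE]; exact Real.one_le_exp (mul_nonneg hθ (Nat.cast_nonneg _))
  have hE2 : E * E ≤ u := by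
    rw [hE, hu, ← Real.exp_add]; exact Real.exp_le_exp.2 (by linarith)
  have hE3 : E ≤ u := (le_mul_of_one_le_left (zero_le_one.trans hE1) hE1).trans hE2
  have hu3 : 1 < u := hu1.trans_le huu
  have hu0 : 0 < u := one_pos.trans hu3
  have hκ0 : 0 < κ := one_pos.trans hκ1
  have hE0 : 0 < E := one_pos.trans_le hE1
  have hκu : κ < u := by linarith only [hκ, hu1, huu]
  have hN : (0 : ℝ) < Fintype.card W := by exact_mod_cast Fintype.card_pos
  have hYne : Y.Nonempty := card_pos.1 (Nat.pos_of_mul_pos_left (Fintype.card_pos.trans_le hY))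
  have hy : (0 : ℝ) < #Y := by exact_mod_cast card_pos.2 hYne
  have hb : (0 : ℝ) < #B := by
    exact_mod_cast Nat.pos_of_mul_pos_left (Fintype.card_pos.trans_le hB)
  have hc : (0 : ℝ) < #C := by
    rcases (Nat.cast_nonneg (α := ℝ) #C).eq_or_lt with h | h
    · rw [← h, mul_zero] at hC; linarith
    · exact h
  have hY' : (Fintype.card W : ℝ) ≤ 2 ^ a * #Y := by exact_mod_cast hY
  have hla : Real.log lam ≤ a := by
    have h3 : (tri Y B C : ℝ) ≤ #B * #C := by exact_mod_cast tri_le Y B C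
    have h4 : lam * (#Y * #B * #C) ≤ 2 ^ a * (#Y * #B * #C) := by
      calc _ = lam * #Y * #B * #C := by ring
        _ ≤ _ := hcon
        _ ≤ (#B * #C) * (2 ^ a * #Y) := mul_le_mul h3 hY' hN.le (mul_pos hb hc).le
        _ = _ := by ring
    have h5 := le_of_mul_le_mul_right h4 (mul_pos (mul_pos hy hb) hc)
    rw [Real.log_le_iff_le_exp (by linarith)]
    refine h5.trans ?_
    rw [← Real.exp_one_pow]
    exact pow_le_pow_left₀ zero_le_two (by linarith only [Real.add_one_le_exp 1]) _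
  have haα : 3 * a + k₀ ≤ α := by rw [hα]; nlinarith only [ha]
  have hθη : θ ≤ 1 / (m : ℝ) := by
    rw [le_div_iff₀ hm0]
    have h3 : (a : ℝ) ≤ α := by exact_mod_cast (show a ≤ α by omega)
    have h4 : (1 : ℝ) ≤ a := by exact_mod_cast ha
    have h5 : 0 ≤ θ * ((α * m : ℕ) : ℝ) := mul_nonneg hθ (Nat.cast_nonneg _)
    refine le_of_mul_le_mul_right ?_ (show (0 : ℝ) < α by linarith)
    push_cast at hθM h5
    linarith
  have h61 : 1 ≤ u ^ 6 := one_le_pow₀ hu3.le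
  have hB₁ := km_pop (Y := Y) (B := B) (C := C) (a := a) (k := k₀) (w := u ^ 6) (pow_pos hu0 _).le (by
      have h3 : u ≤ u ^ 6 := le_self_pow₀ hu3.le (by norm_num)
      have h4 : u₀ - 1 ≤ (u ^ 6) ^ 2 - u ^ 6 := by nlinarith only [h3, h61, huu]
      exact hk₀.le.trans (mul_le_mul_of_nonneg_left h4 (pow_nonneg zero_le_two _))) hY
    (card_pos.1 (by exact_mod_cast hc)) (by rw [← pow_mul, hul]; exact hcon)
  generalize hB1 : {x ∈ B | u ^ 6 * #Y * #C ≤ cv Y C x * (Fintype.card W : ℝ)} = B₁ at hB₁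
  obtain ⟨V, b, sB, hvB, hNv⟩ := km_sub h2 (B := B₁) (a := a + (a + k₀)) hm1
    (hB.trans (by rw [pow_add, mul_assoc]; exact Nat.mul_le_mul_left _ hB₁))
  have hNv' : Fintype.card W ≤ 2 ^ (α * m) * Nat.card V := hNv.trans (Nat.mul_le_mul_right _
    (Nat.pow_le_pow_right two_pos (Nat.mul_le_mul_right _ (by omega))))
  have hv : (0 : ℝ) < Nat.card V := by exact_mod_cast Nat.card_pos
  have hb' : (0 : ℝ) < #(B₁ ∩ cs V b) := by
    exact_mod_cast Nat.pos_of_mul_pos_left (Nat.card_pos.trans_le hvB)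
  have htri : u ^ 6 * #Y * #C * #(B₁ ∩ cs V b) ≤ tri Y (B₁ ∩ cs V b) C * (Fintype.card W : ℝ) := by
    rw [tri_comm]
    unfold tri
    push_cast
    rw [sum_mul, mul_comm, ← nsmul_eq_mul]
    refine card_nsmul_le_sum _ _ _ fun x hx => ?_
    have := (mem_inter.1 hx).1
    rw [← hB1] at this
    exact (mem_filter.1 this).2
  have hsum : ∀ φ : W → ℝ, ∑ z, ∑ x ∈ C ∩ cs V z, φ x = Nat.card V * ∑ x ∈ C, φ x := fun φ => by
    have := sum_cs h2 (le_top : V ≤ ⊤) 0 (X := C) (by rw [cs_top]; exact subset_univ _) φ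
    rwa [cs_top] at this
  obtain ⟨z, σ, hσ, hz, hz1, hz2⟩ := hpick W univ (fun z => #(C ∩ cs V z))
    (fun z => tri Y (B₁ ∩ cs V b) (C ∩ cs V z) * (Fintype.card W / (#Y * #(B₁ ∩ cs V b))))
    (Nat.card V * #C / Fintype.card W) u univ_nonempty (div_pos (mul_pos hv hc) hN) huu
    (fun _ => Nat.cast_nonneg _)
    (fun _ => mul_nonneg (Nat.cast_nonneg _) (div_pos hN (mul_pos hy hb')).le)
    (fun z h => by
      have : C ∩ cs V z = ∅ := card_eq_zero.1 (by exact_mod_cast h)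
      simp only [this, tri, sum_empty, Nat.cast_zero, zero_mul])
    (by
      have := hsum fun _ => 1
      simp only [sum_const, nsmul_eq_mul, mul_one] at this
      rw [this, card_univ, mul_div_cancel₀ _ hN.ne'])
    (by
      have := hsum fun x => cv Y (B₁ ∩ cs V b) x
      rw [← sum_mul, card_univ, mul_div_cancel₀ _ hN.ne', ← mul_div_assoc,
        le_div_iff₀ (mul_pos hy hb')]
      unfold tri at htri ⊢
      push_cast at htri ⊢
      rw [this]
      calc _ = Nat.card V * (u ^ 6 * #Y * #C * #(B₁ ∩ cs V b)) := by ring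
        _ ≤ _ := mul_le_mul_of_nonneg_left htri hv.le
        _ = _ := by ring)
  beta_reduce at hz hz1 hz2
  rw [← mul_div_assoc, le_div_iff₀ (mul_pos hy hb')] at hz1
  rw [div_le_iff₀ hN] at hz2
  have hσu : u ≤ σ := (le_self_pow₀ hu3.le two_ne_zero).trans hσ
  have hσ1 : 1 ≤ σ := hu3.le.trans hσu
  letI : Fintype V := Fintype.ofFinite V
  have h2' : ∀ x : V, x + x = 0 := fun x => Subtype.ext (h2 x)
  have hcv : Fintype.card V = Nat.card V := Nat.card_eq_fintype_card.symm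
  have ht := tri_pull h2 V b z Y B₁ C
  have hty : tri Y (B₁ ∩ cs V b) (C ∩ cs V z) ≤ #(Y ∩ cs V (b + z)) * #(C ∩ cs V z) := by
    rw [← ht, tri_rot h2', ← card_pull h2, ← card_pull h2]; exact tri_le _ _ _
  have hty' : (tri Y (B₁ ∩ cs V b) (C ∩ cs V z) : ℝ) ≤ #(Y ∩ cs V (b + z)) * #(C ∩ cs V z) := by
    exact_mod_cast hty
  have hby : #(B₁ ∩ cs V b) ≤ 2 ^ a * #(Y ∩ cs V (b + z)) := by
    have : (#(B₁ ∩ cs V b) : ℝ) ≤ 2 ^ a * #(Y ∩ cs V (b + z)) := by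
      refine le_of_mul_le_mul_right ?_ (mul_pos hy hz)
      calc _ = 1 * #(C ∩ cs V z) * ((#Y : ℝ) * #(B₁ ∩ cs V b)) := by ring
        _ ≤ σ ^ 2 * #(C ∩ cs V z) * (#Y * #(B₁ ∩ cs V b)) := mul_le_mul_of_nonneg_right
          (mul_le_mul_of_nonneg_right (one_le_pow₀ hσ1) hz.le) (mul_pos hy hb').le
        _ ≤ _ := hz1
        _ ≤ (#(Y ∩ cs V (b + z)) * #(C ∩ cs V z)) * (2 ^ a * #Y) :=
          mul_le_mul hty' hY' hN.le (mul_nonneg (Nat.cast_nonneg _) hz.le)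
        _ = _ := by ring
    exact_mod_cast this
  have hy' : (0 : ℝ) < #(Y ∩ cs V (b + z)) := by
    have : 0 < #(B₁ ∩ cs V b) := by exact_mod_cast hb'
    exact_mod_cast Nat.pos_of_mul_pos_left (this.trans_le hby)
  have hκE : κ * E < σ := by
    refine lt_of_lt_of_le ?_ hσ
    rw [sq]; exact mul_lt_mul hκu hE3 hE0 hu0.le
  rcases le_or_gt (σ * #Y * Nat.card V) (#(Y ∩ cs V (b + z)) * (Fintype.card W : ℝ)) with hA | hA
  · have := km_coset sY hYne hκ0.le hθ hNv' hA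
    rw [← hE] at this
    exact absurd this (not_le.2 hκE)
  obtain ⟨d, hd⟩ : ∃ d : ℝ, d = #Y * Nat.card V / (#(Y ∩ cs V (b + z)) * Fintype.card W) := ⟨_, rfl⟩
  have hd0 : 0 < d := by rw [hd]; exact div_pos (mul_pos hy hv) (mul_pos hy' hN)
  have hd1 : d * (#(Y ∩ cs V (b + z)) * Fintype.card W) = #Y * Nat.card V := by
    rw [hd, div_mul_cancel₀ _ (mul_pos hy' hN).ne']
  have hfin := hin V h2' (pull V (b + z) Y) (pull V b B₁) (pull V z C) α q j σ (σ * d) (κ * E * d) θ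
    (1 / m) (by omega) (by rw [hq]; exact Nat.mul_pos (by omega) hp) hj (huu.trans hσu)
    (by
      refine le_of_mul_le_mul_right ?_ (mul_pos hy' hN)
      rw [mul_assoc σ, hd1, one_mul, ← mul_assoc]; exact hA.le)
    (mul_pos (mul_pos hκ0 hE0) hd0).le
    (mul_le_mul_of_nonneg_right hκE.le hd0.le) hθ hθη
    (by
      rw [hcv, card_pull h2]
      refine hvB.trans ((Nat.mul_le_mul_left _ hby).trans ?_)
      rw [← mul_assoc, ← pow_add]
      exact Nat.mul_le_mul_right _ (Nat.pow_le_pow_right two_pos (by omega)))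
    (by
      rw [hcv, card_pull h2]
      exact hvB.trans (Nat.mul_le_mul_right _ (Nat.pow_le_pow_right two_pos (by omega))))
    (by
      rw [hcv, card_pull h2]
      refine le_of_mul_le_mul_right ?_ hN
      have h3 : lam ^ p ≤ σ ^ (6 * p) := by
        rw [← hul, pow_mul σ]
        refine pow_le_pow_left₀ (pow_pos hu0 _).le ?_ _
        calc u ^ 12 = (u ^ 2) ^ 6 := by ring
          _ ≤ _ := pow_le_pow_left₀ (sq_nonneg _) hσ _
      have h4 : σ ^ (6 * p) * σ ^ K₂ ≤ σ ^ q := by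
        rw [← pow_add]; exact pow_le_pow_right₀ hσ1 (by rw [hq]; nlinarith only [hp])
      have h5 : 0 ≤ σ ^ (6 * p) := pow_nonneg (zero_le_one.trans hσ1) _
      calc (Nat.card V : ℝ) * Fintype.card W ≤ Nat.card V * (σ ^ (6 * p) * #C) :=
            mul_le_mul_of_nonneg_left (hC.trans (mul_le_mul_of_nonneg_right h3 hc.le)) hv.le
        _ = σ ^ (6 * p) * (Nat.card V * #C) := by ring
        _ ≤ _ := mul_le_mul_of_nonneg_left hz2 h5
        _ = σ ^ (6 * p) * σ ^ K₂ * (#(C ∩ cs V z) * Fintype.card W) := by ring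
        _ ≤ σ ^ q * (#(C ∩ cs V z) * Fintype.card W) :=
            mul_le_mul_of_nonneg_right h4 (mul_pos hz hN).le
        _ = _ := by ring)
    (by
      rw [hcv, ht, card_pull h2, card_pull h2, card_pull h2]
      refine le_of_mul_le_mul_right ?_ hN
      calc _ = σ ^ 2 * #(C ∩ cs V z) * #(B₁ ∩ cs V b) *
            (d * (#(Y ∩ cs V (b + z)) * Fintype.card W)) := by ring
        _ = σ ^ 2 * #(C ∩ cs V z) * (#Y * #(B₁ ∩ cs V b)) * Nat.card V := by rw [hd1]; ring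
        _ ≤ _ := mul_le_mul_of_nonneg_right hz1 hv.le
        _ = _ := by ring)
    (Spread.pull h2 (sY.restrict (by
      have h3 := km_pow hθ hNv'
      rw [← hE] at h3
      have p1 := Real.rpow_pos_of_pos hv (1 - θ)
      refine le_of_mul_le_mul_right ?_ (Real.rpow_pos_of_pos hN θ)
      calc _ ≤ κ * #Y * (Nat.card V : ℝ) ^ (1 - θ) * (E * (Nat.card V : ℝ) ^ θ) :=
            mul_le_mul_of_nonneg_left h3 (mul_pos (mul_pos hκ0 hy) p1).le
        _ = κ * E * (#Y * ((Nat.card V : ℝ) ^ θ * (Nat.card V : ℝ) ^ (1 - θ))) := by ring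
        _ = κ * E * (d * (#(Y ∩ cs V (b + z)) *
            ((Fintype.card W : ℝ) ^ θ * (Fintype.card W : ℝ) ^ (1 - θ)))) := by
            rw [km_split hv, km_split hN, hd1]
        _ = _ := by ring)))
    (Spread.pull h2 sB)
    (by
      rw [one_div, inv_mul_le_iff₀ hm0, mul_comm (m : ℝ)]
      exact_mod_cast n1)
    (by
      rw [one_div, inv_mul_le_iff₀ hm0, mul_one]
      exact_mod_cast n2)
  have h6 : Real.exp (θ * (K₁ * j ^ 2 * α ^ 2 * q ^ 2)) ≤ E := by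
    rw [hE]
    exact Real.exp_le_exp.2 (mul_le_mul_of_nonneg_left (by exact_mod_cast n3) hθ)
  have h7 : (1 - 3 * ε) * σ * d ≤ κ * u * d := by
    calc _ = (1 - 3 * ε) * (σ * d) := by ring
      _ ≤ _ := hfin
      _ ≤ κ * E * d * E :=
        mul_le_mul_of_nonneg_left h6 (mul_pos (mul_pos hκ0 hE0) hd0).le
      _ = κ * (E * E) * d := by ring
      _ ≤ _ := mul_le_mul_of_nonneg_right (mul_le_mul_of_nonneg_left hE2 hκ0.le) hd0.le
  have h8 := le_of_mul_le_mul_right h7 hd0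
  have h9 : (1 - 3 * ε) * u * u ≤ κ * u := by
    refine le_trans ?_ h8
    rw [mul_assoc, ← sq]
    exact mul_le_mul_of_nonneg_left hσ hε2.le
  have h10 := le_of_mul_le_mul_right h9 hu0
  have h11 := mul_le_mul_of_nonneg_left huu hε2.le
  linarith only [h10, h11, hε1, hκ, hu1]

end Pool.Agent.P.MP_db4732_co.Q
end

-- part Pool.Agent.P.MP_db4732_co.Q.Main
section

/-! The iteration. -/

set_option autoImplicit false

namespace Pool.Agent.P.MP_db4732_co.Q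

open Finset

theorem main_le_tri {W : Type} [AddCommGroup W] [DecidableEq W] {A : Finset (W × W)}
    {X Y D : Finset W} (h : In A X Y D) : #A ≤ tri D X Y := by
  rw [tri_eq]
  exact card_le_card fun q hq => mem_filter.2
    ⟨mem_product.2 ⟨(h q hq).1, (h q hq).2.1⟩, (h q hq).2.2⟩

theorem main_spread_univ {W : Type} [AddCommGroup W] [Fintype W] [DecidableEq W] {κ θ : ℝ}
    (hκ : 1 ≤ κ) (hθ : 0 ≤ θ) : Spread κ θ (⊤ : AddSubgroup W) univ := by
  intro V _ z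
  rw [univ_inter, card_cs, card_top, card_univ]
  have hv : (0 : ℝ) < Nat.card V := by exact_mod_cast Nat.card_pos
  have hN : (0 : ℝ) < Fintype.card W := by exact_mod_cast Fintype.card_pos
  have hle : (Nat.card V : ℝ) ≤ Fintype.card W := by
    rw [← card_cs V z]; exact_mod_cast card_le_univ _
  have e1 : (Nat.card V : ℝ) = (Nat.card V : ℝ) ^ θ * (Nat.card V : ℝ) ^ (1 - θ) := by
    rw [← Real.rpow_add hv]; simp
  have e2 : (Fintype.card W : ℝ) =
      (Fintype.card W : ℝ) ^ θ * (Fintype.card W : ℝ) ^ (1 - θ) := by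
    rw [← Real.rpow_add hN]; simp
  have h3 := Real.rpow_le_rpow hv.le hle hθ
  have p1 := Real.rpow_pos_of_pos hv (1 - θ)
  have p2 := Real.rpow_pos_of_pos hN (1 - θ)
  calc (Nat.card V : ℝ) * (Fintype.card W : ℝ) ^ (1 - θ)
      = (Nat.card V : ℝ) ^ θ * ((Fintype.card W : ℝ) ^ (1 - θ) * (Nat.card V : ℝ) ^ (1 - θ)) := by
        nth_rewrite 1 [e1]; ring
    _ ≤ (Fintype.card W : ℝ) ^ θ *
        ((Fintype.card W : ℝ) ^ (1 - θ) * (Nat.card V : ℝ) ^ (1 - θ)) := by gcongr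
    _ = 1 * Fintype.card W * (Nat.card V : ℝ) ^ (1 - θ) := by
        nth_rewrite 3 [e2]; ring
    _ ≤ _ := by gcongr

theorem main_dim : ∃ K : ℕ, ∀ (W : Type) [AddCommGroup W] [Fintype W] [DecidableEq W],
    (∀ x : W, x + x = 0) → ∀ (A : Finset (W × W)) (L : ℕ), CF A → 1 ≤ L →
    Fintype.card W ^ 2 ≤ 2 ^ L * #A → Fintype.card W ≤ 2 ^ (K * L ^ 16) := by
  obtain ⟨l₀, hl1, hl2, K₁, hincr⟩ := incr
  obtain ⟨κ, hκ, K₂, hup⟩ := up_of_spread hl1
  obtain ⟨J, K₃, hJ, hstep⟩ := step_of_better (g₀ := 1 + 1 / 5000) (by norm_num) hκ K₁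
  obtain ⟨Q, hQ⟩ : ∃ Q, Q = 2 * (K₁ + 1) * (K₃ + 1) ^ 2 := ⟨_, rfl⟩
  have hQ1 : 1 ≤ Q := by rw [hQ]; exact Nat.succ_le_of_lt (by positivity)
  have hlog : 0 < Real.log l₀ := Real.log_pos hl1
  obtain ⟨R, hR⟩ := exists_nat_gt ((K₂ * Q ^ 6 : ℝ) / Real.log l₀)
  have hR0 : (0 : ℝ) < R := lt_of_le_of_lt (by positivity) hR
  have hR' : (K₂ * Q ^ 6 : ℝ) ≤ R * Real.log l₀ := ((div_lt_iff₀ hlog).1 hR).le
  refine ⟨K₃ * (K₃ + 1) * (J * R) + Q, fun W _ _ _ h2 A L hA hL hd => ?_⟩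
  by_contra hbig
  push Not at hbig
  obtain ⟨c, hc⟩ : ∃ c, c = (K₃ + 1) * L ^ 2 := ⟨_, rfl⟩
  obtain ⟨a, ha⟩ : ∃ a, a = 2 * (K₃ + 1) * c * L := ⟨_, rfl⟩
  obtain ⟨θ, hθ⟩ : ∃ θ : ℝ, θ = 1 / (R * L ^ 13) := ⟨_, rfl⟩
  have hL0 : (1 : ℝ) ≤ L := by exact_mod_cast hL
  have hR1 : (1 : ℝ) ≤ R := by exact_mod_cast (show 0 < R by exact_mod_cast hR0)
  have hRL : (1 : ℝ) ≤ R * L ^ 13 := one_le_mul_of_one_le_of_one_le hR1 (one_le_pow₀ hL0)
  have hθ0 : 0 < θ := by rw [hθ]; positivity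
  have hθ1 : θ ≤ 1 := by rw [hθ]; exact (div_le_one (by positivity)).2 hRL
  have hJ0 : (0 : ℝ) < J := by exact_mod_cast (show 0 < J by omega)
  have hLc : L ≤ c := by rw [hc]; nlinarith
  have hca : c * L ≤ a := by rw [ha]; nlinarith [Nat.zero_le (K₃ * (c * L))]
  have hQa : (K₁ + 1) * a = Q * L ^ 3 := by rw [ha, hc, hQ]; ring
  have hKa : K₁ * a ≤ Q * L ^ 3 := by rw [← hQa]; nlinarith
  have haQ : a ≤ Q * L ^ 3 := by rw [← hQa]; nlinarith
  have hKc : K₁ * c ≤ Q * L ^ 2 := by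
    rw [hc, hQ, ← mul_assoc]
    exact Nat.mul_le_mul_right _ (by nlinarith [Nat.zero_le (K₁ * K₃ ^ 2), Nat.zero_le (K₁ * K₃)])
  have hP : ∀ i, 1 ≤ L ^ i := fun i => Nat.one_le_pow _ _ hL
  have hQ3 : Q * L ^ 3 ≤ (Q * L) ^ 3 := by
    rw [mul_pow]; exact Nat.mul_le_mul_right _ (Nat.le_self_pow (by norm_num) Q)
  have hN0 : (0 : ℝ) < Fintype.card W := by exact_mod_cast Fintype.card_pos
  obtain ⟨ω, hω⟩ : ∃ ω : ℝ, ω = θ / J := ⟨_, rfl⟩
  have hω0 : 0 < ω := by rw [hω]; positivity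
  have hωm : ω * ((J * R * L ^ 13 : ℕ) : ℝ) = 1 := by
    rw [hω, hθ]; push_cast; field_simp
  have key : ∀ t : ℕ, ∃ (W' : Type) (_ : AddCommGroup W') (_ : Fintype W') (_ : DecidableEq W'),
      (∀ x : W', x + x = 0) ∧ Fintype.card W' ≤ Fintype.card W ∧
      ∃ (A' : Finset (W' × W')) (X Y D : Finset W') (G : ℝ), CF A' ∧ In A' X Y D ∧ A'.Nonempty ∧
        Spread κ θ ⊤ X ∧ Spread κ θ ⊤ Y ∧ (1 + 1 / 5000 : ℝ) ^ t ≤ G ∧
        G * tri D X Y ≤ 2 ^ L * #A' ∧ (#X : ℝ) * #Y ≤ 2 ^ L * G ^ (K₃ * L) * #A' ∧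
        (Fintype.card W : ℝ) ^ ω * (Fintype.card W' : ℝ) ^ (1 - ω) ≤
          G ^ (K₃ * c) * √(#X * #Y) := by
    intro t
    induction t with
    | zero =>
      have hd' : (Fintype.card W : ℝ) * Fintype.card W ≤ 2 ^ L * #A := by
        rw [← sq]; exact_mod_cast hd
      refine ⟨W, inferInstance, inferInstance, inferInstance, h2, le_rfl, A, univ, univ, univ, 1,
        hA, fun q _ => ⟨mem_univ _, mem_univ _, mem_univ _⟩, ?_, main_spread_univ hκ.le hθ0.le,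
        main_spread_univ hκ.le hθ0.le, by simp, ?_, ?_, ?_⟩
      · rw [← card_pos]
        by_contra h
        have : #A = 0 := by omega
        rw [this] at hd'
        simp only [Nat.cast_zero, mul_zero] at hd'
        nlinarith
      · rw [one_mul]
        refine le_trans ?_ hd'
        exact_mod_cast tri_le univ univ (univ : Finset W)
      · simpa using hd'
      · rw [← Real.rpow_add hN0, card_univ, Real.sqrt_mul_self hN0.le]; simp
    | succ t ih =>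
      obtain ⟨W', i1, i2, i3, h2', hle, A', X, Y, D, G, hA', hIn, hne, hX, hY, hG, h1, h3, h4⟩ := ih
      have hA0 : (0 : ℝ) < #A' := by exact_mod_cast card_pos.2 hne
      have hAt : (#A' : ℝ) ≤ tri D X Y := by exact_mod_cast main_le_tri hIn
      have hG1 : 1 ≤ G := (one_le_pow₀ (by norm_num)).trans hG
      have hG2 : G ≤ 2 ^ L := le_of_mul_le_mul_right
        ((mul_le_mul_of_nonneg_left hAt (by linarith)).trans h1) hA0
      have hN' : (0 : ℝ) < Fintype.card W' := by exact_mod_cast Fintype.card_pos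
      have hle' : (Fintype.card W' : ℝ) ≤ Fintype.card W := by exact_mod_cast hle
      have k1 : tri D X Y ≤ 2 ^ L * #A' := by
        have : (tri D X Y : ℝ) ≤ 2 ^ L * #A' :=
          (le_mul_of_one_le_left (Nat.cast_nonneg _) hG1).trans h1
        exact_mod_cast this
      have k2 : #X * #Y ≤ 2 ^ c * #A' := by
        have : (#X : ℝ) * #Y ≤ 2 ^ c * #A' := by
          refine h3.trans (mul_le_mul_of_nonneg_right ?_ hA0.le)
          calc (2 : ℝ) ^ L * G ^ (K₃ * L) ≤ 2 ^ L * (2 ^ L) ^ (K₃ * L) :=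
                mul_le_mul_of_nonneg_left (pow_le_pow_left₀ (by linarith only [hG1]) hG2 _)
                  (pow_nonneg zero_le_two _)
            _ = 2 ^ (L + L * (K₃ * L)) := by rw [← pow_mul, ← pow_add]
            _ ≤ 2 ^ c := pow_le_pow_right₀ one_le_two (by rw [hc]; nlinarith)
        exact_mod_cast this
      have eN : (Fintype.card W' : ℝ) =
          (Fintype.card W' : ℝ) ^ ω * (Fintype.card W' : ℝ) ^ (1 - ω) := by
        rw [← Real.rpow_add hN']; simp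
      have p1 := Real.rpow_pos_of_pos hN' (1 - ω)
      have h5 : (Fintype.card W : ℝ) ^ ω * (Fintype.card W' : ℝ) ^ (1 - ω) ≤
          2 ^ (L * (K₃ * c)) * √(#X * #Y) := by
        refine h4.trans (mul_le_mul_of_nonneg_right ?_ (Real.sqrt_nonneg _))
        rw [pow_mul (2 : ℝ)]; exact pow_le_pow_left₀ (by linarith only [hG1]) hG2 _
      have hXN : (#X : ℝ) ≤ Fintype.card W' := by exact_mod_cast card_le_univ X
      have hYN : (#Y : ℝ) ≤ Fintype.card W' := by exact_mod_cast card_le_univ Y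
      have h6 : (Fintype.card W' : ℝ) ^ 2 ≤ 2 ^ a * (#X * #Y) := by
        have h7 : (Fintype.card W' : ℝ) ≤ 2 ^ (L * (K₃ * c)) * √(#X * #Y) := by
          refine le_trans ?_ h5
          nth_rewrite 1 [eN]
          exact mul_le_mul_of_nonneg_right (Real.rpow_le_rpow hN'.le hle' hω0.le) p1.le
        have hXY : (0 : ℝ) ≤ (#X : ℝ) * #Y := mul_nonneg (Nat.cast_nonneg _) (Nat.cast_nonneg _)
        have hea : L * (K₃ * c) * 2 ≤ a := by
          rw [ha]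
          calc L * (K₃ * c) * 2 = 2 * K₃ * c * L := by ring
            _ ≤ _ := Nat.mul_le_mul_right _ (Nat.mul_le_mul_right _ (by omega))
        calc (Fintype.card W' : ℝ) ^ 2 ≤ ((2 : ℝ) ^ (L * (K₃ * c)) * √((#X : ℝ) * #Y)) ^ 2 :=
              pow_le_pow_left₀ hN'.le h7 2
          _ = (2 : ℝ) ^ (L * (K₃ * c) * 2) * ((#X : ℝ) * #Y) := by
            rw [mul_pow, Real.sq_sqrt hXY, ← pow_mul]
          _ ≤ _ := mul_le_mul_of_nonneg_right (pow_le_pow_right₀ one_le_two hea) hXY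
      have k3 : Fintype.card W' ≤ 2 ^ a * #X := by
        have : (Fintype.card W' : ℝ) ≤ 2 ^ a * #X := le_of_mul_le_mul_right (by
          calc (Fintype.card W' : ℝ) * Fintype.card W' ≤ 2 ^ a * (#X * #Y) := by rwa [← sq]
            _ ≤ 2 ^ a * (#X * Fintype.card W') := mul_le_mul_of_nonneg_left
                (mul_le_mul_of_nonneg_left hYN (Nat.cast_nonneg _)) (pow_nonneg zero_le_two _)
            _ = _ := by ring) hN'
        exact_mod_cast this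
      have k4 : Fintype.card W' ≤ 2 ^ a * #Y := by
        have : (Fintype.card W' : ℝ) ≤ 2 ^ a * #Y := le_of_mul_le_mul_right (by
          calc (Fintype.card W' : ℝ) * Fintype.card W' ≤ 2 ^ a * (#X * #Y) := by rwa [← sq]
            _ ≤ 2 ^ a * (Fintype.card W' * #Y) := mul_le_mul_of_nonneg_left
                (mul_le_mul_of_nonneg_right hXN (Nat.cast_nonneg _)) (pow_nonneg zero_le_two _)
            _ = _ := by ring) hN'
        exact_mod_cast this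
      have k5 : 2 ^ (K₁ * a) ≤ Fintype.card W' := by
        have h7 : (Fintype.card W : ℝ) ^ ω ≤ 2 ^ (L * (K₃ * c)) * (Fintype.card W' : ℝ) ^ ω := by
          refine le_of_mul_le_mul_right (h5.trans ?_) p1
          rw [mul_assoc, ← eN]
          refine mul_le_mul_of_nonneg_left (Real.sqrt_le_iff.2 ⟨hN'.le, ?_⟩)
            (pow_nonneg zero_le_two _)
          rw [sq]; exact mul_le_mul hXN hYN (Nat.cast_nonneg _) hN'.le
        have h8 := pow_le_pow_left₀ (Real.rpow_nonneg hN0.le _) h7 (J * R * L ^ 13)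
        rw [mul_pow, ← Real.rpow_natCast (_ ^ ω), ← Real.rpow_natCast (_ ^ ω),
          ← Real.rpow_mul hN0.le, ← Real.rpow_mul hN'.le, hωm, Real.rpow_one, Real.rpow_one,
          ← pow_mul] at h8
        have h9 : Fintype.card W ≤ 2 ^ (L * (K₃ * c) * (J * R * L ^ 13)) * Fintype.card W' := by
          exact_mod_cast h8
        have e : (K₃ * (K₃ + 1) * (J * R) + Q) * L ^ 16 =
            L * (K₃ * c) * (J * R * L ^ 13) + Q * L ^ 16 := by rw [hc]; ring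
        rw [e, pow_add] at hbig
        have h10 := Nat.lt_of_mul_lt_mul_left (hbig.trans_le h9)
        refine le_trans (Nat.pow_le_pow_right two_pos (hKa.trans ?_)) h10.le
        exact Nat.mul_le_mul_left _ (Nat.pow_le_pow_right hL (by norm_num))
      have hl0L : l₀ ≤ 2 ^ L := hl2.trans (le_self_pow₀ one_le_two (by omega))
      have hups : ∀ Z : Finset W', Fintype.card W' ≤ 2 ^ a * #Z → Spread κ θ ⊤ Z →
          Up Z (K₁ * a) l₀ (K₁ * c) ∧ Up Z (K₁ * a) (2 ^ L) (K₁ * a) := by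
        intro Z hZ hs
        have hZ' : Fintype.card W' ≤ 2 ^ (Q * L ^ 3) * #Z :=
          hZ.trans (Nat.mul_le_mul_right _ (Nat.pow_le_pow_right two_pos haQ))
        have h1a : 1 ≤ Q * L ^ 3 := Nat.mul_pos hQ1 (hP 3)
        constructor
        · refine (hup W' h2' Z (Q * L ^ 3) (Q * L ^ 2) (Q * L) l₀ θ h1a hQ3 ?_ le_rfl hθ0.le hZ' hs
            ?_).mono hKa le_rfl hl1.le hKc
          · calc Q * L ^ 3 ≤ Q * (Q * L ^ 3) := Nat.le_mul_of_pos_left _ hQ1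
              _ = _ := by ring
          · rw [hθ, one_div, inv_mul_le_iff₀ (by positivity)]
            push_cast
            calc (K₂ : ℝ) * (Q * L) ^ 2 * (Q * L ^ 3) ^ 2 * (Q * L ^ 2) ^ 2
                = K₂ * Q ^ 6 * L ^ 12 := by ring
              _ ≤ R * Real.log l₀ * L ^ 13 :=
                mul_le_mul hR' (pow_le_pow_right₀ hL0 (by norm_num))
                  (pow_nonneg (Nat.cast_nonneg _) _) (mul_nonneg hR0.le hlog.le)
              _ = _ := by ring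
        · refine (hup W' h2' Z (Q * L ^ 3) (Q * L ^ 3) (Q * L) (2 ^ L) θ h1a hQ3 ?_ hl0L hθ0.le hZ'
            hs ?_).mono hKa le_rfl (one_le_pow₀ one_le_two) hKa
          · exact Nat.le_mul_of_pos_left _ (Nat.mul_pos hQ1 hL)
          · rw [hθ, one_div, inv_mul_le_iff₀ (by positivity), Real.log_pow]
            push_cast
            calc (K₂ : ℝ) * (Q * L) ^ 2 * (Q * L ^ 3) ^ 2 * (Q * L ^ 3) ^ 2
                = K₂ * Q ^ 6 * L ^ 14 := by ring
              _ ≤ R * Real.log l₀ * L ^ 14 :=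
                mul_le_mul_of_nonneg_right hR' (pow_nonneg (Nat.cast_nonneg _) _)
              _ ≤ R * Real.log 2 * L ^ 14 := mul_le_mul_of_nonneg_right
                (mul_le_mul_of_nonneg_left (Real.log_le_log (one_pos.trans hl1) hl2) hR0.le)
                (pow_nonneg (Nat.cast_nonneg _) _)
              _ = _ := by ring
      have hB := hincr W' h2' A' X Y D L c a hA' hIn hL hLc hca k1 k2 k3 k4 k5 (hups X k3 hX).1
        (hups Y k4 hY).1 (hups X k3 hX).2 (hups Y k4 hY).2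
      obtain ⟨W'', j1, j2, j3, h2'', hle2, A'', X', Y', D', g, hA'', hIn', hne', hX', hY', hg, s1,
        s2, s3⟩ := hstep W' h2' A' X Y D L c θ hA' hIn hne hL hLc k2 hθ0 hθ1 hB
      rw [← hω] at s3
      have hg0 : 0 < g := lt_of_lt_of_le (by norm_num) hg
      have hG0 : 0 < G := by linarith
      refine ⟨W'', j1, j2, j3, h2'', hle2.trans hle, A'', X', Y', D', G * g, hA'', hIn', hne', hX',
        hY', by rw [pow_succ]; exact mul_le_mul hG hg (by norm_num) hG0.le,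
        le_of_mul_le_mul_right ?_ hA0,
        le_of_mul_le_mul_right ?_ hA0, le_of_mul_le_mul_right ?_ p1⟩
      · calc G * g * tri D' X' Y' * #A' = G * (g * #A' * tri D' X' Y') := by ring
          _ ≤ G * (#A'' * tri D X Y) := mul_le_mul_of_nonneg_left s1 hG0.le
          _ = #A'' * (G * tri D X Y) := by ring
          _ ≤ #A'' * (2 ^ L * #A') := mul_le_mul_of_nonneg_left h1 (Nat.cast_nonneg _)
          _ = _ := by ring
      · calc (#X' : ℝ) * #Y' * #A' = #A' * #X' * #Y' := by ring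
          _ ≤ g ^ (K₃ * L) * #A'' * #X * #Y := s2
          _ = g ^ (K₃ * L) * #A'' * (#X * #Y) := by ring
          _ ≤ g ^ (K₃ * L) * #A'' * (2 ^ L * G ^ (K₃ * L) * #A') :=
            mul_le_mul_of_nonneg_left h3 (mul_nonneg (pow_nonneg hg0.le _) (Nat.cast_nonneg _))
          _ = _ := by rw [mul_pow]; ring
      · calc (Fintype.card W : ℝ) ^ ω * (Fintype.card W'' : ℝ) ^ (1 - ω) *
              (Fintype.card W' : ℝ) ^ (1 - ω)
            = (Fintype.card W : ℝ) ^ ω * (Fintype.card W' : ℝ) ^ (1 - ω) *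
              (Fintype.card W'' : ℝ) ^ (1 - ω) := by ring
          _ ≤ G ^ (K₃ * c) * √(#X * #Y) * (Fintype.card W'' : ℝ) ^ (1 - ω) :=
            mul_le_mul_of_nonneg_right h4 (Real.rpow_nonneg (Nat.cast_nonneg _) _)
          _ = G ^ (K₃ * c) * (√(#X * #Y) * (Fintype.card W'' : ℝ) ^ (1 - ω)) := by ring
          _ ≤ G ^ (K₃ * c) * (g ^ (K₃ * c) * √(#X' * #Y') * (Fintype.card W' : ℝ) ^ (1 - ω)) :=
            mul_le_mul_of_nonneg_left s3 (pow_nonneg hG0.le _)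
          _ = _ := by rw [mul_pow]; ring
  obtain ⟨t, ht⟩ := pow_unbounded_of_one_lt ((2 : ℝ) ^ L) (show (1 : ℝ) < 1 + 1 / 5000 by norm_num)
  obtain ⟨W', i1, i2, i3, -, -, A', X, Y, D, G, -, hIn, hne, -, -, hG, h1, -, -⟩ := key t
  have hA0 : (0 : ℝ) < #A' := by exact_mod_cast card_pos.2 hne
  have hAt : (#A' : ℝ) ≤ tri D X Y := by exact_mod_cast main_le_tri hIn
  have hG0 : 0 ≤ G := le_trans (by positivity) hG
  have hG2 : G ≤ 2 ^ L := le_of_mul_le_mul_right ((mul_le_mul_of_nonneg_left hAt hG0).trans h1) hA0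
  linarith

theorem main_root {n m : ℕ} (h : n ≤ m ^ 16) : (n : ℝ) ^ (1 / 16 : ℝ) ≤ m := by
  have h7 : (n : ℝ) ≤ (m : ℝ) ^ 16 := by exact_mod_cast h
  refine (Real.rpow_le_rpow (Nat.cast_nonneg _) h7 (by norm_num)).trans_eq ?_
  rw [← Real.rpow_natCast, ← Real.rpow_mul (Nat.cast_nonneg _)]
  norm_num

theorem main : ∃ c : ℝ, 0 < c ∧ ∀ (n : ℕ) (A : Finset ((Fin n → ZMod 2) × (Fin n → ZMod 2))),
    (∀ x y z : Fin n → ZMod 2, z ≠ 0 → ¬ ((x, y) ∈ A ∧ (x, y + z) ∈ A ∧ (x + z, y) ∈ A)) →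
    (#A : ℝ) ≤ 2 * 4 ^ n * Real.exp (-c * (n : ℝ) ^ (1 / 16 : ℝ)) := by
  obtain ⟨K, hK⟩ := main_dim
  refine ⟨Real.log 2 / (K + 1), div_pos (Real.log_pos one_lt_two) (by positivity),
    fun n A hA => ?_⟩
  rcases A.eq_empty_or_nonempty with rfl | hne
  · simp only [card_empty, Nat.cast_zero]; positivity
  have hA0 : 1 ≤ #A := card_pos.2 hne
  have hN : Fintype.card (Fin n → ZMod 2) = 2 ^ n := by simp
  have hex : ∃ L, 4 ^ n ≤ 2 ^ (L + 1) * #A := ⟨2 * n, by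
    calc 4 ^ n = 2 ^ (2 * n) * 1 := by rw [pow_mul]; norm_num
      _ ≤ _ := Nat.mul_le_mul (Nat.pow_le_pow_right two_pos (by omega)) hA0⟩
  have h1 := Nat.find_spec hex
  have h3 : 2 ^ Nat.find hex * #A ≤ 4 ^ n := by
    rcases h : Nat.find hex with _ | L
    · have := card_le_univ A
      rw [Fintype.card_prod, hN, ← mul_pow] at this
      simpa using this
    · exact (not_le.1 (Nat.find_min hex (by omega))).le
  generalize Nat.find hex = L at h1 h3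
  have h4 := hK (Fin n → ZMod 2) (fun x => by ext i; exact CharTwo.add_self_eq_zero _) A (L + 1)
    (fun x y z a b c => by_contra fun h => hA x y z h ⟨a, b, c⟩) (by omega)
    (by rw [hN, ← pow_mul, mul_comm n, pow_mul]; exact h1)
  rw [hN] at h4
  have h5 : n ≤ ((K + 1) * (L + 1)) ^ 16 := by
    refine ((Nat.pow_le_pow_iff_right one_lt_two).1 h4).trans ?_
    rw [mul_pow]
    exact Nat.mul_le_mul_right _ ((Nat.le_succ K).trans (Nat.le_self_pow (by norm_num) _))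
  have h6 := main_root h5
  clear hK h4 h5 h1
  push_cast at h6
  have h8 : Real.exp (-(Real.log 2 * (L + 1))) ≤
      Real.exp (-(Real.log 2 / (K + 1)) * (n : ℝ) ^ (1 / 16 : ℝ)) := by
    refine Real.exp_le_exp.2 ?_
    rw [neg_mul, neg_le_neg_iff, div_mul_eq_mul_div, div_le_iff₀ (by positivity), mul_assoc]
    exact mul_le_mul_of_nonneg_left (h6.trans_eq (mul_comm _ _)) (Real.log_pos one_lt_two).le
  have h9 : Real.exp (-(Real.log 2 * (L + 1))) = ((2 : ℝ) ^ (L + 1))⁻¹ := by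
    rw [Real.exp_neg, Real.exp_mul, Real.exp_log two_pos, ← Real.rpow_natCast]
    push_cast; rfl
  refine le_trans ?_ (mul_le_mul_of_nonneg_left h8 (by positivity))
  rw [h9, ← div_eq_mul_inv, le_div_iff₀ (by positivity)]
  have h10 : (2 : ℝ) ^ L * #A ≤ 4 ^ n := by exact_mod_cast h3
  rw [pow_succ]; linarith

end Pool.Agent.P.MP_db4732_co.Q
end
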